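import Pool.Agent.PCan.Good

/-! MODULE AB : a nonzero local multiplicity gives homomorphisms `a : BS(z) → B`, `b : B → BS(z)`
with `b a = 1` at the top point.

Proof.  `mult ≠ 0`: there is `x ∈ lift z d`, `x ∉ R_+ B^z`.  `m := piz z • x` is in the costalk.
`a` from `good_eco`: `piz z • a(g)_z = g_top piz z • x`, so `a(g)_z = g_top • x` (`piz_ne`).
`ψ` with `ψ(x) = 1` from `good_functional`, `b` from `good_estar`. -/

open MvPolynomial

namespace Pool.Agent.PCan

noncomputable section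

variable {k : Type} [Field k] {n : ℕ}

theorem AB_exists {V : Type*} [AddCommGroup V] [Module k V] (A B : Submodule k V)
    (h : Module.finrank k (↥A ⧸ B.comap A.subtype) ≠ 0) : ∃ x ∈ A, x ∉ B := by
  by_contra hcon
  push Not at hcon
  apply h
  have htop : B.comap A.subtype = ⊤ := by
    rw [eq_top_iff]
    intro x _
    exact hcon x.1 x.2
  have : Subsingleton (↥A ⧸ B.comap A.subtype) := by
    rw [htop]
    infer_instance
  exact Module.finrank_zero_of_subsingleton

theorem exists_ab {B : Bim k n} (hB : Good B) (w : List (Fin n)) (hw : w.length = len (prd w))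
    (d : ℤ) (h : B.mult (prd w) d ≠ 0) :
    ∃ a ∈ Bim.Hom (BS k w).toBim B d, ∃ b ∈ Bim.Hom B (BS k w).toBim (-d),
      (b (a (one k w))).1 (top k w) = 1 := by
  obtain ⟨x, hx1, hx2⟩ := AB_exists _ _ h
  obtain ⟨hxd, hxL⟩ := hx1
  have hxL' : (piz (prd w) : R k n) • x ∈ B.L := hxL
  obtain ⟨hxs, hxH⟩ := hxd
  have hxs' : x ∈ B.stalk (prd w) := hxs
  have hxn : x ∉ Rp k n • B.stalk (prd w) := fun hcon => hx2 ⟨hcon, hxH⟩
  have hx0 : ∀ e, B.pr e ≠ prd w → x e = 0 := by
    intro e he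
    obtain ⟨m0, _, hm0⟩ := hxs'
    rw [← hm0]
    show (if B.pr e = prd w then m0 e else 0) = 0
    rw [if_neg he]
  have hmc : (piz (prd w) : R k n) • x ∈ B.costalk (prd w) := by
    refine ⟨hxL', fun e he => ?_⟩
    rw [Pi.smul_apply, hx0 e he, smul_zero]
  have hmd : (piz (prd w) : R k n) • x ∈ HF k n B.X (d + len (prd w)) := by
    intro e
    have := HZ_mul (piz_HZ (k := k) (prd w)) (hxH e)
    rwa [add_comm ((len (prd w) : ℕ) : ℤ) d] at this
  obtain ⟨a, ha, ha2⟩ := good_eco hB w hw d _ hmc hmd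
  obtain ⟨ψ, hψ, hψ1⟩ := good_functional hB (prd w) d ⟨x, hxs'⟩ hxH hxn
  obtain ⟨b, hb, hb2⟩ := good_estar hB w hw (-d) ψ hψ
  refine ⟨a, ha, b, hb, ?_⟩
  rw [hb2]
  have h1 := ha2 (one k w)
  have h2 : (one k w).1 (top k w) = 1 := rfl
  rw [h2, one_smul] at h1
  have h3 : res B.pr (prd w) (a (one k w)).1 = x := by
    funext e
    have h4 := congrFun h1 e
    rw [Pi.smul_apply, Pi.smul_apply] at h4
    exact mul_left_cancel₀ (piz_ne (prd w)) h4
  have h5 : B.st (prd w) (a (one k w)) = ⟨x, hxs'⟩ := Subtype.ext h3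
  rw [h5, hψ1]

end

end Pool.Agent.PCan
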