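import Pool.Agent.PCan.Homs

/-! MODULE ADJ : half of the adjunction `Hom(M ⊗ B_s, M') = Hom(M, M' ⊗ B_s)`.

`b(m) := (b'(m α, 0), b'(0, m α))`;  `(m α, 0) - (0, m α) = (m, m) · α` (right multiplication), so
`u - v = b'((m, m)) · α`.  Right linear: `(m r α, 0) = (m α, 0) · r`, `(0, m r α) = (0, m α) · s(r)`. -/

open MvPolynomial

namespace Pool.Agent.PCan

noncomputable section

variable {k : Type} [Field k] {n : ℕ}

/-- the element `(m α, 0)` of `M ⊗ B_s` -/
def lel (M : Bim k n) (i : Fin n) (m : M.L) : (M.tb i).L :=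
  ⟨fun e : M.X × Bool => if e.2 = true then 0 else act (M.pr e.1) (al i) * m.1 e.1,
    tb_left M i m.2⟩

/-- the element `(0, m α)` of `M ⊗ B_s` -/
def rel (M : Bim k n) (i : Fin n) (m : M.L) : (M.tb i).L :=
  ⟨fun e : M.X × Bool => if e.2 = true then act (M.pr e.1) (al i) * m.1 e.1 else 0,
    tb_rt M i m.2⟩

/-- the element `(m, m)` of `M ⊗ B_s` -/
def ADJ_diag (M : Bim k n) (i : Fin n) (m : M.L) : (M.tb i).L :=
  ⟨fun e : M.X × Bool => m.1 e.1, tb_diag M i m.2⟩

theorem ADJ_act_sr (w : W n) (i : Fin n) :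
    act (w * sr i) (al i : R k n) = - act w (al i) := by
  unfold al
  rw [act_rt, act_rt]
  have h1 : (w * sr i) i.castSucc = w i.succ := by
    rw [Equiv.Perm.mul_apply]
    unfold sr
    rw [Equiv.swap_apply_left]
  have h2 : (w * sr i) i.succ = w i.castSucc := by
    rw [Equiv.Perm.mul_apply]
    unfold sr
    rw [Equiv.swap_apply_right]
  rw [h1, h2]
  unfold rt
  ring

theorem ADJ_sub (M : Bim k n) (i : Fin n) (m : M.L) :
    lel M i m - rel M i m = (M.tb i).rmul (al i) (ADJ_diag M i m) := by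
  apply Subtype.ext
  funext e
  obtain ⟨x, c⟩ := e
  show (if c = true then 0 else act (M.pr x) (al i) * m.1 x) -
    (if c = true then act (M.pr x) (al i) * m.1 x else 0) = act (tbpr M i (x, c)) (al i) * m.1 x
  cases c with
  | false => simp [tbpr]
  | true =>
    simp only [tbpr, if_true]
    rw [ADJ_act_sr]
    ring

theorem ADJ_lel_rmul (M : Bim k n) (i : Fin n) (m : M.L) (r : R k n) :
    lel M i (M.rmul r m) = (M.tb i).rmul r (lel M i m) := by
  apply Subtype.ext
  funext e
  obtain ⟨x, c⟩ := e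
  show (if c = true then 0 else act (M.pr x) (al i) * (act (M.pr x) r * m.1 x)) =
    act (tbpr M i (x, c)) r * (if c = true then 0 else act (M.pr x) (al i) * m.1 x)
  cases c with
  | false =>
    simp [tbpr]
    ring
  | true => simp [tbpr]

theorem ADJ_rel_rmul (M : Bim k n) (i : Fin n) (m : M.L) (r : R k n) :
    rel M i (M.rmul r m) = (M.tb i).rmul (act (sr i) r) (rel M i m) := by
  apply Subtype.ext
  funext e
  obtain ⟨x, c⟩ := e
  show (if c = true then act (M.pr x) (al i) * (act (M.pr x) r * m.1 x) else 0) =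
    act (tbpr M i (x, c)) (act (sr i) r) *
      (if c = true then act (M.pr x) (al i) * m.1 x else 0)
  cases c with
  | false => simp [tbpr]
  | true =>
    simp only [tbpr, if_true]
    rw [← act_mul, mul_assoc, sr_mul_self, mul_one]
    ring

theorem ADJ_lel_add (M : Bim k n) (i : Fin n) (m m' : M.L) :
    lel M i (m + m') = lel M i m + lel M i m' := by
  apply Subtype.ext
  funext e
  obtain ⟨x, c⟩ := e
  show (if c = true then 0 else act (M.pr x) (al i) * (m.1 x + m'.1 x)) =
    (if c = true then 0 else act (M.pr x) (al i) * m.1 x) +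
      (if c = true then 0 else act (M.pr x) (al i) * m'.1 x)
  cases c with
  | false =>
    simp
    ring
  | true => simp

theorem ADJ_rel_add (M : Bim k n) (i : Fin n) (m m' : M.L) :
    rel M i (m + m') = rel M i m + rel M i m' := by
  apply Subtype.ext
  funext e
  obtain ⟨x, c⟩ := e
  show (if c = true then act (M.pr x) (al i) * (m.1 x + m'.1 x) else 0) =
    (if c = true then act (M.pr x) (al i) * m.1 x else 0) +
      (if c = true then act (M.pr x) (al i) * m'.1 x else 0)
  cases c with
  | false => simp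
  | true =>
    simp
    ring

theorem ADJ_lel_smul (M : Bim k n) (i : Fin n) (r : R k n) (m : M.L) :
    lel M i (r • m) = r • lel M i m := by
  apply Subtype.ext
  funext e
  obtain ⟨x, c⟩ := e
  show (if c = true then 0 else act (M.pr x) (al i) * (r * m.1 x)) =
    r * (if c = true then 0 else act (M.pr x) (al i) * m.1 x)
  cases c with
  | false =>
    simp
    ring
  | true => simp

theorem ADJ_rel_smul (M : Bim k n) (i : Fin n) (r : R k n) (m : M.L) :
    rel M i (r • m) = r • rel M i m := by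
  apply Subtype.ext
  funext e
  obtain ⟨x, c⟩ := e
  show (if c = true then act (M.pr x) (al i) * (r * m.1 x) else 0) =
    r * (if c = true then act (M.pr x) (al i) * m.1 x else 0)
  cases c with
  | false => simp
  | true =>
    simp
    ring

theorem ADJ_al_HZ (w : W n) (i : Fin n) : act w (al i : R k n) ∈ HZ k n 1 :=
  act_HZ w (rt_HZ _ _)

theorem ADJ_lel_deg (M : Bim k n) (i : Fin n) (m : M.L) (j : ℤ) (hm : m.1 ∈ HF k n M.X j) :
    (lel M i m).1 ∈ HF k n (M.tb i).X (j + 1) := by
  rintro ⟨x, c⟩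
  show (if c = true then 0 else act (M.pr x) (al i) * m.1 x) ∈ HZ k n (j + 1)
  cases c with
  | false =>
    rw [if_neg (by simp)]
    have := HZ_mul (ADJ_al_HZ (M.pr x) i) (hm x)
    rwa [add_comm (1 : ℤ) j] at this
  | true =>
    rw [if_pos rfl]
    exact (HZ k n (j + 1)).zero_mem

theorem ADJ_rel_deg (M : Bim k n) (i : Fin n) (m : M.L) (j : ℤ) (hm : m.1 ∈ HF k n M.X j) :
    (rel M i m).1 ∈ HF k n (M.tb i).X (j + 1) := by
  rintro ⟨x, c⟩
  show (if c = true then act (M.pr x) (al i) * m.1 x else 0) ∈ HZ k n (j + 1)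
  cases c with
  | false =>
    rw [if_neg (by simp)]
    exact (HZ k n (j + 1)).zero_mem
  | true =>
    rw [if_pos rfl]
    have := HZ_mul (ADJ_al_HZ (M.pr x) i) (hm x)
    rwa [add_comm (1 : ℤ) j] at this

theorem ADJ_mem (M M' : Bim k n) (i : Fin n) (d : ℤ) (b' : (M.tb i).L →ₗ[R k n] M'.L)
    (hb' : b' ∈ Bim.Hom (M.tb i) M' d) (m : M.L) :
    (fun e : M'.X × Bool => if e.2 = true then (b' (rel M i m)).1 e.1
      else (b' (lel M i m)).1 e.1) ∈ tbL M' i := by
  refine ⟨?_, (b' (ADJ_diag M i m)).1, (b' (ADJ_diag M i m)).2, fun e => ?_⟩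
  · exact (b' (lel M i m)).2
  · have h1 := hb'.1 (al i) (ADJ_diag M i m)
    rw [← ADJ_sub, map_sub] at h1
    have h2 := congrFun (congrArg Subtype.val h1) e
    exact h2

theorem adj (M M' : Bim k n) (i : Fin n) (d : ℤ) (b' : (M.tb i).L →ₗ[R k n] M'.L)
    (hb' : b' ∈ Bim.Hom (M.tb i) M' d) :
    ∃ b : M.L →ₗ[R k n] (M'.tb i).L, b ∈ Bim.Hom M (M'.tb i) (d + 1) ∧
      ∀ (m : M.L) (e : M'.X), (b m).1 (e, false) = (b' (lel M i m)).1 e ∧
        (b m).1 (e, true) = (b' (rel M i m)).1 e := by
  refine ⟨{ toFun := fun m => ⟨fun e : M'.X × Bool => if e.2 = true then (b' (rel M i m)).1 e.1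
      else (b' (lel M i m)).1 e.1, ADJ_mem M M' i d b' hb' m⟩
            map_add' := ?_
            map_smul' := ?_ }, ⟨?_, ?_⟩, ?_⟩
  · intro m m'
    apply Subtype.ext
    funext e
    obtain ⟨x, c⟩ := e
    show (if c = true then (b' (rel M i (m + m'))).1 x else (b' (lel M i (m + m'))).1 x) =
      (if c = true then (b' (rel M i m)).1 x else (b' (lel M i m)).1 x) +
        (if c = true then (b' (rel M i m')).1 x else (b' (lel M i m')).1 x)
    rw [ADJ_lel_add, ADJ_rel_add, map_add, map_add]
    cases c <;> simp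
  · intro r m
    apply Subtype.ext
    funext e
    obtain ⟨x, c⟩ := e
    show (if c = true then (b' (rel M i (r • m))).1 x else (b' (lel M i (r • m))).1 x) =
      r * (if c = true then (b' (rel M i m)).1 x else (b' (lel M i m)).1 x)
    rw [ADJ_lel_smul, ADJ_rel_smul, map_smul, map_smul]
    cases c <;> simp
  · intro r m
    apply Subtype.ext
    funext e
    obtain ⟨x, c⟩ := e
    show (if c = true then (b' (rel M i (M.rmul r m))).1 x else
        (b' (lel M i (M.rmul r m))).1 x) =
      act (tbpr M' i (x, c)) r *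
        (if c = true then (b' (rel M i m)).1 x else (b' (lel M i m)).1 x)
    rw [ADJ_lel_rmul, ADJ_rel_rmul, hb'.1, hb'.1]
    cases c with
    | false =>
      show act (M'.pr x) r * (b' (lel M i m)).1 x = _
      simp [tbpr]
    | true =>
      show act (M'.pr x) (act (sr i) r) * (b' (rel M i m)).1 x = _
      rw [← act_mul]
      simp [tbpr]
  · intro j m hm
    have h1 := hb'.2 (j + 1) (lel M i m) (ADJ_lel_deg M i m j hm)
    have h2 := hb'.2 (j + 1) (rel M i m) (ADJ_rel_deg M i m j hm)
    have e1 : j + 1 + d = j + (d + 1) := by ring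
    rw [e1] at h1 h2
    rintro ⟨x, c⟩
    show (if c = true then (b' (rel M i m)).1 x else (b' (lel M i m)).1 x) ∈
      HZ k n (j + (d + 1))
    cases c with
    | false =>
      rw [if_neg (by simp)]
      exact h1 x
    | true =>
      rw [if_pos rfl]
      exact h2 x
  · intro m e
    exact ⟨rfl, rfl⟩

end

end Pool.Agent.PCan
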