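import Pool.Agent.PCan.Defs

/-! MODULE ALG : polynomials, roots, homogeneity. -/

open MvPolynomial

namespace Pool.Agent.PCan

variable {k : Type} [Field k] {n : ℕ}

theorem act_X (w : W n) (a : Fin (n + 1)) : act w (X a : R k n) = X (w a) := by
  unfold act
  rw [rename_X]

theorem act_mul (v w : W n) (p : R k n) : act (v * w) p = act v (act w p) := by
  unfold act
  rw [rename_rename]
  rfl

theorem act_one (p : R k n) : act (1 : W n) p = p := by
  unfold act
  exact rename_id_apply p

theorem act_rt (w : W n) (a b : Fin (n + 1)) : act w (rt a b : R k n) = rt (w a) (w b) := by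
  unfold rt
  rw [map_sub, act_X, act_X]

theorem act_inj (w : W n) : Function.Injective (act w : R k n → R k n) := by
  unfold act
  exact rename_injective _ w.injective

theorem ALG_mem {d : ℤ} {p : R k n} :
    p ∈ HZ k n d ↔ ∀ m : Fin (n + 1) →₀ ℕ, coeff m p ≠ 0 → ((m.degree : ℕ) : ℤ) = d := Iff.rfl

theorem act_HZ (w : W n) {d : ℤ} {p : R k n} (hp : p ∈ HZ k n d) : act w p ∈ HZ k n d := by
  rw [ALG_mem] at hp ⊢
  intro m hm
  obtain ⟨m', rfl⟩ : ∃ m', Finsupp.mapDomain w m' = m := by
    refine ⟨Finsupp.mapDomain w.symm m, ?_⟩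
    rw [← Finsupp.mapDomain_comp]
    have : (w : Fin (n + 1) → Fin (n + 1)) ∘ w.symm = id := by
      funext x
      simp
    rw [this, Finsupp.mapDomain_id]
  unfold act at hm
  rw [coeff_rename_mapDomain _ w.injective] at hm
  rw [Finsupp.degree_mapDomain]
  exact hp m' hm

theorem HZ_iff (d : ℕ) (p : R k n) : p ∈ HZ k n d ↔ p.IsHomogeneous d := by
  rw [ALG_mem]
  unfold IsHomogeneous IsWeightedHomogeneous
  constructor
  · intro h m hm
    have := h m hm
    rw [Finsupp.degree_eq_weight_one] at this
    exact_mod_cast this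
  · intro h m hm
    have := h hm
    rw [Finsupp.degree_eq_weight_one]
    exact_mod_cast this

theorem rt_HZ (a b : Fin (n + 1)) : (rt a b : R k n) ∈ HZ k n 1 := by
  have h : (rt a b : R k n).IsHomogeneous 1 := (isHomogeneous_X _ _).sub (isHomogeneous_X _ _)
  have := (HZ_iff 1 (rt a b : R k n)).2 h
  exact_mod_cast this

theorem rt_ne {a b : Fin (n + 1)} (h : a ≠ b) : (rt a b : R k n) ≠ 0 := by
  unfold rt
  rw [sub_ne_zero]
  exact fun h' => h (X_injective h')

theorem HZ_mul {a b : ℤ} {p q : R k n} (hp : p ∈ HZ k n a) (hq : q ∈ HZ k n b) :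
    p * q ∈ HZ k n (a + b) := by
  classical
  rw [ALG_mem] at hp hq ⊢
  intro m hm
  rw [coeff_mul] at hm
  obtain ⟨x, hx, hne⟩ := Finset.exists_ne_zero_of_sum_ne_zero hm
  have h1 := hp x.1 (left_ne_zero_of_mul hne)
  have h2 := hq x.2 (right_ne_zero_of_mul hne)
  rw [Finset.HasAntidiagonal.mem_antidiagonal] at hx
  rw [← hx, map_add]
  push_cast
  rw [h1, h2]

theorem hc_HZ (j : ℕ) (p : R k n) : homogeneousComponent j p ∈ HZ k n j :=
  (HZ_iff j _).2 (homogeneousComponent_isHomogeneous j p)

theorem hc_of_HZ (j : ℕ) {d : ℤ} {p : R k n} (hp : p ∈ HZ k n d) :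
    homogeneousComponent j p = if (j : ℤ) = d then p else 0 := by
  ext m
  rw [coeff_homogeneousComponent]
  by_cases hm : coeff m p = 0
  · split_ifs <;> simp [hm]
  · have h1 := hp m hm
    by_cases hj : (j : ℤ) = d
    · rw [if_pos hj, if_pos]
      rw [← hj] at h1
      exact_mod_cast h1
    · rw [if_neg hj, if_neg, coeff_zero]
      intro h2
      apply hj
      rw [← h1, h2]

theorem ALG_hc_mul {d : ℕ} {p : R k n} (hp : p ∈ HZ k n d) (_q : R k n) (_j : ℕ)
    (m : Fin (n + 1) →₀ ℕ) (x : (Fin (n + 1) →₀ ℕ) × (Fin (n + 1) →₀ ℕ))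
    (hx : x ∈ Finset.HasAntidiagonal.antidiagonal m) (hne : coeff x.1 p ≠ 0) :
    m.degree = d + x.2.degree := by
  have h1 := hp x.1 hne
  rw [Finset.HasAntidiagonal.mem_antidiagonal] at hx
  rw [← hx, map_add]
  have : x.1.degree = d := by exact_mod_cast h1
  rw [this]

theorem hc_mul {d : ℕ} {p : R k n} (hp : p ∈ HZ k n d) (q : R k n) (j : ℕ) :
    homogeneousComponent (j + d) (p * q) = p * homogeneousComponent j q := by
  classical
  ext m
  rw [coeff_homogeneousComponent, coeff_mul, coeff_mul]
  by_cases hm : m.degree = j + d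
  · rw [if_pos hm]
    refine Finset.sum_congr rfl fun x hx => ?_
    by_cases hne : coeff x.1 p = 0
    · rw [hne, zero_mul, zero_mul]
    · have h1 := ALG_hc_mul hp q j m x hx hne
      rw [coeff_homogeneousComponent, if_pos (by omega)]
  · rw [if_neg hm]
    symm
    refine Finset.sum_eq_zero fun x hx => ?_
    by_cases hne : coeff x.1 p = 0
    · rw [hne, zero_mul]
    · have h1 := ALG_hc_mul hp q j m x hx hne
      rw [coeff_homogeneousComponent, if_neg (by omega), mul_zero]

theorem hc_mul_lt {d : ℕ} {p : R k n} (hp : p ∈ HZ k n d) (q : R k n) (j : ℕ) (hj : j < d) :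
    homogeneousComponent j (p * q) = 0 := by
  classical
  ext m
  rw [coeff_homogeneousComponent, coeff_mul, coeff_zero]
  by_cases hm : m.degree = j
  · rw [if_pos hm]
    refine Finset.sum_eq_zero fun x hx => ?_
    by_cases hne : coeff x.1 p = 0
    · rw [hne, zero_mul]
    · have h1 := ALG_hc_mul hp q j m x hx hne
      omega
  · rw [if_neg hm]

theorem ALG_exists {p : R k n} (hp : p ≠ 0) : ∃ m, coeff m p ≠ 0 := by
  by_contra h
  push Not at h
  apply hp
  ext m
  rw [h m, coeff_zero]

theorem HZ_unique {d d' : ℤ} {p : R k n} (h : p ∈ HZ k n d) (h' : p ∈ HZ k n d') (hp : p ≠ 0) :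
    d = d' := by
  obtain ⟨m, hm⟩ := ALG_exists hp
  rw [← h m hm, ← h' m hm]

theorem HZ_div {a b : ℤ} {p q : R k n} (hp0 : p ≠ 0) (hp : p ∈ HZ k n a)
    (hq : p * q ∈ HZ k n (a + b)) : q ∈ HZ k n b := by
  obtain ⟨m, hm⟩ := ALG_exists hp0
  have ha := hp m hm
  obtain ⟨a', rfl⟩ : ∃ a' : ℕ, a = a' := ⟨_, ha.symm⟩
  rw [ALG_mem]
  intro m' hm'
  by_contra hcon
  have h1 := hc_mul hp q m'.degree
  rw [hc_of_HZ _ hq, if_neg] at h1
  · have h2 : homogeneousComponent m'.degree q = 0 := by
      rcases mul_eq_zero.1 h1.symm with h3 | h3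
      · exact absurd h3 hp0
      · exact h3
    have h3 : coeff m' (homogeneousComponent m'.degree q) = 0 := by rw [h2, coeff_zero]
    rw [coeff_homogeneousComponent, if_pos rfl] at h3
    exact hm' h3
  · push_cast
    intro h4
    apply hcon
    linarith

theorem C_HZ (c : k) : (C c : R k n) ∈ HZ k n 0 := by
  classical
  rw [ALG_mem]
  intro m hm
  rw [coeff_C] at hm
  split_ifs at hm with h
  · rw [← h]
    simp
  · exact absurd rfl hm

theorem HZ_prod {ι : Type} (s : Finset ι) (p : ι → R k n) (d : ι → ℤ)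
    (h : ∀ i ∈ s, p i ∈ HZ k n (d i)) : ∏ i ∈ s, p i ∈ HZ k n (∑ i ∈ s, d i) := by
  classical
  induction s using Finset.induction_on with
  | empty =>
    rw [Finset.prod_empty, Finset.sum_empty]
    have := C_HZ (n := n) (1 : k)
    rwa [map_one] at this
  | insert a s ha ih =>
    rw [Finset.prod_insert ha, Finset.sum_insert ha]
    exact HZ_mul (h a (Finset.mem_insert_self _ _))
      (ih fun i hi => h i (Finset.mem_insert_of_mem hi))

theorem HZ_neg {d : ℤ} (hd : d < 0) {p : R k n} (hp : p ∈ HZ k n d) : p = 0 := by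
  by_contra h
  obtain ⟨m, hm⟩ := ALG_exists h
  have := hp m hm
  omega

theorem HZ_zero {p : R k n} (hp : p ∈ HZ k n 0) : p = C (constantCoeff p) := by
  classical
  ext m
  rw [coeff_C]
  by_cases h : 0 = m
  · rw [if_pos h, ← h]
    rfl
  · rw [if_neg h]
    by_contra h2
    apply h
    have h3 := hp m h2
    have h4 : m.degree = 0 := by exact_mod_cast h3
    exact ((Finsupp.degree_eq_zero_iff m).1 h4).symm

theorem HZ_pos {d : ℤ} (hd : 0 < d) {p : R k n} (hp : p ∈ HZ k n d) : p ∈ Rp k n := by
  unfold Rp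
  rw [RingHom.mem_ker]
  by_contra h
  have h1 : coeff 0 p ≠ 0 := h
  have h2 := hp 0 h1
  rw [map_zero] at h2
  push_cast at h2
  omega

theorem hc_act (w : W n) (p : R k n) (j : ℕ) :
    homogeneousComponent j (act w p) = act w (homogeneousComponent j p) := by
  unfold act
  exact (rename_homogeneousComponent j p).symm

theorem ALG_HZ_fin (d : ℤ) : FiniteDimensional k (HZ k n d) := by
  have hfin : Finite {m : Fin (n + 1) →₀ ℕ // ((m.degree : ℕ) : ℤ) = d} := by
    apply Set.Finite.to_subtype
    refine (Finsupp.finite_of_degree_eq (σ := Fin (n + 1)) d.toNat).subset ?_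
    intro m hm
    have hm' : ((m.degree : ℕ) : ℤ) = d := hm
    change m.degree = d.toNat
    omega
  let f : HZ k n d →ₗ[k] ({m : Fin (n + 1) →₀ ℕ // ((m.degree : ℕ) : ℤ) = d} → k) :=
    { toFun := fun p m => coeff m.1 p.1
      map_add' := fun p q => by
        funext m
        exact coeff_add _ _ _
      map_smul' := fun c p => by
        funext m
        exact coeff_smul _ _ _ }
  have hf : Function.Injective f := by
    intro p q hpq
    apply Subtype.ext
    ext m
    by_cases hm : ((m.degree : ℕ) : ℤ) = d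
    · exact congrFun hpq ⟨m, hm⟩
    · have h1 : coeff m p.1 = 0 := by
        by_contra h
        exact hm (p.2 m h)
      have h2 : coeff m q.1 = 0 := by
        by_contra h
        exact hm (q.2 m h)
      rw [h1, h2]
  exact FiniteDimensional.of_injective f hf

instance HF_fin (X : Type) [Finite X] (d : ℤ) : FiniteDimensional k (HF k n X d) := by
  have := ALG_HZ_fin (k := k) (n := n) d
  let f : HF k n X d →ₗ[k] (X → HZ k n d) :=
    { toFun := fun m e => ⟨m.1 e, m.2 e⟩
      map_add' := fun p q => rfl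
      map_smul' := fun c p => rfl }
  have hf : Function.Injective f := by
    intro p q hpq
    apply Subtype.ext
    funext e
    exact congrArg Subtype.val (congrFun hpq e)
  exact FiniteDimensional.of_injective f hf

theorem io_inj : Function.Injective (io : R k n → K k n) :=
  IsFractionRing.injective (R k n) (K k n)

/-- a polynomial multiple `q x` of a fraction: if `x` times products of roots is integral in
such a way that every root divides one of the multipliers at most `c` times, then ... see
`frac_piz` in module `UFD`. -/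
theorem io_ne {p : R k n} (hp : p ≠ 0) : io p ≠ 0 := by
  intro h
  apply hp
  apply io_inj
  rw [h, map_zero]

end Pool.Agent.PCan
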