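import Pool.Agent.PCan.Alg

/-! MODULE ALG2 : roots are prime. -/

open MvPolynomial

namespace Pool.Agent.PCan

variable {k : Type} [Field k] {n : ℕ}

/-- HINT: `MvPolynomial` modulo `X a - X b` is a domain; e.g. the kernel of the substitution
`X a ↦ X b` is the ideal generated by `X a - X b`. -/
theorem rt_prime {a b : Fin (n + 1)} (h : a ≠ b) : Prime (rt a b : R k n) := by
  classical
  have key : ∀ c : k, ∀ p : R k n,
      aeval (Function.update (X : Fin (n + 1) → R k n) a (X a + C c * X b))
        (aeval (Function.update (X : Fin (n + 1) → R k n) a (X a - C c * X b)) p) = p := by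
    intro c p
    have : ((aeval (Function.update (X : Fin (n + 1) → R k n) a (X a + C c * X b))).comp
        (aeval (Function.update (X : Fin (n + 1) → R k n) a (X a - C c * X b)))) =
        AlgHom.id k (R k n) := by
      apply MvPolynomial.algHom_ext
      intro i
      by_cases hi : i = a
      · subst hi
        simp [h.symm, Function.update_of_ne, algHom_C]
      · simp [hi]
    exact congrArg (fun f : R k n →ₐ[k] R k n => f p) this
  have e1 := key 1
  have e2 := key (-1)
  set f : R k n →ₐ[k] R k n :=
    aeval (Function.update (X : Fin (n + 1) → R k n) a (X a + C 1 * X b)) with hf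
  set g : R k n →ₐ[k] R k n :=
    aeval (Function.update (X : Fin (n + 1) → R k n) a (X a - C 1 * X b)) with hg
  have e2' : ∀ p, g (f p) = p := by
    intro p
    have h1 := e2 p
    have h3 : ∀ q : R k n, aeval (Function.update (X : Fin (n + 1) → R k n) a
        (X a + C (-1) * X b)) q = g q := by
      intro q
      rw [hg]
      congr 2
      simp [sub_eq_add_neg]
    have h4 : ∀ q : R k n, aeval (Function.update (X : Fin (n + 1) → R k n) a
        (X a - C (-1) * X b)) q = f q := by
      intro q
      rw [hf]
      congr 2
      simp
    rwa [h3, h4] at h1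
  let E : R k n ≃* R k n :=
    { toFun := f
      invFun := g
      left_inv := e2'
      right_inv := e1
      map_mul' := fun p q => map_mul f p q }
  have h5 : E (rt a b : R k n) = X a := by
    show f (rt a b) = X a
    rw [hf, rt, map_sub, aeval_X, aeval_X, Function.update_self, Function.update_of_ne h.symm]
    simp
  rw [← MulEquiv.prime_iff E, h5]
  exact MvPolynomial.X_prime

/-- a root divides another root only if they are equal up to sign -/
theorem rt_dvd_rt {a b c d : Fin (n + 1)} (hab : a ≠ b) (hcd : c ≠ d)
    (h : (rt a b : R k n) ∣ rt c d) : (a = c ∧ b = d) ∨ (a = d ∧ b = c) := by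
  classical
  obtain ⟨q, hq⟩ := h
  have h1 := congrArg (aeval (R := k) (fun i : Fin (n + 1) =>
    (X (if i = a then b else i) : R k n))) hq
  rw [map_mul, rt, rt, map_sub, map_sub, aeval_X, aeval_X, aeval_X, aeval_X] at h1
  simp only [if_true, if_neg hab.symm, sub_self, zero_mul] at h1
  have h2 := MvPolynomial.X_injective (sub_eq_zero.1 h1)
  by_cases hc : c = a
  · by_cases hd : d = a
    · exact absurd (hc.trans hd.symm) hcd
    · rw [if_pos hc, if_neg hd] at h2
      exact Or.inl ⟨hc.symm, h2⟩
  · by_cases hd : d = a
    · rw [if_neg hc, if_pos hd] at h2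
      exact Or.inr ⟨hd.symm, h2.symm⟩
    · rw [if_neg hc, if_neg hd] at h2
      exact absurd h2 hcd

/-- `p - t p` is divisible by the root of `t` -/
theorem act_swap_dvd (a b : Fin (n + 1)) (p : R k n) :
    (rt a b : R k n) ∣ p - act (Equiv.swap a b) p := by
  classical
  induction p using MvPolynomial.induction_on with
  | C c =>
    have : act (Equiv.swap a b) (C c : R k n) = C c := by
      unfold act
      exact rename_C _ _
    rw [this, sub_self]
    exact dvd_zero _
  | add p q hp hq =>
    rw [map_add, show p + q - (act (Equiv.swap a b) p + act (Equiv.swap a b) q) =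
      (p - act (Equiv.swap a b) p) + (q - act (Equiv.swap a b) q) by ring]
    exact dvd_add hp hq
  | mul_X p i hp =>
    rw [map_mul, act_X, show p * X i - act (Equiv.swap a b) p * X (Equiv.swap a b i) =
      (p - act (Equiv.swap a b) p) * X i +
        act (Equiv.swap a b) p * (X i - X (Equiv.swap a b i)) by ring]
    refine dvd_add (hp.mul_right _) (Dvd.dvd.mul_left ?_ _)
    by_cases hia : i = a
    · subst hia
      rw [Equiv.swap_apply_left]
      exact dvd_refl _
    · by_cases hib : i = b
      · subst hib
        rw [Equiv.swap_apply_right]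
        exact ⟨-1, by rw [rt]; ring⟩
      · rw [Equiv.swap_apply_of_ne_of_ne hia hib, sub_self]
        exact dvd_zero _

end Pool.Agent.PCan
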