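import Pool.Agent.PCan.Unit

/-! MODULE BSL : points of the Bott-Samelson objects. -/

open MvPolynomial

namespace Pool.Agent.PCan

noncomputable section

variable {k : Type} [Field k] {n : ℕ}

theorem pr_top (w : List (Fin n)) : (BS k w).pr (top k w) = prd w := by
  induction w with
  | nil => rfl
  | cons i w ih =>
    show (if true = true then (BS k w).pr (top k w) * sr i else (BS k w).pr (top k w)) =
      prd w * sr i
    rw [if_pos rfl, ih]

theorem BS_D (w : List (Fin n)) : (BS k w).D = w.length := by
  induction w with
  | nil => rfl
  | cons i w ih =>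
    show (BS k w).D + 1 = ((i :: w).length : ℤ)
    rw [ih, List.length_cons]
    push_cast
    ring

/-- every point lies over an element of length at most `w.length` -/
theorem len_pr_le (w : List (Fin n)) (e : (BS k w).X) : len ((BS k w).pr e) ≤ w.length := by
  induction w with
  | nil =>
    show len (1 : W n) ≤ 0
    rw [len_one]
  | cons i w ih =>
    obtain ⟨e', b⟩ := e
    have h1 := ih e'
    show len (if b = true then (BS k w).pr e' * sr i else (BS k w).pr e') ≤ w.length + 1
    by_cases hb : b = true
    · rw [if_pos hb]
      exact (len_mul_sr_le _ _).trans (by omega)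
    · rw [if_neg hb]
      omega

/-- points other than the top point lie over elements of length `< w.length` -/
theorem len_pr_lt (w : List (Fin n)) (e : (BS k w).X) (he : e ≠ top k w) :
    len ((BS k w).pr e) < w.length := by
  induction w with
  | nil => exact absurd rfl he
  | cons i w ih =>
    obtain ⟨e', b⟩ := e
    show len (if b = true then (BS k w).pr e' * sr i else (BS k w).pr e') < w.length + 1
    by_cases hb : b = true
    · rw [if_pos hb]
      have h1 : e' ≠ top k w := by
        intro hc
        apply he
        show (e', b) = (top k w, true)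
        rw [hc, hb]
      have h2 := ih e' h1
      exact lt_of_le_of_lt (len_mul_sr_le _ _) (by omega)
    · rw [if_neg hb]
      have h2 := len_pr_le (k := k) w e'
      omega

/-- in a reduced word the top point is the only point over `prd w` -/
theorem eq_top (w : List (Fin n)) (hw : w.length = len (prd w)) (e : (BS k w).X)
    (he : (BS k w).pr e = prd w) : e = top k w := by
  by_contra hc
  have h1 := len_pr_lt w e hc
  rw [he] at h1
  omega

theorem eul_top (w : List (Fin n)) (hw : w.length = len (prd w)) :
    (BS k w).eul (top k w) = (-1) ^ w.length * piz (prd w) := by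
  induction w with
  | nil =>
    show (1 : R k n) = (-1) ^ 0 * piz (1 : W n)
    rw [piz_one]
    ring
  | cons i w ih =>
    obtain ⟨h1, h2⟩ := reduced_tail hw
    show (if true = true then -((BS k w).eul (top k w) * act ((BS k w).pr (top k w)) (al i))
      else (BS k w).eul (top k w) * act ((BS k w).pr (top k w)) (al i)) =
      (-1) ^ (w.length + 1) * piz (prd w * sr i)
    rw [if_pos rfl, ih h1, pr_top, piz_mul_sr _ _ h2, al, act_rt]
    ring

theorem BS_one (w : List (Fin n)) : (fun _ => 1) ∈ (BS k w).L := by
  induction w with
  | nil =>
    have h : ((fun _ => 1) : (unitBim k n).X → R k n) ∈ (unitBim k n).L := by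
      show _ ∈ (⊤ : Submodule (R k n) ((unitBim k n).X → R k n))
      exact Submodule.mem_top
    exact h
  | cons i w ih => exact tb_diag (BS k w).toBim i ih

/-- the unit section -/
def one (k : Type) [Field k] {n : ℕ} (w : List (Fin n)) : (BS k w).L := ⟨fun _ => 1, BS_one w⟩

/-- `piz z` at the top point, zero elsewhere -/
theorem BS_costalk (w : List (Fin n)) (hw : w.length = len (prd w)) :
    Pi.single (top k w) (piz (prd w)) ∈ (BS k w).L := by
  classical
  have hmain : ∀ h ∈ (BS k w).L, IsR (tau (BS k w).eul
      (fun e => io ((Pi.single (top k w) (piz (prd w)) : (BS k w).X → R k n) e) *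
        io (h e))) := by
    intro h _
    refine ⟨(-1) ^ w.length * h (top k w), ?_⟩
    unfold tau
    rw [Finset.sum_eq_single (top k w)]
    · show io ((-1) ^ w.length * h (top k w)) =
        io ((Pi.single (top k w) (piz (prd w)) : (BS k w).X → R k n) (top k w)) *
          io (h (top k w)) / io ((BS k w).eul (top k w))
      rw [Pi.single_eq_same, eul_top w hw]
      have h1 : io (piz (prd w) : R k n) ≠ 0 := io_ne (piz_ne _)
      have h2 : (io ((-1) ^ w.length : R k n)) * io ((-1) ^ w.length) = 1 := by
        rw [← map_mul, ← mul_pow]
        simp
      have h3 : io ((-1) ^ w.length : R k n) ≠ 0 := left_ne_zero_of_mul_eq_one h2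
      rw [map_mul, map_mul, eq_div_iff (mul_ne_zero h3 h1)]
      linear_combination (io (piz (prd w) : R k n) * io (h (top k w))) * h2
    · intro e _ he
      show io ((Pi.single (top k w) (piz (prd w)) : (BS k w).X → R k n) e) *
          io (h e) / io ((BS k w).eul e) = 0
      rw [Pi.single_eq_of_ne he]
      simp
    · intro hc
      exact absurd (Finset.mem_univ _) hc
  obtain ⟨g, hg, hge⟩ := (BS k w).T2 _ hmain
  have : (Pi.single (top k w) (piz (prd w)) : (BS k w).X → R k n) = g := by
    funext e
    exact io_inj (hge e)
  rw [this]
  exact hg

end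

end Pool.Agent.PCan
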