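import Pool.Agent.PCan.Hecke

/-! MODULE BAR : the bar involution -/

namespace Pool.Agent.PCan

noncomputable section

open LaurentPolynomial

variable {n : ℕ}

theorem BAR_sr_apply (i : Fin n) (a : Fin (n + 1)) :
    sr i a = if a = i.castSucc then i.succ else if a = i.succ then i.castSucc else a := by
  unfold sr
  rw [Equiv.swap_apply_def]

theorem BAR_sr_cast (i : Fin n) : sr i i.castSucc = i.succ := Equiv.swap_apply_left _ _

theorem BAR_sr_succ (i : Fin n) : sr i i.succ = i.castSucc := Equiv.swap_apply_right _ _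

theorem BAR_sr_symm (i : Fin n) : (sr i).symm = sr i := Equiv.symm_swap _ _

theorem BAR_sr_lt_iff (i : Fin n) (a b : Fin (n + 1)) (h : ¬(a = i.castSucc ∧ b = i.succ))
    (h' : ¬(a = i.succ ∧ b = i.castSucc)) : sr i a < sr i b ↔ a < b := by
  rw [BAR_sr_apply, BAR_sr_apply]
  simp only [Fin.ext_iff, Fin.lt_def, Fin.val_castSucc, Fin.val_succ] at *
  split_ifs <;> simp only [Fin.val_castSucc, Fin.val_succ] <;> omega

/-- the sign of the position pair `(i, i+1)` in `y` -/
def BAR_sg (i : Fin n) (y : W n) : ℤ := if y i.castSucc < y i.succ then (1 : ℤ) else -1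

theorem BAR_sg_mul_sr (i : Fin n) (y : W n) : BAR_sg i (y * sr i) = - BAR_sg i y := by
  unfold BAR_sg
  simp only [Equiv.Perm.mul_apply, BAR_sr_cast, BAR_sr_succ]
  have hne : y i.castSucc ≠ y i.succ := by
    intro h
    have := y.injective h
    simp [Fin.ext_iff] at this
  rcases lt_or_gt_of_ne hne with h | h
  · rw [if_pos h, if_neg (not_lt.mpr h.le)]
  · rw [if_neg (not_lt.mpr h.le), if_pos h]
    rfl

theorem BAR_sg_sr_mul (i j : Fin n) (y : W n) (h : sr i * y ≠ y * sr j) :
    BAR_sg j (sr i * y) = BAR_sg j y := by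
  unfold BAR_sg
  simp only [Equiv.Perm.mul_apply]
  have h1 : ¬(y j.castSucc = i.castSucc ∧ y j.succ = i.succ) := by
    rintro ⟨h1, h2⟩
    apply h
    rw [← swap_mul_eq, h1, h2]
    rfl
  have h2 : ¬(y j.castSucc = i.succ ∧ y j.succ = i.castSucc) := by
    rintro ⟨h1, h2⟩
    apply h
    rw [← swap_mul_eq, h1, h2, Equiv.swap_comm]
    rfl
  have := BAR_sr_lt_iff i _ _ h1 h2
  simp only [this]

theorem BAR_symm_mul (x y : W n) : (x * y).symm = y.symm * x.symm := rfl

theorem BAR_sg_symm_mul_sr (i j : Fin n) (y : W n) (h : sr i * y ≠ y * sr j) :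
    BAR_sg i (y * sr j).symm = BAR_sg i y.symm := by
  rw [BAR_symm_mul, BAR_sr_symm]
  apply BAR_sg_sr_mul
  intro h2
  apply h
  have h3 : y * (sr j * y.symm) * y = y * (y.symm * sr i) * y := by rw [h2]
  have e1 : y * (sr j * y.symm) * y = y * sr j := by
    show y * (sr j * y⁻¹) * y = _
    group
  have e2 : y * (y.symm * sr i) * y = sr i * y := by
    show y * (y⁻¹ * sr i) * y = _
    group
  rw [e1, e2] at h3
  exact h3.symm

theorem BAR_sg_symm_sr_mul (i : Fin n) (y : W n) :
    BAR_sg i (sr i * y).symm = - BAR_sg i y.symm := by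
  rw [BAR_symm_mul, BAR_sr_symm, BAR_sg_mul_sr]

theorem BAR_sg_eq (i j : Fin n) (y : W n) (h : sr i * y = y * sr j) :
    BAR_sg j y = BAR_sg i y.symm := by
  have h1 : sr i (y j.castSucc) = y j.succ := by
    have := congrArg (fun z : W n => z j.castSucc) h
    simpa [Equiv.Perm.mul_apply, BAR_sr_cast] using this
  have h2 : sr i (y j.succ) = y j.castSucc := by
    have := congrArg (fun z : W n => z j.succ) h
    simpa [Equiv.Perm.mul_apply, BAR_sr_succ] using this
  have hne : y j.castSucc ≠ y j.succ := by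
    intro h
    have := y.injective h
    simp [Fin.ext_iff] at this
  unfold BAR_sg
  by_cases ha : y j.castSucc = i.castSucc
  · have hb : y j.succ = i.succ := by rw [← h1, ha, BAR_sr_cast]
    have ha' : y.symm i.castSucc = j.castSucc := by rw [← ha]; exact y.symm_apply_apply _
    have hb' : y.symm i.succ = j.succ := by rw [← hb]; exact y.symm_apply_apply _
    rw [ha, hb, ha', hb', if_pos (Fin.castSucc_lt_succ), if_pos (Fin.castSucc_lt_succ)]
  · by_cases hb : y j.castSucc = i.succ
    · have hc : y j.succ = i.castSucc := by rw [← h1, hb, BAR_sr_succ]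
      have ha' : y.symm i.succ = j.castSucc := by rw [← hb]; exact y.symm_apply_apply _
      have hb' : y.symm i.castSucc = j.succ := by rw [← hc]; exact y.symm_apply_apply _
      rw [hb, hc, ha', hb', if_neg (not_lt.mpr (Fin.castSucc_lt_succ).le),
        if_neg (not_lt.mpr (Fin.castSucc_lt_succ).le)]
    · exfalso
      apply hne
      rw [← h1, BAR_sr_apply, if_neg ha, if_neg hb]

theorem BAR_mulb_apply (i : Fin n) (f : Hk n) (y : W n) :
    mulb i f y = f (y * sr i) + T (BAR_sg i y) * f y := rfl

/-- left multiplication by `H_s⁻¹ = b_s - v⁻¹` -/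
def BAR_l (i : Fin n) : Hk n →ₗ[LaurentPolynomial ℤ] Hk n where
  toFun f := fun y => f (sr i * y) + T (BAR_sg i y.symm) * f y - T (-1) * f y
  map_add' := by
    intro f g
    funext y
    simp only [Pi.add_apply]
    ring
  map_smul' := by
    intro c f
    funext y
    simp only [Pi.smul_apply, smul_eq_mul, RingHom.id_apply]
    ring

theorem BAR_l_apply (i : Fin n) (f : Hk n) (y : W n) :
    BAR_l i f y = f (sr i * y) + T (BAR_sg i y.symm) * f y - T (-1) * f y := rfl

theorem BAR_l_comm (i j : Fin n) (f : Hk n) : BAR_l i (mulb j f) = mulb j (BAR_l i f) := by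
  funext y
  rw [BAR_mulb_apply, BAR_l_apply, BAR_l_apply, BAR_l_apply, BAR_mulb_apply, BAR_mulb_apply]
  rw [mul_assoc (sr i) y (sr j)]
  by_cases h : sr i * y = y * sr j
  · have e1 : BAR_sg j (sr i * y) = - BAR_sg j y := by rw [h, BAR_sg_mul_sr]
    have e2 : BAR_sg i (y * sr j).symm = - BAR_sg i y.symm := by rw [← h, BAR_sg_symm_sr_mul]
    have e3 := BAR_sg_eq i j y h
    rw [e1, e2, e3, h]
    ring
  · rw [BAR_sg_sr_mul i j y h, BAR_sg_symm_mul_sr i j y h]
    ring

theorem BAR_l_Hst (i : Fin n) (x : W n) (h : x.symm i.succ < x.symm i.castSucc) :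
    BAR_l i (Hst x) = Hst (sr i * x) := by
  funext y
  rw [BAR_l_apply]
  unfold Hst
  by_cases h1 : y = sr i * x
  · subst h1
    have e : sr i * (sr i * x) = x := by rw [← mul_assoc, sr_mul_self, one_mul]
    have hne : sr i * x ≠ x := by
      intro h2
      have h3 : sr i = 1 := mul_eq_right.mp h2
      have h4 := BAR_sr_cast i
      rw [h3] at h4
      simp [Fin.ext_iff] at h4
    rw [e, Pi.single_eq_same, Pi.single_eq_same, Pi.single_eq_of_ne hne]
    simp
  · rw [Pi.single_eq_of_ne h1]
    by_cases h2 : y = x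
    · subst h2
      have hne : sr i * y ≠ y := fun h3 => h1 h3.symm
      rw [Pi.single_eq_of_ne hne, Pi.single_eq_same]
      have : BAR_sg i y.symm = -1 := by
        unfold BAR_sg
        rw [if_neg (not_lt.mpr h.le)]
      rw [this]
      simp
    · have h3 : sr i * y ≠ x := by
        intro h3
        apply h1
        rw [← h3, ← mul_assoc, sr_mul_self, one_mul]
      rw [Pi.single_eq_of_ne h2, Pi.single_eq_of_ne h3]
      simp

theorem BAR_exists_left_descent (x : W n) (hx : x ≠ 1) :
    ∃ i : Fin n, x.symm i.succ < x.symm i.castSucc := by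
  by_contra hcon
  push Not at hcon
  apply hx
  have hmono : StrictMono x.symm := by
    rw [Fin.strictMono_iff_lt_succ]
    intro i
    refine lt_of_le_of_ne (hcon i) ?_
    intro h
    have := x.symm.injective h
    simp [Fin.ext_iff] at this
  have h1 : x.symm = 1 := by
    have h2 : (⇑x.symm) = id := by
      have h3 := StrictMono.id_le hmono
      funext a
      exact le_antisymm (StrictMono.le_id hmono a) (h3 a)
    ext a
    rw [h2]
    rfl
  have h2 : x⁻¹ = 1 := h1
  exact inv_eq_one.mp h2

/-- for every `x` there is an operator commuting with the right multiplications which maps `H_x`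
to `H_1` -/
theorem BAR_exists_op (x : W n) : ∃ L : Hk n →ₗ[LaurentPolynomial ℤ] Hk n,
    (∀ j f, L (mulb j f) = mulb j (L f)) ∧ L (Hst x) = Hst 1 := by
  induction hm : len x using Nat.strong_induction_on generalizing x with
  | _ m ih =>
    by_cases hx : x = 1
    · exact ⟨LinearMap.id, fun j f => rfl, by rw [hx]; rfl⟩
    · obtain ⟨i, hi⟩ := BAR_exists_left_descent x hx
      have hlt : len (sr i * x) < len x := by
        have h1 : (sr i * x).symm i.castSucc < (sr i * x).symm i.succ := by
          rw [BAR_symm_mul, BAR_sr_symm, Equiv.Perm.mul_apply, Equiv.Perm.mul_apply, BAR_sr_cast,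
            BAR_sr_succ]
          exact hi
        have h2 := len_swap_mul (sr i * x) (Fin.castSucc_lt_succ (i := i)) h1
        have h3 : Equiv.swap i.castSucc i.succ * (sr i * x) = x := by
          show sr i * (sr i * x) = x
          rw [← mul_assoc, sr_mul_self, one_mul]
        rwa [h3] at h2
      obtain ⟨L, hL1, hL2⟩ := ih (len (sr i * x)) (hm ▸ hlt) (sr i * x) rfl
      refine ⟨L.comp (BAR_l i), ?_, ?_⟩
      · intro j f
        rw [LinearMap.comp_apply, LinearMap.comp_apply, BAR_l_comm, hL1]
      · rw [LinearMap.comp_apply, BAR_l_Hst i x hi, hL2]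

/-- reversal of the values -/
def BAR_w0 (n : ℕ) : W n := Fin.revPerm

theorem BAR_sg_w0 (i : Fin n) (y : W n) : BAR_sg i (BAR_w0 n * y) = - BAR_sg i y := by
  unfold BAR_sg BAR_w0
  simp only [Equiv.Perm.mul_apply, Fin.revPerm_apply, Fin.rev_lt_rev]
  have hne : y i.castSucc ≠ y i.succ := by
    intro h
    have := y.injective h
    simp [Fin.ext_iff] at this
  rcases lt_or_gt_of_ne hne with h | h
  · rw [if_pos h, if_neg (not_lt.mpr h.le)]
  · rw [if_neg (not_lt.mpr h.le), if_pos h]
    rfl

theorem BAR_w0_sq (y : W n) : BAR_w0 n * (BAR_w0 n * y) = y := by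
  rw [← mul_assoc]
  have : BAR_w0 n * BAR_w0 n = 1 := by
    ext a
    simp [BAR_w0]
  rw [this, one_mul]

/-- `H_x ↦ H_(w_0 x)`, `v ↦ v⁻¹` -/
def BAR_s (f : Hk n) : Hk n := fun y => invert (f (BAR_w0 n * y))

theorem BAR_s_mulb (i : Fin n) (f : Hk n) : BAR_s (mulb i f) = mulb i (BAR_s f) := by
  funext y
  rw [BAR_mulb_apply]
  unfold BAR_s
  rw [BAR_mulb_apply, map_add, map_mul, invert_T, BAR_sg_w0, neg_neg, mul_assoc]

/-- MODULE BAR.  Existence of the bar involution: `D(H_x) := D(H_xs)(b_s - v⁻¹)` for a descent `s` of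
`x`; independence of the descent by induction on the length and the braid relations. -/
theorem bar_exists (n : ℕ) : ∃ D : Hk n → Hk n, IsBar D := by
  obtain ⟨L, hL1, hL2⟩ := BAR_exists_op (BAR_w0 n)
  refine ⟨fun f => L (BAR_s f), ?_, ?_, ?_, ?_⟩
  · intro f g
    show L (BAR_s (f + g)) = L (BAR_s f) + L (BAR_s g)
    have h1 : BAR_s (f + g) = BAR_s f + BAR_s g := by
      funext y
      simp only [BAR_s, Pi.add_apply, map_add]
    rw [h1, map_add]
  · intro j f
    show L (BAR_s fun y => T j * f y) = fun y => T (-j) * L (BAR_s f) y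
    have h1 : BAR_s (fun y => T j * f y) = (T (-j) : LaurentPolynomial ℤ) • BAR_s f := by
      funext y
      simp only [BAR_s, Pi.smul_apply, smul_eq_mul, map_mul, invert_T]
    rw [h1, map_smul]
    rfl
  · show L (BAR_s (Hst 1)) = Hst 1
    have h0 : BAR_s (Hst (1 : W n)) = Hst (BAR_w0 n) := by
      funext y
      simp only [BAR_s, Hst]
      by_cases h : y = BAR_w0 n
      · have h2 : BAR_w0 n * y = 1 := by
          rw [h]
          have := BAR_w0_sq (1 : W n)
          rwa [mul_one] at this
        rw [h2, h, Pi.single_eq_same, Pi.single_eq_same, map_one]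
      · have h2 : BAR_w0 n * y ≠ 1 := by
          intro h2
          apply h
          have := BAR_w0_sq y
          rw [h2, mul_one] at this
          exact this.symm
        rw [Pi.single_eq_of_ne h2, Pi.single_eq_of_ne h, map_zero]
    rw [h0, hL2]
  · intro i f
    show L (BAR_s (mulb i f)) = mulb i (L (BAR_s f))
    rw [BAR_s_mulb, hL1]

theorem BAR_Hst_mul (z : W n) (i : Fin n) (h : z i.castSucc < z i.succ) :
    Hst (z * sr i) = mulb i (Hst z) - fun y => T 1 * Hst z y := by
  funext y
  rw [Pi.sub_apply, BAR_mulb_apply]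
  unfold Hst
  by_cases h1 : y = z * sr i
  · subst h1
    have e : z * sr i * sr i = z := by rw [mul_assoc, sr_mul_self, mul_one]
    have hne : z * sr i ≠ z := by
      intro h2
      have h3 : sr i = 1 := mul_eq_left.mp h2
      have h4 := BAR_sr_cast i
      rw [h3] at h4
      simp [Fin.ext_iff] at h4
    rw [e, Pi.single_eq_same, Pi.single_eq_same, Pi.single_eq_of_ne hne]
    simp
  · rw [Pi.single_eq_of_ne h1]
    by_cases h2 : y = z
    · subst h2
      have hne : y * sr i ≠ y := fun h3 => h1 h3.symm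
      rw [Pi.single_eq_of_ne hne, Pi.single_eq_same]
      have : BAR_sg i y = 1 := by
        unfold BAR_sg
        rw [if_pos h]
      rw [this]
      simp
    · have h3 : y * sr i ≠ z := by
        intro h3
        apply h1
        rw [← h3, mul_assoc, sr_mul_self, mul_one]
      rw [Pi.single_eq_of_ne h2, Pi.single_eq_of_ne h3]
      simp

/-- an additive subgroup closed under `v^j` is closed under all Laurent polynomials -/
theorem BAR_closed (P : Hk n → Prop) (h0 : P 0) (hadd : ∀ f g, P f → P g → P (f + g))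
    (hneg : ∀ f, P f → P (-f))
    (hT : ∀ (j : ℤ) f, P f → P (fun y => T j * f y)) (c : LaurentPolynomial ℤ) (f : Hk n)
    (hf : P f) : P (c • f) := by
  have hnat : ∀ (m : ℕ) g, P g → P (m • g) := by
    intro m g hg
    induction m with
    | zero => rw [zero_smul]; exact h0
    | succ m ih => rw [succ_nsmul]; exact hadd _ _ ih hg
  have hint : ∀ (m : ℤ) g, P g → P (m • g) := by
    intro m g hg
    rcases Int.eq_nat_or_neg m with ⟨k, hk | hk⟩
    · rw [hk, natCast_zsmul]
      exact hnat _ _ hg
    · rw [hk, neg_smul, natCast_zsmul]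
      exact hneg _ (hnat _ _ hg)
  induction c using LaurentPolynomial.induction_on' with
  | add p q hp hq => rw [add_smul]; exact hadd _ _ hp hq
  | C_mul_T j a =>
    have h1 : (C a * T j : LaurentPolynomial ℤ) • f = a • (fun y => T j * f y) := by
      funext y
      simp only [Pi.smul_apply, smul_eq_mul]
      rw [mul_assoc, zsmul_eq_mul]
      simp
    rw [h1]
    exact hint _ _ (hT _ _ hf)

/-- induction principle for the regular module -/
theorem BAR_induction (P : Hk n → Prop) (h0 : P 0) (hadd : ∀ f g, P f → P g → P (f + g))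
    (hneg : ∀ f, P f → P (-f)) (hT : ∀ (j : ℤ) f, P f → P (fun y => T j * f y))
    (h1 : P (Hst 1)) (hmul : ∀ i f, P f → P (mulb i f)) (f : Hk n) : P f := by
  have hst : ∀ w : List (Fin n), w.length = len (prd w) → P (Hst (prd w)) := by
    intro w
    induction w with
    | nil => intro _; exact h1
    | cons i w ih =>
      intro h
      obtain ⟨h2, h3⟩ := reduced_tail h
      show P (Hst (prd w * sr i))
      rw [BAR_Hst_mul _ _ h3, sub_eq_add_neg]
      exact hadd _ _ (hmul _ _ (ih h2)) (hneg _ (hT _ _ (ih h2)))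
  have hst2 : ∀ x : W n, P (Hst x) := by
    intro x
    obtain ⟨w, hw1, hw2⟩ := exists_reduced x
    have := hst w (by rw [hw1]; exact hw2)
    rwa [hw1] at this
  have hsum : f = ∑ x, f x • Hst x := by
    funext y
    rw [Finset.sum_apply, Finset.sum_eq_single y]
    · simp [Hst]
    · intro x _ hx
      simp [Hst, Pi.single_eq_of_ne (Ne.symm hx)]
    · intro h
      exact absurd (Finset.mem_univ _) h
  rw [hsum]
  refine Finset.sum_induction _ P hadd h0 ?_
  intro x _
  exact BAR_closed P h0 hadd hneg hT _ _ (hst2 x)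

theorem BAR_zero {D : Hk n → Hk n} (h : IsBar D) : D 0 = 0 := by
  have h1 := h.1 0 0
  rw [add_zero] at h1
  exact left_eq_add.mp h1

theorem BAR_neg {D : Hk n → Hk n} (h : IsBar D) (f : Hk n) : D (-f) = - D f := by
  have h1 := h.1 (-f) f
  rw [neg_add_cancel, BAR_zero h] at h1
  exact eq_neg_of_add_eq_zero_left h1.symm

theorem bar_unique {D D' : Hk n → Hk n} (h : IsBar D) (h' : IsBar D') : D = D' := by
  funext f
  refine BAR_induction (fun f => D f = D' f) ?_ ?_ ?_ ?_ ?_ ?_ f
  · show D 0 = D' 0
    rw [BAR_zero h, BAR_zero h']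
  · intro f g hf hg
    show D (f + g) = D' (f + g)
    rw [h.1, h'.1, hf, hg]
  · intro f hf
    show D (-f) = D' (-f)
    rw [BAR_neg h, BAR_neg h', hf]
  · intro j f hf
    show D _ = D' _
    rw [h.2.1, h'.2.1, hf]
  · show D _ = D' _
    rw [h.2.2.1, h'.2.2.1]
  · intro i f hf
    show D _ = D' _
    rw [h.2.2.2, h'.2.2.2, hf]

end

end Pool.Agent.PCan
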