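import Pool.Agent.PCan.WPts

/-! The block `{23, ..., 27}` of `{0, ..., 27}`: transfer vectors on `S_5`. -/

open MvPolynomial

namespace Pool.Agent.PCan

/-- block positions -/
def ib : Fin 5 ↪ Fin (27 + 1) :=
  ⟨fun i => ⟨23 + (i : ℕ), by omega⟩, fun i j h => by
    have := congrArg Fin.val h
    simp only at this
    exact Fin.ext (by omega)⟩

theorem ib_val (i : Fin 5) : ((ib i : Fin (27 + 1)) : ℕ) = 23 + (i : ℕ) := rfl

/-- block letters -/
def jb (j : Fin 4) : Fin 27 := ⟨23 + (j : ℕ), by omega⟩

/-- block permutations -/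
def blk (w : W 4) : W 27 := Equiv.Perm.viaFintypeEmbedding w ib

theorem blk_ib (w : W 4) (i : Fin 5) : blk w (ib i) = ib (w i) :=
  Equiv.Perm.viaFintypeEmbedding_apply_image _ _ _

theorem blk_lt (w : W 4) (p : Fin (27 + 1)) (hp : (p : ℕ) < 23) : blk w p = p := by
  apply Equiv.Perm.viaFintypeEmbedding_apply_notMem_range
  rintro ⟨i, rfl⟩
  rw [ib_val] at hp
  omega

theorem ib_cases (p : Fin (27 + 1)) : (p : ℕ) < 23 ∨ ∃ i, p = ib i := by
  by_cases h : (p : ℕ) < 23
  · exact Or.inl h
  · refine Or.inr ⟨⟨(p : ℕ) - 23, by omega⟩, ?_⟩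
    apply Fin.ext
    rw [ib_val]
    show (p : ℕ) = 23 + ((p : ℕ) - 23)
    omega

theorem blk_mul (v w : W 4) : blk (v * w) = blk v * blk w := by
  apply Equiv.ext
  intro p
  rcases ib_cases p with h | ⟨i, rfl⟩
  · rw [blk_lt _ _ h, Equiv.Perm.mul_apply, blk_lt _ _ h, blk_lt _ _ h]
  · rw [blk_ib, Equiv.Perm.mul_apply, Equiv.Perm.mul_apply, blk_ib, blk_ib]

theorem blk_one : blk 1 = 1 := by
  apply Equiv.ext
  intro p
  rcases ib_cases p with h | ⟨i, rfl⟩
  · rw [blk_lt _ _ h]; rfl
  · rw [blk_ib]; rfl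

theorem blk_inj {v w : W 4} (h : blk v = blk w) : v = w := by
  apply Equiv.ext
  intro i
  have := congrArg (fun f : W 27 => f (ib i)) h
  simp only [blk_ib] at this
  exact ib.injective this

theorem jb_castSucc (j : Fin 4) : (jb j).castSucc = ib j.castSucc := by
  apply Fin.ext
  rw [ib_val]
  rfl

theorem jb_succ (j : Fin 4) : (jb j).succ = ib j.succ := by
  apply Fin.ext
  rw [ib_val]
  rfl

theorem blk_sr (j : Fin 4) : blk (sr j) = sr (jb j) := by
  apply Equiv.ext
  intro p
  rcases ib_cases p with h | ⟨i, rfl⟩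
  · rw [blk_lt _ _ h]
    unfold sr
    rw [Equiv.swap_apply_of_ne_of_ne]
    · intro hp
      rw [hp] at h
      simp [jb] at h
    · intro hp
      rw [hp] at h
      simp [jb] at h
      omega
  · rw [blk_ib]
    unfold sr
    rw [jb_castSucc, jb_succ]
    by_cases h1 : i = j.castSucc
    · subst h1; simp
    · by_cases h2 : i = j.succ
      · subst h2; simp
      · rw [Equiv.swap_apply_of_ne_of_ne h1 h2, Equiv.swap_apply_of_ne_of_ne]
        · exact fun h => h1 (ib.injective h)
        · exact fun h => h2 (ib.injective h)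

/-- the longest element of the block -/
def w0b : W 4 := Fin.revPerm

theorem top_blk : IsTop 23 (blk w0b) := by
  refine ⟨fun p hp => blk_lt _ _ hp, ?_⟩
  intro p q hp hpq
  rcases ib_cases p with h | ⟨i, rfl⟩
  · omega
  rcases ib_cases q with h | ⟨j, rfl⟩
  · have h2 : ((ib i : Fin (27 + 1)) : ℕ) < q := hpq
    rw [ib_val] at h2
    omega
  rw [blk_ib, blk_ib]
  have h3 : ((ib i : Fin (27 + 1)) : ℕ) < (ib j : Fin (27 + 1)) := hpq
  rw [ib_val, ib_val] at h3
  show ((ib (w0b j) : Fin (27 + 1)) : ℕ) < (ib (w0b i) : Fin (27 + 1))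
  rw [ib_val, ib_val]
  simp only [w0b, Fin.revPerm_apply, Fin.val_rev]
  omega

/-- letters `U`: `j, j + 1, ..., 21` (the head is the last letter) -/
def us (j : ℕ) : Pat 27 := (List.range' j (22 - j)).map (fun i => (Lab.U, Fin.ofNat 27 i))

/-- number of letters `none` -/
def nn : List (Option (Fin 4)) → ℕ
  | [] => 0
  | none :: L => nn L + 1
  | some _ :: L => nn L

/-- the pattern of a state word (the head is the LAST letter) -/
def mkP : List (Option (Fin 4)) → Pat 27
  | [] => []
  | none :: L => us (nn L) ++ (Lab.Z, 22) :: mkP L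
  | some j :: L => (Lab.F, jb j) :: mkP L

noncomputable section

variable {k : Type} [Field k]

/-- transfer vectors on `S_5` -/
def tS (x : Fin 5 → k) : List (Option (Fin 4)) → Option ℕ → Option ℕ → W 4 → k
  | [], none, none, w => if w = 1 then 1 else 0
  | [], _, _, _ => 0
  | none :: L, s, t, w => - x (w 0) * tS x L s t w
  | some i :: L, some 0, some 0, w => (x (w i.castSucc) - x (w i.succ)) * tS x L none none w
  | some _ :: L, some 0, none, w => tS x L none none w
  | some _ :: L, none, some 0, w => tS x L none none w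
  | some _ :: L, some 0, some (t + 1), w => tS x L none (some t) w
  | some _ :: L, some (s + 1), some 0, w => tS x L (some s) none w
  | some i :: L, none, none, w =>
      (tS x L none none w + tS x L none none (w * sr i)) / (x (w i.castSucc) - x (w i.succ))
  | some i :: L, some (s + 1), none, w =>
      (tS x L (some s) none w + tS x L (some s) none (w * sr i)) /
        (x (w i.castSucc) - x (w i.succ))
  | some i :: L, none, some (t + 1), w =>
      (tS x L none (some t) w + tS x L none (some t) (w * sr i)) /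
        (x (w i.castSucc) - x (w i.succ))
  | some i :: L, some (s + 1), some (t + 1), w =>
      (tS x L (some s) (some t) w + tS x L (some s) (some t) (w * sr i)) /
        (x (w i.castSucc) - x (w i.succ))

theorem St_us (ξ : Fin (27 + 1) → k) (l : List ℕ) (Q : Pat 27) (s t : Option ℕ) (w : W 27) :
    St ξ (l.map (fun i => (Lab.U, Fin.ofNat 27 i)) ++ Q) s t w = St ξ Q s t w := by
  induction l with
  | nil => rfl
  | cons i l ih => rw [List.map_cons, List.cons_append, St, ih]

theorem Ok_us {a : ℕ} (l : List ℕ) (Q : Pat 27)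
    (h : Ok a (l.map (fun i => (Lab.U, Fin.ofNat 27 i)) ++ Q)) : Ok a Q := by
  induction l with
  | nil => exact h
  | cons i l ih =>
    rw [List.map_cons, List.cons_append, Ok] at h
    exact ih h.2.2.2

theorem St_mkP (ξ : Fin (27 + 1) → k) (hξ : ∀ p : Fin (27 + 1), (p : ℕ) < 23 → ξ p = 0)
    (L : List (Option (Fin 4))) (hL : Ok 23 (mkP L)) (s t : Option ℕ) (w : W 4) :
    St ξ (mkP L) s t (blk w) = tS (fun i => ξ (ib i)) L s t w := by
  induction L generalizing s t w with
  | nil =>
    have h1 : (blk w = 1) ↔ (w = 1) :=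
      ⟨fun h => blk_inj (h.trans blk_one.symm), fun h => by rw [h, blk_one]⟩
    rcases s with _ | s <;> rcases t with _ | t
    · rw [mkP, St, tS]
      by_cases h : w = 1
      · rw [if_pos h, if_pos (h1.mpr h)]
      · rw [if_neg h, if_neg (fun h' => h (h1.mp h'))]
    all_goals rfl
  | cons o L ih =>
    rcases o with _ | j
    · rw [mkP] at hL ⊢
      unfold us at hL ⊢
      have h2 := Ok_us _ _ hL
      rw [Ok] at h2
      rw [St_us, St, tS, ih h2.2.2]
      have h3 : ((22 : Fin 27).castSucc : Fin (27 + 1)).val < 23 := by decide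
      rw [hξ _ (WPTS_up_lt h2.2.2 _ h3)]
      have h4 : ((22 : Fin 27).succ : Fin (27 + 1)) = ib 0 := by decide
      rw [h4, blk_ib]
      ring
    · rw [mkP] at hL ⊢
      rw [Ok] at hL
      have ih' := fun s t w => ih hL.2 s t w
      have h5 : blk w * sr (jb j) = blk (w * sr j) := by rw [blk_mul, blk_sr]
      rcases s with _ | _ | s <;> rcases t with _ | _ | t <;>
        simp only [St, tS, ih', h5, jb_castSucc, jb_succ, blk_ib]

end

end Pool.Agent.PCan
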