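import Pool.Agent.PCan.Defs

/-! MODULE NUMDEF : the block word of the witness and the evaluation of its Gram matrix. -/

open MvPolynomial

namespace Pool.Agent.PCan

/-- letters of the block word (`S_5`): `some i` = free letter, `none` = `Z` -/
abbrev BLt := Option (Fin 4)

/-- the block word of the witness, first letter first -/
def wit : List BLt :=
  [some 0, some 1, some 2, some 3, some 0, some 1, some 2, some 0, some 1, some 0,
   none, none, some 0, none, none, some 0, none, none, some 0, some 1,
   none, some 0, none, none, some 0, none, none, some 0, none, some 1, some 0,
   none, none, some 0, some 1, none, some 0, none, none, some 0, none, some 2, some 1, some 0,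
   none, none, some 0, some 1, none, some 0, none, none, some 0, some 2, some 1, some 0,
   some 3, some 2]

/-- values of the block variables -/
def xiv (k : Type) [Field k] (i : Fin 5) : k := ((i.val + 1 : ℕ) : k)

/-- value of the root `x_(w i) - x_(w (i+1))` -/
def alv (k : Type) [Field k] (i : Fin 4) (w : W 4) : k :=
  xiv k (w i.castSucc) - xiv k (w i.succ)

section

variable {k : Type} [Field k]

/-- one letter of the evaluation; marks: `0` = free letter, `1` = deleted letter,
`2` = multiplication by the root -/
noncomputable def tstep (x : BLt × ℕ) (S : W 4 → k) : W 4 → k :=
  match x with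
  | (some i, 0) => fun w => (S w + S (w * sr i)) / alv k i w
  | (some _, 1) => S
  | (some i, _ + 2) => fun w => alv k i w * S w
  | (none, _) => fun w => - xiv k (w 0) * S w

/-- run through a marked word -/
noncomputable def trun (l : List (BLt × ℕ)) (S : W 4 → k) : W 4 → k :=
  l.foldl (fun S x => tstep x S) S

/-- the value of a marked word -/
noncomputable def tval (k : Type) [Field k] (l : List (BLt × ℕ)) : k :=
  288 * trun l (fun w => if w = 1 then (1 : k) else 0) Fin.revPerm

/-- mark the free letters number `s` and `t` (starting to count with `c`) -/
def mark (s t : ℕ) : ℕ → List BLt → List (BLt × ℕ)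
  | _, [] => []
  | c, none :: l => (none, 0) :: mark s t c l
  | c, some i :: l =>
    (some i, if c = s then (if c = t then 2 else 1) else (if c = t then 1 else 0)) ::
      mark s t (c + 1) l

/-- the Gram matrix of the witness -/
noncomputable def gramE (k : Type) [Field k] : Matrix (Fin 35) (Fin 35) k :=
  Matrix.of fun s t => tval k (mark s t 0 wit)

end

end Pool.Agent.PCan
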