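import Pool.Agent.PCan.WPts

/-! MODULE WCHK : a fast checker for `Ok`. -/

namespace Pool.Agent.PCan

variable {n : ℕ}

/-- exchange the entries `i`, `i + 1` -/
def swp : ℕ → List ℕ → List ℕ
  | _, [] => []
  | _, [x] => [x]
  | 0, x :: y :: l => y :: x :: l
  | i + 1, x :: y :: l => x :: swp i (y :: l)

/-- entry number `i` (0 if there is none) -/
def nth : ℕ → List ℕ → ℕ
  | _, [] => 0
  | 0, x :: _ => x
  | i + 1, _ :: l => nth i l

/-- replace `i` by `i + 1` -/
def rch (i : ℕ) : List ℕ → List ℕ
  | [] => []
  | r :: l => (if r = i then i + 1 else r) :: rch i l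

/-- check, list of the values of `up`, list of the values of `reach` -/
def ck (a : ℕ) : Pat n → Bool × List ℕ × List ℕ
  | [] => (true, List.range (n + 1), List.range (n + 1))
  | (Lab.U, i) :: P =>
      match ck a P with
      | (b, u, r) => (b && (decide ((i : ℕ) + 1 < a) && (decide (nth (nth i u) r ≤ i) &&
          decide (nth i u < nth (i + 1) u))), swp i u, rch i r)
  | (Lab.Z, i) :: P =>
      match ck a P with
      | (b, u, r) => (b && (decide ((i : ℕ) + 1 = a) && decide (nth (nth i u) r ≤ i)), u, rch i r)
  | (Lab.F, i) :: P =>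
      match ck a P with
      | (b, u, r) => (b && decide (a ≤ (i : ℕ)), u, rch i r)

namespace WCHKAux

theorem nth_eq (l : List ℕ) : ∀ i, nth i l = l.getD i 0 := by
  induction l with
  | nil => intro i; cases i <;> rfl
  | cons x l ih =>
    intro i
    cases i with
    | zero => rfl
    | succ i => exact ih i

theorem nth_range {N p : ℕ} (hp : p < N) : nth p (List.range N) = p := by
  rw [nth_eq, List.getD_eq_getElem _ _ (by simpa using hp), List.getElem_range]

theorem length_swp (l : List ℕ) : ∀ i, (swp i l).length = l.length := by
  induction l with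
  | nil => intro i; cases i <;> rfl
  | cons x l ih =>
    intro i
    cases l with
    | nil => cases i <;> rfl
    | cons y l =>
      cases i with
      | zero => rfl
      | succ i =>
        change (swp i (y :: l)).length + 1 = _
        rw [ih i]
        rfl

theorem length_rch (i : ℕ) (l : List ℕ) : (rch i l).length = l.length := by
  induction l with
  | nil => rfl
  | cons x l ih =>
    change (rch i l).length + 1 = _
    rw [ih]
    rfl

theorem nth_rch (i : ℕ) (l : List ℕ) : ∀ j, j < l.length →
    nth j (rch i l) = if nth j l = i then i + 1 else nth j l := by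
  induction l with
  | nil =>
    intro j hj
    exact absurd hj (Nat.not_lt_zero _)
  | cons x l ih =>
    intro j hj
    cases j with
    | zero => rfl
    | succ j => exact ih j (Nat.lt_of_succ_lt_succ hj)

theorem nth_swp (l : List ℕ) : ∀ i j, i + 1 < l.length →
    nth j (swp i l) = if j = i then nth (i + 1) l else if j = i + 1 then nth i l else nth j l := by
  induction l with
  | nil =>
    intro i j hi
    exact absurd hi (Nat.not_lt_zero _)
  | cons x l ih =>
    intro i j hi
    cases l with
    | nil =>
      simp at hi
    | cons y l =>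
      cases i with
      | zero =>
        cases j with
        | zero => rfl
        | succ j =>
          cases j with
          | zero => rfl
          | succ j =>
            rw [if_neg (by omega), if_neg (by omega)]
            rfl
      | succ i =>
        cases j with
        | zero =>
          rw [if_neg (by omega), if_neg (by omega)]
          rfl
        | succ j =>
          have h1 := ih i j (Nat.lt_of_succ_lt_succ hi)
          change nth j (swp i (y :: l)) = _
          rw [h1]
          by_cases h2 : j = i
          · rw [if_pos h2, if_pos (show j + 1 = i + 1 by omega)]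
            rfl
          · rw [if_neg h2, if_neg (show ¬ (j + 1 = i + 1) by omega)]
            by_cases h3 : j = i + 1
            · rw [if_pos h3, if_pos (show j + 1 = i + 1 + 1 by omega)]
              rfl
            · rw [if_neg h3, if_neg (show ¬ (j + 1 = i + 1 + 1) by omega)]
              rfl

theorem up_U (a : ℕ) (i : Fin n) (P : Pat n) :
    (ck a ((Lab.U, i) :: P)).2.1 = swp i (ck a P).2.1 := rfl

theorem up_Z (a : ℕ) (i : Fin n) (P : Pat n) :
    (ck a ((Lab.Z, i) :: P)).2.1 = (ck a P).2.1 := rfl

theorem up_F (a : ℕ) (i : Fin n) (P : Pat n) :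
    (ck a ((Lab.F, i) :: P)).2.1 = (ck a P).2.1 := rfl

theorem reach_cons (a : ℕ) (L : Lab) (i : Fin n) (P : Pat n) :
    (ck a ((L, i) :: P)).2.2 = rch i (ck a P).2.2 := by
  cases L <;> rfl

theorem length_up (a : ℕ) (P : Pat n) : (ck a P).2.1.length = n + 1 := by
  induction P with
  | nil => exact List.length_range
  | cons x P ih =>
    obtain ⟨L, i⟩ := x
    cases L with
    | U => rw [up_U, length_swp, ih]
    | Z => rw [up_Z, ih]
    | F => rw [up_F, ih]

theorem length_reach (a : ℕ) (P : Pat n) : (ck a P).2.2.length = n + 1 := by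
  induction P with
  | nil => exact List.length_range
  | cons x P ih =>
    obtain ⟨L, i⟩ := x
    rw [reach_cons, length_rch, ih]

end WCHKAux

open WCHKAux

theorem WCHK_up (a : ℕ) (P : Pat n) (p : Fin (n + 1)) : nth p (ck a P).2.1 = (up P p : ℕ) := by
  induction P generalizing p with
  | nil => exact nth_range p.2
  | cons x P ih =>
    obtain ⟨L, i⟩ := x
    cases L with
    | U =>
      rw [up_U, nth_swp _ _ _ (by rw [length_up]; omega)]
      change _ = ((up P * sr i) p : ℕ)
      rw [Equiv.Perm.mul_apply, sr]
      by_cases h1 : (p : ℕ) = i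
      · have h2 : p = i.castSucc := Fin.ext (by simpa using h1)
        rw [if_pos h1, h2, Equiv.swap_apply_left, ← ih]
        simp
      · rw [if_neg h1]
        by_cases h3 : (p : ℕ) = i + 1
        · have h2 : p = i.succ := Fin.ext (by simpa using h3)
          rw [if_pos h3, h2, Equiv.swap_apply_right, ← ih]
          simp
        · rw [if_neg h3, Equiv.swap_apply_of_ne_of_ne, ih]
          · intro h2
            exact h1 (by rw [h2]; simp)
          · intro h2
            exact h3 (by rw [h2]; simp)
    | Z =>
      rw [up_Z, ih]
      rfl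
    | F =>
      rw [up_F, ih]
      rfl

theorem WCHK_reach (a : ℕ) (P : Pat n) (v : Fin (n + 1)) : nth v (ck a P).2.2 = reach P v := by
  induction P with
  | nil => exact nth_range v.2
  | cons x P ih =>
    obtain ⟨L, i⟩ := x
    rw [reach_cons, nth_rch _ _ _ (by rw [length_reach]; exact v.2), ih]
    rfl

theorem WCHK (a : ℕ) (P : Pat n) (h : (ck a P).1 = true) : Ok a P := by
  induction P with
  | nil => trivial
  | cons x P ih =>
    obtain ⟨L, i⟩ := x
    have hu : ∀ p : Fin (n + 1), nth p (ck a P).2.1 = (up P p : ℕ) := WCHK_up a P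
    have hr : ∀ v : Fin (n + 1), nth v (ck a P).2.2 = reach P v := WCHK_reach a P
    have h1 : nth i (ck a P).2.1 = (up P i.castSucc : ℕ) := by
      rw [← hu i.castSucc]
      simp
    have h2 : nth (i + 1) (ck a P).2.1 = (up P i.succ : ℕ) := by
      rw [← hu i.succ]
      simp
    have h3 : nth (nth i (ck a P).2.1) (ck a P).2.2 = reach P (up P i.castSucc : ℕ) := by
      rw [h1, hr]
    cases L with
    | U =>
      have h4 : ((ck a P).1 && (decide ((i : ℕ) + 1 < a) &&
          (decide (nth (nth i (ck a P).2.1) (ck a P).2.2 ≤ i) &&
          decide (nth i (ck a P).2.1 < nth (i + 1) (ck a P).2.1)))) = true := h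
      rw [h3, h1, h2] at h4
      simp only [Bool.and_eq_true, decide_eq_true_eq] at h4
      obtain ⟨h5, h6, h7, h8⟩ := h4
      exact ⟨h6, h7, h8, ih h5⟩
    | Z =>
      have h4 : ((ck a P).1 && (decide ((i : ℕ) + 1 = a) &&
          decide (nth (nth i (ck a P).2.1) (ck a P).2.2 ≤ i))) = true := h
      rw [h3] at h4
      simp only [Bool.and_eq_true, decide_eq_true_eq] at h4
      obtain ⟨h5, h6, h7⟩ := h4
      exact ⟨h6, h7, ih h5⟩
    | F =>
      have h4 : ((ck a P).1 && decide (a ≤ (i : ℕ))) = true := h
      simp only [Bool.and_eq_true, decide_eq_true_eq] at h4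
      exact ⟨h4.2, ih h4.1⟩

end Pool.Agent.PCan
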