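import Pool.Agent.PCan.WDef

/-! MODULE WONE : elements of degree 0 and 1 of `BS(w)`. -/

open MvPolynomial

namespace Pool.Agent.PCan

noncomputable section

variable {k : Type} [Field k] {n : ℕ}

/-- degree 0: constants -/
theorem WONE_zero (w : List (Fin n)) {f : (BS k w).X → R k n} (hf : f ∈ (BS k w).L)
    (h : f ∈ HF k n (BS k w).X 0) : ∃ c : k, f = fun _ => C c := by
  induction w with
  | nil =>
    refine ⟨constantCoeff (f ()), ?_⟩
    funext e
    have h1 := HZ_zero (h ())
    exact h1
  | cons i w ih =>
    have hf' : f ∈ tbL (BS k w).toBim i := hf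
    have hu := TB0_comp (BS k w).toBim i hf' false
    have hv := TB0_comp (BS k w).toBim i hf' true
    obtain ⟨c, hc⟩ := ih hu (fun e => h (e, false))
    obtain ⟨c', hc'⟩ := ih hv (fun e => h (e, true))
    obtain ⟨_, m, _, hm⟩ := hf'
    have h1 := hm (top k w)
    have h2 : f (top k w, false) = C c := congrFun hc (top k w)
    have h3 : f (top k w, true) = C c' := congrFun hc' (top k w)
    have h4 : c = c' := by
      have h5 := congrArg (constantCoeff (σ := Fin (n + 1)) (R := k)) h1
      rw [h2, h3, map_sub, map_mul, al, act_rt, rt, map_sub, constantCoeff_C, constantCoeff_C,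
        constantCoeff_X, constantCoeff_X, sub_zero, zero_mul, sub_eq_zero] at h5
      exact h5
    refine ⟨c, ?_⟩
    funext e
    obtain ⟨e, b⟩ := e
    cases b
    · exact congrFun hc e
    · rw [h4]
      exact congrFun hc' e

/-- degree 1: left multiples of 1 by linear forms and the `zeta s`.
`f = (u, v)`, `u - v = m α`, so `m` is a constant `c` (`WONE_zero`, `HZ_div`),
`v = u - c α`, so `f = (v, v) + c (α, 0)`. -/
theorem WONE_one (w : List (Fin n)) {f : (BS k w).X → R k n} (hf : f ∈ (BS k w).L)
    (h : f ∈ HF k n (BS k w).X 1) : ∃ x ∈ HZ k n 1, ∃ c : Fin w.length → k,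
      ∀ e, f e = x + ∑ s, C (c s) * zeta k w s e := by
  induction w with
  | nil =>
    refine ⟨f (), h (), fun s => s.elim0, fun e => ?_⟩
    have h1 : (∑ s : Fin ([] : List (Fin n)).length,
        C ((fun s : Fin ([] : List (Fin n)).length => (s.elim0 : k)) s) *
          zeta k ([] : List (Fin n)) s e) = 0 := Finset.sum_empty
    rw [h1, add_zero]
    rfl
  | cons i w ih =>
    have hf' : f ∈ tbL (BS k w).toBim i := hf
    have hv := TB0_comp (BS k w).toBim i hf' true
    obtain ⟨x, hx, c, hc⟩ := ih hv (fun e => h (e, true))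
    obtain ⟨_, m, hmL, hm⟩ := hf'
    have hm0 : m ∈ HF k n (BS k w).X 0 := by
      intro e
      have h1 : (act ((BS k w).pr e) (al i) : R k n) ≠ 0 := by
        rw [al, act_rt]
        apply rt_ne
        intro hh
        exact absurd (((BS k w).pr e).injective hh) (Fin.castSucc_lt_succ (i := i)).ne
      have h2 : (act ((BS k w).pr e) (al i) : R k n) ∈ HZ k n 1 := act_HZ _ (rt_HZ _ _)
      refine HZ_div h1 h2 ?_
      rw [← hm e, add_zero]
      exact (HZ k n 1).sub_mem (h (e, false)) (h (e, true))
    obtain ⟨c0, hc0⟩ := WONE_zero w hmL hm0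
    refine ⟨x, hx, Fin.cons c0 c, fun e => ?_⟩
    obtain ⟨e, b⟩ := e
    have hsum : (∑ s : Fin (i :: w).length, C ((Fin.cons c0 c : Fin (w.length + 1) → k) s) *
        zeta k (i :: w) s (e, b)) =
        C c0 * (if b = true then 0 else act ((BS k w).pr e) (al i)) +
          ∑ s : Fin w.length, C (c s) * zeta k w s e :=
      Fin.sum_univ_succ (fun s : Fin (w.length + 1) =>
        C ((Fin.cons c0 c : Fin (w.length + 1) → k) s) * zeta k (i :: w) s (e, b))
    rw [hsum]
    have h3 : f (e, true) = x + ∑ s, C (c s) * zeta k w s e := hc e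
    cases b
    · have h4 := hm e
      have h5 : m e = C c0 := congrFun hc0 e
      rw [h5] at h4
      simp only [Bool.false_eq_true, if_false]
      linear_combination h4 + h3
    · simp only [if_true]
      rw [h3]
      ring

end

end Pool.Agent.PCan
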