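import Mathlib

/-! MODULE WRANKB : linear algebra. -/

namespace Pool.Agent.PCan

/-- a symmetric bilinear form on `V`, elements `x_s`; if modulo the radical `V` is
spanned by the `x_s` then the codimension of the radical is the rank of the Gram matrix -/
theorem WRANK_gram {k V ι : Type} [Field k] [AddCommGroup V] [Module k V] [Fintype ι]
    [DecidableEq ι] (B : V →ₗ[k] V →ₗ[k] k) (hB : ∀ x y, B x y = B y x) (x : ι → V)
    (hx : ∀ v, ∃ c : ι → k, ∀ u, B v u = B (∑ i, c i • x i) u)
    (rad : Submodule k V) (hrad : ∀ v, v ∈ rad ↔ ∀ u, B v u = 0) :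
    Module.finrank k (V ⧸ rad) = (Matrix.of fun i j => B (x i) (x j)).rank := by
  set M : Matrix ι ι k := Matrix.of fun i j => B (x i) (x j) with hM
  let φ : (ι → k) →ₗ[k] (V ⧸ rad) := rad.mkQ ∘ₗ Fintype.linearCombination k x
  have hφ : ∀ c, φ c = rad.mkQ (∑ i, c i • x i) := fun c => rfl
  have hsurj : LinearMap.range φ = ⊤ := by
    rw [LinearMap.range_eq_top]
    intro q
    obtain ⟨v, rfl⟩ := rad.mkQ_surjective q
    obtain ⟨c, hc⟩ := hx v
    refine ⟨c, ?_⟩
    rw [hφ]
    apply (Submodule.Quotient.eq rad).mpr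
    rw [hrad]
    intro u
    rw [map_sub, LinearMap.sub_apply, ← hc u, sub_self]
  have hker : LinearMap.ker φ = LinearMap.ker M.mulVecLin := by
    ext c
    rw [LinearMap.mem_ker, LinearMap.mem_ker, hφ, Submodule.mkQ_apply,
      Submodule.Quotient.mk_eq_zero, hrad, Matrix.mulVecLin_apply]
    have h1 : ∀ j, B (∑ i, c i • x i) (x j) = M.mulVec c j := by
      intro j
      rw [map_sum, LinearMap.sum_apply, Matrix.mulVec, dotProduct]
      refine Finset.sum_congr rfl fun i _ => ?_
      rw [map_smul, LinearMap.smul_apply, smul_eq_mul, hM, Matrix.of_apply, hB (x j) (x i), mul_comm]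
    constructor
    · intro h
      funext j
      rw [← h1 j, h]
      rfl
    · intro h u
      obtain ⟨d, hd⟩ := hx u
      rw [hB, hd, hB, map_sum]
      apply Finset.sum_eq_zero
      intro j _
      rw [map_smul, h1 j, h]
      simp
  have h1 := LinearMap.finrank_range_add_finrank_ker φ
  have h2 := LinearMap.finrank_range_add_finrank_ker M.mulVecLin
  rw [hsurj, finrank_top, hker] at h1
  rw [← h1] at h2
  exact (Nat.add_right_cancel h2).symm

/-- upper bound for the rank by a factorisation -/
theorem WRANK_le {k : Type} [Field k] {m r : ℕ} (E : Matrix (Fin m) (Fin m) k)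
    (A : Matrix (Fin m) (Fin r) k) (B : Matrix (Fin r) (Fin m) k) (h : E = A * B) :
    E.rank ≤ r := by
  rw [h]
  exact (Matrix.rank_mul_le_left A B).trans (Matrix.rank_le_width A)

/-- lower bound for the rank by an invertible minor -/
theorem WRANK_ge {k : Type} [Field k] {m r : ℕ} (E : Matrix (Fin m) (Fin m) k)
    (f g : Fin r → Fin m) (T : Matrix (Fin r) (Fin r) k) (h : E.submatrix f g * T = 1) :
    r ≤ E.rank := by
  have h1 : E.submatrix f g =
      ((1 : Matrix (Fin m) (Fin m) k).submatrix f id) * (E *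
        ((1 : Matrix (Fin m) (Fin m) k).submatrix id g)) := by
    ext i j
    simp [Matrix.mul_apply, Matrix.one_apply]
  have h2 : (1 : Matrix (Fin r) (Fin r) k).rank = r := by
    rw [Matrix.rank_one, Fintype.card_fin]
  calc r = (E.submatrix f g * T).rank := by rw [h, h2]
    _ ≤ (E.submatrix f g).rank := Matrix.rank_mul_le_left _ _
    _ ≤ (E * ((1 : Matrix (Fin m) (Fin m) k).submatrix id g)).rank := by
        rw [h1]; exact Matrix.rank_mul_le_right _ _
    _ ≤ E.rank := Matrix.rank_mul_le_left _ _

end Pool.Agent.PCan
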