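import Pool.Agent.PCan.WRankA
import Pool.Agent.PCan.WRankB
import Pool.Agent.PCan.WOne

/-! MODULE WRANKC : the local multiplicity is the rank of the Gram matrix. -/

open MvPolynomial

namespace Pool.Agent.PCan

noncomputable section

variable {k : Type} [Field k] {n : ℕ}

theorem WRANKC_zeta_mem (w : List (Fin n)) (s : ℕ) : zeta k w s ∈ (BS k w).L := by
  induction w generalizing s with
  | nil => exact (BS k ([] : List (Fin n))).L.zero_mem
  | cons i w ih =>
    cases s with
    | zero =>
      have h := tb_left (BS k w).toBim i (BS_one w)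
      have h2 : zeta k (i :: w) 0 = (fun e : (BS k w).X × Bool =>
          if e.2 = true then 0 else act ((BS k w).pr e.1) (al i) * (1 : R k n)) := by
        funext e
        show (if e.2 = true then 0 else act ((BS k w).pr e.1) (al i)) = _
        rw [mul_one]
      rw [h2]
      exact h
    | succ s => exact tb_diag (BS k w).toBim i (ih s)

theorem WRANKC_zeta_hom (w : List (Fin n)) (s : ℕ) : zeta k w s ∈ HF k n (BS k w).X 1 := by
  induction w generalizing s with
  | nil => exact (HF k n (BS k ([] : List (Fin n))).X 1).zero_mem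
  | cons i w ih =>
    cases s with
    | zero =>
      intro e
      show (if e.2 = true then 0 else act ((BS k w).pr e.1) (al i)) ∈ HZ k n 1
      by_cases h : e.2 = true
      · rw [if_pos h]
        exact (HZ k n 1).zero_mem
      · rw [if_neg h]
        exact act_HZ _ (rt_HZ _ _)
    | succ s =>
      intro e
      exact ih s e.1

/-- the form as a bilinear map -/
def WRANKC_B (ξ : Fin (n + 1) → k) (P : Pat n) (z : W n)
    (V : Submodule k ((BS k (fw P)).X → R k n)) : V →ₗ[k] V →ₗ[k] k :=
  LinearMap.mk₂ k (fun g g' => bform ξ P z g.1 g'.1)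
    (by
      intro g1 g2 g'
      show ev ξ (BS k (fw P)) _ = ev ξ (BS k (fw P)) _ + ev ξ (BS k (fw P)) _
      unfold ev
      rw [← Finset.sum_add_distrib]
      refine Finset.sum_congr rfl fun e _ => ?_
      show eval ξ (piz z * NZ k P e * (g1.1 e + g2.1 e) * g'.1 e) / _ = _
      rw [← add_div, ← map_add]
      congr 2
      ring)
    (by
      intro c g g'
      show ev ξ (BS k (fw P)) _ = c * ev ξ (BS k (fw P)) _
      unfold ev
      rw [Finset.mul_sum]
      refine Finset.sum_congr rfl fun e _ => ?_
      show eval ξ (piz z * NZ k P e * (c • g.1 e) * g'.1 e) / _ = _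
      rw [← mul_div_assoc, mul_smul_comm, smul_mul_assoc, smul_eval])
    (by
      intro g g1 g2
      show ev ξ (BS k (fw P)) _ = ev ξ (BS k (fw P)) _ + ev ξ (BS k (fw P)) _
      unfold ev
      rw [← Finset.sum_add_distrib]
      refine Finset.sum_congr rfl fun e _ => ?_
      show eval ξ (piz z * NZ k P e * g.1 e * (g1.1 e + g2.1 e)) / _ = _
      rw [← add_div, ← map_add]
      congr 2
      ring)
    (by
      intro c g g'
      show ev ξ (BS k (fw P)) _ = c * ev ξ (BS k (fw P)) _
      unfold ev
      rw [Finset.mul_sum]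
      refine Finset.sum_congr rfl fun e _ => ?_
      show eval ξ (piz z * NZ k P e * g.1 e * (c • g'.1 e)) / _ = _
      rw [← mul_div_assoc, mul_smul_comm, smul_eval])

theorem WRANKC_B_apply (ξ : Fin (n + 1) → k) (P : Pat n) (z : W n)
    (V : Submodule k ((BS k (fw P)).X → R k n)) (g g' : V) :
    WRANKC_B ξ P z V g g' = bform ξ P z g.1 g'.1 := rfl

/-- `WRANK_rad`, `WRANK_gram` for `B = bform` and `x_s = ` restriction of `zeta s` to the points over `z`
(`WONE_one`, `WRAD_lin`); `Emat` is their Gram matrix. -/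
theorem mult_eq_rank {a : ℕ} {P : Pat n} (hP : Ok a P) {z : W n} (hz : IsTop a z)
    (hl : (fw P).length = len z + nZ P + 2) (ξ : Fin (n + 1) → k)
    (hξ : ∀ p q : Fin (n + 1), a ≤ (p : ℕ) → a ≤ (q : ℕ) → ξ p = ξ q → p = q) :
    (BS k (wd P)).mult (up P * z) (nZ P + 1) = (Emat ξ P z).rank := by
  classical
  set V : Submodule k ((BS k (fw P)).X → R k n) := dg ((BS k (fw P)).stalk z) 1 with hV
  have hresV : ∀ f ∈ (BS k (fw P)).L, f ∈ HF k n (BS k (fw P)).X 1 →
      res (BS k (fw P)).pr z f ∈ V := by
    intro f hf hh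
    refine ⟨⟨f, hf, rfl⟩, fun e => ?_⟩
    show (if (BS k (fw P)).pr e = z then f e else 0) ∈ HZ k n 1
    by_cases hc : (BS k (fw P)).pr e = z
    · rw [if_pos hc]
      exact hh e
    · rw [if_neg hc]
      exact (HZ k n 1).zero_mem
  let x : Fin (fw P).length → V := fun s =>
    ⟨res (BS k (fw P)).pr z (zeta k (fw P) s), hresV _ (WRANKC_zeta_mem _ _)
      (WRANKC_zeta_hom _ _)⟩
  let B := WRANKC_B ξ P z V
  have hrad : ∀ g : V, g ∈ LinearMap.ker B ↔ ∀ g' : V, bform ξ P z g.1 g'.1 = 0 := by
    intro g
    rw [LinearMap.mem_ker]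
    constructor
    · intro h g'
      have := congrArg (fun l : V →ₗ[k] k => l g') h
      exact this
    · intro h
      ext g'
      exact h g'
  rw [WRANK_rad hP hz hl ξ hξ (LinearMap.ker B) hrad]
  have hB : ∀ u v : V, B u v = B v u := by
    intro u v
    show ev ξ (BS k (fw P)) _ = ev ξ (BS k (fw P)) _
    unfold ev
    refine Finset.sum_congr rfl fun e _ => ?_
    show eval ξ (piz z * NZ k P e * u.1 e * v.1 e) / _ =
      eval ξ (piz z * NZ k P e * v.1 e * u.1 e) / _
    rw [mul_right_comm]
  have hx : ∀ v : V, ∃ c : Fin (fw P).length → k, ∀ u, B v u = B (∑ i, c i • x i) u := by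
    intro v
    obtain ⟨⟨f, hf, hfv⟩, hh⟩ := v.2
    have hf1 := (BS k (fw P)).graded' f hf 1
    have hf1h : (fun e => homogeneousComponent 1 (f e)) ∈ HF k n (BS k (fw P)).X 1 := by
      intro e
      have h1 := hc_HZ (k := k) 1 (f e)
      rw [Nat.cast_one] at h1
      exact h1
    obtain ⟨l, hl1, c, hc⟩ := WONE_one (fw P) hf1 hf1h
    refine ⟨c, fun u => ?_⟩
    have hv : v.1 = res (BS k (fw P)).pr z (fun _ => l) + (∑ i, c i • x i : V).1 := by
      funext e
      have h1 : v.1 e = if (BS k (fw P)).pr e = z then f e else 0 := (congrFun hfv e).symm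
      have h2 : (∑ i, c i • x i : V).1 e =
          if (BS k (fw P)).pr e = z then ∑ s, C (c s) * zeta k (fw P) s e else 0 := by
        rw [AddSubmonoidClass.coe_finsetSum, Finset.sum_apply]
        by_cases hc : (BS k (fw P)).pr e = z
        · rw [if_pos hc]
          refine Finset.sum_congr rfl fun s _ => ?_
          show c s • (if (BS k (fw P)).pr e = z then zeta k (fw P) s e else 0) = _
          rw [if_pos hc, smul_eq_C_mul]
        · rw [if_neg hc]
          refine Finset.sum_eq_zero fun s _ => ?_
          show c s • (if (BS k (fw P)).pr e = z then zeta k (fw P) s e else 0) = 0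
          rw [if_neg hc, smul_zero]
      rw [Pi.add_apply, h2]
      show v.1 e = (if (BS k (fw P)).pr e = z then l else 0) + _
      by_cases hce : (BS k (fw P)).pr e = z
      · rw [if_pos hce, if_pos hce]
        have h3 : homogeneousComponent 1 (f e) = l + ∑ s, C (c s) * zeta k (fw P) s e := hc e
        rw [← h3, h1, if_pos hce]
        have h4 := hh e
        rw [h1, if_pos hce] at h4
        rw [hc_of_HZ 1 h4, if_pos (by norm_num)]
      · rw [if_neg hce, if_neg hce, h1, if_neg hce, add_zero]
    have hlin := WRAD_lin hP hz hl ξ hξ l hl1 u.1 u.2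
    show bform ξ P z v.1 u.1 = bform ξ P z (∑ i, c i • x i : V).1 u.1
    rw [hv]
    have hadd : bform ξ P z (res (BS k (fw P)).pr z (fun _ => l) + (∑ i, c i • x i : V).1) u.1 =
        bform ξ P z (res (BS k (fw P)).pr z (fun _ => l)) u.1 +
          bform ξ P z (∑ i, c i • x i : V).1 u.1 := by
      unfold bform ev
      rw [← Finset.sum_add_distrib]
      refine Finset.sum_congr rfl fun e _ => ?_
      rw [← add_div, ← map_add]
      congr 2
      show piz z * NZ k P e * ((res (BS k (fw P)).pr z (fun _ => l)) e +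
        (∑ i, c i • x i : V).1 e) * u.1 e = piz z * NZ k P e *
          (res (BS k (fw P)).pr z (fun _ => l)) e * u.1 e +
            piz z * NZ k P e * (∑ i, c i • x i : V).1 e * u.1 e
      ring
    rw [hadd, hlin, zero_add]
  rw [WRANK_gram B hB x hx (LinearMap.ker B) (fun v => hrad v)]
  congr 1
  ext s t
  show bform ξ P z (res (BS k (fw P)).pr z (zeta k (fw P) s))
    (res (BS k (fw P)).pr z (zeta k (fw P) t)) = _
  unfold bform Emat ev
  refine Finset.sum_congr rfl fun e _ => ?_
  show eval ξ (piz z * NZ k P e * (if (BS k (fw P)).pr e = z then zeta k (fw P) s e else 0) *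
    (if (BS k (fw P)).pr e = z then zeta k (fw P) t e else 0)) / _ =
      eval ξ (if (BS k (fw P)).pr e = z then
        piz z * NZ k P e * zeta k (fw P) s e * zeta k (fw P) t e else 0) / _
  by_cases hc : (BS k (fw P)).pr e = z
  · rw [if_pos hc, if_pos hc, if_pos hc]
  · rw [if_neg hc, if_neg hc, if_neg hc, mul_zero]

end

end Pool.Agent.PCan
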