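import Pool.Agent.PCan.WPts

/-! MODULE WTR : transfer vectors. -/

open MvPolynomial

namespace Pool.Agent.PCan

noncomputable section

variable {k : Type} [Field k] {n : ℕ}

/-- `zeta` with the convention `none = 1` -/
def zeto (w : List (Fin n)) : Option ℕ → (BS k w).X → R k n
  | none => fun _ => 1
  | some s => zeta k w s

/-- the sum over the points over `v` -/
private def wtr_T (ξ : Fin (n + 1) → k) (w : List (Fin n)) (f : (BS k w).X → R k n) (v : W n) : k :=
  ∑ e, if (BS k w).pr e = v then eval ξ (f e) / eval ξ ((BS k w).eul e) else 0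

private lemma wtr_eval_act (ξ : Fin (n + 1) → k) (v : W n) (i : Fin n) :
    eval ξ (act v (al i) : R k n) = ξ (v i.castSucc) - ξ (v i.succ) := by
  simp [act, al, rt]

private lemma wtr_sum_gen {Y : Type} [Fintype Y] (g : Y × Bool → k) :
    ∑ e, g e = ∑ e : Y, g (e, false) + ∑ e : Y, g (e, true) := by
  rw [Fintype.sum_prod_type, ← Finset.sum_add_distrib]
  apply Finset.sum_congr rfl
  intro e _
  rw [Fintype.sum_bool, add_comm]

private lemma wtr_sum_cons (i : Fin n) (w : List (Fin n)) (g : (BS k (i :: w)).X → k) :
    ∑ e, g e = ∑ e : (BS k w).X, g (e, false) + ∑ e : (BS k w).X, g (e, true) :=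
  wtr_sum_gen (Y := (BS k w).X) g

private lemma wtr_pr_false (i : Fin n) (w : List (Fin n)) (e : (BS k w).X) :
    (BS k (i :: w)).pr (e, false) = (BS k w).pr e := rfl

private lemma wtr_pr_true (i : Fin n) (w : List (Fin n)) (e : (BS k w).X) :
    (BS k (i :: w)).pr (e, true) = (BS k w).pr e * sr i := rfl

private lemma wtr_eul_false (i : Fin n) (w : List (Fin n)) (e : (BS k w).X) :
    (BS k (i :: w)).eul (e, false) = (BS k w).eul e * act ((BS k w).pr e) (al i) := rfl

private lemma wtr_eul_true (i : Fin n) (w : List (Fin n)) (e : (BS k w).X) :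
    (BS k (i :: w)).eul (e, true) = -((BS k w).eul e * act ((BS k w).pr e) (al i)) := rfl

private lemma wtr_sr_sr (i : Fin n) : (sr i : W n) * sr i = 1 := by
  simp [sr]

/-- one more letter, no insertion there -/
private lemma wtr_key (ξ : Fin (n + 1) → k) (i : Fin n) (w : List (Fin n))
    (f : (BS k w).X → R k n) (v : W n) :
    wtr_T ξ (i :: w) (fun e => f e.1) v =
      (wtr_T ξ w f v + wtr_T ξ w f (v * sr i)) / (ξ (v i.castSucc) - ξ (v i.succ)) := by
  unfold wtr_T
  rw [wtr_sum_cons, add_div, Finset.sum_div, Finset.sum_div]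
  congr 1
  · apply Finset.sum_congr rfl
    intro e _
    rw [wtr_pr_false, wtr_eul_false]
    by_cases h : (BS k w).pr e = v
    · rw [if_pos h, if_pos h, h, map_mul, wtr_eval_act, div_div]
    · rw [if_neg h, if_neg h, zero_div]
  · apply Finset.sum_congr rfl
    intro e _
    rw [wtr_pr_true, wtr_eul_true]
    have hiff : (BS k w).pr e * sr i = v ↔ (BS k w).pr e = v * sr i := by
      constructor
      · intro h; rw [← h, mul_assoc, wtr_sr_sr, mul_one]
      · intro h; rw [h, mul_assoc, wtr_sr_sr, mul_one]
    by_cases h : (BS k w).pr e = v * sr i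
    · rw [if_pos h, if_pos (hiff.mpr h), h, map_neg, map_mul, wtr_eval_act, div_div]
      have h1 : (v * sr i) i.castSucc = v i.succ := by
        simp [sr]
      have h2 : (v * sr i) i.succ = v i.castSucc := by
        simp [sr]
      rw [h1, h2]
      congr 1
      ring
    · rw [if_neg h, if_neg (fun h' => h (hiff.mp h')), zero_div]

/-- one more letter, one insertion there -/
private lemma wtr_key1 (ξ : Fin (n + 1) → k) (i : Fin n) (w : List (Fin n))
    (f : (BS k w).X → R k n) (v : W n)
    (hD : ∀ e, (BS k w).pr e = v → ξ (v i.castSucc) - ξ (v i.succ) ≠ 0) :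
    wtr_T ξ (i :: w) (fun e => f e.1 * zeta k (i :: w) 0 e) v = wtr_T ξ w f v := by
  unfold wtr_T
  rw [wtr_sum_cons]
  have h2 : (∑ e : (BS k w).X, (if (BS k (i :: w)).pr (e, true) = v then
      eval ξ (f e * zeta k (i :: w) 0 (e, true)) / eval ξ ((BS k (i :: w)).eul (e, true)) else 0))
      = 0 := by
    apply Finset.sum_eq_zero
    intro e _
    have : zeta k (i :: w) 0 (e, true) = 0 := rfl
    rw [this, mul_zero, map_zero, zero_div, ite_self]
  have h3 : (∑ e : (BS k w).X, (if (BS k (i :: w)).pr (e, false) = v then
      eval ξ (f e * zeta k (i :: w) 0 (e, false)) / eval ξ ((BS k (i :: w)).eul (e, false)) else 0))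
      = ∑ e : (BS k w).X, if (BS k w).pr e = v then eval ξ (f e) / eval ξ ((BS k w).eul e) else 0 := by
    apply Finset.sum_congr rfl
    intro e _
    have : zeta k (i :: w) 0 (e, false) = act ((BS k w).pr e) (al i) := rfl
    rw [this, wtr_pr_false, wtr_eul_false]
    by_cases h : (BS k w).pr e = v
    · have hDe := hD e h
      rw [if_pos h, if_pos h, h, map_mul, map_mul, wtr_eval_act]
      rw [mul_div_mul_right _ _ hDe]
    · rw [if_neg h, if_neg h]
  rw [show (∑ e : (BS k w).X, (if (BS k (i :: w)).pr (e, true) = v then
      eval ξ (f (e, true).1 * zeta k (i :: w) 0 (e, true)) /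
        eval ξ ((BS k (i :: w)).eul (e, true)) else 0)) = 0 from h2,
    show (∑ e : (BS k w).X, (if (BS k (i :: w)).pr (e, false) = v then
      eval ξ (f (e, false).1 * zeta k (i :: w) 0 (e, false)) /
        eval ξ ((BS k (i :: w)).eul (e, false)) else 0)) = _ from h3, add_zero]

/-- one more letter, two insertions there -/
private lemma wtr_key2 (ξ : Fin (n + 1) → k) (i : Fin n) (w : List (Fin n))
    (f : (BS k w).X → R k n) (v : W n) :
    wtr_T ξ (i :: w) (fun e => f e.1 * zeta k (i :: w) 0 e * zeta k (i :: w) 0 e) v =
      (ξ (v i.castSucc) - ξ (v i.succ)) * wtr_T ξ w f v := by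
  unfold wtr_T
  rw [wtr_sum_cons]
  have h2 : (∑ e : (BS k w).X, (if (BS k (i :: w)).pr (e, true) = v then
      eval ξ (f e * zeta k (i :: w) 0 (e, true) * zeta k (i :: w) 0 (e, true)) /
        eval ξ ((BS k (i :: w)).eul (e, true)) else 0)) = 0 := by
    apply Finset.sum_eq_zero
    intro e _
    have : zeta k (i :: w) 0 (e, true) = 0 := rfl
    rw [this, mul_zero, map_zero, zero_div, ite_self]
  have h3 : (∑ e : (BS k w).X, (if (BS k (i :: w)).pr (e, false) = v then
      eval ξ (f e * zeta k (i :: w) 0 (e, false) * zeta k (i :: w) 0 (e, false)) /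
        eval ξ ((BS k (i :: w)).eul (e, false)) else 0))
      = (ξ (v i.castSucc) - ξ (v i.succ)) *
        ∑ e : (BS k w).X, if (BS k w).pr e = v then eval ξ (f e) / eval ξ ((BS k w).eul e) else 0 := by
    rw [Finset.mul_sum]
    apply Finset.sum_congr rfl
    intro e _
    have : zeta k (i :: w) 0 (e, false) = act ((BS k w).pr e) (al i) := rfl
    rw [this, wtr_pr_false, wtr_eul_false]
    by_cases h : (BS k w).pr e = v
    · rw [if_pos h, if_pos h, h, map_mul, map_mul, map_mul, wtr_eval_act]
      by_cases hD : ξ (v i.castSucc) - ξ (v i.succ) = 0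
      · rw [hD]; simp
      · rw [mul_div_mul_right _ _ hD]
        ring
    · rw [if_neg h, if_neg h, mul_zero]
  rw [show (∑ e : (BS k w).X, (if (BS k (i :: w)).pr (e, true) = v then
      eval ξ (f (e, true).1 * zeta k (i :: w) 0 (e, true) * zeta k (i :: w) 0 (e, true)) /
        eval ξ ((BS k (i :: w)).eul (e, true)) else 0)) = 0 from h2,
    show (∑ e : (BS k w).X, (if (BS k (i :: w)).pr (e, false) = v then
      eval ξ (f (e, false).1 * zeta k (i :: w) 0 (e, false) * zeta k (i :: w) 0 (e, false)) /
        eval ξ ((BS k (i :: w)).eul (e, false)) else 0)) = _ from h3, add_zero]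

private lemma wtr_congr (ξ : Fin (n + 1) → k) (w : List (Fin n)) (f g : (BS k w).X → R k n)
    (v : W n) (h : ∀ e, f e = g e) : wtr_T ξ w f v = wtr_T ξ w g v := by
  have : f = g := funext h
  rw [this]

private lemma wtr_main {a : ℕ} {P : Pat n} (hP : Ok a P) (ξ : Fin (n + 1) → k)
    (hξ : ∀ p q : Fin (n + 1), a ≤ (p : ℕ) → a ≤ (q : ℕ) → ξ p = ξ q → p = q) :
    ∀ (s t : Option ℕ) (w : W n),
    wtr_T ξ (fw P) (fun e => NZ k P e * zeto (fw P) s e * zeto (fw P) t e) w = St ξ P s t w := by
  induction P with
  | nil =>
    intro s t w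
    have hsum : ∀ g : (BS k (fw ([] : Pat n))).X → k, ∑ e, g e = g () := by
      intro g
      exact Finset.sum_singleton _ _
    unfold wtr_T
    rw [hsum]
    show (if (1 : W n) = w then eval ξ (1 * zeto (k := k) (fw ([] : Pat n)) s () *
      zeto (k := k) (fw ([] : Pat n)) t ()) / eval ξ (1 : R k n) else 0) = _
    cases s with
    | none =>
      cases t with
      | none =>
        have h0 : zeto (k := k) (fw ([] : Pat n)) none () = 1 := rfl
        rw [h0, St]
        by_cases h : w = 1
        · rw [if_pos h.symm, if_pos h]; simp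
        · rw [if_neg (fun h' => h h'.symm), if_neg h]
      | some t =>
        have h0 : zeto (k := k) (fw ([] : Pat n)) (some t) () = 0 := rfl
        rw [h0, mul_zero, map_zero, zero_div, ite_self]
        rfl
    | some s =>
      have h0 : zeto (k := k) (fw ([] : Pat n)) (some s) () = 0 := rfl
      rw [h0, mul_zero, zero_mul, map_zero, zero_div, ite_self]
      cases t <;> rfl
  | cons x P ih =>
    obtain ⟨lab, i⟩ := x
    intro s t w
    cases lab with
    | U =>
      have hP' : Ok a P := hP.2.2.2
      have h1 := ih hP' s t w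
      have h2 : St ξ ((Lab.U, i) :: P) s t w = St ξ P s t w := by
        cases s <;> cases t <;> rfl
      rw [h2, ← h1]
      rfl
    | Z =>
      have hP' : Ok a P := hP.2.2
      have h1 := ih hP' s t w
      have h2 : St ξ ((Lab.Z, i) :: P) s t w =
          (ξ (up P i.castSucc) - ξ (w i.succ)) * St ξ P s t w := by
        cases s <;> cases t <;> rfl
      rw [h2, ← h1]
      unfold wtr_T
      rw [Finset.mul_sum]
      show (∑ e : (BS k (fw P)).X, if (BS k (fw P)).pr e = w then
        eval ξ (NZ k P e * rt (up P i.castSucc) ((BS k (fw P)).pr e i.succ) * zeto (fw P) s e *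
          zeto (fw P) t e) / eval ξ ((BS k (fw P)).eul e) else 0) = _
      apply Finset.sum_congr rfl
      intro e _
      by_cases h : (BS k (fw P)).pr e = w
      · rw [if_pos h, if_pos h, h]
        simp only [map_mul, rt, map_sub, eval_X]
        ring
      · rw [if_neg h, if_neg h, mul_zero]
    | F =>
      have hai : a ≤ (i : ℕ) := hP.1
      have hP' : Ok a P := hP.2
      have hfw := WPTS_fw_ge hP'
      have hD : ∀ e, (BS k (fw P)).pr e = w → ξ (w i.castSucc) - ξ (w i.succ) ≠ 0 := by
        intro e he hc
        have h1 := WPTS_pr_ge hfw e i.castSucc (by simpa using hai)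
        have h2 := WPTS_pr_ge hfw e i.succ (by rw [Fin.val_succ]; omega)
        rw [he] at h1 h2
        have h3 := hξ _ _ h1 h2 (sub_eq_zero.mp hc)
        have h4 := w.injective h3
        have h5 := congrArg Fin.val h4
        rw [Fin.val_succ, Fin.val_castSucc] at h5
        omega
      have ihh := ih hP'
      cases s with
      | none =>
        cases t with
        | none =>
          have h2 : St ξ ((Lab.F, i) :: P) none none w =
            (St ξ P none none w + St ξ P none none (w * sr i)) /
              (ξ (w i.castSucc) - ξ (w i.succ)) := rfl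
          rw [h2, ← ihh none none w, ← ihh none none (w * sr i), ← wtr_key]
          rfl
        | some t =>
          cases t with
          | zero =>
            have h2 : St ξ ((Lab.F, i) :: P) none (some 0) w = St ξ P none none w := rfl
            rw [h2, ← ihh none none w, ← wtr_key1 ξ i (fw P) _ w hD]
            apply wtr_congr
            intro e
            show NZ k P e.1 * 1 * zeta k (i :: fw P) 0 e = NZ k P e.1 * 1 * 1 * zeta k (i :: fw P) 0 e
            ring
          | succ t =>
            have h2 : St ξ ((Lab.F, i) :: P) none (some (t + 1)) w =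
              (St ξ P none (some t) w + St ξ P none (some t) (w * sr i)) /
                (ξ (w i.castSucc) - ξ (w i.succ)) := rfl
            rw [h2, ← ihh none (some t) w, ← ihh none (some t) (w * sr i), ← wtr_key]
            rfl
      | some s =>
        cases s with
        | zero =>
          cases t with
          | none =>
            have h2 : St ξ ((Lab.F, i) :: P) (some 0) none w = St ξ P none none w := rfl
            rw [h2, ← ihh none none w, ← wtr_key1 ξ i (fw P) _ w hD]
            apply wtr_congr
            intro e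
            show NZ k P e.1 * zeta k (i :: fw P) 0 e * 1 = NZ k P e.1 * 1 * 1 * zeta k (i :: fw P) 0 e
            ring
          | some t =>
            cases t with
            | zero =>
              have h2 : St ξ ((Lab.F, i) :: P) (some 0) (some 0) w =
                (ξ (w i.castSucc) - ξ (w i.succ)) * St ξ P none none w := rfl
              rw [h2, ← ihh none none w, ← wtr_key2 ξ i (fw P) _ w]
              apply wtr_congr
              intro e
              show NZ k P e.1 * zeta k (i :: fw P) 0 e * zeta k (i :: fw P) 0 e =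
                NZ k P e.1 * 1 * 1 * zeta k (i :: fw P) 0 e * zeta k (i :: fw P) 0 e
              ring
            | succ t =>
              have h2 : St ξ ((Lab.F, i) :: P) (some 0) (some (t + 1)) w =
                St ξ P none (some t) w := rfl
              rw [h2, ← ihh none (some t) w, ← wtr_key1 ξ i (fw P) _ w hD]
              apply wtr_congr
              intro e
              show NZ k P e.1 * zeta k (i :: fw P) 0 e * zeta k (fw P) t e.1 =
                NZ k P e.1 * 1 * zeta k (fw P) t e.1 * zeta k (i :: fw P) 0 e
              ring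
        | succ s =>
          cases t with
          | none =>
            have h2 : St ξ ((Lab.F, i) :: P) (some (s + 1)) none w =
              (St ξ P (some s) none w + St ξ P (some s) none (w * sr i)) /
                (ξ (w i.castSucc) - ξ (w i.succ)) := rfl
            rw [h2, ← ihh (some s) none w, ← ihh (some s) none (w * sr i), ← wtr_key]
            rfl
          | some t =>
            cases t with
            | zero =>
              have h2 : St ξ ((Lab.F, i) :: P) (some (s + 1)) (some 0) w =
                St ξ P (some s) none w := rfl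
              rw [h2, ← ihh (some s) none w, ← wtr_key1 ξ i (fw P) _ w hD]
              apply wtr_congr
              intro e
              show NZ k P e.1 * zeta k (fw P) s e.1 * zeta k (i :: fw P) 0 e =
                NZ k P e.1 * zeta k (fw P) s e.1 * 1 * zeta k (i :: fw P) 0 e
              ring
            | succ t =>
              have h2 : St ξ ((Lab.F, i) :: P) (some (s + 1)) (some (t + 1)) w =
                (St ξ P (some s) (some t) w + St ξ P (some s) (some t) (w * sr i)) /
                  (ξ (w i.castSucc) - ξ (w i.succ)) := rfl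
              rw [h2, ← ihh (some s) (some t) w, ← ihh (some s) (some t) (w * sr i), ← wtr_key]
              rfl

/-- Induction on `P`; sums over `X × Bool` (`Fintype.sum_prod_type`). -/
theorem WTR_St {a : ℕ} {P : Pat n} (hP : Ok a P) (ξ : Fin (n + 1) → k)
    (hξ : ∀ p q : Fin (n + 1), a ≤ (p : ℕ) → a ≤ (q : ℕ) → ξ p = ξ q → p = q)
    (s t : Option ℕ) (w : W n) :
    (∑ e, if (BS k (fw P)).pr e = w then eval ξ (NZ k P e * zeto (fw P) s e * zeto (fw P) t e) /
      eval ξ ((BS k (fw P)).eul e) else 0) = St ξ P s t w := by
  have h := wtr_main hP ξ hξ s t w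
  unfold wtr_T at h
  exact h

theorem WTR_Emat {a : ℕ} {P : Pat n} (hP : Ok a P) (ξ : Fin (n + 1) → k)
    (hξ : ∀ p q : Fin (n + 1), a ≤ (p : ℕ) → a ≤ (q : ℕ) → ξ p = ξ q → p = q)
    (z : W n) (s t : Fin (fw P).length) :
    Emat ξ P z s t = eval ξ (piz z) * St ξ P (some s) (some t) z := by
  rw [← WTR_St hP ξ hξ]
  unfold Emat ev
  rw [Finset.mul_sum]
  apply Finset.sum_congr rfl
  intro e _
  beta_reduce
  by_cases h : (BS k (fw P)).pr e = z
  · rw [if_pos h, if_pos h]
    have h1 : zeto (k := k) (fw P) (some (s : ℕ)) e = zeta k (fw P) s e := rfl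
    have h2 : zeto (k := k) (fw P) (some (t : ℕ)) e = zeta k (fw P) t e := rfl
    rw [h1, h2]
    simp only [map_mul]
    ring
  · rw [if_neg h, if_neg h, map_zero, zero_div, mul_zero]

end

end Pool.Agent.PCan
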