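import Pool.Agent.PCan.Block
import Pool.Agent.PCan.WTr
import Pool.Agent.PCan.WRankC
import Pool.Agent.PCan.WChk
import Pool.Agent.PCan.NumDef

/-! From the pattern of the witness to its Gram matrix. -/

open MvPolynomial

namespace Pool.Agent.PCan

/-- number of free letters -/
def fr : List BLt → ℕ
  | [] => 0
  | none :: L => fr L
  | some _ :: L => fr L + 1

/-- marks, counted from the head -/
def mk : Option ℕ → Option ℕ → List BLt → List (BLt × ℕ)
  | _, _, [] => []
  | s, t, none :: L => (none, 0) :: mk s t L
  | some 0, some 0, some i :: L => (some i, 2) :: mk none none L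
  | some 0, none, some i :: L => (some i, 1) :: mk none none L
  | none, some 0, some i :: L => (some i, 1) :: mk none none L
  | some 0, some (t + 1), some i :: L => (some i, 1) :: mk none (some t) L
  | some (s + 1), some 0, some i :: L => (some i, 1) :: mk (some s) none L
  | none, none, some i :: L => (some i, 0) :: mk none none L
  | some (s + 1), none, some i :: L => (some i, 0) :: mk (some s) none L
  | none, some (t + 1), some i :: L => (some i, 0) :: mk none (some t) L
  | some (s + 1), some (t + 1), some i :: L => (some i, 0) :: mk (some s) (some t) L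

/-- the index is smaller than the number of free letters -/
def Lt (s : Option ℕ) (L : List BLt) : Prop := ∀ j, s = some j → j < fr L

noncomputable section

variable {k : Type} [Field k]

theorem tS_mk (L : List BLt) (s t : Option ℕ) (hs : Lt s L) (ht : Lt t L) :
    tS (xiv k) L s t =
      (mk s t L).foldr (fun x S => tstep x S) (fun w => if w = 1 then (1 : k) else 0) := by
  induction L generalizing s t with
  | nil =>
    rcases s with _ | s
    · rcases t with _ | t
      · funext w
        rw [tS, mk]
        rfl
      · exact absurd (ht t rfl) (by simp [fr])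
    · exact absurd (hs s rfl) (by simp [fr])
  | cons o L ih =>
    rcases o with _ | i
    · have h := ih s t hs ht
      funext w
      rw [tS, mk, List.foldr_cons, h]
      rfl
    · have h0 : Lt none L := by
        intro j hj
        cases hj
      rcases s with _ | _ | s <;> rcases t with _ | _ | t
      · funext w
        rw [tS, ih none none h0 h0, mk, List.foldr_cons]
        rfl
      · funext w
        rw [tS, ih none none h0 h0, mk, List.foldr_cons]
        rfl
      · have h1 : Lt (some t) L := by
          intro j hj
          cases hj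
          have := ht (t + 1) rfl
          simp only [fr] at this
          omega
        funext w
        rw [tS, ih none (some t) h0 h1, mk, List.foldr_cons]
        rfl
      · funext w
        rw [tS, ih none none h0 h0, mk, List.foldr_cons]
        rfl
      · funext w
        rw [tS, ih none none h0 h0, mk, List.foldr_cons]
        rfl
      · have h1 : Lt (some t) L := by
          intro j hj
          cases hj
          have := ht (t + 1) rfl
          simp only [fr] at this
          omega
        funext w
        rw [tS, ih none (some t) h0 h1, mk, List.foldr_cons]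
        rfl
      · have h2 : Lt (some s) L := by
          intro j hj
          cases hj
          have := hs (s + 1) rfl
          simp only [fr] at this
          omega
        funext w
        rw [tS, ih (some s) none h2 h0, mk, List.foldr_cons]
        rfl
      · have h2 : Lt (some s) L := by
          intro j hj
          cases hj
          have := hs (s + 1) rfl
          simp only [fr] at this
          omega
        funext w
        rw [tS, ih (some s) none h2 h0, mk, List.foldr_cons]
        rfl
      · have h2 : Lt (some s) L := by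
          intro j hj
          cases hj
          have := hs (s + 1) rfl
          simp only [fr] at this
          omega
        have h1 : Lt (some t) L := by
          intro j hj
          cases hj
          have := ht (t + 1) rfl
          simp only [fr] at this
          omega
        funext w
        rw [tS, ih (some s) (some t) h2 h1, mk, List.foldr_cons]
        rfl

/-- the pattern of the witness -/
def P0 : Pat 27 := mkP wit.reverse

theorem P0_ok : Ok 23 P0 := WCHK 23 P0 (by decide +kernel)

theorem P0_fw : (fw P0).length = 35 := by decide +kernel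

theorem P0_nZ : nZ P0 = 23 := by decide +kernel

theorem fr_wit : fr wit.reverse = 35 := by decide +kernel

theorem mark_eq : ∀ s t : Fin 35, mark (34 - (s : ℕ)) (34 - (t : ℕ)) 0 wit =
    (mk (some s) (some t) wit.reverse).reverse := by
  decide +kernel

/-- the point of specialisation -/
def xi0 (k : Type) [Field k] (p : Fin (27 + 1)) : k :=
  if (p : ℕ) < 23 then 0 else (((p : ℕ) - 23 + 1 : ℕ) : k)

theorem xi0_ib (i : Fin 5) : xi0 k (ib i) = xiv k i := by
  unfold xi0 xiv
  rw [if_neg (by rw [ib_val]; omega), ib_val]
  congr 2
  omega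

theorem inv_blk : (Finset.univ.filter
    (fun p : Fin (27 + 1) × Fin (27 + 1) => p.1 < p.2 ∧ (blk w0b) p.2 < (blk w0b) p.1)) =
      (Finset.univ.filter (fun p : Fin 5 × Fin 5 => p.1 < p.2)).map (ib.prodMap ib) := by
  ext ⟨p, q⟩
  simp only [Finset.mem_filter, Finset.mem_univ, true_and, Finset.mem_map, Prod.exists,
    Function.Embedding.coe_prodMap, Prod.map_apply, Prod.mk.injEq]
  constructor
  · rintro ⟨h1, h2⟩
    rcases ib_cases p with hp | ⟨i, rfl⟩
    · exfalso
      rw [blk_lt _ _ hp] at h2
      rcases ib_cases q with hq | ⟨j, rfl⟩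
      · rw [blk_lt _ _ hq] at h2
        exact absurd h1 (not_lt.mpr h2.le)
      · rw [blk_ib] at h2
        have h3 : ((ib (w0b j) : Fin (27 + 1)) : ℕ) < p := h2
        rw [ib_val] at h3
        omega
    · rcases ib_cases q with hq | ⟨j, rfl⟩
      · exfalso
        have h3 : ((ib i : Fin (27 + 1)) : ℕ) < q := h1
        rw [ib_val] at h3
        omega
      · refine ⟨i, j, ?_, rfl, rfl⟩
        have h3 : ((ib i : Fin (27 + 1)) : ℕ) < (ib j : Fin (27 + 1)) := h1
        rw [ib_val, ib_val] at h3
        exact Fin.lt_def.mpr (by omega)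
  · rintro ⟨i, j, h1, rfl, rfl⟩
    have h3 := Fin.lt_def.mp h1
    constructor
    · show ((ib i : Fin (27 + 1)) : ℕ) < (ib j : Fin (27 + 1))
      rw [ib_val, ib_val]
      omega
    · rw [blk_ib, blk_ib]
      show ((ib (w0b j) : Fin (27 + 1)) : ℕ) < (ib (w0b i) : Fin (27 + 1))
      rw [ib_val, ib_val]
      simp only [w0b, Fin.revPerm_apply, Fin.val_rev]
      omega

theorem blk_w0_mul : blk w0b * blk w0b = 1 := by
  have h : w0b * w0b = 1 := Equiv.ext (fun i => Fin.rev_rev i)
  rw [← blk_mul, h, blk_one]

theorem blk_w0_symm : (blk w0b).symm = blk w0b := by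
  have h := blk_w0_mul
  have h2 : (blk w0b)⁻¹ = blk w0b := inv_eq_of_mul_eq_one_left h
  exact h2

theorem len_blk : len (blk w0b) = 10 := by
  unfold len
  rw [inv_blk, Finset.card_map]
  decide

theorem eval_piz : eval (xi0 k) (piz (blk w0b) : R k 27) = 288 := by
  unfold piz
  rw [blk_w0_symm, inv_blk, Finset.prod_map, map_prod]
  have h : ∀ p : Fin 5 × Fin 5, eval (xi0 k)
      (rt ((ib.prodMap ib) p).1 ((ib.prodMap ib) p).2 : R k 27) = xiv k p.1 - xiv k p.2 := by
    rintro ⟨i, j⟩
    show eval (xi0 k) (X (ib i) - X (ib j) : R k 27) = _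
    rw [map_sub, eval_X, eval_X, xi0_ib, xi0_ib]
  rw [Finset.prod_congr rfl (fun p _ => h p)]
  rw [Finset.prod_filter, Fintype.prod_prod_type]
  simp only [Fin.prod_univ_five, xiv]
  simp
  ring

theorem Emat_eq (hinj : Function.Injective (xiv k)) (s t : Fin (fw P0).length) :
    Emat (xi0 k) P0 (blk w0b) s t =
      gramE k (Fin.rev (Fin.cast P0_fw s)) (Fin.rev (Fin.cast P0_fw t)) := by
  have hξ : ∀ p q : Fin (27 + 1), 23 ≤ (p : ℕ) → 23 ≤ (q : ℕ) → xi0 k p = xi0 k q → p = q := by
    intro p q hp hq h
    rcases ib_cases p with h1 | ⟨i, rfl⟩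
    · omega
    rcases ib_cases q with h1 | ⟨j, rfl⟩
    · omega
    rw [xi0_ib, xi0_ib] at h
    rw [hinj h]
  rw [WTR_Emat P0_ok (xi0 k) hξ, eval_piz]
  have h1 : St (xi0 k) P0 (some s) (some t) (blk w0b) =
      tS (fun i => xi0 k (ib i)) wit.reverse (some s) (some t) w0b :=
    St_mkP (xi0 k) (fun p hp => by unfold xi0; rw [if_pos hp]) wit.reverse P0_ok _ _ _
  have h2 : (fun i => xi0 k (ib i)) = xiv k := funext xi0_ib
  rw [h1, h2, tS_mk]
  · rw [gramE, Matrix.of_apply, tval, trun]
    have h3 := mark_eq (Fin.cast P0_fw s) (Fin.cast P0_fw t)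
    have h4 : ∀ u : Fin (fw P0).length, ((Fin.rev (Fin.cast P0_fw u) : Fin 35) : ℕ) =
        34 - (u : ℕ) := by
      intro u
      rw [Fin.val_rev]
      show 35 - ((u : ℕ) + 1) = 34 - (u : ℕ)
      omega
    rw [h4, h4]
    have h5 : mark (34 - (s : ℕ)) (34 - (t : ℕ)) 0 wit =
        (mk (some (s : ℕ)) (some (t : ℕ)) wit.reverse).reverse := h3
    rw [h5, List.foldl_reverse]
    rfl
  · intro j hj
    cases hj
    rw [fr_wit]
    exact lt_of_lt_of_eq s.2 P0_fw
  · intro j hj
    cases hj
    rw [fr_wit]
    exact lt_of_lt_of_eq t.2 P0_fw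

/-- the local multiplicity of the witness -/
theorem mult_wit (hinj : Function.Injective (xiv k)) :
    (BS k (wd P0)).mult (up P0 * blk w0b) 24 = (gramE k).rank := by
  have hξ : ∀ p q : Fin (27 + 1), 23 ≤ (p : ℕ) → 23 ≤ (q : ℕ) → xi0 k p = xi0 k q → p = q := by
    intro p q hp hq h
    rcases ib_cases p with h1 | ⟨i, rfl⟩
    · omega
    rcases ib_cases q with h1 | ⟨j, rfl⟩
    · omega
    rw [xi0_ib, xi0_ib] at h
    rw [hinj h]
  have h := mult_eq_rank P0_ok top_blk (by rw [P0_fw, len_blk, P0_nZ]) (xi0 k) hξ
  rw [P0_nZ] at h
  have h1 : (Emat (xi0 k) P0 (blk w0b)) = (gramE k).submatrix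
      ((finCongr P0_fw).trans Fin.revPerm) ((finCongr P0_fw).trans Fin.revPerm) := by
    ext s t
    rw [Emat_eq hinj]
    rfl
  rw [h1, Matrix.rank_submatrix] at h
  exact_mod_cast h

theorem xiv_inj (q : ℕ) [Fact q.Prime] (hq : 5 < q) : Function.Injective (xiv (ZMod q)) := by
  intro i j h
  unfold xiv at h
  rw [ZMod.natCast_eq_natCast_iff'] at h
  rw [Nat.mod_eq_of_lt (by omega), Nat.mod_eq_of_lt (by omega)] at h
  exact Fin.ext (by omega)

end

end Pool.Agent.PCan
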