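import Pool.Agent.PCan.Sum

/-! MODULE CHADD : additivity of `ch` -/

open MvPolynomial

namespace Pool.Agent.PCan

noncomputable section

variable {k : Type} [Field k] {n : ℕ}

variable {B C : Bim k n} {d : ℤ} {a : C.L →ₗ[R k n] B.L} {b : B.L →ₗ[R k n] C.L}

theorem ch_add (ha : a ∈ Bim.Hom C B d) (hb : b ∈ Bim.Hom B C (-d))
    (h : b ∘ₗ a = LinearMap.id) (z : W n) (i : ℤ) :
    B.ch z i = C.ch z (i - d) + (kerBim hb).ch z i := by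
  obtain ⟨f, g, q, p, -, -, hq, hp, gf, pq, gq, pf, hsum, fd, gd, pd⟩ := SUM_stalk ha hb h z
  have hf1 : ∀ s : C.stalk z, s.1 ∈ dg (C.stalk z) (i - d) → (f s).1 ∈ dg (B.stalk z) i := by
    intro s hs
    refine ⟨(f s).2, ?_⟩
    have h1 := fd _ s hs.2
    rwa [sub_add_cancel] at h1
  have hg1 : ∀ s : B.stalk z, s.1 ∈ dg (B.stalk z) i → (g s).1 ∈ dg (C.stalk z) (i - d) :=
    fun s hs => ⟨(g s).2, gd _ s hs.2⟩
  have hq1 : ∀ s : (kerBim hb).stalk z, s.1 ∈ dg ((kerBim hb).stalk z) i →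
      (q s).1 ∈ dg (B.stalk z) i := by
    intro s hs
    refine ⟨(q s).2, ?_⟩
    rw [hq]
    exact hs.2
  have hp1 : ∀ s : B.stalk z, s.1 ∈ dg (B.stalk z) i →
      (p s).1 ∈ dg ((kerBim hb).stalk z) i := fun s hs => ⟨(p s).2, pd _ s hs.2⟩
  unfold Bim.ch
  refine SUM_quot _ _ _
    (SUM_restr f (P := dg (C.stalk z) (i - d)) (Q := dg (B.stalk z) i) (fun s hs => hs.1) hf1)
    (SUM_restr g (P := dg (B.stalk z) i) (Q := dg (C.stalk z) (i - d)) (fun s hs => hs.1) hg1)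
    (SUM_restr q (P := dg ((kerBim hb).stalk z) i) (Q := dg (B.stalk z) i)
      (fun s hs => hs.1) hq1)
    (SUM_restr p (P := dg (B.stalk z) i) (Q := dg ((kerBim hb).stalk z) i)
      (fun s hs => hs.1) hp1) ?_ ?_ ?_ ?_ ?_ ?_ ?_ ?_ ?_
  · intro u
    apply Subtype.ext
    have h1 := congrArg Subtype.val (gf ⟨u.1, u.2.1⟩)
    exact h1
  · intro u
    apply Subtype.ext
    have h1 := congrArg Subtype.val (pq ⟨u.1, u.2.1⟩)
    exact h1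
  · intro u
    apply Subtype.ext
    have h1 := congrArg Subtype.val (gq ⟨u.1, u.2.1⟩)
    exact h1
  · intro u
    apply Subtype.ext
    have h1 := congrArg Subtype.val (pf ⟨u.1, u.2.1⟩)
    exact h1
  · intro u
    apply Subtype.ext
    have h1 := congrArg Subtype.val (hsum ⟨u.1, u.2.1⟩)
    exact h1
  · intro u hu
    exact ⟨SUM_smul f _ ⟨u.1, u.2.1⟩ hu.1, (hf1 ⟨u.1, u.2.1⟩ u.2).2⟩
  · intro u hu
    exact ⟨SUM_smul g _ ⟨u.1, u.2.1⟩ hu.1, (hg1 ⟨u.1, u.2.1⟩ u.2).2⟩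
  · intro u hu
    exact ⟨SUM_smul q _ ⟨u.1, u.2.1⟩ hu.1, (hq1 ⟨u.1, u.2.1⟩ u.2).2⟩
  · intro u hu
    exact ⟨SUM_smul p _ ⟨u.1, u.2.1⟩ hu.1, (hp1 ⟨u.1, u.2.1⟩ u.2).2⟩

end

end Pool.Agent.PCan
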