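import Pool.Agent.PCan.Homs

/-! MODULE CHI : homomorphisms of `BS(w)`, `w` reduced, at the top point.

`g - g_top • 1` is zero at the only point over `prd w`, use `hom_res`. -/

open MvPolynomial

namespace Pool.Agent.PCan

noncomputable section

variable {k : Type} [Field k] {n : ℕ}

theorem chi_mul (w : List (Fin n)) (hw : w.length = len (prd w)) {d : ℤ}
    {φ : (BS k w).L →ₗ[R k n] (BS k w).L} (hφ : φ ∈ Bim.Hom (BS k w).toBim (BS k w).toBim d)
    (g : (BS k w).L) : (φ g).1 (top k w) = g.1 (top k w) * (φ (one k w)).1 (top k w) := by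
  have h0 : res (BS k w).pr (prd w) (g - (g.1 (top k w)) • one k w).1 = 0 := by
    funext e
    show (if (BS k w).pr e = prd w then (g - (g.1 (top k w)) • one k w).1 e else 0) = 0
    split_ifs with he
    · have := eq_top w hw e he
      subst this
      show g.1 (top k w) - g.1 (top k w) • (1 : R k n) = 0
      simp
    · rfl
  have h1 := hom_res hφ (prd w) _ h0
  have h2 := congrFun h1 (top k w)
  have h3 : res (BS k w).pr (prd w) (φ (g - (g.1 (top k w)) • one k w)).1 (top k w) =
      (φ (g - (g.1 (top k w)) • one k w)).1 (top k w) := by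
    show (if (BS k w).pr (top k w) = prd w then _ else _) = _
    rw [if_pos (pr_top w)]
  have h4 : (φ (g - (g.1 (top k w)) • one k w)).1 (top k w) =
      (φ g).1 (top k w) - g.1 (top k w) * (φ (one k w)).1 (top k w) := by
    rw [map_sub, map_smul]
    rfl
  have h5 : (φ g).1 (top k w) - g.1 (top k w) * (φ (one k w)).1 (top k w) = 0 := by
    rw [← h4, ← h3]
    exact h2
  exact sub_eq_zero.mp h5

theorem chi_const (w : List (Fin n)) {φ : (BS k w).L →ₗ[R k n] (BS k w).L}
    (hφ : φ ∈ Bim.Hom (BS k w).toBim (BS k w).toBim 0) :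
    ∃ c : k, (φ (one k w)).1 (top k w) = C c := by
  have h1 : (one k w).1 ∈ HF k n (BS k w).X 0 := by
    intro e
    show (1 : R k n) ∈ HZ k n 0
    have := C_HZ (n := n) (1 : k)
    simpa using this
  have h2 := hφ.2 0 (one k w) h1 (top k w)
  exact ⟨_, HZ_zero (by simpa using h2)⟩

/-- powers -/
theorem chi_pow (w : List (Fin n)) (hw : w.length = len (prd w))
    {φ : (BS k w).L →ₗ[R k n] (BS k w).L} (hφ : φ ∈ Bim.Hom (BS k w).toBim (BS k w).toBim 0)
    (N : ℕ) : (((φ : Module.End (R k n) (BS k w).L) ^ N) (one k w)).1 (top k w) =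
      ((φ (one k w)).1 (top k w)) ^ N := by
  induction N with
  | zero =>
    rw [pow_zero, pow_zero]
    rfl
  | succ N ih =>
    rw [pow_succ', pow_succ]
    show (φ (((φ : Module.End (R k n) (BS k w).L) ^ N) (one k w))).1 (top k w) = _
    rw [chi_mul w hw hφ, ih]

end

end Pool.Agent.PCan
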