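import Pool.Agent.PCan.Peel

/-! MODULE CONV : the definition of the p-canonical basis, and its relation to `Bz`. -/

open MvPolynomial

namespace Pool.Agent.PCan

noncomputable section

variable {k : Type} [Field k] {n : ℕ}

/-- the Bott-Samelson bimodule of a word (head of the list = last letter), as a bimodule -/
def BSb (k : Type) [Field k] {n : ℕ} : List (Fin n) → Bim k n
  | [] => unitBim k n
  | i :: w => (BSb k w).tb i

theorem BS_toBim (w : List (Fin n)) : (BS k w).toBim = BSb k w := by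
  induction w with
  | nil => rfl
  | cons i w ih =>
    show (BS k w).toBim.tb i = (BSb k w).tb i
    rw [ih]

/-- graded sub-bimodules -/
def IsSub (M : Bim k n) (C : Submodule (R k n) (M.X → R k n)) : Prop :=
  C ≤ M.L ∧ (∀ m ∈ C, ∀ r : R k n, (fun e => act (M.pr e) r * m e) ∈ C) ∧
    ∀ m ∈ C, ∀ j : ℕ, (fun e => homogeneousComponent j (m e)) ∈ C

/-- a graded sub-bimodule as a bimodule -/
def subBim (M : Bim k n) (C : Submodule (R k n) (M.X → R k n)) (h : IsSub M C) : Bim k n where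
  X := M.X
  pr := M.pr
  L := C
  right' := h.2.1
  graded' := h.2.2

/-- `C` is an indecomposable graded direct summand of the Bott-Samelson bimodule of the word `w`
with nonzero stalk at `prd w` -/
def IsBz (k : Type) [Field k] {n : ℕ} (w : List (Fin n))
    (C : Submodule (R k n) ((BSb k w).X → R k n)) : Prop :=
  IsSub (BSb k w) C ∧
  (∃ C', IsSub (BSb k w) C' ∧ C ⊓ C' = ⊥ ∧ C ⊔ C' = (BSb k w).L) ∧
  (∀ P Q, IsSub (BSb k w) P → IsSub (BSb k w) Q → P ⊓ Q = ⊥ → P ⊔ Q = C → P = ⊥ ∨ Q = ⊥) ∧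
  ∃ m ∈ C, ∃ e, (BSb k w).pr e = prd w ∧ m e ≠ 0

/-- `c y i` is the coefficient of `v^i H_y` in the character of `B_z` (a possible value of the
p-canonical basis element `^p b_z`, `p = char k`): `B_z` is an indecomposable summand of the
Bott-Samelson bimodule of a reduced word of `z`, with nonzero stalk at `z`, and the coefficient of
`v^i`, `i = l(z) - l(y) - 2 d`, is `dim_k (B_z^y / R_+ B_z^y)_d`. -/
def IsPCan (k : Type) [Field k] {n : ℕ} (z : W n) (c : W n → ℤ → ℕ) : Prop :=
  ∃ w : List (Fin n), prd w = z ∧ w.length = len z ∧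
    ∃ (C : Submodule (R k n) ((BSb k w).X → R k n)) (h : IsSub (BSb k w) C), IsBz k w C ∧
      ∀ y : W n, (∀ d : ℤ, c y (len z - len y - 2 * d) = (subBim (BSb k w) C h).ch y d) ∧
        ∀ i : ℤ, (∀ d : ℤ, i ≠ len z - len y - 2 * d) → c y i = 0

/-- a sub-bimodule with a complement -/
structure CONV_Data (M : Bim k n) (C C' : Submodule (R k n) (M.X → R k n)) : Prop where
  h : IsSub M C
  h' : IsSub M C'
  inf : C ⊓ C' = ⊥
  sup : C ⊔ C' = M.L

theorem CONV_dec {M : Bim k n} {C C' : Submodule (R k n) (M.X → R k n)} (hD : CONV_Data M C C')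
    (m : M.L) : ∃ c : C, m.1 - c.1 ∈ C' := by
  have h1 : m.1 ∈ C ⊔ C' := by rw [hD.sup]; exact m.2
  obtain ⟨c, hc, c', hc', h2⟩ := Submodule.mem_sup.mp h1
  refine ⟨⟨c, hc⟩, ?_⟩
  rw [← h2]
  simpa using hc'

theorem CONV_uniq {M : Bim k n} {C C' : Submodule (R k n) (M.X → R k n)} (hD : CONV_Data M C C')
    {m c d : M.X → R k n} (hc : c ∈ C) (hd : d ∈ C) (h1 : m - c ∈ C') (h2 : m - d ∈ C') :
    c = d := by
  have h3 : c - d ∈ C ⊓ C' := by
    refine ⟨C.sub_mem hc hd, ?_⟩
    have := C'.sub_mem h2 h1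
    simpa using this
  rw [hD.inf, Submodule.mem_bot] at h3
  exact sub_eq_zero.mp h3

/-- the projection to `C` along `C'` -/
def CONV_proj {M : Bim k n} {C C' : Submodule (R k n) (M.X → R k n)} (hD : CONV_Data M C C') :
    M.L →ₗ[R k n] C where
  toFun m := (CONV_dec hD m).choose
  map_add' := by
    intro m m'
    apply Subtype.ext
    refine CONV_uniq hD (m := (m + m').1) (Subtype.mem _) (Subtype.mem _)
      (CONV_dec hD (m + m')).choose_spec ?_
    have h1 := (CONV_dec hD m).choose_spec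
    have h2 := (CONV_dec hD m').choose_spec
    have h3 := C'.add_mem h1 h2
    convert h3 using 1
    simp only [Submodule.coe_add]
    abel
  map_smul' := by
    intro a m
    apply Subtype.ext
    refine CONV_uniq hD (m := (a • m).1) (Subtype.mem _) (Subtype.mem _)
      (CONV_dec hD (a • m)).choose_spec ?_
    have h1 := (CONV_dec hD m).choose_spec
    have h3 := C'.smul_mem a h1
    convert h3 using 1
    simp only [Submodule.coe_smul, RingHom.id_apply, smul_sub]

theorem CONV_proj_spec {M : Bim k n} {C C' : Submodule (R k n) (M.X → R k n)}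
    (hD : CONV_Data M C C') (m : M.L) : m.1 - (CONV_proj hD m).1 ∈ C' :=
  (CONV_dec hD m).choose_spec

theorem CONV_proj_eq {M : Bim k n} {C C' : Submodule (R k n) (M.X → R k n)}
    (hD : CONV_Data M C C') (m : M.L) {c : M.X → R k n} (hc : c ∈ C) (h : m.1 - c ∈ C') :
    (CONV_proj hD m).1 = c :=
  CONV_uniq hD (m := m.1) (Subtype.mem _) hc (CONV_proj_spec hD m) h

theorem CONV_proj_self {M : Bim k n} {C C' : Submodule (R k n) (M.X → R k n)}
    (hD : CONV_Data M C C') (m : M.L) (hm : m.1 ∈ C) : (CONV_proj hD m).1 = m.1 :=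
  CONV_proj_eq hD m hm (by rw [sub_self]; exact C'.zero_mem)

theorem CONV_proj_right {M : Bim k n} {C C' : Submodule (R k n) (M.X → R k n)}
    (hD : CONV_Data M C C') (r : R k n) (m : M.L) :
    (CONV_proj hD (M.rmul r m)).1 = fun e => act (M.pr e) r * (CONV_proj hD m).1 e := by
  refine CONV_proj_eq hD _ (hD.h.2.1 _ (Subtype.mem _) r) ?_
  have h1 := hD.h'.2.1 _ (CONV_proj_spec hD m) r
  convert h1 using 1
  funext e
  simp only [Pi.sub_apply, mul_sub]
  rfl

theorem CONV_proj_deg {M : Bim k n} {C C' : Submodule (R k n) (M.X → R k n)}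
    (hD : CONV_Data M C C') (j : ℤ) (m : M.L) (hm : m.1 ∈ HF k n M.X j) :
    (CONV_proj hD m).1 ∈ HF k n M.X j := by
  rcases lt_or_ge j 0 with hj | hj
  · have h0 : m.1 = 0 := by
      funext e
      exact HZ_neg hj (hm e)
    have h1 : (CONV_proj hD m).1 = 0 :=
      CONV_proj_eq hD m C.zero_mem (by rw [h0, sub_self]; exact C'.zero_mem)
    rw [h1]
    exact (HF k n M.X j).zero_mem
  · obtain ⟨i, rfl⟩ := Int.eq_ofNat_of_zero_le hj
    have h1 : (CONV_proj hD m).1 =
        fun e => homogeneousComponent i ((CONV_proj hD m).1 e) := by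
      refine CONV_proj_eq hD m (hD.h.2.2 _ (Subtype.mem _) i) ?_
      have h2 := hD.h'.2.2 _ (CONV_proj_spec hD m) i
      convert h2 using 1
      funext e
      simp only [Pi.sub_apply, map_sub]
      rw [hc_of_HZ i (hm e), if_pos rfl]
    rw [h1]
    intro e
    exact hc_HZ i _

theorem CONV_incl_mem {M : Bim k n} {C : Submodule (R k n) (M.X → R k n)} (h : IsSub M C) :
    (Submodule.inclusion h.1 : (subBim M C h).L →ₗ[R k n] M.L) ∈
      Bim.Hom (subBim M C h) M 0 := by
  refine ⟨fun r m => rfl, fun j m hm => ?_⟩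
  rw [add_zero]
  exact hm

theorem CONV_proj_mem {M : Bim k n} {C C' : Submodule (R k n) (M.X → R k n)}
    (hD : CONV_Data M C C') :
    (CONV_proj hD : M.L →ₗ[R k n] (subBim M C hD.h).L) ∈ Bim.Hom M (subBim M C hD.h) 0 := by
  refine ⟨fun r m => ?_, fun j m hm => ?_⟩
  · apply Subtype.ext
    exact CONV_proj_right hD r m
  · rw [add_zero]
    exact CONV_proj_deg hD j m hm

/-- the image of a homomorphism is closed under the right action and the homogeneous components -/
theorem CONV_range {B M : Bim k n} {φ : B.L →ₗ[R k n] M.L} (hφ : φ ∈ Bim.Hom B M 0) :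
    IsSub M ((LinearMap.range φ).map M.L.subtype) := by
  refine ⟨?_, ?_, ?_⟩
  · rintro _ ⟨m, _, rfl⟩
    exact m.2
  · rintro _ ⟨_, ⟨c, rfl⟩, rfl⟩ r
    exact ⟨_, ⟨B.rmul r c, rfl⟩, by rw [hφ.1 r c]; rfl⟩
  · rintro _ ⟨_, ⟨c, rfl⟩, rfl⟩ j
    obtain ⟨D, b, hb, hc⟩ := hom_decomp B c
    by_cases hj : j < D
    · refine ⟨_, ⟨b j, rfl⟩, ?_⟩
      funext e
      have h1 : (φ c).1 e = ∑ i ∈ Finset.range D, (φ (b i)).1 e := by
        rw [hc, map_sum]
        simp
      show (φ (b j)).1 e = homogeneousComponent j ((φ c).1 e)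
      rw [h1, map_sum, Finset.sum_eq_single j]
      · have h2 := hφ.2 j (b j) (hb j) e
        rw [add_zero] at h2
        rw [hc_of_HZ j h2, if_pos rfl]
      · intro i _ hij
        have h2 := hφ.2 i (b i) (hb i) e
        rw [add_zero] at h2
        rw [hc_of_HZ j h2, if_neg]
        intro h3
        exact hij (by exact_mod_cast h3.symm)
      · intro h3
        exact absurd (Finset.mem_range.mpr hj) h3
    · refine ⟨0, ⟨0, map_zero _⟩, ?_⟩
      funext e
      have h1 : (φ c).1 e = ∑ i ∈ Finset.range D, (φ (b i)).1 e := by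
        rw [hc, map_sum]
        simp
      show (0 : R k n) = homogeneousComponent j ((φ c).1 e)
      rw [h1, map_sum, Finset.sum_eq_zero]
      intro i hi
      have h2 := hφ.2 i (b i) (hb i) e
      rw [add_zero] at h2
      rw [hc_of_HZ j h2, if_neg]
      intro h3
      apply hj
      rw [Finset.mem_range] at hi
      have : j = i := by exact_mod_cast h3
      omega

theorem CONV_range_bot {B M : Bim k n} {φ : B.L →ₗ[R k n] M.L}
    (h : (LinearMap.range φ).map M.L.subtype = ⊥) : φ = 0 := by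
  apply LinearMap.ext
  intro x
  have h1 : (φ x).1 ∈ (LinearMap.range φ).map M.L.subtype := ⟨_, ⟨x, rfl⟩, rfl⟩
  rw [h, Submodule.mem_bot] at h1
  exact Subtype.ext h1

theorem CONV_indec {M : Bim k n} {C : Submodule (R k n) (M.X → R k n)} (h : IsSub M C)
    (hC : ∀ P Q, IsSub M P → IsSub M Q → P ⊓ Q = ⊥ → P ⊔ Q = C → P = ⊥ ∨ Q = ⊥) :
    Indec (subBim M C h) := by
  intro e he hee
  have hf : (LinearMap.id - e : (subBim M C h).L →ₗ[R k n] (subBim M C h).L) ∈
      Bim.Hom (subBim M C h) (subBim M C h) 0 := by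
    have h0 := (Bim.Hom (subBim M C h) (subBim M C h) 0).add_mem (Hom_id _)
      ((Bim.Hom (subBim M C h) (subBim M C h) 0).smul_mem (-1 : k) he)
    convert h0 using 1
    apply LinearMap.ext
    intro x
    rw [LinearMap.sub_apply, LinearMap.add_apply, LinearMap.smul_apply, neg_smul, one_smul,
      sub_eq_add_neg]
  have h1 := CONV_range he
  have h2 := CONV_range hf
  have hee2 : ∀ x, e (e x) = e x := fun x => LinearMap.congr_fun hee x
  have hle1 : (LinearMap.range e).map (subBim M C h).L.subtype ≤ C := h1.1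
  have hle2 : (LinearMap.range (LinearMap.id - e)).map (subBim M C h).L.subtype ≤ C := h2.1
  have key := hC ((LinearMap.range e).map (subBim M C h).L.subtype)
    ((LinearMap.range (LinearMap.id - e)).map (subBim M C h).L.subtype)
    ⟨hle1.trans h.1, h1.2.1, h1.2.2⟩ ⟨hle2.trans h.1, h2.2.1, h2.2.2⟩ ?_ ?_
  · rcases key with h3 | h3
    · left
      exact CONV_range_bot h3
    · right
      exact (sub_eq_zero.mp (CONV_range_bot h3)).symm
  · rw [eq_bot_iff]
    rintro x ⟨⟨_, ⟨a, rfl⟩, ha⟩, ⟨_, ⟨b, rfl⟩, hb⟩⟩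
    have h3 : e a = (LinearMap.id - e : (subBim M C h).L →ₗ[R k n] (subBim M C h).L) b := by
      apply Subtype.ext
      exact ha.trans hb.symm
    have h4 : e (e a) = 0 := by
      rw [h3, LinearMap.sub_apply, LinearMap.id_apply, map_sub, hee2, sub_self]
    rw [hee2] at h4
    rw [Submodule.mem_bot, ← ha, h4]
    rfl
  · apply le_antisymm (sup_le hle1 hle2)
    intro x hx
    have h3 : x = (e ⟨x, hx⟩).1 +
        ((LinearMap.id - e : (subBim M C h).L →ₗ[R k n] (subBim M C h).L) ⟨x, hx⟩).1 := by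
      rw [LinearMap.sub_apply, LinearMap.id_apply]
      simp
    rw [h3]
    exact Submodule.add_mem_sup ⟨_, ⟨_, rfl⟩, rfl⟩ ⟨_, ⟨_, rfl⟩, rfl⟩

theorem CONV_aux (w : List (Fin n)) (hw : w.length = len (prd w)) (B : Bim k n)
    (hB : (BS k w).toBim = B) (C : Submodule (R k n) (B.X → R k n)) (h : IsSub B C)
    (h1 : ∃ C', IsSub B C' ∧ C ⊓ C' = ⊥ ∧ C ⊔ C' = B.L)
    (h2 : ∀ P Q, IsSub B P → IsSub B Q → P ⊓ Q = ⊥ → P ⊔ Q = C → P = ⊥ ∨ Q = ⊥)
    (h3 : ∃ m ∈ C, ∃ e, B.pr e = prd w ∧ m e ≠ 0) :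
    ∃ Z : Bz k w, ∀ (y : W n) (d : ℤ), Z.C.ch y d = (subBim B C h).ch y d := by
  subst hB
  obtain ⟨C', hC', hinf, hsup⟩ := h1
  have hD : CONV_Data (BS k w).toBim C C' := ⟨h, hC', hinf, hsup⟩
  have hι := CONV_incl_mem h
  have hr := CONV_proj_mem hD
  have hrι : (CONV_proj hD : (BS k w).L →ₗ[R k n] (subBim (BS k w).toBim C h).L) ∘ₗ
      (Submodule.inclusion h.1 : (subBim (BS k w).toBim C h).L →ₗ[R k n] (BS k w).L) =
        LinearMap.id := by
    apply LinearMap.ext
    intro x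
    apply Subtype.ext
    exact CONV_proj_self hD _ x.2
  set φ : (BS k w).L →ₗ[R k n] (BS k w).L :=
    (Submodule.inclusion h.1 : (subBim (BS k w).toBim C h).L →ₗ[R k n] (BS k w).L) ∘ₗ
      (CONV_proj hD : (BS k w).L →ₗ[R k n] (subBim (BS k w).toBim C h).L) with hφ
  have hφm : φ ∈ Bim.Hom (BS k w).toBim (BS k w).toBim 0 := by
    have := Hom_comp hr hι
    rwa [add_zero] at this
  obtain ⟨m, hm, e, he, hme⟩ := h3
  have he2 : e = top k w := eq_top w hw e he
  subst he2
  have h4 := chi_mul w hw hφm ⟨m, h.1 hm⟩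
  have h5 : (φ ⟨m, h.1 hm⟩).1 = m := CONV_proj_self hD ⟨m, h.1 hm⟩ hm
  rw [h5] at h4
  have h6 : (φ (one k w)).1 (top k w) = 1 := by
    have h7 : m (top k w) * ((φ (one k w)).1 (top k w) - 1) = 0 := by
      rw [mul_sub, mul_one, sub_eq_zero]
      exact h4.symm
    rcases mul_eq_zero.mp h7 with h8 | h8
    · exact absurd h8 hme
    · exact sub_eq_zero.mp h8
  exact ⟨⟨subBim (BS k w).toBim C h, Submodule.inclusion h.1, CONV_proj hD, hι, hr, hrι,
    CONV_indec h h2, h6⟩, fun y d => rfl⟩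

/-- from the definition to `Bz` (projection along the complement) -/
theorem bz_of_isPCan {z : W n} {c : W n → ℤ → ℕ} (h : IsPCan k z c) :
    ∃ w : List (Fin n), prd w = z ∧ w.length = len z ∧ ∃ Z : Bz k w,
      ∀ (y : W n) (d : ℤ), Z.C.ch y d = c y (len z - len y - 2 * d) := by
  obtain ⟨w, hw1, hw2, C, hC, hBz, hc⟩ := h
  refine ⟨w, hw1, hw2, ?_⟩
  obtain ⟨Z, hZ⟩ := CONV_aux w (by rw [hw1]; exact hw2) (BSb k w) (BS_toBim w) C hC hBz.2.1
    hBz.2.2.1 hBz.2.2.2
  exact ⟨Z, fun y d => by rw [hZ, (hc y).1 d]⟩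

end

end Pool.Agent.PCan
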