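import Pool.Agent.PCan.Conv

/-! MODULE CONV2. -/

open MvPolynomial

namespace Pool.Agent.PCan

noncomputable section

variable {k : Type} [Field k] {n : ℕ}

/-- the image of a retract has a complement -/
theorem CONV2_compl {B M : Bim k n} {ι : B.L →ₗ[R k n] M.L} {r : M.L →ₗ[R k n] B.L}
    (hι : ι ∈ Bim.Hom B M 0) (hr : r ∈ Bim.Hom M B 0) (h : r ∘ₗ ι = LinearMap.id) :
    CONV_Data M ((LinearMap.range ι).map M.L.subtype)
      ((LinearMap.range (LinearMap.id - ι ∘ₗ r)).map M.L.subtype) := by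
  have hri : ∀ x, r (ι x) = x := fun x => LinearMap.congr_fun h x
  have hf : (LinearMap.id - ι ∘ₗ r : M.L →ₗ[R k n] M.L) ∈ Bim.Hom M M 0 := by
    have h1 := Hom_comp hr hι
    rw [add_zero] at h1
    have h0 := (Bim.Hom M M 0).add_mem (Hom_id M) ((Bim.Hom M M 0).smul_mem (-1 : k) h1)
    convert h0 using 1
    apply LinearMap.ext
    intro x
    rw [LinearMap.sub_apply, LinearMap.add_apply, LinearMap.smul_apply, neg_smul, one_smul,
      sub_eq_add_neg]
  refine ⟨CONV_range hι, CONV_range hf, ?_, ?_⟩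
  · rw [eq_bot_iff]
    rintro x ⟨⟨_, ⟨a, rfl⟩, ha⟩, ⟨_, ⟨b, rfl⟩, hb⟩⟩
    have h3 : ι a = (LinearMap.id - ι ∘ₗ r : M.L →ₗ[R k n] M.L) b := by
      apply Subtype.ext
      exact ha.trans hb.symm
    have h4 : a = 0 := by
      rw [← hri a, h3, LinearMap.sub_apply, LinearMap.id_apply, LinearMap.comp_apply, map_sub,
        hri, sub_self]
    rw [Submodule.mem_bot, ← ha, h4, map_zero]
    rfl
  · apply le_antisymm (sup_le (CONV_range hι).1 (CONV_range hf).1)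
    intro x hx
    have h3 : x = (ι (r ⟨x, hx⟩)).1 +
        ((LinearMap.id - ι ∘ₗ r : M.L →ₗ[R k n] M.L) ⟨x, hx⟩).1 := by
      rw [LinearMap.sub_apply, LinearMap.id_apply, LinearMap.comp_apply]
      simp
    rw [h3]
    exact Submodule.add_mem_sup ⟨_, ⟨_, rfl⟩, rfl⟩ ⟨_, ⟨_, rfl⟩, rfl⟩

theorem CONV2_indec {B M : Bim k n} {ι : B.L →ₗ[R k n] M.L} {r : M.L →ₗ[R k n] B.L}
    (hι : ι ∈ Bim.Hom B M 0) (hr : r ∈ Bim.Hom M B 0) (h : r ∘ₗ ι = LinearMap.id)
    (hB : Indec B) (P Q : Submodule (R k n) (M.X → R k n)) (hP : IsSub M P) (hQ : IsSub M Q)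
    (hPQ : P ⊓ Q = ⊥) (hPQ2 : P ⊔ Q = (LinearMap.range ι).map M.L.subtype) :
    P = ⊥ ∨ Q = ⊥ := by
  have hri : ∀ x, r (ι x) = x := fun x => LinearMap.congr_fun h x
  have hC := CONV_range hι
  set C := (LinearMap.range ι).map M.L.subtype with hCdef
  have hPC : P ≤ C := by rw [← hPQ2]; exact le_sup_left
  have hQC : Q ≤ C := by rw [← hPQ2]; exact le_sup_right
  have hir : ∀ x (hx : x ∈ C), (ι (r ⟨x, hC.1 hx⟩)).1 = x := by
    intro x hx
    obtain ⟨_, ⟨a, rfl⟩, ha⟩ := hx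
    have h1 : (⟨x, hC.1 ⟨_, ⟨a, rfl⟩, ha⟩⟩ : M.L) = ι a := Subtype.ext ha.symm
    rw [h1, hri]
    exact ha
  have hD : CONV_Data (subBim M C hC) P Q :=
    ⟨⟨hPC, hP.2.1, hP.2.2⟩, ⟨hQC, hQ.2.1, hQ.2.2⟩, hPQ, hPQ2⟩
  -- the map to the image
  have hmem : ∀ x : B.L, (ι x).1 ∈ C := fun x => ⟨_, ⟨x, rfl⟩, rfl⟩
  let j : B.L →ₗ[R k n] (subBim M C hC).L :=
    { toFun := fun x => ⟨(ι x).1, hmem x⟩
      map_add' := by
        intro x y
        apply Subtype.ext
        show (ι (x + y)).1 = (ι x).1 + (ι y).1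
        rw [map_add]
        rfl
      map_smul' := by
        intro a x
        apply Subtype.ext
        show (ι (a • x)).1 = a • (ι x).1
        rw [map_smul]
        rfl }
  have hj : j ∈ Bim.Hom B (subBim M C hC) 0 := by
    refine ⟨fun p m => ?_, fun i m hm => hι.2 i m hm⟩
    apply Subtype.ext
    have h1 : (ι (B.rmul p m)).1 = (M.rmul p (ι m)).1 := by rw [hι.1 p m]
    exact h1
  have hπ := CONV_proj_mem hD
  have hin1 := CONV_incl_mem hD.h
  have hin2 := CONV_incl_mem hC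
  set π : (subBim M C hC).L →ₗ[R k n] (subBim (subBim M C hC) P hD.h).L := CONV_proj hD with hπdef
  let i1 : (subBim (subBim M C hC) P hD.h).L →ₗ[R k n] (subBim M C hC).L :=
    Submodule.inclusion hD.h.1
  let i2 : (subBim M C hC).L →ₗ[R k n] M.L := Submodule.inclusion hC.1
  let e : B.L →ₗ[R k n] B.L := r ∘ₗ i2 ∘ₗ i1 ∘ₗ π ∘ₗ j
  have he : e ∈ Bim.Hom B B 0 := by
    have h1 := Hom_comp (Hom_comp (Hom_comp (Hom_comp hj hπ) hin1) hin2) hr
    simp only [add_zero] at h1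
    exact h1
  have hie : ∀ x, (ι (e x)).1 = (π (j x)).1 := by
    intro x
    have hx : (π (j x)).1 ∈ P := (π (j x)).2
    exact hir _ (hPC hx)
  have hje : ∀ x, (j (e x)).1 = (π (j x)).1 := hie
  have hee : e ∘ₗ e = e := by
    apply LinearMap.ext
    intro x
    have h1 : ι (e (e x)) = ι (e x) := by
      apply Subtype.ext
      rw [hie (e x), hie x]
      have h2 : (j (e x)).1 ∈ P := by
        rw [hje x]
        exact (π (j x)).2
      have h3 := CONV_proj_self hD (j (e x)) h2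
      exact h3.trans (hje x)
    have h2 := congrArg r h1
    rwa [hri, hri] at h2
  rcases hB e he hee with h0 | h0
  · left
    rw [eq_bot_iff]
    intro p hp
    obtain ⟨_, ⟨a, rfl⟩, ha⟩ := hPC hp
    have h1 : (π (j a)).1 = p := by
      have h2 : (j a).1 = p := ha
      have h3 := CONV_proj_self hD (j a) (by rw [h2]; exact hp)
      exact h3.trans h2
    have h2 := hie a
    rw [h0, LinearMap.zero_apply, map_zero] at h2
    rw [Submodule.mem_bot, ← h1, ← h2]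
    rfl
  · right
    rw [eq_bot_iff, ← hPQ]
    intro q hq
    refine ⟨?_, hq⟩
    obtain ⟨_, ⟨a, rfl⟩, ha⟩ := hQC hq
    have h2 := hie a
    rw [h0, LinearMap.id_apply] at h2
    have h3 : (ι a).1 = q := ha
    rw [← h3, h2]
    exact (π (j a)).2

theorem CONV2_aux (w : List (Fin n)) (B : Bim k n)
    (hB : (BS k w).toBim = B) (Z : Bz k w) :
    ∃ (C : Submodule (R k n) (B.X → R k n)) (_ : IsSub B C),
      (∃ C', IsSub B C' ∧ C ⊓ C' = ⊥ ∧ C ⊔ C' = B.L) ∧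
      (∀ P Q, IsSub B P → IsSub B Q → P ⊓ Q = ⊥ → P ⊔ Q = C → P = ⊥ ∨ Q = ⊥) ∧
      ∃ m ∈ C, ∃ e, B.pr e = prd w ∧ m e ≠ 0 := by
  subst hB
  have hD := CONV2_compl Z.hι Z.hr Z.rι
  refine ⟨_, hD.h, ⟨_, hD.h', hD.inf, hD.sup⟩, CONV2_indec Z.hι Z.hr Z.rι Z.indec, ?_⟩
  refine ⟨(Z.ι (Z.r (one k w))).1, ⟨_, ⟨_, rfl⟩, rfl⟩, top k w, pr_top w, ?_⟩
  rw [Z.top1]
  exact one_ne_zero

/-- from `Bz` to the definition (the image of `ι`) -/
theorem isPCan_of_bz (w : List (Fin n)) (hw : w.length = len (prd w)) (Z : Bz k w) :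
    ∃ c, IsPCan k (prd w) c := by
  classical
  obtain ⟨C, hC, h1, h2, h3⟩ := CONV2_aux w (BSb k w) (BS_toBim w) Z
  refine ⟨fun y i => if h : ∃ d : ℤ, i = len (prd w) - len y - 2 * d then
    (subBim (BSb k w) C hC).ch y h.choose else 0, w, rfl, hw, C, hC, ⟨hC, h1, h2, h3⟩, ?_⟩
  intro y
  refine ⟨fun d => ?_, fun i hi => ?_⟩
  · have h : ∃ d' : ℤ, (len (prd w) : ℤ) - len y - 2 * d = len (prd w) - len y - 2 * d' :=
      ⟨d, rfl⟩
    show (if h : ∃ d' : ℤ, (len (prd w) : ℤ) - len y - 2 * d = len (prd w) - len y - 2 * d' then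
      (subBim (BSb k w) C hC).ch y h.choose else 0) = _
    rw [dif_pos h]
    have h4 : h.choose = d := by
      have := h.choose_spec
      omega
    rw [h4]
  · show (if h : ∃ d : ℤ, i = len (prd w) - len y - 2 * d then
      (subBim (BSb k w) C hC).ch y h.choose else 0) = 0
    rw [dif_neg]
    rintro ⟨d, hd⟩
    exact hi d hd

end

end Pool.Agent.PCan
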