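import Pool.Agent.PCan.Eco

/-! MODULE COST : costalks and functionals on stalks (consequences of (E) and (T)). -/

open MvPolynomial

namespace Pool.Agent.PCan

noncomputable section

variable {k : Type} [Field k] {n : ℕ}

/-- a homogeneous element of the costalk at `z` is `piz z` times an element of the stalk -/
theorem costalk_div (M : Obj k n) (z : W n) (d : ℤ) (m : M.X → R k n)
    (hm : m ∈ M.costalk z) (hd : m ∈ HF k n M.X (d + len z)) :
    ∃ g ∈ M.stalk z, g ∈ HF k n M.X d ∧ m = (piz z : R k n) • g := by
  obtain ⟨w, hw1, hw2⟩ := exists_reduced z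
  subst hw1
  obtain ⟨a, ha, h⟩ := eco w hw2 M d m hm hd
  have h1 : (piz (prd w) : R k n) • res M.pr (prd w) (a (one k w)).1 = m := by
    rw [h (one k w)]
    show (1 : R k n) • m = m
    rw [one_smul]
  refine ⟨res M.pr (prd w) (a (one k w)).1, (M.st (prd w) (a (one k w))).2, ?_, h1.symm⟩
  intro e
  have h2 : (one k w).1 ∈ HF k n (BS k w).X 0 := by
    intro e
    show (1 : R k n) ∈ HZ k n 0
    have := C_HZ (n := n) (1 : k)
    simpa using this
  have h3 := ha.2 0 (one k w) h2 e
  rw [zero_add] at h3
  show (if M.pr e = prd w then (a (one k w)).1 e else 0) ∈ HZ k n d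
  split_ifs
  · exact h3
  · exact Submodule.zero_mem _

/-- functionals on the stalk at `z` are given by elements of the costalk -/
theorem stalk_functional (M : Obj k n) (z : W n) (ψ : M.stalk z →ₗ[R k n] R k n) :
    ∃ f : M.L, f.1 ∈ M.costalk z ∧
      (∀ h : M.L, tau M.eul (fun e => io (f.1 e * h.1 e)) = io (ψ (M.st z h))) ∧
      ∀ d : ℤ, (∀ (j : ℤ) (s : M.stalk z), s.1 ∈ HF k n M.X j → ψ s ∈ HZ k n (j + d)) →
        f.1 ∈ HF k n M.X (d + M.D) := by
  obtain ⟨f, hf⟩ := rep M (ψ ∘ₗ M.st z)
  refine ⟨f, ⟨f.2, ?_⟩, hf, fun d hd => ?_⟩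
  · intro e he
    -- `f` is orthogonal to the multiples of the point function at `e`
    obtain ⟨r, hr0, hr⟩ := M.full e
    have h1 := hf ⟨Pi.single e r, hr⟩
    have h2 : M.st z ⟨Pi.single e r, hr⟩ = 0 := by
      apply Subtype.ext
      funext e'
      show (if M.pr e' = z then (Pi.single e r : M.X → R k n) e' else 0) = 0
      split_ifs with h
      · have : e' ≠ e := by
          rintro rfl
          exact he h
        simp [this]
      · rfl
    have h3 : (ψ ∘ₗ M.st z) ⟨Pi.single e r, hr⟩ = 0 := by
      rw [LinearMap.comp_apply, h2, map_zero]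
    rw [h3, map_zero] at h1
    unfold tau at h1
    rw [Finset.sum_eq_single e] at h1
    · have h4 : io (f.1 e * r) = (0 : K k n) := by
        have h5 : io (M.eul e) ≠ (0 : K k n) := io_ne (M.eul_ne e)
        have h6 := (div_eq_zero_iff.mp h1).resolve_right h5
        simpa using h6
      have h7 : f.1 e * r = 0 := io_inj (by rw [h4, map_zero])
      exact (mul_eq_zero.mp h7).resolve_right hr0
    · intro e' _ he'
      simp [he']
    · intro h
      exact absurd (Finset.mem_univ e) h
  · refine rep_deg M d f (fun j h hh => ?_)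
    have h8 : (M.st z h).1 ∈ HF k n M.X j := by
      intro e
      show (if M.pr e = z then h.1 e else 0) ∈ HZ k n j
      split_ifs
      · exact hh e
      · exact Submodule.zero_mem _
    exact ⟨_, hd j _ h8, hf h⟩

end

end Pool.Agent.PCan
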