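import Mathlib

/-!
MP_c7d2ee_al : p-canonical basis of S_(n+1).  Basic definitions.
Theory: team-store MP_c7d2ee_al_theory_helper10.md
-/

open MvPolynomial

namespace Pool.Agent.PCan

/-- The symmetric group on the positions `0..n`. -/
abbrev W (n : ℕ) := Equiv.Perm (Fin (n + 1))

/-- The polynomial ring `k[x_0..x_n]`. -/
abbrev R (k : Type) [Field k] (n : ℕ) := MvPolynomial (Fin (n + 1)) k

noncomputable section

section basics

variable (k : Type) [Field k] (n : ℕ)

/-- Homogeneous polynomials of degree `d` (an integer; only `0` if `d < 0`). -/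
def HZ (d : ℤ) : Submodule k (R k n) where
  carrier := {p | ∀ m : Fin (n + 1) →₀ ℕ, coeff m p ≠ 0 → ((m.degree : ℕ) : ℤ) = d}
  add_mem' := by
    intro p q hp hq m hm
    by_cases h : coeff m p = 0
    · refine hq m ?_
      intro h2
      apply hm
      rw [coeff_add, h, h2, add_zero]
    · exact hp m h
  zero_mem' := by
    intro m hm
    simp at hm
  smul_mem' := by
    intro c p hp m hm
    refine hp m ?_
    intro h2
    apply hm
    rw [coeff_smul, h2, smul_zero]

/-- The ideal of polynomials without constant term. -/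
def Rp : Ideal (R k n) := RingHom.ker (constantCoeff (σ := Fin (n + 1)) (R := k))

variable {k n}

/-- The action `x_i ↦ x_(w i)`. -/
def act (w : W n) : R k n →ₐ[k] R k n := rename w

/-- simple reflection -/
def sr (i : Fin n) : W n := Equiv.swap i.castSucc i.succ

/-- root `x_a - x_b` -/
def rt (a b : Fin (n + 1)) : R k n := X a - X b

/-- simple root -/
def al (i : Fin n) : R k n := rt i.castSucc i.succ

/-- number of inversions -/
def len (w : W n) : ℕ :=
  (Finset.univ.filter
    (fun p : Fin (n + 1) × Fin (n + 1) => p.1 < p.2 ∧ w p.2 < w p.1)).card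

/-- product of the roots `x_a - x_b`, `a < b`, with `(a b) z < z` -/
def piz (z : W n) : R k n :=
  ∏ p ∈ Finset.univ.filter
    (fun p : Fin (n + 1) × Fin (n + 1) => p.1 < p.2 ∧ z.symm p.2 < z.symm p.1), rt p.1 p.2

variable (k n)

/-- functions with all values homogeneous of degree `d` -/
def HF (X : Type) (d : ℤ) : Submodule k (X → R k n) where
  carrier := {f | ∀ e, f e ∈ HZ k n d}
  add_mem' := by
    intro f g hf hg e
    exact (HZ k n d).add_mem (hf e) (hg e)
  zero_mem' := by
    intro e
    exact (HZ k n d).zero_mem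
  smul_mem' := by
    intro c f hf e
    exact (HZ k n d).smul_mem c (hf e)

variable {k n}

/-- homogeneous part of degree `d` of a submodule -/
def dg {X : Type} (S : Submodule (R k n) (X → R k n)) (d : ℤ) : Submodule k (X → R k n) :=
  S.restrictScalars k ⊓ HF k n X d

/-- restriction (extended by zero) to the points over `z` -/
def res {X : Type} (pr : X → W n) (z : W n) : (X → R k n) →ₗ[R k n] (X → R k n) where
  toFun m := fun e => if pr e = z then m e else 0
  map_add' := by
    intro m m'
    funext e
    by_cases h : pr e = z <;> simp [h]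
  map_smul' := by
    intro r m
    funext e
    by_cases h : pr e = z <;> simp [h]

end basics

/-- A graded bimodule inside the functions on a finite set of points over `W`:
left action pointwise, right action of `r` at the point `e` = multiplication by `(pr e)(r)`. -/
structure Bim (k : Type) [Field k] (n : ℕ) where
  X : Type
  [fin : Fintype X]
  [dec : DecidableEq X]
  pr : X → W n
  L : Submodule (R k n) (X → R k n)
  right' : ∀ m ∈ L, ∀ r : R k n, (fun e => act (pr e) r * m e) ∈ L
  graded' : ∀ m ∈ L, ∀ j : ℕ, (fun e => homogeneousComponent j (m e)) ∈ L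

attribute [instance] Bim.fin Bim.dec

namespace Bim

variable {k : Type} [Field k] {n : ℕ}

/-- right multiplication -/
def rmul (M : Bim k n) (r : R k n) : M.L →ₗ[R k n] M.L where
  toFun m := ⟨fun e => act (M.pr e) r * m.1 e, M.right' m.1 m.2 r⟩
  map_add' := by
    intro m m'
    apply Subtype.ext
    funext e
    simp [mul_add]
  map_smul' := by
    intro c m
    apply Subtype.ext
    funext e
    simp [mul_left_comm]

/-- the stalk at `z` (functions extended by zero) -/
def stalk (M : Bim k n) (z : W n) : Submodule (R k n) (M.X → R k n) := M.L.map (res M.pr z)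

/-- the costalk at `z`: elements of `L` supported over `z` -/
def costalk (M : Bim k n) (z : W n) : Submodule (R k n) (M.X → R k n) where
  carrier := {m | m ∈ M.L ∧ ∀ e, M.pr e ≠ z → m e = 0}
  add_mem' := by
    intro a b ha hb
    exact ⟨M.L.add_mem ha.1 hb.1, fun e he => by simp [ha.2 e he, hb.2 e he]⟩
  zero_mem' := ⟨M.L.zero_mem, fun _ _ => rfl⟩
  smul_mem' := by
    intro c a ha
    exact ⟨M.L.smul_mem c ha.1, fun e he => by simp [ha.2 e he]⟩

/-- graded bimodule homomorphisms of degree `d` -/
def Hom (M M' : Bim k n) (d : ℤ) : Submodule k (M.L →ₗ[R k n] M'.L) where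
  carrier := {f | (∀ (r : R k n) (m : M.L), f (M.rmul r m) = M'.rmul r (f m)) ∧
    ∀ (j : ℤ) (m : M.L), m.1 ∈ HF k n M.X j → (f m).1 ∈ HF k n M'.X (j + d)}
  add_mem' := by
    intro f g hf hg
    refine ⟨fun r m => ?_, fun j m hm => ?_⟩
    · rw [LinearMap.add_apply, hf.1, hg.1, LinearMap.add_apply, map_add]
    · rw [LinearMap.add_apply]
      exact (HF k n M'.X (j + d)).add_mem (hf.2 j m hm) (hg.2 j m hm)
  zero_mem' := by
    refine ⟨fun r m => ?_, fun j m hm => ?_⟩
    · simp
    · exact (HF k n M'.X (j + d)).zero_mem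
  smul_mem' := by
    intro c f hf
    refine ⟨fun r m => ?_, fun j m hm => ?_⟩
    · rw [LinearMap.smul_apply, hf.1, LinearMap.smul_apply]
      apply Subtype.ext
      funext e
      show c • (act (M'.pr e) r * (f m).1 e) = act (M'.pr e) r * (c • (f m).1 e)
      rw [mul_smul_comm]
    · exact (HF k n M'.X (j + d)).smul_mem c (hf.2 j m hm)

/-- graded multiplicities of the stalk: `dim_k (L^z / R_+ L^z)_i` -/
def ch (M : Bim k n) (z : W n) (i : ℤ) : ℕ :=
  Module.finrank k (↥(dg (M.stalk z) i) ⧸
    (dg (Rp k n • M.stalk z) i).comap (dg (M.stalk z) i).subtype)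

/-- homogeneous elements `m` of degree `d` of the stalk at `z` such that `piz z • m`
(extended by zero) is in `L` -/
def lift (M : Bim k n) (z : W n) (d : ℤ) : Submodule k (M.X → R k n) :=
  dg (M.stalk z) d ⊓ (M.L.restrictScalars k).comap
    ((LinearMap.lsmul (R k n) (M.X → R k n) (piz z)).restrictScalars k)

/-- local multiplicity: dimension of the image of `lift z d` in `(L^z / R_+ L^z)_d` -/
def mult (M : Bim k n) (z : W n) (d : ℤ) : ℕ :=
  Module.finrank k (↥(M.lift z d) ⧸
    (dg (Rp k n • M.stalk z) d).comap (M.lift z d).subtype)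

end Bim

/-- graded free with `r i` generators of degree `i` -/
def GFree {k : Type} [Field k] {n : ℕ} {X : Type} (S : Submodule (R k n) (X → R k n))
    (r : ℤ → ℕ) : Prop :=
  ∃ (J : Type) (_ : Fintype J) (b : J → X → R k n) (d : J → ℤ),
    (∀ j, b j ∈ HF k n X (d j)) ∧ LinearIndependent (R k n) b ∧
    Submodule.span (R k n) (Set.range b) = S ∧
    ∀ i, Nat.card {j // d j = i} = r i

/-- the fraction field of the polynomial ring -/
abbrev K (k : Type) [Field k] (n : ℕ) := FractionRing (R k n)

/-- the embedding of the polynomial ring in its fraction field -/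
def io {k : Type} [Field k] {n : ℕ} : R k n →+* K k n := algebraMap (R k n) (K k n)

/-- `x` is in the polynomial ring -/
def IsR {k : Type} [Field k] {n : ℕ} (x : K k n) : Prop := ∃ r : R k n, io r = x

/-- the trace `sum_e f_e / eul_e` -/
def tau {k : Type} [Field k] {n : ℕ} {X : Type} [Fintype X] (eul : X → R k n)
    (f : X → K k n) : K k n := ∑ e, f e / io (eul e)

/-- (F1) stalks are graded free -/
def PF1 {k : Type} [Field k] {n : ℕ} (M : Bim k n) (rk : W n → ℤ → ℕ) : Prop :=
  ∀ z, GFree (M.stalk z) (rk z)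

/-- (F2) if `t z > z` (`t = (a b)`, `a < b`) and `m_z = 0` then `m_tz` is divisible by the root -/
def PF2 {k : Type} [Field k] {n : ℕ} (M : Bim k n) : Prop :=
  ∀ (a b : Fin (n + 1)) (z : W n), a < b → z.symm a < z.symm b → ∀ m ∈ M.L,
    res M.pr z m = 0 → ∃ m' ∈ M.L, res M.pr (Equiv.swap a b * z) m =
      (rt a b : R k n) • res M.pr (Equiv.swap a b * z) m'

/-- (T) the trace form is integral -/
def PT1 {k : Type} [Field k] {n : ℕ} (M : Bim k n) (eul : M.X → R k n) : Prop :=
  ∀ g ∈ M.L, ∀ h ∈ M.L, IsR (tau eul (fun e => io (g e * h e)))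

/-- (T) the trace form is perfect -/
def PT2 {k : Type} [Field k] {n : ℕ} (M : Bim k n) (eul : M.X → R k n) : Prop :=
  ∀ f : M.X → K k n, (∀ h ∈ M.L, IsR (tau eul (fun e => f e * io (h e)))) →
    ∃ g ∈ M.L, ∀ e, f e = io (g e)

/-- `L` has full rank -/
def PFull {k : Type} [Field k] {n : ℕ} (M : Bim k n) : Prop :=
  ∀ e : M.X, ∃ r : R k n, r ≠ 0 ∧ Pi.single e r ∈ M.L

/-- Objects: bimodules with trace form, (F1), (F2), (T). -/
structure Obj (k : Type) [Field k] (n : ℕ) extends Bim k n where
  eul : X → R k n
  D : ℤ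
  rk : W n → ℤ → ℕ
  eul_ne : ∀ e, eul e ≠ 0
  eul_hom : ∀ e, eul e ∈ HZ k n D
  full : PFull toBim
  F1 : PF1 toBim rk
  F2 : PF2 toBim
  T1 : PT1 toBim eul
  T2 : PT2 toBim eul

end

end Pool.Agent.PCan
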