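import Pool.Agent.PCan.Phi

/-! MODULE ESTAR : every functional on the stalk at `z` is the top component of a homomorphism to
`BS(z)` (`z` reduced).

Proof.  Induction on the word, for all `M`.  Empty word: `b(m) = ψ(m_1)`.  Word `i :: w`: `Φ` from
`phi_exists` for `z' = prd w` (`reduced_tail`), `b'` from the induction for the object `M.tb i`,
`b` from `adj`. -/

open MvPolynomial

namespace Pool.Agent.PCan

noncomputable section

variable {k : Type} [Field k] {n : ℕ}

theorem ESTAR_st_rmul (M : Bim k n) (z : W n) (r : R k n) (m : M.L) :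
    M.st z (M.rmul r m) = act z r • M.st z m := by
  apply Subtype.ext
  funext e
  show (if M.pr e = z then act (M.pr e) r * m.1 e else 0) =
    act z r * (if M.pr e = z then m.1 e else 0)
  by_cases h : M.pr e = z
  · rw [if_pos h, if_pos h, h]
  · rw [if_neg h, if_neg h, mul_zero]

theorem ESTAR_st_HF (M : Bim k n) (z : W n) (j : ℤ) (m : M.L) (hm : m.1 ∈ HF k n M.X j) :
    (M.st z m).1 ∈ HF k n M.X j := by
  intro e
  show (if M.pr e = z then m.1 e else 0) ∈ HZ k n j
  by_cases h : M.pr e = z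
  · rw [if_pos h]; exact hm e
  · rw [if_neg h]; exact (HZ k n j).zero_mem

theorem ESTAR_unit_mem (f : Unit → R k n) : f ∈ (unitBim k n).L :=
  Submodule.mem_top (R := R k n) (M := Unit → R k n)

/-- the case of the empty word -/
theorem ESTAR_nil (M : Bim k n) (d : ℤ) (ψ : M.stalk 1 →ₗ[R k n] R k n)
    (hψ : ∀ (j : ℤ) (s : M.stalk 1), s.1 ∈ HF k n M.X j → ψ s ∈ HZ k n (j + d)) :
    ∃ b ∈ Bim.Hom M (unitBim k n) d, ∀ m : M.L, (b m).1 () = ψ (M.st 1 m) := by
  let b : M.L →ₗ[R k n] (unitBim k n).L :=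
    { toFun := fun m => ⟨fun _ => ψ (M.st 1 m), ESTAR_unit_mem _⟩
      map_add' := by
        intro m m'
        apply Subtype.ext
        funext _
        show ψ (M.st 1 (m + m')) = ψ (M.st 1 m) + ψ (M.st 1 m')
        rw [map_add, map_add]
      map_smul' := by
        intro c m
        apply Subtype.ext
        funext _
        show ψ (M.st 1 (c • m)) = c * ψ (M.st 1 m)
        rw [map_smul, map_smul, smul_eq_mul] }
  refine ⟨b, ⟨fun r m => ?_, fun j m hm => ?_⟩, fun m => rfl⟩
  · apply Subtype.ext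
    funext _
    show ψ (M.st 1 (M.rmul r m)) = act 1 r * ψ (M.st 1 m)
    rw [ESTAR_st_rmul, map_smul, smul_eq_mul]
  · intro _
    exact hψ j _ (ESTAR_st_HF M 1 j m hm)

theorem estar (w : List (Fin n)) (hw : w.length = len (prd w)) (M : Obj k n) (d : ℤ)
    (ψ : M.stalk (prd w) →ₗ[R k n] R k n)
    (hψ : ∀ (j : ℤ) (s : M.stalk (prd w)), s.1 ∈ HF k n M.X j → ψ s ∈ HZ k n (j + d)) :
    ∃ b ∈ Bim.Hom M.toBim (BS k w).toBim d,
      ∀ m : M.L, (b m).1 (top k w) = ψ (M.st (prd w) m) := by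
  induction w generalizing M d with
  | nil => exact ESTAR_nil M.toBim d ψ hψ
  | cons i w ih =>
    obtain ⟨h1, h2⟩ := reduced_tail hw
    obtain ⟨Φ, hΦ, hΦ'⟩ := phi_exists M i (prd w) h2 d ψ hψ
    obtain ⟨b', hb', hb''⟩ := ih h1 (M.tb i) (d - 1) Φ hΦ
    obtain ⟨b, hb, hbe⟩ := adj M.toBim (BS k w).toBim i (d - 1) b' hb'
    rw [sub_add_cancel] at hb
    refine ⟨b, hb, fun m => ?_⟩
    have e1 := (hbe m (top k w)).2
    have e2 := hb'' (rel M.toBim i m)
    have e3 := hΦ' m
    exact e1.trans (e2.trans e3)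

end

end Pool.Agent.PCan
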