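import Pool.Agent.PCan.Rep
import Pool.Agent.PCan.Estar

/-! MODULE ECO : every element of the costalk at `z` comes from a homomorphism `BS(z) → M`.

Proof.  `ψ(h_z) := tau(m h)` (`m` is supported over `z`), `b` from `estar`, `a` := transpose of `b`.
Let `c := piz z` at the top point, 0 elsewhere (`BS_costalk`).  `tau_M(a(c) h) = ± tau_M(m h)`
(`eul_top`), so `a(c) = ± m` (`tau_nondeg`).  For `g`: `piz z • g - g_top • c` is zero at the top point
(the only point over `z`), so by `hom_res` `piz z • a(g)_z = g_top • a(c)_z = ± g_top m`.  Change the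
sign of `a`. -/

open MvPolynomial

namespace Pool.Agent.PCan

noncomputable section

variable {k : Type} [Field k] {n : ℕ}

theorem ECO_tau_smul {X : Type} [Fintype X] (eul : X → R k n) (c : K k n) (f : X → K k n) :
    tau eul (fun e => c * f e) = c * tau eul f := by
  unfold tau
  rw [Finset.mul_sum]
  apply Finset.sum_congr rfl
  intro e _
  rw [mul_div_assoc]

theorem ECO_tau_add {X : Type} [Fintype X] (eul : X → R k n) (f g : X → K k n) :
    tau eul (fun e => f e + g e) = tau eul f + tau eul g := by
  unfold tau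
  rw [← Finset.sum_add_distrib]
  apply Finset.sum_congr rfl
  intro e _
  rw [add_div]

/-- the functional given by an element of the costalk -/
theorem ECO_psi (M : Obj k n) (z : W n) (m : M.X → R k n) (hm : m ∈ M.costalk z) :
    ∃ ψ : M.stalk z →ₗ[R k n] R k n,
      ∀ s, io (ψ s) = tau M.eul (fun e => io (m e * s.1 e)) := by
  obtain ⟨hmL, hm0⟩ := hm
  have hIs : ∀ s : M.stalk z, IsR (tau M.eul (fun e => io (m e * s.1 e))) := by
    rintro ⟨s, hs⟩
    obtain ⟨h, hh, rfl⟩ := hs
    have h1 : (fun e => io (m e * (res M.pr z h) e)) = fun e => io (m e * h e) := by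
      funext e
      by_cases he : M.pr e = z
      · simp [res, he]
      · rw [hm0 e he]
        simp
    show IsR (tau M.eul (fun e => io (m e * (res M.pr z h) e)))
    rw [h1]
    exact M.T1 m hmL h hh
  choose ψ0 hψ0 using hIs
  refine ⟨{ toFun := ψ0, map_add' := ?_, map_smul' := ?_ }, hψ0⟩
  · intro s t
    apply io_inj
    rw [map_add, hψ0, hψ0, hψ0, ← ECO_tau_add]
    apply congrArg
    funext e
    rw [← map_add]
    congr 1
    show m e * (s.1 e + t.1 e) = _
    ring
  · intro r s
    apply io_inj
    rw [RingHom.id_apply, smul_eq_mul, map_mul, hψ0, hψ0, ← ECO_tau_smul]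
    apply congrArg
    funext e
    rw [← map_mul]
    congr 1
    show m e * (r * s.1 e) = _
    ring

/-- the computation, for an arbitrary object `N` with only one point `t` over `z` -/
theorem ECO_gen (N M : Obj k n) (z : W n) (t : N.X) (p ε : R k n) (hε : ε * ε = 1) (hp : p ≠ 0)
    (ht : ∀ e, N.pr e = z → e = t) (heul : N.eul t = ε * p) (hcL : Pi.single t p ∈ N.L)
    (m : M.X → R k n) (hm0 : ∀ e, M.pr e ≠ z → m e = 0) (ψ : M.stalk z →ₗ[R k n] R k n)
    (hψ : ∀ s, io (ψ s) = tau M.eul (fun e => io (m e * s.1 e)))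
    (b : M.L →ₗ[R k n] N.L) (hb' : ∀ h, (b h).1 t = ψ (M.st z h)) (D' : ℤ)
    (a : N.L →ₗ[R k n] M.L) (ha : a ∈ Bim.Hom N.toBim M.toBim D')
    (ha' : ∀ (g : N.L) (h : M.L), tau M.eul (fun e => io ((a g).1 e * h.1 e)) =
      tau N.eul (fun e => io (g.1 e * (b h).1 e))) (g : N.L) :
    p • res M.pr z (a g).1 = (g.1 t * ε) • m := by
  let c : N.L := ⟨Pi.single t p, hcL⟩
  have hεne : ε ≠ 0 := by
    intro h
    rw [h, zero_mul] at hε
    exact zero_ne_one hε
  have hc : ∀ h : M.L, tau M.eul (fun e => io ((a c).1 e * h.1 e)) =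
      tau M.eul (fun e => io ((ε * m e) * h.1 e)) := by
    intro h
    rw [ha' c h]
    have h1 : tau N.eul (fun e => io (c.1 e * (b h).1 e)) = io (ε * ψ (M.st z h)) := by
      unfold tau
      rw [Finset.sum_eq_single t]
      · have e1 : c.1 t = p := by
          show (Pi.single t p : N.X → R k n) t = p
          rw [Pi.single_eq_same]
        show io (c.1 t * (b h).1 t) / io (N.eul t) = _
        rw [e1, heul, hb' h, div_eq_iff (io_ne (mul_ne_zero hεne hp)), ← map_mul]
        congr 1
        linear_combination (-(p * ψ (M.st z h))) * hε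
      · intro e _ he
        have e1 : c.1 e = 0 := by
          show (Pi.single t p : N.X → R k n) e = 0
          rw [Pi.single_eq_of_ne he]
        show io (c.1 e * (b h).1 e) / io (N.eul e) = 0
        rw [e1, zero_mul, map_zero, zero_div]
      · intro h2
        exact absurd (Finset.mem_univ _) h2
    rw [h1, map_mul, hψ, ← ECO_tau_smul]
    apply congrArg
    funext e
    rw [← map_mul]
    congr 1
    by_cases he : M.pr e = z
    · have h2 : (M.st z h).1 e = h.1 e := if_pos he
      rw [h2]
      ring
    · rw [hm0 e he]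
      ring
  have hac : ∀ e, (a c).1 e = ε * m e := by
    have h1 := tau_nondeg M (fun e => io ((a c).1 e - ε * m e)) (by
      intro h hh
      have h2 := hc ⟨h, hh⟩
      have h3 : (fun e => io ((a c).1 e - ε * m e) * io (h e)) =
          fun e => io ((a c).1 e * h e) + (-1) * io ((ε * m e) * h e) := by
        funext e
        rw [← map_mul, sub_mul, map_sub]
        ring
      rw [h3, ECO_tau_add, ECO_tau_smul]
      have h2' : tau M.eul (fun e => io ((a c).1 e * h e)) =
        tau M.eul (fun e => io ((ε * m e) * h e)) := h2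
      rw [h2']
      ring)
    intro e
    have h2 : io ((a c).1 e - ε * m e) = 0 := congrFun h1 e
    rw [← map_zero (io : R k n →+* K k n)] at h2
    exact sub_eq_zero.1 (io_inj h2)
  obtain ⟨Φ, hΦ, _⟩ := st_map ha z
  have hz : N.st z (p • g - g.1 t • c) = 0 := by
    apply Subtype.ext
    funext e
    show (if N.pr e = z then (p * g.1 e - g.1 t * c.1 e) else 0) = 0
    split_ifs with he
    · have := ht e he
      subst this
      have e1 : c.1 e = p := by
        show (Pi.single e p : N.X → R k n) e = p
        rw [Pi.single_eq_same]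
      rw [e1]
      ring
    · rfl
  have h1 : M.st z (a (p • g - g.1 t • c)) = 0 := by
    rw [← hΦ, hz, map_zero]
  funext e
  have h2 := congrFun (congrArg Subtype.val h1) e
  rw [map_sub, map_smul, map_smul] at h2
  have h3 : (if M.pr e = z then (p * (a g).1 e - g.1 t * (a c).1 e) else 0) = 0 := h2
  show p * (if M.pr e = z then (a g).1 e else 0) = (g.1 t * ε) * m e
  split_ifs at h3 ⊢ with he
  · rw [hac e] at h3
    linear_combination h3
  · rw [hm0 e he]
    ring

theorem eco (w : List (Fin n)) (hw : w.length = len (prd w)) (M : Obj k n) (d : ℤ)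
    (m : M.X → R k n) (hm : m ∈ M.costalk (prd w)) (hd : m ∈ HF k n M.X (d + len (prd w))) :
    ∃ a ∈ Bim.Hom (BS k w).toBim M.toBim d, ∀ g : (BS k w).L,
      (piz (prd w) : R k n) • res M.pr (prd w) (a g).1 = g.1 (top k w) • m := by
  obtain ⟨ψ, hψ⟩ := ECO_psi M (prd w) m hm
  have hψd : ∀ (j : ℤ) (s : M.stalk (prd w)), s.1 ∈ HF k n M.X j →
      ψ s ∈ HZ k n (j + (d + len (prd w) - M.D)) := by
    intro j s hs
    have h1 := tau_deg M hd hs (hψ s).symm
    have h2 : (d + (len (prd w) : ℤ) + j - M.D) = j + (d + len (prd w) - M.D) := by ring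
    rwa [h2] at h1
  obtain ⟨b, hb, hb'⟩ := estar w hw M _ ψ hψd
  obtain ⟨a, ha, ha'⟩ := transpose M (BS k w) _ b hb
  have hdeg : (d + (len (prd w) : ℤ) - M.D) + M.D - (BS k w).D = d := by
    rw [BS_D, hw]
    ring
  rw [hdeg] at ha
  have hsq : ((-1 : R k n) ^ w.length) * (-1) ^ w.length = 1 := by
    rw [← mul_pow]
    simp
  have key := ECO_gen (BS k w) M (prd w) (top k w) (piz (prd w)) ((-1) ^ w.length) hsq
    (piz_ne _) (eq_top w hw) (eul_top w hw) (BS_costalk w hw) m hm.2 ψ hψ b hb' d a ha ha'
  rcases neg_one_pow_eq_or (R k n) w.length with h | h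
  · refine ⟨a, ha, fun g => ?_⟩
    rw [key g, h, mul_one]
  · refine ⟨(-1 : k) • a, Submodule.smul_mem _ _ ha, fun g => ?_⟩
    have h1 := key g
    rw [h] at h1
    funext e
    have h2 := congrFun h1 e
    have h3 : piz (prd w) * (if M.pr e = prd w then (a g).1 e else 0) =
      (g.1 (top k w) * -1) * m e := h2
    show piz (prd w) * (if M.pr e = prd w then (-1 : k) • (a g).1 e else 0) =
      g.1 (top k w) * m e
    split_ifs at h3 ⊢ with he
    · rw [neg_smul, one_smul]
      linear_combination -h3
    · linear_combination -h3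

end

end Pool.Agent.PCan
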