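import Pool.Agent.PCan.Unique

/-! The `p`-canonical basis element as an element of the Hecke algebra. -/

open MvPolynomial

namespace Pool.Agent.PCan

noncomputable section

variable {k : Type} [Field k] {n : ℕ}

/-- `β ∈ H` is the `p`-canonical basis element `^p b_x` (`p = char k`) of `S_(n+1)`: the coefficient
of `v^i H_y` in `β` is the number `c y i` of `IsPCan`. -/
def IsPCanonical (k : Type) [Field k] {n : ℕ} (x : W n) (β : Hk n) : Prop :=
  ∃ c, IsPCan k x c ∧ ∀ (y : W n) (i : ℤ), (β y).coeff i = (c y i : ℤ)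

theorem rk_finite (M : Obj k n) (y : W n) : {i : ℤ | M.rk y i ≠ 0}.Finite := by
  obtain ⟨J, hJ, b, d, _, _, _, hr⟩ := M.F1 y
  refine (Set.finite_range d).subset ?_
  intro i hi
  by_contra hcon
  apply hi
  rw [← hr i]
  have : IsEmpty {j // d j = i} := ⟨fun j => hcon ⟨j.1, j.2⟩⟩
  exact Nat.card_of_isEmpty

theorem ch_bz_le (w : List (Fin n)) (Z : Bz k w) (y : W n) (i : ℤ) :
    Z.C.ch y i ≤ (BS k w).rk y i := by
  have hr : Z.r ∈ Bim.Hom (BS k w).toBim Z.C (-0) := by
    rw [neg_zero]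
    exact Z.hr
  have h := ch_add Z.hι hr Z.rι y i
  rw [sub_zero, ch_obj] at h
  omega

theorem isPCan_finite {z : W n} {c : W n → ℤ → ℕ} (h : IsPCan k z c) (y : W n) :
    {i : ℤ | c y i ≠ 0}.Finite := by
  obtain ⟨w, hw, hl, Z, hZ⟩ := bz_of_isPCan h
  have h2 : ∀ i, (∀ d : ℤ, i ≠ len z - len y - 2 * d) → c y i = 0 := by
    obtain ⟨_, _, _, _, _, _, hc⟩ := h
    exact (hc y).2
  refine ((rk_finite (BS k w) y).image (fun d : ℤ => (len z : ℤ) - len y - 2 * d)).subset ?_
  intro i hi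
  by_cases hd : ∃ d : ℤ, i = len z - len y - 2 * d
  · obtain ⟨d, rfl⟩ := hd
    refine ⟨d, ?_, rfl⟩
    intro h0
    apply hi
    rw [← hZ y d]
    have := ch_bz_le w Z y d
    omega
  · exact absurd (h2 i (fun d hd' => hd ⟨d, hd'⟩)) hi

theorem isPCanonical_iff {x : W n} {c : W n → ℤ → ℕ} (h : IsPCan k x c) :
    ∃ β : Hk n, ∀ β' : Hk n, IsPCanonical k x β' ↔ β' = β := by
  have hf : ∀ y, (Function.support fun i => (c y i : ℤ)).Finite := by
    intro y
    refine (isPCan_finite h y).subset ?_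
    intro i hi h0
    apply hi
    show (c y i : ℤ) = 0
    rw [h0]
    rfl
  refine ⟨fun y => AddMonoidAlgebra.coeffEquiv.symm (Finsupp.ofSupportFinite _ (hf y)), ?_⟩
  intro β'
  constructor
  · rintro ⟨c', hc', hβ⟩
    have := isPCan_unique hc' h
    subst this
    funext y
    apply AddMonoidAlgebra.coeffEquiv.injective
    ext i
    rw [Equiv.apply_symm_apply]
    exact hβ y i
  · rintro rfl
    exact ⟨c, h, fun y i => rfl⟩

/-- the `p`-canonical basis exists and is unique -/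
theorem pcanonical_exists (k : Type) [Field k] (n : ℕ) :
    ∃ pb : W n → Hk n, ∀ (x : W n) (β : Hk n), IsPCanonical k x β ↔ β = pb x := by
  have h : ∀ x : W n, ∃ β : Hk n, ∀ β' : Hk n, IsPCanonical k x β' ↔ β' = β := by
    intro x
    obtain ⟨c, hc⟩ := exists_isPCan k x
    exact isPCanonical_iff hc
  choose pb hpb using h
  exact ⟨pb, hpb⟩

end

end Pool.Agent.PCan
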