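import Pool.Agent.PCan.Good

/-! MODULE SUM : complement of a split sub-bimodule. -/

open MvPolynomial

namespace Pool.Agent.PCan

noncomputable section

variable {k : Type} [Field k] {n : ℕ}

theorem ker_right {B C : Bim k n} {d : ℤ} {b : B.L →ₗ[R k n] C.L} (hb : b ∈ Bim.Hom B C d) :
    ∀ m ∈ (LinearMap.ker b).map B.L.subtype, ∀ r : R k n,
      (fun e => act (B.pr e) r * m e) ∈ (LinearMap.ker b).map B.L.subtype := by
  rintro m ⟨m', hm', rfl⟩ r
  refine ⟨B.rmul r m', ?_, rfl⟩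
  show b (B.rmul r m') = 0
  rw [hb.1, show b m' = 0 from hm', map_zero]

/-- homogeneous summands of different degrees -/
theorem SUM_zero {X : Type} (D : ℕ) (d : ℤ) (x : ℕ → X → R k n)
    (hx : ∀ j : ℕ, x j ∈ HF k n X ((j : ℤ) + d)) (h : ∑ j ∈ Finset.range D, x j = 0) :
    ∀ j < D, x j = 0 := by
  intro i hi
  funext e
  by_cases hneg : (i : ℤ) + d < 0
  · exact HZ_neg hneg (hx i e)
  · obtain ⟨m, hm⟩ := Int.eq_ofNat_of_zero_le (not_lt.1 hneg)
    have h1 := congrArg (homogeneousComponent m) (congrFun h e)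
    rw [Finset.sum_apply, map_sum] at h1
    rw [Finset.sum_eq_single i] at h1
    · rw [hc_of_HZ m (hx i e), if_pos hm.symm] at h1
      simpa using h1
    · intro j _ hji
      rw [hc_of_HZ m (hx j e), if_neg]
      intro hc
      apply hji
      omega
    · intro hc
      exact absurd (Finset.mem_range.2 hi) hc

theorem ker_graded {B C : Bim k n} {d : ℤ} {b : B.L →ₗ[R k n] C.L} (hb : b ∈ Bim.Hom B C d) :
    ∀ m ∈ (LinearMap.ker b).map B.L.subtype, ∀ j : ℕ,
      (fun e => homogeneousComponent j (m e)) ∈ (LinearMap.ker b).map B.L.subtype := by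
  rintro m ⟨m', hm', rfl⟩ i
  obtain ⟨D, c, hc, hsum⟩ := hom_decomp B m'
  have h1 : ∑ j ∈ Finset.range D, (b (c j)).1 = 0 := by
    have h2 : b m' = 0 := hm'
    rw [hsum, map_sum] at h2
    have h3 := congrArg Subtype.val h2
    rw [Submodule.coe_sum] at h3
    exact h3
  have h4 := SUM_zero D d (fun j : ℕ => (b (c j)).1) (fun j : ℕ => hb.2 j (c j) (hc j)) h1
  have h5 : ∀ e, homogeneousComponent i (m'.1 e) = if i < D then (c i).1 e else 0 := by
    intro e
    rw [hsum, Submodule.coe_sum, Finset.sum_apply, map_sum]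
    by_cases hi : i < D
    · rw [if_pos hi, Finset.sum_eq_single i]
      · rw [hc_of_HZ i (hc i e), if_pos rfl]
      · intro j _ hji
        rw [hc_of_HZ i (hc j e), if_neg]
        intro hh
        apply hji
        omega
      · intro hh
        exact absurd (Finset.mem_range.2 hi) hh
    · rw [if_neg hi]
      apply Finset.sum_eq_zero
      intro j hj
      rw [hc_of_HZ i (hc j e), if_neg]
      intro hh
      have := Finset.mem_range.1 hj
      omega
  by_cases hi : i < D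
  · refine ⟨c i, Subtype.ext (h4 i hi), ?_⟩
    funext e
    show (c i).1 e = homogeneousComponent i (m'.1 e)
    rw [h5 e, if_pos hi]
  · refine ⟨0, Submodule.zero_mem _, ?_⟩
    funext e
    show (0 : R k n) = homogeneousComponent i (m'.1 e)
    rw [h5 e, if_neg hi]

/-- the kernel of a homomorphism as a bimodule -/
def kerBim {B C : Bim k n} {d : ℤ} {b : B.L →ₗ[R k n] C.L} (hb : b ∈ Bim.Hom B C d) :
    Bim k n where
  X := B.X
  pr := B.pr
  L := (LinearMap.ker b).map B.L.subtype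
  right' := ker_right hb
  graded' := ker_graded hb

variable {B C : Bim k n} {d : ℤ} {a : C.L →ₗ[R k n] B.L} {b : B.L →ₗ[R k n] C.L}

theorem SUM_ker_le (hb : b ∈ Bim.Hom B C d) {m : B.X → R k n} (hm : m ∈ (kerBim hb).L) :
    ∃ h : m ∈ B.L, b ⟨m, h⟩ = 0 := by
  obtain ⟨m', hm', rfl⟩ := hm
  exact ⟨m'.2, hm'⟩

theorem SUM_ker_mem (hb : b ∈ Bim.Hom B C d) {m : B.L} (hm : b m = 0) :
    m.1 ∈ (kerBim hb).L := ⟨m, hm, rfl⟩

/-- inclusion of the kernel -/
def SUM_inc (hb : b ∈ Bim.Hom B C d) : (kerBim hb).L →ₗ[R k n] B.L where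
  toFun m := ⟨m.1, (SUM_ker_le hb m.2).1⟩
  map_add' := fun _ _ => rfl
  map_smul' := fun _ _ => rfl

/-- projection to the kernel -/
def SUM_pr (hb : b ∈ Bim.Hom B C (-d)) (h : b ∘ₗ a = LinearMap.id) :
    B.L →ₗ[R k n] (kerBim hb).L where
  toFun m := ⟨(m - a (b m)).1, SUM_ker_mem hb (by
    rw [map_sub]
    have h1 : b (a (b m)) = b m := congrArg (fun f => f (b m)) h
    rw [h1, sub_self])⟩
  map_add' := by
    intro m m'
    apply Subtype.ext
    show (m + m' - a (b (m + m'))).1 = (m - a (b m)).1 + (m' - a (b m')).1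
    rw [← Submodule.coe_add, map_add, map_add]
    congr 1
    abel
  map_smul' := by
    intro r m
    apply Subtype.ext
    show (r • m - a (b (r • m))).1 = r • (m - a (b m)).1
    rw [← Submodule.coe_smul, map_smul, map_smul, smul_sub]

theorem SUM_inc_hom (hb : b ∈ Bim.Hom B C d) : SUM_inc hb ∈ Bim.Hom (kerBim hb) B 0 := by
  refine ⟨fun r m => rfl, fun j m hm => ?_⟩
  rw [add_zero]
  exact hm

theorem SUM_pr_hom (ha : a ∈ Bim.Hom C B d) (hb : b ∈ Bim.Hom B C (-d))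
    (h : b ∘ₗ a = LinearMap.id) : SUM_pr hb h ∈ Bim.Hom B (kerBim hb) 0 := by
  refine ⟨fun r m => ?_, fun j m hm => ?_⟩
  · apply Subtype.ext
    show (B.rmul r m - a (b (B.rmul r m))).1 = fun e => act (B.pr e) r * (m - a (b m)).1 e
    rw [hb.1, ha.1, ← map_sub]
    rfl
  · rw [add_zero]
    show (m - a (b m)).1 ∈ HF k n B.X j
    have h1 := ha.2 _ _ (hb.2 j m hm)
    rw [show j + -d + d = j by ring] at h1
    exact (HF k n B.X j).sub_mem hm h1

theorem ker_good (hB : Good B) (ha : a ∈ Bim.Hom C B d) (hb : b ∈ Bim.Hom B C (-d))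
    (h : b ∘ₗ a = LinearMap.id) : Good (kerBim hb) := by
  refine good_retract hB (SUM_inc_hom hb) (SUM_pr_hom ha hb h) ?_
  apply LinearMap.ext
  intro m
  apply Subtype.ext
  obtain ⟨h1, h2⟩ := SUM_ker_le hb m.2
  show ((⟨m.1, h1⟩ : B.L) - a (b ⟨m.1, h1⟩)).1 = m.1
  rw [h2, map_zero, sub_zero]

theorem ker_rank (ha : a ∈ Bim.Hom C B d) (hb : b ∈ Bim.Hom B C (-d))
    (h : b ∘ₗ a = LinearMap.id) :
    Module.finrank (R k n) B.L = Module.finrank (R k n) C.L +
      Module.finrank (R k n) (kerBim hb).L := by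
  have h1 := (LinearMap.ker b).finrank_quotient_add_finrank
  have h2 : Function.Surjective b := fun c => ⟨a c, congrArg (fun f => f c) h⟩
  rw [(LinearMap.quotKerEquivOfSurjective b h2).finrank_eq] at h1
  rw [← h1]
  congr 1
  exact (Submodule.equivSubtypeMap B.L (LinearMap.ker b)).finrank_eq

/-! ### the stalks -/

/-- linear algebra: quotients of a direct sum -/
theorem SUM_quot {F V U T : Type} [Field F] [AddCommGroup V] [Module F V] [AddCommGroup U]
    [Module F U] [AddCommGroup T] [Module F T] [FiniteDimensional F U]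
    [FiniteDimensional F T] (V' : Submodule F V) (U' : Submodule F U) (T' : Submodule F T)
    (f : U →ₗ[F] V) (g : V →ₗ[F] U) (q : T →ₗ[F] V) (p : V →ₗ[F] T)
    (gf : ∀ u, g (f u) = u) (pq : ∀ x, p (q x) = x) (gq : ∀ x, g (q x) = 0)
    (pf : ∀ u, p (f u) = 0) (hsum : ∀ v, f (g v) + q (p v) = v)
    (hf : ∀ u ∈ U', f u ∈ V') (hg : ∀ v ∈ V', g v ∈ U') (hq : ∀ x ∈ T', q x ∈ V')
    (hp : ∀ v ∈ V', p v ∈ T') :
    Module.finrank F (V ⧸ V') = Module.finrank F (U ⧸ U') + Module.finrank F (T ⧸ T') := by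
  have e : (V ⧸ V') ≃ₗ[F] (U ⧸ U') × (T ⧸ T') := by
    refine LinearEquiv.ofLinearMap ((V'.mapQ U' g hg).prod (V'.mapQ T' p hp))
      ((U'.mapQ V' f hf).coprod (T'.mapQ V' q hq)) ?_ ?_
    · apply LinearMap.ext
      rintro ⟨u, x⟩
      obtain ⟨u, rfl⟩ := U'.mkQ_surjective u
      obtain ⟨x, rfl⟩ := T'.mkQ_surjective x
      simp [gf, pq, gq, pf]
    · apply LinearMap.ext
      intro v
      obtain ⟨v, rfl⟩ := V'.mkQ_surjective v
      show V'.mkQ (f (g v)) + V'.mkQ (q (p v)) = V'.mkQ v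
      rw [← map_add, hsum]
  rw [e.finrank_eq, Module.finrank_prod]

/-- restriction of an `R`-linear map to `k`-subspaces -/
def SUM_restr {X Y : Type} {S : Submodule (R k n) (X → R k n)}
    {T : Submodule (R k n) (Y → R k n)} (φ : S →ₗ[R k n] T) {P : Submodule k (X → R k n)}
    {Q : Submodule k (Y → R k n)} (hP : ∀ s ∈ P, s ∈ S)
    (hPQ : ∀ s : S, s.1 ∈ P → (φ s).1 ∈ Q) : P →ₗ[k] Q where
  toFun s := ⟨(φ ⟨s.1, hP _ s.2⟩).1, hPQ _ s.2⟩
  map_add' := by
    intro s t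
    apply Subtype.ext
    show (φ (⟨s.1, hP _ s.2⟩ + ⟨t.1, hP _ t.2⟩)).1 = _
    rw [map_add]
    rfl
  map_smul' := by
    intro c s
    apply Subtype.ext
    have h1 : (⟨(c • s).1, hP _ (c • s).2⟩ : S) = (MvPolynomial.C c : R k n) •
        ⟨s.1, hP _ s.2⟩ := by
      apply Subtype.ext
      funext e
      show c • s.1 e = MvPolynomial.C c * s.1 e
      rw [MvPolynomial.smul_eq_C_mul]
    show (φ ⟨(c • s).1, hP _ (c • s).2⟩).1 = c • (φ ⟨s.1, hP _ s.2⟩).1
    rw [h1, map_smul]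
    funext e
    show MvPolynomial.C c * _ = c • _
    rw [MvPolynomial.smul_eq_C_mul]

/-- `R`-linear maps respect `I S` -/
theorem SUM_smul {X Y : Type} {S : Submodule (R k n) (X → R k n)}
    {T : Submodule (R k n) (Y → R k n)} (φ : S →ₗ[R k n] T) (I : Ideal (R k n)) (s : S)
    (hs : s.1 ∈ I • S) : (φ s).1 ∈ I • T := by
  have key : ∀ v ∈ I • S, ∃ hv : v ∈ S, (φ ⟨v, hv⟩).1 ∈ I • T := by
    intro v hv
    induction hv using Submodule.smul_induction_on' with
    | smul r hr t ht =>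
      refine ⟨S.smul_mem r ht, ?_⟩
      have h1 : (⟨r • t, S.smul_mem r ht⟩ : S) = r • ⟨t, ht⟩ := rfl
      rw [h1, map_smul]
      exact Submodule.smul_mem_smul hr (φ ⟨t, ht⟩).2
    | add v hv w hw h1 h2 =>
      obtain ⟨hv', h1⟩ := h1
      obtain ⟨hw', h2⟩ := h2
      refine ⟨S.add_mem hv' hw', ?_⟩
      have h3 : (⟨v + w, S.add_mem hv' hw'⟩ : S) = ⟨v, hv'⟩ + ⟨w, hw'⟩ := rfl
      rw [h3, map_add]
      exact Submodule.add_mem _ h1 h2
  obtain ⟨hv, h1⟩ := key s.1 hs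
  exact h1

/-- the maps on the stalks -/
theorem SUM_stalk (ha : a ∈ Bim.Hom C B d) (hb : b ∈ Bim.Hom B C (-d))
    (h : b ∘ₗ a = LinearMap.id) (z : W n) :
    ∃ (f : C.stalk z →ₗ[R k n] B.stalk z) (g : B.stalk z →ₗ[R k n] C.stalk z)
      (q : (kerBim hb).stalk z →ₗ[R k n] B.stalk z)
      (p : B.stalk z →ₗ[R k n] (kerBim hb).stalk z),
      (∀ m, f (C.st z m) = B.st z (a m)) ∧ (∀ m, g (B.st z m) = C.st z (b m)) ∧
      (∀ x : (kerBim hb).stalk z, (q x).1 = x.1) ∧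
      (∀ x : B.stalk z, (p x).1 = (x.1 - (f (g x)).1 : B.X → R k n)) ∧
      (∀ u, g (f u) = u) ∧ (∀ x, p (q x) = x) ∧ (∀ x, g (q x) = 0) ∧ (∀ u, p (f u) = 0) ∧
      (∀ v, f (g v) + q (p v) = v) ∧
      (∀ (j : ℤ) (s : C.stalk z), s.1 ∈ HF k n C.X j → (f s).1 ∈ HF k n B.X (j + d)) ∧
      (∀ (j : ℤ) (s : B.stalk z), s.1 ∈ HF k n B.X j → (g s).1 ∈ HF k n C.X (j - d)) ∧
      (∀ (j : ℤ) (s : B.stalk z), s.1 ∈ HF k n B.X j → (p s).1 ∈ HF k n B.X j) := by
  obtain ⟨f, hf, hfd⟩ := st_map ha z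
  obtain ⟨g, hg, hgd⟩ := st_map hb z
  have hNS : ∀ x ∈ (kerBim hb).stalk z, x ∈ B.stalk z := by
    rintro x ⟨m, hm, rfl⟩
    exact ⟨m, (SUM_ker_le hb hm).1, rfl⟩
  have hgf : ∀ u, g (f u) = u := by
    intro u
    obtain ⟨m, rfl⟩ := st_surj C z u
    rw [hf, hg]
    exact congrArg (fun φ => C.st z (φ m)) h
  have hgN : ∀ (x : (kerBim hb).stalk z), g ⟨x.1, hNS _ x.2⟩ = 0 := by
    rintro ⟨x, m, hm, rfl⟩
    obtain ⟨h1, h2⟩ := SUM_ker_le hb hm
    have h3 : (⟨res (kerBim hb).pr z m, hNS _ ⟨m, hm, rfl⟩⟩ : B.stalk z) = B.st z ⟨m, h1⟩ := rfl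
    rw [h3, hg, h2, map_zero]
  have hPN : ∀ x : B.stalk z, x.1 - (f (g x)).1 ∈ (kerBim hb).stalk z := by
    intro x
    obtain ⟨m, rfl⟩ := st_surj B z x
    rw [hg, hf]
    refine ⟨(m - a (b m)).1, SUM_ker_mem hb ?_, ?_⟩
    · rw [map_sub]
      have h1 : b (a (b m)) = b m := congrArg (fun f => f (b m)) h
      rw [h1, sub_self]
    · show res B.pr z (m.1 - (a (b m)).1) = res B.pr z m.1 - res B.pr z (a (b m)).1
      rw [map_sub]
  let q : (kerBim hb).stalk z →ₗ[R k n] B.stalk z :=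
    { toFun := fun x => ⟨x.1, hNS _ x.2⟩
      map_add' := fun _ _ => rfl
      map_smul' := fun _ _ => rfl }
  let p : B.stalk z →ₗ[R k n] (kerBim hb).stalk z :=
    { toFun := fun x => ⟨x.1 - (f (g x)).1, hPN x⟩
      map_add' := by
        intro x y
        apply Subtype.ext
        show ((x + y).1 - (f (g (x + y))).1 : B.X → R k n) =
          (x.1 - (f (g x)).1) + (y.1 - (f (g y)).1)
        rw [map_add, map_add, Submodule.coe_add, Submodule.coe_add]
        abel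
      map_smul' := by
        intro r x
        apply Subtype.ext
        show ((r • x).1 - (f (g (r • x))).1 : B.X → R k n) = r • (x.1 - (f (g x)).1)
        rw [map_smul, map_smul, Submodule.coe_smul, Submodule.coe_smul, smul_sub] }
  refine ⟨f, g, q, p, hf, hg, fun _ => rfl, fun _ => rfl, hgf, ?_, hgN, ?_, ?_, hfd, ?_, ?_⟩
  · intro x
    apply Subtype.ext
    have h1 : ∀ y : B.stalk z, g y = 0 → (y.1 - (f (g y)).1 : B.X → R k n) = y.1 := by
      intro y hy
      rw [hy, map_zero]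
      show (y.1 - 0 : B.X → R k n) = y.1
      rw [sub_zero]
    exact h1 ⟨x.1, hNS _ x.2⟩ (hgN x)
  · intro u
    apply Subtype.ext
    show ((f u).1 - (f (g (f u))).1 : B.X → R k n) = 0
    rw [hgf, sub_self]
  · intro v
    apply Subtype.ext
    show ((f (g v)).1 + (v.1 - (f (g v)).1) : B.X → R k n) = v.1
    abel
  · intro j s hs
    exact hgd j s hs
  · intro j s hs
    have h1 := hfd _ _ (hgd j s hs)
    rw [show j + -d + d = j by ring] at h1
    exact (HF k n B.X j).sub_mem hs h1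

end

end Pool.Agent.PCan
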