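import Pool.Agent.PCan.Peel
import Pool.Agent.PCan.Sum

/-! MODULE EXIST : existence of the indecomposable bimodule `B_z`.

`Hom(BS w, BS w, 0)` is finite dimensional (`hom_fin`) and `φ ↦ top value of φ(1)` is multiplicative
(`chi_mul`) with values in `k` (`chi_const`).  Among the idempotents `e` with top value 1 choose one
whose image is minimal (e.g. `finrank (R k n)` of the range minimal); its range is
indecomposable: if `e = e₁ + e₂`, orthogonal idempotents below `e`, one of them has top value 1,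
the other one has smaller rank 0, so it is 0. -/

open MvPolynomial

namespace Pool.Agent.PCan

noncomputable section

variable {k : Type} [Field k] {n : ℕ}

namespace EXISTAux

theorem Hom_sub {B C : Bim k n} {d : ℤ} {f g : B.L →ₗ[R k n] C.L} (hf : f ∈ Bim.Hom B C d)
    (hg : g ∈ Bim.Hom B C d) : f - g ∈ Bim.Hom B C d := by
  refine ⟨fun r m => ?_, fun j m hm => ?_⟩
  · show f (B.rmul r m) - g (B.rmul r m) = C.rmul r (f m - g m)
    rw [hf.1, hg.1, map_sub]
  · exact (HF k n C.X (j + d)).sub_mem (hf.2 j m hm) (hg.2 j m hm)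

/-- a retract of `BS w` with top value 1 -/
structure Pre (k : Type) [Field k] {n : ℕ} (w : List (Fin n)) where
  C : Bim k n
  ι : C.L →ₗ[R k n] (BS k w).L
  r : (BS k w).L →ₗ[R k n] C.L
  hι : ι ∈ Bim.Hom C (BS k w).toBim 0
  hr : r ∈ Bim.Hom (BS k w).toBim C 0
  rι : r ∘ₗ ι = LinearMap.id
  top1 : (ι (r (one k w))).1 (top k w) = 1

/-- inclusion of the kernel -/
def incl {B C : Bim k n} {d : ℤ} {b : B.L →ₗ[R k n] C.L} (hb : b ∈ Bim.Hom B C d) :
    (kerBim hb).L →ₗ[R k n] B.L where
  toFun m := ⟨m.1, by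
    obtain ⟨x, _, hx⟩ := m.2
    rw [← hx]
    exact x.2⟩
  map_add' := by
    intro a b
    rfl
  map_smul' := by
    intro a b
    rfl

theorem incl_hom {B C : Bim k n} {d : ℤ} {b : B.L →ₗ[R k n] C.L} (hb : b ∈ Bim.Hom B C d) :
    incl hb ∈ Bim.Hom (kerBim hb) B 0 := by
  refine ⟨fun r m => rfl, fun j m hm => ?_⟩
  rw [add_zero]
  exact hm

theorem mem_ker {B C : Bim k n} {d : ℤ} {b : B.L →ₗ[R k n] C.L} (hb : b ∈ Bim.Hom B C d)
    (m : (kerBim hb).L) : b (incl hb m) = 0 := by
  obtain ⟨x, hx0, hx⟩ := m.2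
  have : incl hb m = x := Subtype.ext hx.symm
  rw [this]
  exact hx0

/-- corestriction to the kernel -/
def cores {B C A : Bim k n} {d : ℤ} {b : B.L →ₗ[R k n] C.L} (hb : b ∈ Bim.Hom B C d)
    (g : A.L →ₗ[R k n] B.L) (hg : ∀ m, b (g m) = 0) : A.L →ₗ[R k n] (kerBim hb).L where
  toFun m := ⟨(g m).1, ⟨g m, hg m, rfl⟩⟩
  map_add' := by
    intro x y
    apply Subtype.ext
    show (g (x + y)).1 = (g x).1 + (g y).1
    rw [map_add]
    rfl
  map_smul' := by
    intro c x
    apply Subtype.ext
    show (g (c • x)).1 = c • (g x).1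
    rw [map_smul]
    rfl

theorem cores_hom {B C A : Bim k n} {d d' : ℤ} {b : B.L →ₗ[R k n] C.L}
    (hb : b ∈ Bim.Hom B C d) (g : A.L →ₗ[R k n] B.L) (hg : ∀ m, b (g m) = 0)
    (hg' : g ∈ Bim.Hom A B d') : cores hb g hg ∈ Bim.Hom A (kerBim hb) d' := by
  refine ⟨fun r m => ?_, fun j m hm => ?_⟩
  · apply Subtype.ext
    show (g (A.rmul r m)).1 = _
    rw [hg'.1]
    rfl
  · exact hg'.2 j m hm

theorem incl_cores {B C A : Bim k n} {d : ℤ} {b : B.L →ₗ[R k n] C.L}
    (hb : b ∈ Bim.Hom B C d) (g : A.L →ₗ[R k n] B.L) (hg : ∀ m, b (g m) = 0) (m : A.L) :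
    incl hb (cores hb g hg m) = g m := rfl

theorem finite_L (B : Bim k n) : Module.Finite (R k n) B.L := by
  have : IsNoetherian (R k n) (B.X → R k n) := inferInstance
  exact Module.Finite.iff_fg.mpr (IsNoetherian.noetherian B.L)

theorem torsionfree_L (B : Bim k n) : Module.IsTorsionFree (R k n) B.L := inferInstance

/-- if the idempotent `f` has top value 1 in a minimal `Pre` then `f = id` -/
theorem step {w : List (Fin n)} (P : Pre k w)
    (hmin : ∀ Q : Pre k w, Module.finrank (R k n) P.C.L ≤ Module.finrank (R k n) Q.C.L)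
    {f : P.C.L →ₗ[R k n] P.C.L} (hf : f ∈ Bim.Hom P.C P.C 0) (hff : f ∘ₗ f = f)
    (ht : (P.ι (f (P.r (one k w)))).1 (top k w) = 1) : f = LinearMap.id := by
  have hff' : ∀ m, f (f m) = f m := fun m => congrArg (fun g => g m) hff
  have hg : (LinearMap.id - f : P.C.L →ₗ[R k n] P.C.L) ∈ Bim.Hom P.C P.C 0 := Hom_sub (Hom_id P.C) hf
  -- the range of `f` is the kernel of `id - f`
  have hfk : ∀ m, (LinearMap.id - f : P.C.L →ₗ[R k n] P.C.L) (f m) = 0 := by
    intro m
    simp [hff' m]
  let Q : Pre k w :=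
    { C := kerBim hg
      ι := P.ι ∘ₗ incl hg
      r := cores hg f hfk ∘ₗ P.r
      hι := by
        have := Hom_comp (incl_hom hg) P.hι
        simpa using this
      hr := by
        have := Hom_comp P.hr (cores_hom hg f hfk hf)
        simpa using this
      rι := by
        refine LinearMap.ext (fun m => ?_)
        apply Subtype.ext
        show (f (P.r (P.ι (incl hg m)))).1 = m.1
        have h1 : P.r (P.ι (incl hg m)) = incl hg m := congrArg (fun g => g (incl hg m)) P.rι
        rw [h1]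
        have h2 := mem_ker hg m
        have h3 : incl hg m - f (incl hg m) = 0 := h2
        rw [← sub_eq_zero.mp h3]
        rfl
      top1 := ht }
  have h1 := hmin Q
  have hfr : cores hg f hfk ∈ Bim.Hom P.C (kerBim hg) (-0) := by
    rw [neg_zero]
    exact cores_hom hg f hfk hf
  have hinc : incl hg ∈ Bim.Hom (kerBim hg) P.C 0 := incl_hom hg
  have hcomp : cores hg f hfk ∘ₗ incl hg = LinearMap.id := by
    refine LinearMap.ext (fun m => ?_)
    apply Subtype.ext
    show (f (incl hg m)).1 = m.1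
    have h3 : incl hg m - f (incl hg m) = 0 := mem_ker hg m
    rw [← sub_eq_zero.mp h3]
    rfl
  have h2 := ker_rank hinc hfr hcomp
  have h3 : Module.finrank (R k n) (kerBim hfr).L = 0 := by
    have : Module.finrank (R k n) P.C.L ≤ Module.finrank (R k n) (kerBim hg).L := h1
    omega
  have := finite_L (kerBim hfr)
  have h4 : Subsingleton (kerBim hfr).L := (Module.finrank_zero_iff (R := R k n)).mp h3
  refine LinearMap.ext (fun m => ?_)
  have h5 : cores hg f hfk (m - f m) = 0 := by
    apply Subtype.ext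
    show (f (m - f m)).1 = 0
    rw [map_sub, hff']
    simp
  have h6 : (m - f m).1 ∈ (kerBim hfr).L := ⟨m - f m, h5, rfl⟩
  have h7 : (⟨(m - f m).1, h6⟩ : (kerBim hfr).L) = 0 := Subsingleton.elim _ _
  have h7' : (m - f m).1 = 0 := congrArg (fun x : (kerBim hfr).L => x.1) h7
  have h8 : m - f m = 0 := Subtype.ext h7'
  exact (sub_eq_zero.mp h8).symm

end EXISTAux

open EXISTAux

theorem bz_exists (w : List (Fin n)) (hw : w.length = len (prd w)) : Nonempty (Bz k w) := by
  -- a `Pre` with minimal rank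
  let P0 : Pre k w :=
    { C := (BS k w).toBim
      ι := LinearMap.id
      r := LinearMap.id
      hι := Hom_id _
      hr := Hom_id _
      rι := rfl
      top1 := rfl }
  have hex : ∃ N, ∃ P : Pre k w, Module.finrank (R k n) P.C.L = N := ⟨_, P0, rfl⟩
  classical
  obtain ⟨P, hP⟩ := Nat.find_spec hex
  have hmin : ∀ Q : Pre k w, Module.finrank (R k n) P.C.L ≤ Module.finrank (R k n) Q.C.L := by
    intro Q
    rw [hP]
    exact Nat.find_min' hex ⟨Q, rfl⟩
  refine ⟨⟨P.C, P.ι, P.r, P.hι, P.hr, P.rι, ?_, P.top1⟩⟩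
  intro f hf hff
  have hff' : ∀ m, f (f m) = f m := fun m => congrArg (fun g => g m) hff
  have hrι : ∀ m, P.r (P.ι m) = m := fun m => congrArg (fun g => g m) P.rι
  -- the idempotent `ι f r`
  have he : (P.ι ∘ₗ f ∘ₗ P.r) ∈ Bim.Hom (BS k w).toBim (BS k w).toBim 0 := by
    have := Hom_comp (Hom_comp P.hr hf) P.hι
    simpa [LinearMap.comp_assoc] using this
  set t : R k n := (P.ι (f (P.r (one k w)))).1 (top k w) with ht
  have htt : t = t * t := by
    have h1 := chi_mul w hw he (P.ι (f (P.r (one k w))))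
    have h2 : (P.ι ∘ₗ f ∘ₗ P.r) (P.ι (f (P.r (one k w)))) = P.ι (f (P.r (one k w))) := by
      show P.ι (f (P.r (P.ι (f (P.r (one k w)))))) = _
      rw [hrι, hff']
    rw [h2] at h1
    exact h1
  have hcase : t = 0 ∨ t = 1 := by
    have h1 : t * (t - 1) = 0 := by
      rw [mul_sub, mul_one, ← htt, sub_self]
    rcases mul_eq_zero.mp h1 with h | h
    · exact Or.inl h
    · exact Or.inr (sub_eq_zero.mp h)
  rcases hcase with h | h
  · left
    have hg : (LinearMap.id - f : P.C.L →ₗ[R k n] P.C.L) ∈ Bim.Hom P.C P.C 0 := Hom_sub (Hom_id P.C) hf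
    have hgg : (LinearMap.id - f : P.C.L →ₗ[R k n] P.C.L) ∘ₗ (LinearMap.id - f) =
        LinearMap.id - f := by
      refine LinearMap.ext (fun m => ?_)
      simp [hff' m]
    have h1 : (P.ι ((LinearMap.id - f : P.C.L →ₗ[R k n] P.C.L) (P.r (one k w)))).1 (top k w) = 1 := by
      have h2 : (P.ι ((LinearMap.id - f : P.C.L →ₗ[R k n] P.C.L) (P.r (one k w)))).1 (top k w) =
          (P.ι (P.r (one k w))).1 (top k w) - t := by
        rw [LinearMap.sub_apply, map_sub]
        rfl
      rw [h2, P.top1, h, sub_zero]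
    have h3 := step P hmin hg hgg h1
    refine LinearMap.ext (fun m => ?_)
    have h4 := congrArg (fun g => g m) h3
    have h5 : m - f m = m := h4
    have h6 : f m = 0 := by
      have := sub_eq_self.mp h5
      exact this
    rw [h6]
    rfl
  · right
    exact step P hmin hf hff h

end

end Pool.Agent.PCan
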