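import Pool.Agent.PCan.Sum

/-! MODULE MULTADD : additivity of `mult` -/

open MvPolynomial

namespace Pool.Agent.PCan

noncomputable section

variable {k : Type} [Field k] {n : ℕ}

variable {B C : Bim k n} {d : ℤ} {a : C.L →ₗ[R k n] B.L} {b : B.L →ₗ[R k n] C.L}

namespace MULTADDAux

theorem finrank_split {V₁ V₂ V₃ : Type} [AddCommGroup V₁] [AddCommGroup V₂] [AddCommGroup V₃]
    [Module k V₁] [Module k V₂] [Module k V₃] [FiniteDimensional k V₂] [FiniteDimensional k V₃]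
    (N₁ : Submodule k V₁) (N₂ : Submodule k V₂) (N₃ : Submodule k V₃)
    (α : V₂ →ₗ[k] V₁) (β : V₁ →ₗ[k] V₂) (κ : V₃ →ₗ[k] V₁) (lam : V₁ →ₗ[k] V₃)
    (h1 : ∀ x, β (α x) = x) (h2 : ∀ x, lam (κ x) = x) (h3 : ∀ x, β (κ x) = 0)
    (h4 : ∀ x, lam (α x) = 0) (h5 : ∀ x, α (β x) + κ (lam x) = x)
    (n1 : ∀ x ∈ N₂, α x ∈ N₁) (n2 : ∀ x ∈ N₁, β x ∈ N₂) (n3 : ∀ x ∈ N₃, κ x ∈ N₁)
    (n4 : ∀ x ∈ N₁, lam x ∈ N₃) :
    Module.finrank k (V₁ ⧸ N₁) = Module.finrank k (V₂ ⧸ N₂) + Module.finrank k (V₃ ⧸ N₃) := by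
  set F : V₁ →ₗ[k] (V₂ ⧸ N₂) × (V₃ ⧸ N₃) := (N₂.mkQ ∘ₗ β).prod (N₃.mkQ ∘ₗ lam) with hF
  have hFx : ∀ x, F x = (N₂.mkQ (β x), N₃.mkQ (lam x)) := fun x => rfl
  have hker : N₁ = LinearMap.ker F := by
    ext x
    rw [LinearMap.mem_ker, hFx, Prod.mk_eq_zero, Submodule.mkQ_apply, Submodule.mkQ_apply,
      Submodule.Quotient.mk_eq_zero, Submodule.Quotient.mk_eq_zero]
    constructor
    · intro hx
      exact ⟨n2 x hx, n4 x hx⟩
    · rintro ⟨hx1, hx2⟩
      rw [← h5 x]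
      exact N₁.add_mem (n1 _ hx1) (n3 _ hx2)
  have hsurj : Function.Surjective F := by
    rintro ⟨u, v⟩
    obtain ⟨u, rfl⟩ := N₂.mkQ_surjective u
    obtain ⟨v, rfl⟩ := N₃.mkQ_surjective v
    refine ⟨α u + κ v, ?_⟩
    have e1 : β (α u + κ v) = u := by rw [map_add, h1, h3, add_zero]
    have e2 : lam (α u + κ v) = v := by rw [map_add, h4, h2, zero_add]
    rw [hFx, e1, e2]
  have e := (Submodule.quotEquivOfEq N₁ (LinearMap.ker F) hker).trans
    (F.quotKerEquivOfSurjective hsurj)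
  rw [e.finrank_eq, Module.finrank_prod]

theorem res_stalk {M : Bim k n} {z : W n} {s : M.X → R k n} (hs : s ∈ M.stalk z) :
    res M.pr z s = s := by
  obtain ⟨c, -, rfl⟩ := hs
  funext e
  show (if M.pr e = z then (if M.pr e = z then c e else 0) else 0) =
    (if M.pr e = z then c e else 0)
  split_ifs <;> rfl

theorem res_stalk_ne {M : Bim k n} {z y : W n} (hy : y ≠ z) {s : M.X → R k n}
    (hs : s ∈ M.stalk z) : res M.pr y s = 0 := by
  obtain ⟨c, -, rfl⟩ := hs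
  funext e
  show (if M.pr e = y then (if M.pr e = z then c e else 0) else 0) = 0
  by_cases he : M.pr e = y
  · rw [if_pos he, if_neg]
    rw [he]
    exact hy
  · rw [if_neg he]

theorem lift_map {M M' : Bim k n} {e : ℤ} {φ : M.L →ₗ[R k n] M'.L} (hφ : φ ∈ Bim.Hom M M' e)
    (z : W n) (j j' : ℤ) (hj : j' = j + e) :
    ∃ Λ : M.lift z j →ₗ[k] M'.lift z j',
      (∀ (s : M.lift z j) (m : M.L), res M.pr z m.1 = s.1 → (Λ s).1 = res M'.pr z (φ m).1) ∧
      (∀ s : M.lift z j, s.1 ∈ dg (Rp k n • M.stalk z) j →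
        (Λ s).1 ∈ dg (Rp k n • M'.stalk z) j') := by
  subst hj
  obtain ⟨Φ, hΦ, hΦd⟩ := st_map hφ z
  have hlift : ∀ s : M.lift z j, (Φ ⟨s.1, s.2.1.1⟩).1 ∈ M'.lift z (j + e) := by
    intro s
    refine ⟨⟨(Φ ⟨s.1, s.2.1.1⟩).2, hΦd j ⟨s.1, s.2.1.1⟩ s.2.1.2⟩, ?_⟩
    show (piz z : R k n) • (Φ ⟨s.1, s.2.1.1⟩).1 ∈ M'.L
    have hc : (piz z : R k n) • s.1 ∈ M.L := s.2.2
    have key : (φ ⟨(piz z : R k n) • s.1, hc⟩).1 = (piz z : R k n) • (Φ ⟨s.1, s.2.1.1⟩).1 := by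
      apply res_ext M'.pr
      intro y
      by_cases hy : y = z
      · rw [hy]
        have h1 : M.st z ⟨(piz z : R k n) • s.1, hc⟩ =
            (piz z : R k n) • (⟨s.1, s.2.1.1⟩ : M.stalk z) := by
          apply Subtype.ext
          show res M.pr z ((piz z : R k n) • s.1) = (piz z : R k n) • s.1
          rw [map_smul, res_stalk s.2.1.1]
        have h2 := hΦ ⟨(piz z : R k n) • s.1, hc⟩
        rw [h1, map_smul] at h2
        have h3 := congrArg Subtype.val h2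
        rw [map_smul, res_stalk (Φ ⟨s.1, s.2.1.1⟩).2]
        exact h3.symm
      · rw [map_smul, res_stalk_ne hy (Φ ⟨s.1, s.2.1.1⟩).2, smul_zero]
        apply hom_res hφ y
        rw [map_smul, res_stalk_ne hy s.2.1.1, smul_zero]
    rw [← key]
    exact (φ ⟨(piz z : R k n) • s.1, hc⟩).2
  refine ⟨{ toFun := fun s => ⟨(Φ ⟨s.1, s.2.1.1⟩).1, hlift s⟩, map_add' := ?_,
            map_smul' := ?_ }, ?_, ?_⟩
  · intro s s'
    apply Subtype.ext
    have h1 := map_add Φ ⟨s.1, s.2.1.1⟩ ⟨s'.1, s'.2.1.1⟩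
    have h2 := congrArg Subtype.val h1
    exact h2
  · intro c s
    apply Subtype.ext
    have h1 := map_smul Φ (C c : R k n) ⟨s.1, s.2.1.1⟩
    have h2 := congrArg Subtype.val h1
    have h3 : ((C c : R k n) • (⟨s.1, s.2.1.1⟩ : M.stalk z)) =
        ⟨(c • s).1, (c • s).2.1.1⟩ := by
      apply Subtype.ext
      funext x
      show (C c : R k n) * s.1 x = c • s.1 x
      rw [MvPolynomial.smul_eq_C_mul]
    rw [h3] at h2
    show (Φ ⟨(c • s).1, (c • s).2.1.1⟩).1 = c • (Φ ⟨s.1, s.2.1.1⟩).1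
    rw [h2]
    funext x
    show (C c : R k n) * (Φ ⟨s.1, s.2.1.1⟩).1 x = c • (Φ ⟨s.1, s.2.1.1⟩).1 x
    rw [MvPolynomial.smul_eq_C_mul]
  · intro s m hm
    show (Φ ⟨s.1, s.2.1.1⟩).1 = res M'.pr z (φ m).1
    have h1 : M.st z m = ⟨s.1, s.2.1.1⟩ := Subtype.ext hm
    rw [← h1, hΦ]
    rfl
  · intro s hs
    refine ⟨?_, (hlift s).1.2⟩
    have hs1 : s.1 ∈ Rp k n • M.stalk z := hs.1
    have key : ∀ x ∈ Rp k n • M.stalk z, ∃ h : x ∈ M.stalk z,
        (Φ ⟨x, h⟩).1 ∈ Rp k n • M'.stalk z := by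
      intro x hx
      refine Submodule.smul_induction_on hx ?_ ?_
      · intro r hr t ht
        refine ⟨(M.stalk z).smul_mem r ht, ?_⟩
        have h1 := map_smul Φ r ⟨t, ht⟩
        have h2 := congrArg Subtype.val h1
        have h3 : (Φ ⟨r • t, (M.stalk z).smul_mem r ht⟩).1 = r • (Φ ⟨t, ht⟩).1 := h2
        rw [h3]
        exact Submodule.smul_mem_smul hr (Φ ⟨t, ht⟩).2
      · rintro x y ⟨hx, hx'⟩ ⟨hy, hy'⟩
        refine ⟨(M.stalk z).add_mem hx hy, ?_⟩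
        have h1 := map_add Φ ⟨x, hx⟩ ⟨y, hy⟩
        have h2 := congrArg Subtype.val h1
        have h3 : (Φ ⟨x + y, (M.stalk z).add_mem hx hy⟩).1 =
          (Φ ⟨x, hx⟩).1 + (Φ ⟨y, hy⟩).1 := h2
        rw [h3]
        exact Submodule.add_mem _ hx' hy'
    obtain ⟨h, h'⟩ := key s.1 hs1
    exact h'

theorem exists_incl (hb : b ∈ Bim.Hom B C (-d)) : ∃ κ ∈ Bim.Hom (kerBim hb) B 0,
    ∀ m : (kerBim hb).L, (κ m).1 = m.1 ∧ b (κ m) = 0 := by
  have hmem : ∀ m : (kerBim hb).L, ∃ h : m.1 ∈ B.L, b ⟨m.1, h⟩ = 0 := by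
    rintro ⟨m, ⟨c, hc, rfl⟩⟩
    exact ⟨c.2, hc⟩
  refine ⟨{ toFun := fun m => ⟨m.1, (hmem m).1⟩, map_add' := fun m m' => rfl,
            map_smul' := fun r m => rfl }, ⟨?_, ?_⟩, ?_⟩
  · intro r m
    rfl
  · intro j m hm
    rw [add_zero]
    exact hm
  · intro m
    exact ⟨rfl, (hmem m).2⟩

theorem exists_proj (ha : a ∈ Bim.Hom C B d) (hb : b ∈ Bim.Hom B C (-d))
    (h : b ∘ₗ a = LinearMap.id) : ∃ π ∈ Bim.Hom B (kerBim hb) 0,
    ∀ m : B.L, (π m).1 = (m - a (b m)).1 := by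
  have hba : ∀ c, b (a c) = c := fun c => congrArg (fun f : C.L →ₗ[R k n] C.L => f c) h
  have hmem : ∀ m : B.L, (m - a (b m)).1 ∈ (kerBim hb).L := by
    intro m
    refine ⟨m - a (b m), ?_, rfl⟩
    show b (m - a (b m)) = 0
    rw [map_sub, hba, sub_self]
  refine ⟨{ toFun := fun m => ⟨(m - a (b m)).1, hmem m⟩, map_add' := ?_,
            map_smul' := ?_ }, ⟨?_, ?_⟩, ?_⟩
  · intro m m'
    apply Subtype.ext
    show (m + m' - a (b (m + m'))).1 = (m - a (b m)).1 + (m' - a (b m')).1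
    rw [map_add, map_add]
    have h1 : m + m' - (a (b m) + a (b m')) = (m - a (b m)) + (m' - a (b m')) := by abel
    rw [h1]
    rfl
  · intro r m
    apply Subtype.ext
    show (r • m - a (b (r • m))).1 = r • (m - a (b m)).1
    rw [map_smul, map_smul]
    have h1 : r • m - r • a (b m) = r • (m - a (b m)) := (smul_sub r m (a (b m))).symm
    rw [h1]
    rfl
  · intro r m
    apply Subtype.ext
    show (B.rmul r m - a (b (B.rmul r m))).1 = fun e => act (B.pr e) r * (m - a (b m)).1 e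
    rw [hb.1, ha.1, ← map_sub]
    rfl
  · intro j m hm
    rw [add_zero]
    show m.1 - (a (b m)).1 ∈ HF k n B.X j
    refine (HF k n B.X j).sub_mem hm ?_
    have h1 := ha.2 _ _ (hb.2 j m hm)
    rw [neg_add_cancel_right] at h1
    exact h1
  · intro m
    rfl

end MULTADDAux

open MULTADDAux

theorem mult_add (ha : a ∈ Bim.Hom C B d) (hb : b ∈ Bim.Hom B C (-d))
    (h : b ∘ₗ a = LinearMap.id) (z : W n) (i : ℤ) :
    B.mult z i = C.mult z (i - d) + (kerBim hb).mult z i := by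
  have hba : ∀ c, b (a c) = c := fun c => congrArg (fun f : C.L →ₗ[R k n] C.L => f c) h
  obtain ⟨ka, hka, hka'⟩ := exists_incl hb
  obtain ⟨pi, hpi, hpi'⟩ := exists_proj ha hb h
  obtain ⟨α, hα, hαN⟩ := lift_map ha z (i - d) i (by ring)
  obtain ⟨β, hβ, hβN⟩ := lift_map hb z i (i - d) (by ring)
  obtain ⟨κ, hκ, hκN⟩ := lift_map hka z i i (by ring)
  obtain ⟨lam, hlam, hlamN⟩ := lift_map hpi z i i (by ring)
  have hfd : ∀ (M : Bim k n) (j : ℤ), FiniteDimensional k (M.lift z j) := by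
    intro M j
    exact Submodule.finiteDimensional_of_le (inf_le_left : M.lift z j ≤ dg (M.stalk z) j)
  have := hfd C (i - d)
  have := hfd (kerBim hb) i
  -- representatives
  have hrep : ∀ (M : Bim k n) (j : ℤ) (s : M.lift z j), ∃ m : M.L, res M.pr z m.1 = s.1 := by
    intro M j s
    obtain ⟨c, hc, hcs⟩ := s.2.1.1
    exact ⟨⟨c, hc⟩, hcs⟩
  unfold Bim.mult
  refine finrank_split _ _ _ α β κ lam ?_ ?_ ?_ ?_ ?_ ?_ ?_ ?_ ?_
  · intro s
    obtain ⟨m, hm⟩ := hrep _ _ s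
    apply Subtype.ext
    rw [hβ (α s) (a m) (hα s m hm).symm, hba, hm]
  · intro s
    obtain ⟨m, hm⟩ := hrep _ _ s
    apply Subtype.ext
    rw [hlam (κ s) (ka m) (hκ s m hm).symm, hpi', (hka' m).2, map_zero, sub_zero, (hka' m).1]
    exact hm
  · intro s
    obtain ⟨m, hm⟩ := hrep _ _ s
    apply Subtype.ext
    rw [hβ (κ s) (ka m) (hκ s m hm).symm, (hka' m).2]
    exact map_zero _
  · intro s
    obtain ⟨m, hm⟩ := hrep _ _ s
    apply Subtype.ext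
    rw [hlam (α s) (a m) (hα s m hm).symm, hpi', hba, sub_self]
    exact map_zero _
  · intro s
    obtain ⟨m, hm⟩ := hrep _ _ s
    apply Subtype.ext
    show (α (β s)).1 + (κ (lam s)).1 = s.1
    rw [hα (β s) (b m) (hβ s m hm).symm, hκ (lam s) (pi m) (hlam s m hm).symm,
      (hka' (pi m)).1, hpi']
    show res B.pr z (a (b m)).1 + res B.pr z (m.1 - (a (b m)).1) = s.1
    rw [map_sub, hm]
    abel
  · intro s hs
    exact hαN s hs
  · intro s hs
    exact hβN s hs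
  · intro s hs
    exact hκN s hs
  · intro s hs
    exact hlamN s hs

end

end Pool.Agent.PCan
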