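import Pool.Agent.PCan.Perm3

/-! MODULE UFD : a fraction whose denominator divides the product of the inversion roots. -/

open MvPolynomial

namespace Pool.Agent.PCan

variable {k : Type} [Field k] {n : ℕ}

/-- `D` is a product of roots -/
def IsRootProd (D : R k n) : Prop :=
  ∃ s : Multiset (Fin (n + 1) × Fin (n + 1)), (∀ p ∈ s, p.1 ≠ p.2) ∧
    D = (s.map (fun p => (rt p.1 p.2 : R k n))).prod

theorem UFD_swap (a b : Fin (n + 1)) : Associated (rt a b : R k n) (rt b a) := by
  refine ⟨-1, ?_⟩
  simp [rt]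

/-- divisors of root products are root products with ordered pairs, up to units -/
theorem UFD_divisor (s : Multiset (Fin (n + 1) × Fin (n + 1))) :
    (∀ p ∈ s, p.1 ≠ p.2) → ∀ q : R k n, q ∣ (s.map (fun p => (rt p.1 p.2 : R k n))).prod →
      ∃ t : Multiset (Fin (n + 1) × Fin (n + 1)), (∀ p ∈ t, p.1 < p.2) ∧
        Associated q (t.map (fun p => (rt p.1 p.2 : R k n))).prod := by
  refine Multiset.induction_on s ?_ ?_
  · intro _ q hq
    refine ⟨0, by simp, ?_⟩
    simp only [Multiset.map_zero, Multiset.prod_zero] at hq ⊢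
    exact associated_one_iff_isUnit.2 (isUnit_of_dvd_one hq)
  · intro p s ih hs q hq
    have hp : p.1 ≠ p.2 := hs p (Multiset.mem_cons_self _ _)
    have hs' : ∀ p ∈ s, p.1 ≠ p.2 := fun p' hp' => hs p' (Multiset.mem_cons_of_mem hp')
    rw [Multiset.map_cons, Multiset.prod_cons] at hq
    have hpr : Prime (rt p.1 p.2 : R k n) := rt_prime hp
    by_cases hd : (rt p.1 p.2 : R k n) ∣ q
    · obtain ⟨q', rfl⟩ := hd
      have hq' : q' ∣ (s.map (fun p => (rt p.1 p.2 : R k n))).prod :=
        (mul_dvd_mul_iff_left hpr.ne_zero).1 hq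
      obtain ⟨t, ht, hass⟩ := ih hs' q' hq'
      rcases lt_or_gt_of_ne hp with hlt | hlt
      · refine ⟨p ::ₘ t, ?_, ?_⟩
        · intro x hx
          rcases Multiset.mem_cons.1 hx with rfl | hx
          · exact hlt
          · exact ht x hx
        · rw [Multiset.map_cons, Multiset.prod_cons]
          exact hass.mul_left _
      · refine ⟨(p.2, p.1) ::ₘ t, ?_, ?_⟩
        · intro x hx
          rcases Multiset.mem_cons.1 hx with rfl | hx
          · exact hlt
          · exact ht x hx
        · rw [Multiset.map_cons, Multiset.prod_cons]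
          exact (UFD_swap _ _).mul_mul hass
    · obtain ⟨c, hc⟩ := hq
      have h1 : (rt p.1 p.2 : R k n) ∣ q * c := ⟨_, hc.symm⟩
      rcases hpr.dvd_or_dvd h1 with h2 | ⟨c', rfl⟩
      · exact absurd h2 hd
      · refine ih hs' q ⟨c', ?_⟩
        apply mul_left_cancel₀ hpr.ne_zero
        rw [hc]
        ring

/-- HINT: write `x = p / q` with `p, q` coprime (`MvPolynomial` over a field is a UFD); `q` divides
`D₀`, so the prime factors of `q` are roots; every root `rt a b` divides `q` at most once and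
only if `(a, b)` is an inversion of `z`. -/
theorem frac_piz (z : W n) (x : K k n) (D₀ : R k n) (hD₀ : IsRootProd D₀)
    (h₀ : IsR (io D₀ * x))
    (h : ∀ a b : Fin (n + 1), a < b → ∃ D : R k n, IsRootProd D ∧ ¬ (rt a b : R k n) ∣ D ∧
      IsR (io ((if z.symm b < z.symm a then rt a b else 1) * D) * x)) :
    IsR (io (piz z) * x) := by
  classical
  set p : R k n := IsFractionRing.num (R k n) x with hp
  set q : R k n := (IsFractionRing.den (R k n) x : R k n) with hq
  have hq0 : q ≠ 0 := nonZeroDivisors.coe_ne_zero _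
  have hx : x = io p / io q := by
    have := IsFractionRing.mk'_num_den (R k n) x
    rw [IsFractionRing.mk'_eq_div] at this
    exact this.symm
  have hcop : IsRelPrime p q := IsFractionRing.num_den_reduced (R k n) x
  have key : ∀ D : R k n, IsR (io D * x) ↔ q ∣ D := by
    intro D
    constructor
    · rintro ⟨r, hr⟩
      have h1 : io r * io q = io D * io p := by
        rw [hr, hx]
        field_simp [io_ne hq0]
      rw [← map_mul, ← map_mul] at h1
      have h2 := io_inj h1
      have h3 : q ∣ D * p := ⟨r, by rw [← h2]; ring⟩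
      exact hcop.symm.dvd_of_dvd_mul_right h3
    · rintro ⟨c, rfl⟩
      refine ⟨c * p, ?_⟩
      rw [hx, map_mul, map_mul]
      field_simp [io_ne hq0]
  rw [key] at h₀ ⊢
  obtain ⟨s, hs, rfl⟩ := hD₀
  obtain ⟨t, ht, hass⟩ := UFD_divisor s hs q h₀
  refine hass.dvd.trans ?_
  have hcount : ∀ a b : Fin (n + 1), a < b →
      (z.symm b < z.symm a → ¬ ((rt a b : R k n) * rt a b ∣ q)) ∧
      (¬ z.symm b < z.symm a → ¬ (rt a b : R k n) ∣ q) := by
    intro a b hab
    obtain ⟨D, -, hD, hI⟩ := h a b hab
    rw [key] at hI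
    refine ⟨fun hz hc => ?_, fun hz hc => ?_⟩
    · rw [if_pos hz] at hI
      have h1 := hc.trans hI
      exact hD ((mul_dvd_mul_iff_left (rt_ne hab.ne)).1 h1)
    · rw [if_neg hz, one_mul] at hI
      exact hD (hc.trans hI)
  have hdq : ∀ u : Multiset (Fin (n + 1) × Fin (n + 1)), u ≤ t →
      (u.map (fun p => (rt p.1 p.2 : R k n))).prod ∣ q := by
    intro u hu
    refine (Multiset.prod_dvd_prod_of_le (Multiset.map_le_map hu)).trans ?_
    exact hass.symm.dvd
  have hinv : ∀ p ∈ t, z.symm p.2 < z.symm p.1 := by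
    intro p hp
    by_contra hc
    refine (hcount p.1 p.2 (ht p hp)).2 hc ?_
    have := hdq {p} (Multiset.singleton_le.2 hp)
    simpa using this
  have hnd : t.Nodup := by
    rw [Multiset.nodup_iff_ne_cons_cons]
    intro p u hu
    have hpm : p ∈ t := by
      rw [hu]
      exact Multiset.mem_cons_self _ _
    refine (hcount p.1 p.2 (ht p hpm)).1 (hinv p hpm) ?_
    have h1 : p ::ₘ {p} ≤ t := by
      rw [hu]
      exact Multiset.cons_le_cons _ (Multiset.singleton_le.2 (Multiset.mem_cons_self _ _))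
    have := hdq _ h1
    simpa using this
  have e1 : (t.map (fun p => (rt p.1 p.2 : R k n))).prod = ∏ p ∈ t.toFinset, rt p.1 p.2 := by
    rw [Finset.prod, Multiset.toFinset_val, Multiset.dedup_eq_self.2 hnd]
  rw [e1]
  unfold piz
  refine Finset.prod_dvd_prod_of_subset _ _ _ ?_
  intro p hp
  rw [Multiset.mem_toFinset] at hp
  rw [Finset.mem_filter]
  exact ⟨Finset.mem_univ _, ht p hp, hinv p hp⟩

end Pool.Agent.PCan
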