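import Pool.Agent.PCan.Homs
import Pool.Agent.PCan.Ufd

/-! MODULE PIZ : if `m_tz = 0` for all `t` with `t z > z` then `piz z • m_z` (extended by zero) is in
`L`.

Proof.  By (T2) it is enough that `io (piz z) * x` is integral for `x = tau(m_z h)`, `h ∈ L`.  Use
`frac_piz`.  `D₀`: `exists_kill` with `Y = ` all `y ≠ z` among the values of `pr`, `f y` with
`z (f y) ≠ y (f y)`.  For a pair `a < b`, `t = (a b)`: `Y` = all `y ≠ z, t z`, `f y` from `exists_sep`:
the element `D • m` over `z`, something over `t z`, 0 elsewhere is in `L`, `D` a product of roots, none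
of them `± rt a b`.  If `z⁻¹ a < z⁻¹ b` the `t z` component is 0 by hypothesis.  Otherwise
(`z⁻¹ b < z⁻¹ a`) add `t z` to `Y` with `f (t z) = z⁻¹ a`: one more factor `rt a b`. -/

open MvPolynomial

namespace Pool.Agent.PCan

noncomputable section

variable {k : Type} [Field k] {n : ℕ}

theorem PIZ_kill (M : Bim k n) (z : W n) (m : M.X → R k n) (hm : m ∈ M.L)
    (Y : Finset (W n)) (f : W n → Fin (n + 1))
    (hY : ∀ e, M.pr e ≠ z → M.pr e ∈ Y ∨ m e = 0) :
    (∏ y ∈ Y, (rt (z (f y)) (y (f y)) : R k n)) • res M.pr z m ∈ M.L := by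
  have h1 := exists_kill M hm Y f
  have h2 : (∏ y ∈ Y, (rt (z (f y)) (y (f y)) : R k n)) • res M.pr z m =
      fun e => (∏ y ∈ Y, (rt (M.pr e (f y)) (y (f y)) : R k n)) * m e := by
    funext e
    show (∏ y ∈ Y, (rt (z (f y)) (y (f y)) : R k n)) * (if M.pr e = z then m e else 0) = _
    by_cases he : M.pr e = z
    · rw [if_pos he, he]
    · rw [if_neg he, mul_zero]
      rcases hY e he with h3 | h3
      · rw [Finset.prod_eq_zero h3, zero_mul]
        simp [rt]
      · rw [h3, mul_zero]
  rw [h2]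
  exact h1

theorem PIZ_rootProd (Y : Finset (W n)) (z : W n) (f : W n → Fin (n + 1))
    (hf : ∀ y ∈ Y, z (f y) ≠ y (f y)) :
    IsRootProd (∏ y ∈ Y, (rt (z (f y)) (y (f y)) : R k n)) := by
  refine ⟨Y.val.map (fun y => (z (f y), y (f y))), ?_, ?_⟩
  · intro p hp
    obtain ⟨y, hy, rfl⟩ := Multiset.mem_map.1 hp
    exact hf y hy
  · rw [Multiset.map_map]
    rfl

theorem piz_mem (M : Obj k n) (z : W n) (m : M.X → R k n) (hm : m ∈ M.L)
    (h : ∀ a b : Fin (n + 1), a < b → z.symm a < z.symm b →
      res M.pr (Equiv.swap a b * z) m = 0) :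
    (piz z : R k n) • res M.pr z m ∈ M.L := by
  classical
  have hmain : ∀ g ∈ M.L, IsR (tau M.eul
      (fun e => io (((piz z : R k n) • res M.pr z m) e) * io (g e))) := by
    intro g hg
    set x : K k n := tau M.eul (fun e => io (res M.pr z m e * g e)) with hx
    have scal : ∀ D : R k n, tau M.eul (fun e => io ((D • res M.pr z m) e * g e)) = io D * x := by
      intro D
      rw [hx]
      unfold tau
      rw [Finset.mul_sum]
      refine Finset.sum_congr rfl fun e _ => ?_
      show io ((D • res M.pr z m) e * g e) / io (M.eul e) =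
        io D * (io (res M.pr z m e * g e) / io (M.eul e))
      rw [Pi.smul_apply, smul_eq_mul, mul_assoc, map_mul io D, mul_div_assoc]
    have piece : ∀ D : R k n, D • res M.pr z m ∈ M.L → IsR (io D * x) := by
      intro D hD
      rw [← scal]
      exact M.T1 _ hD _ hg
    have e0 : tau M.eul (fun e => io (((piz z : R k n) • res M.pr z m) e) * io (g e)) =
        io (piz z) * x := by
      rw [← scal]
      congr 1
      funext e
      rw [map_mul]
    rw [e0]
    have hex : ∀ y : W n, ∃ i, y ≠ z → z i ≠ y i := by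
      intro y
      by_cases hy : y = z
      · exact ⟨0, fun h => absurd hy h⟩
      · obtain ⟨i, hi⟩ : ∃ i, z i ≠ y i := by
          by_contra hc
          push Not at hc
          exact hy (Equiv.ext fun i => (hc i).symm)
        exact ⟨i, fun _ => hi⟩
    choose f0 hf0 using hex
    refine frac_piz z x (∏ y ∈ Finset.univ.erase z, (rt (z (f0 y)) (y (f0 y)) : R k n))
      (PIZ_rootProd _ _ _ fun y hy => hf0 y (Finset.ne_of_mem_erase hy))
      (piece _ (PIZ_kill M.toBim z m hm _ f0 fun e he =>
        Or.inl (Finset.mem_erase.2 ⟨he, Finset.mem_univ _⟩))) ?_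
    intro a b hab
    set t : W n := Equiv.swap a b with ht
    have hex2 : ∀ y : W n, ∃ i, y ≠ z → y ≠ t * z →
        y i ≠ z i ∧ ¬ (z i = a ∧ y i = b) ∧ ¬ (z i = b ∧ y i = a) := by
      intro y
      by_cases hy : y ≠ z ∧ y ≠ t * z
      · obtain ⟨i, hi⟩ := exists_sep hy.1 hy.2
        exact ⟨i, fun _ _ => hi⟩
      · exact ⟨0, fun h1 h2 => absurd ⟨h1, h2⟩ hy⟩
    choose f1 hf1 using hex2
    set Y : Finset (W n) := (Finset.univ.erase z).erase (t * z) with hYdef
    have hYm : ∀ y, y ∈ Y ↔ y ≠ t * z ∧ y ≠ z := by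
      intro y
      simp [hYdef]
    set D : R k n := ∏ y ∈ Y, (rt (z (f1 y)) (y (f1 y)) : R k n) with hD
    have hDnd : ¬ (rt a b : R k n) ∣ D := by
      intro hc
      obtain ⟨y, hy, hdv⟩ := (rt_prime hab.ne).exists_mem_finset_dvd hc
      have h1 := hf1 y ((hYm y).1 hy).2 ((hYm y).1 hy).1
      rcases rt_dvd_rt hab.ne (Ne.symm h1.1) hdv with ⟨h2, h3⟩ | ⟨h2, h3⟩
      · exact h1.2.1 ⟨h2.symm, h3.symm⟩
      · exact h1.2.2 ⟨h3.symm, h2.symm⟩
    refine ⟨D, PIZ_rootProd _ _ _ fun y hy =>
      Ne.symm (hf1 y ((hYm y).1 hy).2 ((hYm y).1 hy).1).1, hDnd, ?_⟩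
    by_cases hz : z.symm b < z.symm a
    · rw [if_pos hz]
      have htz : t * z ≠ z := by
        intro hc
        have h1 : t = 1 := mul_eq_right.1 hc
        rw [ht, Equiv.swap_eq_one_iff] at h1
        exact hab.ne h1
      set f2 : W n → Fin (n + 1) := Function.update f1 (t * z) (z.symm a) with hf2
      have h3 := piece _ (PIZ_kill M.toBim z m hm (Finset.univ.erase z) f2 fun e he =>
        Or.inl (Finset.mem_erase.2 ⟨he, Finset.mem_univ _⟩))
      have h4 : ∏ y ∈ Finset.univ.erase z, (rt (z (f2 y)) (y (f2 y)) : R k n) = rt a b * D := by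
        rw [← Finset.mul_prod_erase (Finset.univ.erase z) _
          (Finset.mem_erase.2 ⟨htz, Finset.mem_univ _⟩)]
        congr 1
        · rw [hf2, Function.update_self]
          simp [ht]
        · rw [hD]
          refine Finset.prod_congr rfl fun y hy => ?_
          rw [hf2, Function.update_of_ne ((hYm y).1 hy).1]
      rw [h4] at h3
      exact h3
    · rw [if_neg hz, one_mul]
      have hne : z.symm a ≠ z.symm b := fun hc => hab.ne (z.symm.injective hc)
      have hlt : z.symm a < z.symm b := lt_of_le_of_ne (not_lt.1 hz) hne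
      have h5 := h a b hab hlt
      refine piece _ (PIZ_kill M.toBim z m hm Y f1 fun e he => ?_)
      by_cases hte : M.pr e = t * z
      · right
        have h6 := congrFun h5 e
        simp only [res, LinearMap.coe_mk, AddHom.coe_mk, Pi.zero_apply] at h6
        rw [if_pos hte] at h6
        exact h6
      · left
        exact (hYm _).2 ⟨hte, he⟩
  obtain ⟨g, hg, hge⟩ := M.T2 (fun e => io (((piz z : R k n) • res M.pr z m) e)) hmain
  have : (piz z : R k n) • res M.pr z m = g := by
    funext e
    exact io_inj (hge e)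
  rw [this]
  exact hg

end

end Pool.Agent.PCan
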