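import Pool.Agent.PCan.Good
import Pool.Agent.PCan.Pizmem

/-! MODULE SPLIT : a nonzero retract has a nonzero local multiplicity.

Proof.  `ι : B → M`, `r : M → B`.  Choose `z` of maximal length with `B^z ≠ 0`, then `d` minimal such
that `B^z` has a nonzero homogeneous element `x` of degree `d`, `x = m_z`, `m ∈ B.L`.  `x ∉ R_+ B^z`
by minimality of `d`.  `m̃ := ι m ∈ M.L`: `m̃_tz = 0` if `t z > z` (`len_swap_mul`, `B^tz = 0`,
`hom_res`).  `piz_mem`: `f := piz z • m̃_z ∈ M.L`; `r f` is supported over `z` and its z-component is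
`piz z • x` (`hom_res` for `r`, `r ι m = m`).  So `x ∈ lift z d`. -/

open MvPolynomial

namespace Pool.Agent.PCan

noncomputable section

variable {k : Type} [Field k] {n : ℕ}

/-- elements of the stalk whose components of degree `< d` vanish: coefficients of products
with polynomials without constant term vanish in degrees `≤ d` -/
theorem SPLIT_rp {X : Type} (S : Submodule (R k n) (X → R k n)) (d : ℕ)
    (h : ∀ s ∈ S, ∀ (e : X) (a : Fin (n + 1) →₀ ℕ), a.degree < d → coeff a (s e) = 0)
    (y : X → R k n) (hy : y ∈ Rp k n • S) (e : X) (a : Fin (n + 1) →₀ ℕ) (ha : a.degree ≤ d) :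
    coeff a (y e) = 0 := by
  induction hy using Submodule.smul_induction_on' with
  | smul r hr s hs =>
    classical
    show coeff a (r * s e) = 0
    rw [coeff_mul]
    refine Finset.sum_eq_zero ?_
    rintro ⟨b, c⟩ hbc
    rw [Finset.HasAntidiagonal.mem_antidiagonal] at hbc
    by_cases hb : b = 0
    · have h0 : coeff (0 : Fin (n + 1) →₀ ℕ) r = 0 := by
        have h1 : constantCoeff r = 0 := hr
        rwa [constantCoeff_eq] at h1
      show coeff b r * coeff c (s e) = 0
      rw [hb, h0, zero_mul]
    · have h1 : 0 < b.degree := by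
        rw [Nat.pos_iff_ne_zero]
        intro h2
        exact hb ((Finsupp.degree_eq_zero_iff b).1 h2)
      have h2 : a.degree = b.degree + c.degree := by
        rw [← hbc]
        exact map_add Finsupp.degree b c
      show coeff b r * coeff c (s e) = 0
      rw [h s hs e c (by omega), mul_zero]
  | add y hy y' hy' ih ih' =>
    show coeff a (y e + y' e) = 0
    rw [coeff_add, ih, ih', add_zero]

theorem SPLIT_res_res {X : Type} (pr : X → W n) (y : W n) (m : X → R k n) :
    res pr y (res pr y m) = res pr y m := by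
  funext e
  show (if pr e = y then (if pr e = y then m e else 0) else 0) = (if pr e = y then m e else 0)
  by_cases h : pr e = y
  · simp only [if_pos h]
  · simp only [if_neg h]

theorem split {B : Bim k n} (hB : Good B) (h0 : B.L ≠ ⊥) :
    ∃ (z : W n) (d : ℤ), B.mult z d ≠ 0 := by
  classical
  obtain ⟨M, ι, r, hι, hr, hrι⟩ := hB
  -- a point with nonzero stalk, of maximal length
  have hex : ∃ z : W n, B.stalk z ≠ ⊥ := by
    by_contra hcon
    push Not at hcon
    apply h0
    rw [eq_bot_iff]
    intro m hm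
    rw [Submodule.mem_bot]
    funext e
    have h1 : res B.pr (B.pr e) m ∈ B.stalk (B.pr e) := Submodule.mem_map_of_mem hm
    rw [hcon, Submodule.mem_bot] at h1
    have h2 := congrFun h1 e
    have h3 : res B.pr (B.pr e) m e = m e := by
      show (if B.pr e = B.pr e then m e else 0) = m e
      rw [if_pos rfl]
    rw [h3] at h2
    exact h2
  obtain ⟨z₀, hz₀⟩ := hex
  obtain ⟨z, hz, hmax⟩ := Finset.exists_max_image
    (Finset.univ.filter (fun z : W n => B.stalk z ≠ ⊥)) len
    ⟨z₀, Finset.mem_filter.2 ⟨Finset.mem_univ _, hz₀⟩⟩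
  have hz1 : B.stalk z ≠ ⊥ := (Finset.mem_filter.1 hz).2
  have hmax1 : ∀ y : W n, len z < len y → B.stalk y = ⊥ := by
    intro y hy
    by_contra hcon
    have := hmax y (Finset.mem_filter.2 ⟨Finset.mem_univ _, hcon⟩)
    omega
  -- homogeneous elements
  have hhom : ∀ s ∈ B.stalk z, ∀ j : ℕ,
      (fun e => homogeneousComponent j (s e)) ∈ B.stalk z := by
    rintro s ⟨m, hm, rfl⟩ j
    refine ⟨fun e => homogeneousComponent j (m e), B.graded' m hm j, ?_⟩
    funext e
    show (if B.pr e = z then homogeneousComponent j (m e) else 0) =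
      homogeneousComponent j (if B.pr e = z then m e else 0)
    by_cases h : B.pr e = z
    · rw [if_pos h, if_pos h]
    · rw [if_neg h, if_neg h, map_zero]
  have hexd : ∃ d : ℕ, ∃ s ∈ B.stalk z, s ≠ 0 ∧ s ∈ HF k n B.X d := by
    obtain ⟨s, hs, hs0⟩ := (Submodule.ne_bot_iff _).1 hz1
    obtain ⟨e, he⟩ := Function.ne_iff.1 hs0
    obtain ⟨a, ha⟩ := MvPolynomial.ne_zero_iff.1 he
    refine ⟨a.degree, fun e => homogeneousComponent a.degree (s e), hhom s hs _, ?_, ?_⟩
    · intro h1
      have h2 := congrFun h1 e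
      have h3 : coeff a (homogeneousComponent a.degree (s e)) = coeff a (s e) := by
        rw [coeff_homogeneousComponent, if_pos rfl]
      have h4 : homogeneousComponent a.degree (s e) = 0 := h2
      rw [h4, coeff_zero] at h3
      exact ha h3.symm
    · intro e
      exact hc_HZ _ _
  obtain ⟨d, ⟨s, hs, hs0, hsd⟩, hmin⟩ : ∃ d : ℕ, (∃ s ∈ B.stalk z, s ≠ 0 ∧ s ∈ HF k n B.X d) ∧
      ∀ j < d, ¬ ∃ s ∈ B.stalk z, s ≠ 0 ∧ s ∈ HF k n B.X j :=
    ⟨Nat.find hexd, Nat.find_spec hexd, fun j hj => Nat.find_min hexd hj⟩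
  -- `s ∉ R_+ B^z`
  have hlow : ∀ t ∈ B.stalk z, ∀ (e : B.X) (a : Fin (n + 1) →₀ ℕ), a.degree < d →
      coeff a (t e) = 0 := by
    intro t ht e a ha
    by_contra hcon
    refine hmin a.degree ha ⟨fun e => homogeneousComponent a.degree (t e), hhom t ht _, ?_, ?_⟩
    · intro h1
      have h2 : homogeneousComponent a.degree (t e) = 0 := congrFun h1 e
      have h3 : coeff a (homogeneousComponent a.degree (t e)) = coeff a (t e) := by
        rw [coeff_homogeneousComponent, if_pos rfl]
      rw [h2, coeff_zero] at h3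
      exact hcon h3.symm
    · intro e
      exact hc_HZ _ _
  have hnot : s ∉ Rp k n • B.stalk z := by
    intro hmem
    apply hs0
    funext e
    ext a
    rw [Pi.zero_apply, coeff_zero]
    by_cases ha : a.degree ≤ d
    · exact SPLIT_rp (B.stalk z) d hlow s hmem e a ha
    · by_contra hcon
      have h1 := hsd e a hcon
      have h2 : a.degree = d := by exact_mod_cast h1
      omega
  -- a homogeneous lift
  obtain ⟨m, hmd, hms⟩ := st_lift B z ⟨s, hs⟩ d hsd
  have hms' : res B.pr z m.1 = s := congrArg Subtype.val hms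
  have hup : ∀ a b : Fin (n + 1), a < b → z.symm a < z.symm b →
      res M.pr (Equiv.swap a b * z) (ι m).1 = 0 := by
    intro a b hab hzab
    apply hom_res hι
    have h1 : B.stalk (Equiv.swap a b * z) = ⊥ := hmax1 _ (len_swap_mul z hab hzab)
    have h2 : res B.pr (Equiv.swap a b * z) m.1 ∈ B.stalk (Equiv.swap a b * z) :=
      Submodule.mem_map_of_mem m.2
    rw [h1, Submodule.mem_bot] at h2
    exact h2
  have hf : (piz z : R k n) • res M.pr z (ι m).1 ∈ M.L := piz_mem M z (ι m).1 (ι m).2 hup
  have hg : (r ⟨_, hf⟩).1 = (piz z : R k n) • s := by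
    apply res_ext B.pr
    intro y
    by_cases hy : y = z
    · subst hy
      have h1 : res M.pr y ((⟨_, hf⟩ : M.L) - (piz y : R k n) • ι m).1 = 0 := by
        show res M.pr y ((piz y : R k n) • res M.pr y (ι m).1 - (piz y : R k n) • (ι m).1) = 0
        rw [map_sub, map_smul, map_smul]
        rw [SPLIT_res_res, sub_self]
      have h3 := hom_res hr y _ h1
      have h4 : r (ι m) = m := by
        have := LinearMap.congr_fun hrι m
        simpa using this
      rw [map_sub, map_smul, h4] at h3
      have h5 : res B.pr y (r ⟨_, hf⟩).1 - (piz y : R k n) • res B.pr y m.1 = 0 := by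
        have h6 : res B.pr y ((r ⟨_, hf⟩).1 - (piz y : R k n) • m.1) = 0 := h3
        rwa [map_sub, map_smul] at h6
      rw [sub_eq_zero.1 h5, hms', map_smul, ← hms', SPLIT_res_res]
    · have h1 : res M.pr y ((⟨_, hf⟩ : M.L)).1 = 0 := by
        funext e
        show (if M.pr e = y then (piz z : R k n) * (if M.pr e = z then (ι m).1 e else 0) else 0) = 0
        by_cases h : M.pr e = y
        · rw [if_pos h, if_neg (by rw [h]; exact hy), mul_zero]
        · rw [if_neg h]
      rw [hom_res hr y _ h1, map_smul, ← hms']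
      symm
      funext e
      show (piz z : R k n) * (if B.pr e = y then (if B.pr e = z then m.1 e else 0) else 0) = 0
      by_cases h : B.pr e = y
      · rw [if_pos h, if_neg (by rw [h]; exact hy), mul_zero]
      · rw [if_neg h, mul_zero]
  -- conclusion
  have hlift : s ∈ B.lift z d := by
    refine Submodule.mem_inf.2 ⟨Submodule.mem_inf.2 ⟨hs, hsd⟩, ?_⟩
    show (piz z : R k n) • s ∈ B.L
    rw [← hg]
    exact (r ⟨_, hf⟩).2
  refine ⟨z, d, ?_⟩
  have hle : B.lift z d ≤ HF k n B.X d := by
    intro x hx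
    exact (Submodule.mem_inf.1 (Submodule.mem_inf.1 hx).1).2
  have : FiniteDimensional k (B.lift z d) := Submodule.finiteDimensional_of_le hle
  have hne : Nontrivial (↥(B.lift z d) ⧸
      (dg (Rp k n • B.stalk z) d).comap (B.lift z d).subtype) := by
    refine ⟨⟨Submodule.Quotient.mk ⟨s, hlift⟩, 0, ?_⟩⟩
    intro h1
    rw [Submodule.Quotient.mk_eq_zero] at h1
    exact hnot (Submodule.mem_inf.1 h1).1
  have hpos := Module.finrank_pos (R := k) (M := ↥(B.lift z d) ⧸
      (dg (Rp k n • B.stalk z) d).comap (B.lift z d).subtype)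
  exact hpos.ne'

end

end Pool.Agent.PCan
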