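import Pool.Agent.PCan.MultD
import Pool.Agent.PCan.ChAdd
import Pool.Agent.PCan.MultAdd
import Pool.Agent.PCan.Split

/-! MODULE FORM : the character formula.

Induction on `Module.finrank (R k n) B.L`.  If `B.L = ⊥` take `μ = 0`.  Otherwise `split` gives `z, d`
with `mult ≠ 0`, `exists_ab`, `peel` (for `F.Z z`), `ch_add`, `mult_add`, `ker_rank`, `rank_pos`,
`ker_good`. -/

open MvPolynomial

namespace Pool.Agent.PCan

noncomputable section

/-- a choice of reduced words and of the bimodules `B_z` -/
structure Fam (k : Type) [Field k] (n : ℕ) where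
  w : W n → List (Fin n)
  hw : ∀ z, prd (w z) = z
  hl : ∀ z, (w z).length = len z
  Z : ∀ z, Bz k (w z)

variable {k : Type} [Field k] {n : ℕ}

theorem FORM_dg_bot {X : Type} (i : ℤ) :
    dg (⊥ : Submodule (R k n) (X → R k n)) i = ⊥ := by
  rw [eq_bot_iff]
  intro m hm
  exact hm.1

theorem FORM_ch_bot {B : Bim k n} (h0 : B.L = ⊥) (y : W n) (i : ℤ) : B.ch y i = 0 := by
  have hs : B.stalk y = ⊥ := by
    unfold Bim.stalk
    rw [h0, Submodule.map_bot]
  have hd : dg (B.stalk y) i = ⊥ := by
    rw [hs]
    exact FORM_dg_bot i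
  have hsub : Subsingleton (dg (B.stalk y) i) := by
    rw [hd]
    infer_instance
  unfold Bim.ch
  have : Subsingleton (↥(dg (B.stalk y) i) ⧸
    (dg (Rp k n • B.stalk y) i).comap (dg (B.stalk y) i).subtype) := by
    constructor
    intro a b
    obtain ⟨a, rfl⟩ := Submodule.Quotient.mk_surjective _ a
    obtain ⟨b, rfl⟩ := Submodule.Quotient.mk_surjective _ b
    rw [Subsingleton.elim a b]
  exact Module.finrank_zero_of_subsingleton

theorem FORM_mult_bot {B : Bim k n} (h0 : B.L = ⊥) (y : W n) (i : ℤ) : B.mult y i = 0 := by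
  have hs : B.stalk y = ⊥ := by
    unfold Bim.stalk
    rw [h0, Submodule.map_bot]
  have hd : B.lift y i = ⊥ := by
    rw [eq_bot_iff]
    intro m hm
    have h1 : m ∈ dg (B.stalk y) i := hm.1
    rw [hs, FORM_dg_bot] at h1
    exact h1
  have hsub : Subsingleton (B.lift y i) := by
    rw [hd]
    infer_instance
  unfold Bim.mult
  have : Subsingleton (↥(B.lift y i) ⧸
    (dg (Rp k n • B.stalk y) i).comap (B.lift y i).subtype) := by
    constructor
    intro a b
    obtain ⟨a, rfl⟩ := Submodule.Quotient.mk_surjective _ a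
    obtain ⟨b, rfl⟩ := Submodule.Quotient.mk_surjective _ b
    rw [Subsingleton.elim a b]
  exact Module.finrank_zero_of_subsingleton

theorem FORM_aux (F : Fam k n) (N : ℕ) : ∀ {B : Bim k n}, Good B →
    Module.finrank (R k n) B.L ≤ N →
    ∃ μ : (W n × ℤ) →₀ ℕ, (∀ z d, B.mult z d = μ (z, d)) ∧
      ∀ (y : W n) (i : ℤ), B.ch y i = μ.sum (fun p c => c * (F.Z p.1).C.ch y (i - p.2)) := by
  induction N with
  | zero =>
    intro B hB hN
    by_cases h0 : B.L = ⊥
    · refine ⟨0, fun z d => ?_, fun y i => ?_⟩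
      · rw [FORM_mult_bot h0]
        rfl
      · rw [FORM_ch_bot h0]
        simp
    · exfalso
      obtain ⟨z, d, hzd⟩ := split hB h0
      have hw' : (F.w z).length = len (prd (F.w z)) := by rw [F.hw, F.hl]
      have hm : B.mult (prd (F.w z)) d ≠ 0 := by rwa [F.hw]
      obtain ⟨a, ha, b, hb, hab⟩ := exists_ab hB (F.w z) hw' d hm
      obtain ⟨a', ha', b', hb', hab'⟩ := peel (F.w z) hw' (F.Z z) B d ha hb hab
      have h1 := ker_rank ha' hb' hab'
      have h2 := rank_pos (F.w z) hw' (F.Z z)
      omega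
  | succ N ih =>
    intro B hB hN
    by_cases h0 : B.L = ⊥
    · refine ⟨0, fun z d => ?_, fun y i => ?_⟩
      · rw [FORM_mult_bot h0]
        rfl
      · rw [FORM_ch_bot h0]
        simp
    · obtain ⟨z, d, hzd⟩ := split hB h0
      have hw' : (F.w z).length = len (prd (F.w z)) := by rw [F.hw, F.hl]
      have hm : B.mult (prd (F.w z)) d ≠ 0 := by rwa [F.hw]
      obtain ⟨a, ha, b, hb, hab⟩ := exists_ab hB (F.w z) hw' d hm
      obtain ⟨a', ha', b', hb', hab'⟩ := peel (F.w z) hw' (F.Z z) B d ha hb hab
      have h1 := ker_rank ha' hb' hab'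
      have h2 := rank_pos (F.w z) hw' (F.Z z)
      obtain ⟨μ, hμ1, hμ2⟩ := ih (ker_good hB ha' hb' hab') (by omega)
      refine ⟨Finsupp.single (z, d) 1 + μ, fun z' i => ?_, fun y i => ?_⟩
      · rw [mult_add ha' hb' hab', hμ1, Finsupp.add_apply]
        congr 1
        by_cases hz : z' = z
        · subst hz
          have h3 := mult_top (F.w z') hw' (F.Z z') (i - d)
          rw [F.hw] at h3
          rw [h3]
          by_cases hi : i = d
          · subst hi
            simp
          · rw [if_neg (by omega), Finsupp.single_eq_of_ne]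
            intro h
            apply hi
            exact (Prod.ext_iff.mp h).2
        · have h3 := mult_other (F.w z) hw' (F.Z z) z' (by rwa [F.hw]) (i - d)
          rw [h3, Finsupp.single_eq_of_ne]
          intro h
          apply hz
          exact (Prod.ext_iff.mp h).1
      · rw [ch_add ha' hb' hab', hμ2, Finsupp.sum_add_index']
        · rw [Finsupp.sum_single_index]
          · simp
          · simp
        · intro p
          simp
        · intro p c c'
          ring

theorem form (F : Fam k n) {B : Bim k n} (hB : Good B) :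
    ∃ μ : (W n × ℤ) →₀ ℕ, (∀ z d, B.mult z d = μ (z, d)) ∧
      ∀ (y : W n) (i : ℤ), B.ch y i = μ.sum (fun p c => c * (F.Z p.1).C.ch y (i - p.2)) :=
  FORM_aux F _ hB le_rfl

end

end Pool.Agent.PCan
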