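import Pool.Agent.PCan.Alg2

/-! MODULE FREE : graded free submodules of `X → R`.  (`GFree S r`, definition in `Defs`.) -/

open MvPolynomial

namespace Pool.Agent.PCan

variable {k : Type} [Field k] {n : ℕ}

/-- divisibility in a graded free module -/
theorem gfree_div {X : Type} {S : Submodule (R k n) (X → R k n)} {r : ℤ → ℕ} (hS : GFree S r)
    {α β : R k n} (hα : Prime α) (hβ : ¬ α ∣ β) {c : X → R k n} (hc : c ∈ S)
    (h : ∃ s ∈ S, β • c = α • s) : ∃ s ∈ S, c = α • s := by
  classical
  obtain ⟨J, fJ, b, d, hb, hlin, hspan, hcard⟩ := hS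
  obtain ⟨s, hs, hcs⟩ := h
  rw [← hspan] at hc hs
  rw [Submodule.mem_span_range_iff_exists_fun] at hc hs
  obtain ⟨u, hu⟩ := hc
  obtain ⟨v, hv⟩ := hs
  have h1 : ∑ j, (β * u j - α * v j) • b j = 0 := by
    simp only [sub_smul, Finset.sum_sub_distrib, mul_smul]
    rw [← Finset.smul_sum, ← Finset.smul_sum, hu, hv, hcs, sub_self]
  have h2 : ∀ j, α ∣ u j := by
    intro j
    have h3 := Fintype.linearIndependent_iff.1 hlin _ h1 j
    have h4 : α ∣ β * u j := ⟨v j, sub_eq_zero.1 h3⟩
    exact (hα.dvd_or_dvd h4).resolve_left hβ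
  choose w hw using h2
  refine ⟨∑ j, w j • b j, ?_, ?_⟩
  · rw [← hspan]
    exact Submodule.sum_mem _ fun j _ => Submodule.smul_mem _ _ (Submodule.subset_span ⟨j, rfl⟩)
  · rw [← hu, Finset.smul_sum]
    apply Finset.sum_congr rfl
    intro j _
    rw [hw j, mul_smul]

/-- restriction to a set of points -/
noncomputable def resP {X : Type} (P : X → Prop) [DecidablePred P] : (X → R k n) →ₗ[R k n] (X → R k n) where
  toFun m := fun e => if P e then m e else 0
  map_add' := by
    intro m m'
    funext e
    by_cases h : P e <;> simp [h]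
  map_smul' := by
    intro r m
    funext e
    by_cases h : P e <;> simp [h]

/-- multiplication by a homogeneous polynomial shifts the degrees -/
theorem gfree_smul {X : Type} {S : Submodule (R k n) (X → R k n)} {r : ℤ → ℕ} (hS : GFree S r)
    {α : R k n} {a : ℤ} (hα : α ∈ HZ k n a) (h0 : α ≠ 0) :
    GFree (S.map (LinearMap.lsmul (R k n) (X → R k n) α)) (fun i => r (i - a)) := by
  classical
  obtain ⟨J, fJ, b, d, hb, hlin, hspan, hcard⟩ := hS
  refine ⟨J, fJ, fun j => α • b j, fun j => d j + a, ?_, ?_, ?_, ?_⟩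
  · intro j e
    have h1 := HZ_mul hα (hb j e)
    rw [add_comm a (d j)] at h1
    exact h1
  · rw [Fintype.linearIndependent_iff]
    intro g hg j
    have h1 : ∑ j, (g j * α) • b j = 0 := by
      rw [← hg]
      apply Finset.sum_congr rfl
      intro j _
      rw [mul_smul]
    have h2 := Fintype.linearIndependent_iff.1 hlin _ h1 j
    exact (mul_eq_zero.1 h2).resolve_right h0
  · rw [← hspan, Submodule.map_span, ← Set.range_comp]
    rfl
  · intro i
    show Nat.card {j // d j + a = i} = r (i - a)
    rw [← hcard (i - a)]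
    apply Nat.card_congr
    exact Equiv.subtypeEquivRight fun j => by
      constructor
      · intro h
        omega
      · intro h
        omega

/-- invariance under injective degree preserving maps -/
theorem gfree_map {X Y : Type} {S : Submodule (R k n) (X → R k n)} {r : ℤ → ℕ} (hS : GFree S r)
    (f : (X → R k n) →ₗ[R k n] (Y → R k n)) (hf : ∀ m ∈ S, f m = 0 → m = 0)
    (hd : ∀ (d : ℤ) (m : X → R k n), m ∈ HF k n X d → f m ∈ HF k n Y d) :
    GFree (S.map f) r := by
  classical
  obtain ⟨J, fJ, b, d, hb, hlin, hspan, hcard⟩ := hS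
  refine ⟨J, fJ, fun j => f (b j), d, fun j => hd _ _ (hb j), ?_, ?_, hcard⟩
  · rw [Fintype.linearIndependent_iff]
    intro g hg j
    have h1 : f (∑ j, g j • b j) = 0 := by
      rw [map_sum, ← hg]
      simp only [map_smul]
    have h2 : ∑ j, g j • b j ∈ S := by
      rw [← hspan]
      exact Submodule.sum_mem _ fun j _ => Submodule.smul_mem _ _
        (Submodule.subset_span ⟨j, rfl⟩)
    exact Fintype.linearIndependent_iff.1 hlin _ (hf _ h2 h1) j
  · rw [← hspan, Submodule.map_span, ← Set.range_comp]
    rfl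

theorem gfree_bot {X : Type} : GFree (⊥ : Submodule (R k n) (X → R k n)) (fun _ => 0) := by
  refine ⟨Empty, inferInstance, fun j => j.elim, fun j => j.elim, fun j => j.elim,
    linearIndependent_empty_type, ?_, ?_⟩
  · rw [Set.range_eq_empty, Submodule.span_empty]
  · intro i
    exact Nat.card_of_isEmpty

theorem gfree_eq_bot {X : Type} {S : Submodule (R k n) (X → R k n)}
    (hS : GFree S (fun _ => 0)) : S = ⊥ := by
  obtain ⟨J, fJ, b, d, hb, hlin, hspan, hcard⟩ := hS
  have hJ : IsEmpty J := by
    constructor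
    intro j
    have h1 := hcard (d j)
    have h2 : Nonempty {j' // d j' = d j} := ⟨⟨j, rfl⟩⟩
    exact Nat.card_pos.ne' h1
  rw [← hspan, Set.range_eq_empty, Submodule.span_empty]

end Pool.Agent.PCan
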