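import Pool.Agent.PCan.Free

/-! MODULE FREE2 : extensions of graded free modules. -/

open MvPolynomial

namespace Pool.Agent.PCan

variable {k : Type} [Field k] {n : ℕ}

namespace FREE2Aux

theorem resP_apply {X : Type} (P : X → Prop) [DecidablePred P] (m : X → R k n) (e : X) :
    resP P m e = if P e then m e else 0 := rfl

theorem HZ_comp (j : ℕ) (p : R k n) : homogeneousComponent j p ∈ HZ k n j :=
  (HZ_iff j _).2 (homogeneousComponent_isHomogeneous j p)

theorem comp_HZ {j : ℕ} {p : R k n} (hp : p ∈ HZ k n j) : homogeneousComponent j p = p := by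
  rw [homogeneousComponent_of_mem ((mem_homogeneousSubmodule _ _).2 ((HZ_iff j p).1 hp)),
    if_pos rfl]

/-- homogeneous elements of the image of `resP P` lift to homogeneous elements -/
theorem lift_hom {X : Type} (P : X → Prop) [DecidablePred P]
    {S : Submodule (R k n) (X → R k n)}
    (hgr : ∀ m ∈ S, ∀ j : ℕ, (fun e => homogeneousComponent j (m e)) ∈ S)
    {b : X → R k n} (hb : b ∈ S.map (resP P)) {d : ℤ} (hd : b ∈ HF k n X d) :
    ∃ m ∈ S, resP P m = b ∧ m ∈ HF k n X d := by
  rcases lt_or_ge d 0 with h | h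
  · have hb0 : b = 0 := by
      funext e
      exact HZ_neg h (hd e)
    refine ⟨0, S.zero_mem, ?_, (HF k n X d).zero_mem⟩
    rw [hb0, map_zero]
  · obtain ⟨N, rfl⟩ := Int.eq_ofNat_of_zero_le h
    obtain ⟨m, hm, hmb⟩ := hb
    refine ⟨fun e => homogeneousComponent N (m e), hgr m hm N, ?_, fun e => HZ_comp N (m e)⟩
    funext e
    rw [resP_apply]
    have h1 : (if P e then m e else 0) = b e := by
      rw [← hmb]
      rfl
    by_cases hP : P e
    · rw [if_pos hP] at h1 ⊢
      rw [h1]
      exact comp_HZ (hd e)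
    · rw [if_neg hP] at h1 ⊢
      exact h1

end FREE2Aux

open FREE2Aux

/-- extension of graded free modules: the image in the points of `P` and the kernel are
graded free -/
theorem gfree_ext {X : Type} [Finite X] (P : X → Prop) [DecidablePred P]
    {S : Submodule (R k n) (X → R k n)}
    (hgr : ∀ m ∈ S, ∀ j : ℕ, (fun e => homogeneousComponent j (m e)) ∈ S) {r₁ r₂ : ℤ → ℕ}
    (h₁ : GFree (S.map (resP P)) r₁) (h₂ : GFree (S ⊓ LinearMap.ker (resP P)) r₂) :
    GFree S (fun i => r₁ i + r₂ i) := by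
  classical
  obtain ⟨J₁, hJ₁, b₁, d₁, hd₁, hl₁, hs₁, hr₁⟩ := h₁
  obtain ⟨J₂, hJ₂, b₂, d₂, hd₂, hl₂, hs₂, hr₂⟩ := h₂
  have hb₁ : ∀ j, b₁ j ∈ S.map (resP P) := by
    intro j
    rw [← hs₁]
    exact Submodule.subset_span ⟨j, rfl⟩
  have hb₂ : ∀ j, b₂ j ∈ S ⊓ LinearMap.ker (resP P) := by
    intro j
    rw [← hs₂]
    exact Submodule.subset_span ⟨j, rfl⟩
  choose c hcS hcb hcd using fun j => lift_hom P hgr (hb₁ j) (hd₁ j)
  refine ⟨J₁ ⊕ J₂, inferInstance, Sum.elim c b₂, Sum.elim d₁ d₂, ?_, ?_, ?_, ?_⟩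
  · rintro (j | j)
    · exact hcd j
    · exact hd₂ j
  · rw [Fintype.linearIndependent_iff]
    intro g hg
    rw [Fintype.sum_sum_type] at hg
    simp only [Sum.elim_inl, Sum.elim_inr] at hg
    have h1 : ∑ j, g (Sum.inl j) • b₁ j = 0 := by
      have h2 := congrArg (resP P) hg
      rw [map_add, map_sum, map_sum, map_zero] at h2
      have h3 : ∀ j, resP P (g (Sum.inr j) • b₂ j) = 0 := by
        intro j
        rw [map_smul]
        have : resP P (b₂ j) = 0 := (hb₂ j).2
        rw [this, smul_zero]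
      rw [Finset.sum_eq_zero (fun j _ => h3 j), add_zero] at h2
      rw [← h2]
      refine Finset.sum_congr rfl fun j _ => ?_
      rw [map_smul, hcb]
    have h4 : ∀ j, g (Sum.inl j) = 0 := (Fintype.linearIndependent_iff.1 hl₁) _ h1
    have h5 : ∑ j, g (Sum.inr j) • b₂ j = 0 := by
      rw [← hg]
      rw [Finset.sum_eq_zero (f := fun j => g (Sum.inl j) • c j)
        (fun j _ => by rw [h4 j, zero_smul]), zero_add]
    have h6 : ∀ j, g (Sum.inr j) = 0 := (Fintype.linearIndependent_iff.1 hl₂) _ h5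
    rintro (j | j)
    · exact h4 j
    · exact h6 j
  · apply le_antisymm
    · rw [Submodule.span_le]
      rintro _ ⟨(j | j), rfl⟩
      · exact hcS j
      · exact (hb₂ j).1
    · intro m hm
      have h1 : resP P m ∈ Submodule.span (R k n) (Set.range b₁) := by
        rw [hs₁]
        exact ⟨m, hm, rfl⟩
      rw [Submodule.mem_span_range_iff_exists_fun] at h1
      obtain ⟨a, ha⟩ := h1
      have h2 : m - ∑ j, a j • c j ∈ S ⊓ LinearMap.ker (resP P) := by
        refine ⟨S.sub_mem hm (S.sum_mem fun j _ => S.smul_mem _ (hcS j)), ?_⟩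
        show resP P (m - ∑ j, a j • c j) = 0
        rw [map_sub, map_sum, ← ha, sub_eq_zero]
        refine Finset.sum_congr rfl fun j _ => ?_
        rw [map_smul, hcb]
      rw [← hs₂] at h2
      have h3 : m = (m - ∑ j, a j • c j) + ∑ j, a j • c j := by
        rw [sub_add_cancel]
      rw [h3]
      refine Submodule.add_mem _ ?_ ?_
      · refine Submodule.span_mono ?_ h2
        rintro _ ⟨j, rfl⟩
        exact ⟨Sum.inr j, rfl⟩
      · refine Submodule.sum_mem _ fun j _ => Submodule.smul_mem _ _ ?_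
        exact Submodule.subset_span ⟨Sum.inl j, rfl⟩
  · intro i
    show Nat.card {j // Sum.elim d₁ d₂ j = i} = r₁ i + r₂ i
    rw [← hr₁ i, ← hr₂ i, ← Nat.card_sum]
    exact Nat.card_congr Equiv.subtypeSum

end Pool.Agent.PCan
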