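import Pool.Agent.PCan.Free2

/-! MODULE FREE3 : functionals on graded free modules. -/

open MvPolynomial

namespace Pool.Agent.PCan

variable {k : Type} [Field k] {n : ℕ}

/-- coordinates of a graded free module -/
theorem FREE3_data {X : Type} {S : Submodule (R k n) (X → R k n)} {r : ℤ → ℕ}
    (hS : GFree S r) : ∃ (J : Type) (_ : Fintype J) (b : J → X → R k n) (d : J → ℤ)
      (c : S →ₗ[R k n] (J → R k n)), (∀ j, b j ∈ HF k n X (d j)) ∧ (∀ j, b j ∈ S) ∧
      Submodule.span (R k n) (Set.range b) = S ∧
      (∀ s : S, s.1 = ∑ j, c s j • b j) ∧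
      (∀ (s : S) (i : ℤ), s.1 ∈ HF k n X i → ∀ j, c s j ∈ HZ k n (i - d j)) ∧
      (∀ (a : J → R k n) (s : S), s.1 = ∑ j, a j • b j → c s = a) ∧
      ∀ i, Nat.card {j // d j = i} = r i := by
  classical
  obtain ⟨J, fJ, b, d, hb, hlin, hspan, hcard⟩ := hS
  subst hspan
  set S := Submodule.span (R k n) (Set.range b) with hSd
  have hbS : ∀ j, b j ∈ S := fun j => Submodule.subset_span ⟨j, rfl⟩
  have hd0 : ∀ j, 0 ≤ d j := by
    intro j
    by_contra hneg
    push Not at hneg
    apply hlin.ne_zero j
    funext e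
    exact HZ_neg hneg (hb j e)
  set B := Module.Basis.span hlin with hB
  have hBv : ∀ j, (B j : X → R k n) = b j := fun j => by rw [hB, Module.Basis.span_apply]
  have hrepr : ∀ s : S, s.1 = ∑ j, B.repr s j • b j := by
    intro s
    have h1 := congrArg Subtype.val (B.sum_repr s)
    rw [← h1]
    simp only [Submodule.coe_sum, Submodule.coe_smul, hBv]
  have huniq : ∀ (a : J → R k n) (s : S), s.1 = ∑ j, a j • b j → ∀ j, B.repr s j = a j := by
    intro a s hs j
    have h1 : ∑ j, (B.repr s j - a j) • b j = 0 := by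
      simp only [sub_smul, Finset.sum_sub_distrib]
      rw [← hrepr s, ← hs, sub_self]
    have h2 := Fintype.linearIndependent_iff.1 hlin _ h1 j
    exact sub_eq_zero.1 h2
  refine ⟨J, fJ, b, d, B.equivFun.toLinearMap, hb, hbS, rfl, ?_, ?_, ?_, hcard⟩
  · intro s
    exact hrepr s
  · intro s i hs
    by_cases hi : 0 ≤ i
    · obtain ⟨m, rfl⟩ := Int.eq_ofNat_of_zero_le hi
      have h1 : s.1 = ∑ j, (if d j ≤ m then homogeneousComponent ((m : ℤ) - d j).toNat
          (B.repr s j) else 0) • b j := by
        funext e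
        have h2 : s.1 e = homogeneousComponent m (s.1 e) := by
          rw [hc_of_HZ m (hs e), if_pos rfl]
        have h3 : s.1 e = ∑ j, B.repr s j * b j e := by
          conv_lhs => rw [hrepr s]
          simp [Finset.sum_apply]
        rw [h2, h3, map_sum, Finset.sum_apply]
        apply Finset.sum_congr rfl
        intro j _
        simp only [Pi.smul_apply, smul_eq_mul]
        obtain ⟨q, hq⟩ := Int.eq_ofNat_of_zero_le (hd0 j)
        have hbq : b j e ∈ HZ k n (q : ℕ) := by
          have := hb j e
          rwa [hq] at this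
        rw [mul_comm (B.repr s j)]
        by_cases hle : d j ≤ m
        · rw [if_pos hle]
          have hqm : q ≤ m := by omega
          have h4 : ((m : ℤ) - d j).toNat = m - q := by omega
          rw [h4]
          have h5 := hc_mul hbq (B.repr s j) (m - q)
          rw [Nat.sub_add_cancel hqm] at h5
          rw [h5, mul_comm]
        · rw [if_neg hle, zero_mul]
          exact hc_mul_lt hbq _ _ (by omega)
      intro j
      show B.repr s j ∈ _
      rw [huniq _ s h1 j]
      split_ifs with hle
      · have h6 := hc_HZ (k := k) (n := n) ((m : ℤ) - d j).toNat (B.repr s j)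
        rwa [Int.toNat_of_nonneg (by omega)] at h6
      · exact (HZ k n _).zero_mem
    · have h0 : s = 0 := by
        apply Subtype.ext
        funext e
        exact HZ_neg (not_le.1 hi) (hs e)
      intro j
      rw [h0, map_zero]
      exact (HZ k n _).zero_mem
  · intro a s hs
    funext j
    exact huniq a s hs j

/-- a functional which is 1 on a given homogeneous element not in `R_+ S` -/
theorem gfree_functional {X : Type} {S : Submodule (R k n) (X → R k n)} {r : ℤ → ℕ}
    (hS : GFree S r) {d : ℤ} (m : S) (hm : m.1 ∈ HF k n X d) (h : m.1 ∉ Rp k n • S) :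
    ∃ ψ : S →ₗ[R k n] R k n, (∀ (j : ℤ) (s : S), s.1 ∈ HF k n X j → ψ s ∈ HZ k n (j - d)) ∧
      ψ m = 1 := by
  classical
  obtain ⟨J, fJ, b, dJ, c, hb, hbS, hspan, hrepr, hhom, -, -⟩ := FREE3_data hS
  obtain ⟨i, hi⟩ : ∃ i, c m i ∉ Rp k n := by
    by_contra hcon
    push Not at hcon
    apply h
    rw [hrepr m]
    exact Submodule.sum_mem _ fun j _ => Submodule.smul_mem_smul (hcon j) (hbS j)
  have h1 := hhom m d hm i
  have hd : dJ i = d := by
    rcases lt_trichotomy (dJ i) d with h2 | h2 | h2
    · exact absurd (HZ_pos (by omega) h1) hi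
    · exact h2
    · exfalso
      apply hi
      rw [HZ_neg (by omega) h1]
      exact (Rp k n).zero_mem
  rw [hd, sub_self] at h1
  have h3 : constantCoeff (c m i) ≠ 0 := fun h4 => hi (RingHom.mem_ker.2 h4)
  refine ⟨(LinearMap.lsmul (R k n) (R k n) (C (constantCoeff (c m i))⁻¹)).comp
    ((LinearMap.proj i).comp c), ?_, ?_⟩
  · intro j s hs
    have h4 := hhom s j hs i
    rw [hd] at h4
    have h5 := HZ_mul (C_HZ (k := k) (n := n) (constantCoeff (c m i))⁻¹) h4
    rw [zero_add] at h5
    exact h5
  · show C (constantCoeff (c m i))⁻¹ * c m i = 1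
    conv_lhs => rw [HZ_zero h1]
    rw [constantCoeff_C, ← C_mul, inv_mul_cancel₀ h3, C_1]

/-- lifting: `G s r` is an additive, `R`-homogeneous relation; if every homogeneous element `s`
has a homogeneous partner then there is a homogeneous functional contained in `G` -/
theorem gfree_lift {X : Type} {S : Submodule (R k n) (X → R k n)} {r : ℤ → ℕ}
    (hS : GFree S r) (d : ℤ) (G : S → R k n → Prop) (h0 : G 0 0)
    (hadd : ∀ s s' p p', G s p → G s' p' → G (s + s') (p + p'))
    (hsmul : ∀ (c : R k n) s p, G s p → G (c • s) (c * p))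
    (hex : ∀ (j : ℤ) (s : S), s.1 ∈ HF k n X j → ∃ p ∈ HZ k n (j + d), G s p) :
    ∃ φ : S →ₗ[R k n] R k n, (∀ s, G s (φ s)) ∧
      ∀ (j : ℤ) (s : S), s.1 ∈ HF k n X j → φ s ∈ HZ k n (j + d) := by
  classical
  obtain ⟨J, fJ, b, dJ, c, hb, hbS, hspan, hrepr, hhom, -, -⟩ := FREE3_data hS
  choose p hp hG using fun j : J => hex (dJ j) ⟨b j, hbS j⟩ (hb j)
  refine ⟨(Fintype.linearCombination (R k n) p).comp c, ?_, ?_⟩
  · intro s
    have h1 : s = ∑ j, c s j • (⟨b j, hbS j⟩ : S) := by
      apply Subtype.ext
      rw [Submodule.coe_sum]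
      simp only [Submodule.coe_smul]
      exact hrepr s
    have h2 : ∀ T : Finset J, G (∑ j ∈ T, c s j • (⟨b j, hbS j⟩ : S)) (∑ j ∈ T, c s j * p j) := by
      intro T
      induction T using Finset.induction_on with
      | empty => simpa using h0
      | insert j T hj IH =>
        rw [Finset.sum_insert hj, Finset.sum_insert hj]
        exact hadd _ _ _ _ (hsmul _ _ _ (hG j)) IH
    have h3 := h2 Finset.univ
    rw [← h1] at h3
    have h4 : ((Fintype.linearCombination (R k n) p).comp c) s = ∑ j, c s j * p j := by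
      simp [Fintype.linearCombination_apply]
    rw [h4]
    exact h3
  · intro i s hs
    have h4 : ((Fintype.linearCombination (R k n) p).comp c) s = ∑ j, c s j * p j := by
      simp [Fintype.linearCombination_apply]
    rw [h4]
    refine Submodule.sum_mem _ fun j _ => ?_
    have h5 := HZ_mul (hhom s i hs j) (hp j)
    rwa [show i - dJ j + (dJ j + d) = i + d by ring] at h5

end Pool.Agent.PCan
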