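import Pool.Agent.PCan.Free3

/-! MODULE FREE4 : dimensions. -/

open MvPolynomial

namespace Pool.Agent.PCan

variable {k : Type} [Field k] {n : ℕ}

/-- (X finite) homogeneous parts are finite dimensional -/
instance dg_fin {X : Type} [Finite X] (S : Submodule (R k n) (X → R k n)) (d : ℤ) :
    FiniteDimensional k (dg S d) := by
  have h : dg S d ≤ HF k n X d := inf_le_right
  exact Submodule.finiteDimensional_of_le h

/-- the ranks are the dimensions of `(S / R_+ S)_i` -/
theorem gfree_finrank {X : Type} [Finite X] {S : Submodule (R k n) (X → R k n)} {r : ℤ → ℕ}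
    (hS : GFree S r) (i : ℤ) :
    Module.finrank k (↥(dg S i) ⧸ (dg (Rp k n • S) i).comap (dg S i).subtype) = r i := by
  classical
  obtain ⟨J, fJ, b, dJ, c, hb, hbS, hspan, hrepr, hhom, huniq, hcard⟩ := FREE3_data hS
  -- the coordinates
  set Φ : dg S i →ₗ[k] ({j // dJ j = i} → k) :=
    { toFun := fun s => fun j => constantCoeff (c ⟨s.1, s.2.1⟩ j.1)
      map_add' := by
        intro s t
        funext j
        have h1 : (⟨(s + t).1, (s + t).2.1⟩ : S) = ⟨s.1, s.2.1⟩ + ⟨t.1, t.2.1⟩ := rfl
        rw [h1, map_add]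
        simp
      map_smul' := by
        intro a s
        funext j
        have h1 : (⟨(a • s).1, (a • s).2.1⟩ : S) = (C a : R k n) • ⟨s.1, s.2.1⟩ := by
          apply Subtype.ext
          funext e
          show a • s.1 e = C a * s.1 e
          rw [MvPolynomial.smul_eq_C_mul]
        rw [h1, map_smul]
        simp } with hΦ
  have hsurj : Function.Surjective Φ := by
    intro a
    set v : X → R k n := ∑ j, (if h : dJ j = i then (C (a ⟨j, h⟩) : R k n) else 0) • b j with hv
    have hvS : v ∈ S := Submodule.sum_mem _ fun j _ => S.smul_mem _ (hbS j)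
    have hvH : v ∈ HF k n X i := by
      refine Submodule.sum_mem _ fun j _ => ?_
      intro e
      by_cases h : dJ j = i
      · rw [dif_pos h]
        have h2 := HZ_mul (C_HZ (k := k) (n := n) (a ⟨j, h⟩)) (hb j e)
        rw [zero_add, h] at h2
        exact h2
      · rw [dif_neg h, zero_smul]
        exact (HZ k n i).zero_mem
    refine ⟨⟨v, hvS, hvH⟩, ?_⟩
    funext j
    show constantCoeff (c ⟨v, hvS⟩ j.1) = a j
    rw [huniq _ ⟨v, hvS⟩ hv]
    obtain ⟨j, hj⟩ := j
    simp only
    rw [dif_pos hj, constantCoeff_C]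
  have hker : (dg (Rp k n • S) i).comap (dg S i).subtype = LinearMap.ker Φ := by
    ext s
    rw [Submodule.mem_comap, LinearMap.mem_ker]
    constructor
    · intro hs
      have h1 : ∀ v : X → R k n, v ∈ Rp k n • S →
          v ∈ Rp k n • Submodule.span (R k n) (Set.range b) := by
        intro v hv
        rw [hspan]
        exact hv
      replace h1 := h1 s.1 hs.1
      rw [Submodule.mem_ideal_smul_span_iff_exists_sum] at h1
      obtain ⟨a, ha, hsum⟩ := h1
      have h2 : c ⟨s.1, s.2.1⟩ = a := by
        apply huniq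
        simp only
        rw [← hsum, Finsupp.sum_fintype]
        intro j
        exact zero_smul _ _
      funext j
      show constantCoeff (c ⟨s.1, s.2.1⟩ j.1) = 0
      rw [h2]
      exact RingHom.mem_ker.1 (ha j.1)
    · intro hs
      refine ⟨?_, s.2.2⟩
      show s.1 ∈ Rp k n • S
      rw [show s.1 = ∑ j, c ⟨s.1, s.2.1⟩ j • b j from hrepr ⟨s.1, s.2.1⟩]
      refine Submodule.sum_mem _ fun j _ => Submodule.smul_mem_smul ?_ (hbS j)
      have h1 := hhom ⟨s.1, s.2.1⟩ i s.2.2 j
      rcases lt_trichotomy (dJ j) i with h2 | h2 | h2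
      · exact HZ_pos (by omega) h1
      · exact RingHom.mem_ker.2 (congrFun hs ⟨j, h2⟩)
      · rw [HZ_neg (by omega) h1]
        exact (Rp k n).zero_mem
  rw [hker, (LinearMap.quotKerEquivOfSurjective Φ hsurj).finrank_eq, Module.finrank_fintype_fun_eq_card,
    ← hcard i, Nat.card_eq_fintype_card]

end Pool.Agent.PCan
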