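import Pool.Agent.PCan.Eco

/-! MODULE GOOD : retracts of objects. -/

open MvPolynomial

namespace Pool.Agent.PCan

noncomputable section

variable {k : Type} [Field k] {n : ℕ}

/-- `B` is a (graded) retract of an object -/
def Good (B : Bim k n) : Prop :=
  ∃ (M : Obj k n) (ι : B.L →ₗ[R k n] M.L) (r : M.L →ₗ[R k n] B.L),
    ι ∈ Bim.Hom B M.toBim 0 ∧ r ∈ Bim.Hom M.toBim B 0 ∧ r ∘ₗ ι = LinearMap.id

theorem good_obj (M : Obj k n) : Good M.toBim :=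
  ⟨M, LinearMap.id, LinearMap.id, Hom_id M.toBim, Hom_id M.toBim, rfl⟩

theorem GOOD_comp {A B C : Bim k n} {d : ℤ} {f : A.L →ₗ[R k n] B.L} {g : B.L →ₗ[R k n] C.L}
    (hf : f ∈ Bim.Hom A B 0) (hg : g ∈ Bim.Hom B C d) : g ∘ₗ f ∈ Bim.Hom A C d := by
  have := Hom_comp hf hg
  rwa [zero_add] at this

theorem GOOD_comp' {A B C : Bim k n} {d : ℤ} {f : A.L →ₗ[R k n] B.L} {g : B.L →ₗ[R k n] C.L}
    (hf : f ∈ Bim.Hom A B d) (hg : g ∈ Bim.Hom B C 0) : g ∘ₗ f ∈ Bim.Hom A C d := by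
  have := Hom_comp hf hg
  rwa [add_zero] at this

theorem good_retract {B C : Bim k n} (hB : Good B) {ι : C.L →ₗ[R k n] B.L}
    {r : B.L →ₗ[R k n] C.L} (hι : ι ∈ Bim.Hom C B 0) (hr : r ∈ Bim.Hom B C 0)
    (h : r ∘ₗ ι = LinearMap.id) : Good C := by
  obtain ⟨M, ι', r', hι', hr', h'⟩ := hB
  refine ⟨M, ι' ∘ₗ ι, r ∘ₗ r', GOOD_comp hι hι', GOOD_comp hr' hr, ?_⟩
  refine LinearMap.ext fun m => ?_
  have e1 : r' (ι' (ι m)) = ι m := LinearMap.congr_fun h' (ι m)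
  have e2 : r (ι m) = m := LinearMap.congr_fun h m
  show r (r' (ι' (ι m))) = m
  rw [e1, e2]

/-- (E*) for retracts: `b := b_M ∘ ι` for the functional `ψ ∘ r_z` -/
theorem good_estar {B : Bim k n} (hB : Good B) (w : List (Fin n)) (hw : w.length = len (prd w))
    (d : ℤ) (ψ : B.stalk (prd w) →ₗ[R k n] R k n)
    (hψ : ∀ (j : ℤ) (s : B.stalk (prd w)), s.1 ∈ HF k n B.X j → ψ s ∈ HZ k n (j + d)) :
    ∃ b ∈ Bim.Hom B (BS k w).toBim d,
      ∀ m : B.L, (b m).1 (top k w) = ψ (B.st (prd w) m) := by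
  obtain ⟨M, ι, r, hι, hr, h⟩ := hB
  obtain ⟨Φ, hΦ, hΦd⟩ := st_map hr (prd w)
  obtain ⟨b, hb, hbt⟩ := estar w hw M d (ψ ∘ₗ Φ) (by
    intro j s hs
    have := hΦd j s hs
    rw [add_zero] at this
    exact hψ j _ this)
  refine ⟨b ∘ₗ ι, GOOD_comp hι hb, fun m => ?_⟩
  have e1 : r (ι m) = m := LinearMap.congr_fun h m
  show (b (ι m)).1 (top k w) = _
  rw [hbt]
  show ψ (Φ (M.st (prd w) (ι m))) = _
  rw [hΦ, e1]

/-- (E) for retracts: `a := r ∘ a_M` for `ι m` -/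
theorem good_eco {B : Bim k n} (hB : Good B) (w : List (Fin n)) (hw : w.length = len (prd w))
    (d : ℤ) (m : B.X → R k n) (hm : m ∈ B.costalk (prd w))
    (hd : m ∈ HF k n B.X (d + len (prd w))) :
    ∃ a ∈ Bim.Hom (BS k w).toBim B d, ∀ g : (BS k w).L,
      (piz (prd w) : R k n) • res B.pr (prd w) (a g).1 = g.1 (top k w) • m := by
  obtain ⟨M, ι, r, hι, hr, h⟩ := hB
  let m0 : B.L := ⟨m, hm.1⟩
  have hm0 : m0.1 = m := rfl
  have hsupp : ∀ e, M.pr e ≠ prd w → (ι m0).1 e = 0 := by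
    intro e he
    have h1 : res B.pr (M.pr e) m0.1 = 0 := by
      funext e'
      show (if B.pr e' = M.pr e then m e' else 0) = 0
      by_cases h2 : B.pr e' = M.pr e
      · rw [if_pos h2]
        exact hm.2 e' (by rw [h2]; exact he)
      · rw [if_neg h2]
    have h3 := congrFun (hom_res hι (M.pr e) m0 h1) e
    have h4 : (if M.pr e = M.pr e then (ι m0).1 e else 0) = 0 := h3
    rwa [if_pos rfl] at h4
  have hco : (ι m0).1 ∈ M.toBim.costalk (prd w) := ⟨(ι m0).2, hsupp⟩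
  have hdeg : (ι m0).1 ∈ HF k n M.X (d + len (prd w)) := by
    have := hι.2 _ m0 hd
    rwa [add_zero] at this
  obtain ⟨a, ha, hag⟩ := eco w hw M d (ι m0).1 hco hdeg
  refine ⟨r ∘ₗ a, GOOD_comp' ha hr, fun g => ?_⟩
  have hres : res M.pr (prd w) (ι m0).1 = (ι m0).1 := by
    funext e
    show (if M.pr e = prd w then (ι m0).1 e else 0) = (ι m0).1 e
    by_cases h2 : M.pr e = prd w
    · rw [if_pos h2]
    · rw [if_neg h2, hsupp e h2]
  have hresB : res B.pr (prd w) m = m := by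
    funext e
    show (if B.pr e = prd w then m e else 0) = m e
    by_cases h2 : B.pr e = prd w
    · rw [if_pos h2]
    · rw [if_neg h2, hm.2 e h2]
  let q : M.L := (piz (prd w) : R k n) • a g - g.1 (top k w) • ι m0
  have hq : res M.pr (prd w) q.1 = 0 := by
    have e1 : q.1 = (piz (prd w) : R k n) • (a g).1 - g.1 (top k w) • (ι m0).1 := rfl
    rw [e1, map_sub, map_smul, map_smul, hres, hag, sub_self]
  have hrq := hom_res hr (prd w) q hq
  have e2 : (r q).1 = (piz (prd w) : R k n) • (r (a g)).1 - g.1 (top k w) • (r (ι m0)).1 := by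
    have e3 : r q = (piz (prd w) : R k n) • r (a g) - g.1 (top k w) • r (ι m0) := by
      rw [map_sub, map_smul, map_smul]
    rw [e3]
    rfl
  have e4 : r (ι m0) = m0 := LinearMap.congr_fun h m0
  rw [e2, e4, map_sub, map_smul, map_smul, hm0, hresB] at hrq
  exact sub_eq_zero.mp hrq

theorem GOOD_smul_map {M B : Bim k n} (z : W n) (Φ : M.stalk z →ₗ[R k n] B.stalk z)
    {x : M.X → R k n} (hx : x ∈ Rp k n • M.stalk z) :
    ∃ h : x ∈ M.stalk z, (Φ ⟨x, h⟩).1 ∈ Rp k n • B.stalk z := by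
  refine Submodule.smul_induction_on hx ?_ ?_
  · intro c hc s hs
    refine ⟨Submodule.smul_mem _ c hs, ?_⟩
    have e : Φ ⟨c • s, Submodule.smul_mem _ c hs⟩ = c • Φ ⟨s, hs⟩ := by
      rw [← map_smul]; rfl
    rw [e]
    exact Submodule.smul_mem_smul hc (Φ ⟨s, hs⟩).2
  · rintro x y ⟨h1, h2⟩ ⟨h3, h4⟩
    refine ⟨Submodule.add_mem _ h1 h3, ?_⟩
    have e : Φ ⟨x + y, Submodule.add_mem _ h1 h3⟩ = Φ ⟨x, h1⟩ + Φ ⟨y, h3⟩ := by
      rw [← map_add]; rfl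
    rw [e]
    exact Submodule.add_mem _ h2 h4

/-- if `m ∉ R_+ B^z` then `ι m ∉ R_+ M^z`, `gfree_functional`, compose with `ι` -/
theorem good_functional {B : Bim k n} (hB : Good B) (z : W n) (d : ℤ) (m : B.stalk z)
    (hm : m.1 ∈ HF k n B.X d) (h : m.1 ∉ Rp k n • B.stalk z) :
    ∃ ψ : B.stalk z →ₗ[R k n] R k n,
      (∀ (j : ℤ) (s : B.stalk z), s.1 ∈ HF k n B.X j → ψ s ∈ HZ k n (j + -d)) ∧ ψ m = 1 := by
  obtain ⟨M, ι, r, hι, hr, hri⟩ := hB
  obtain ⟨Φι, hΦι, hΦιd⟩ := st_map hι z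
  obtain ⟨Φr, hΦr, -⟩ := st_map hr z
  have hback : Φr (Φι m) = m := by
    obtain ⟨m0, rfl⟩ := st_surj B z m
    have e1 : r (ι m0) = m0 := LinearMap.congr_fun hri m0
    rw [hΦι, hΦr, e1]
  have hnot : (Φι m).1 ∉ Rp k n • M.toBim.stalk z := by
    intro hin
    obtain ⟨h1, h2⟩ := GOOD_smul_map z Φr hin
    have e : Φr ⟨(Φι m).1, h1⟩ = m := hback
    rw [e] at h2
    exact h h2
  have hdeg : (Φι m).1 ∈ HF k n M.X d := by
    have := hΦιd d m hm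
    rwa [add_zero] at this
  obtain ⟨ψ, hψ, hψ1⟩ := gfree_functional (M.F1 z) (Φι m) hdeg hnot
  refine ⟨ψ ∘ₗ Φι, fun j s hs => ?_, hψ1⟩
  have := hΦιd j s hs
  rw [add_zero] at this
  exact hψ j _ this

end

end Pool.Agent.PCan
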