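import Pool.Agent.PCan.Perm3

/-! MODULE HECKE : the Hecke algebra of `S_(n+1)` as a right module over itself, the bar
involution and the Kazhdan-Lusztig basis. -/

namespace Pool.Agent.PCan

noncomputable section

open LaurentPolynomial

variable {n : ℕ}

/-- elements `∑_y f(y) H_y` of the Hecke algebra -/
abbrev Hk (n : ℕ) := W n → LaurentPolynomial ℤ

/-- the standard basis element `H_x` -/
def Hst (x : W n) : Hk n := Pi.single x 1

/-- right multiplication by `b_s = H_s + v`:
`H_x b_s = H_xs + v H_x` if `xs > x`, `H_xs + v⁻¹ H_x` if `xs < x` -/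
def mulb (i : Fin n) (f : Hk n) : Hk n :=
  fun y => f (y * sr i) + T (if y i.castSucc < y i.succ then (1 : ℤ) else -1) * f y

/-- The bar involution: the additive map with `D(v f) = v⁻¹ D(f)`, `D(H_1) = H_1`,
`D(f b_s) = D(f) b_s`. -/
def IsBar (D : Hk n → Hk n) : Prop :=
  (∀ f g, D (f + g) = D f + D g) ∧ (∀ (j : ℤ) (f : Hk n), D (fun y => T j * f y) =
    fun y => T (-j) * D f y) ∧ D (Hst 1) = Hst 1 ∧ ∀ i f, D (mulb i f) = mulb i (D f)

/-- The Kazhdan-Lusztig basis: `b x` is bar invariant, `b x ∈ H_x + ∑_(y ≠ x) v ℤ[v] H_y` -/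
def IsKL (b : W n → Hk n) : Prop :=
  ∃ D, IsBar D ∧ ∀ x, D (b x) = b x ∧ b x x = 1 ∧
    ∀ y, y ≠ x → ∀ j : ℤ, j ≤ 0 → (b x y).coeff j = 0

theorem HECKE_neg (y : W n) (i : Fin n) :
    (T (if (y * sr i) i.castSucc < (y * sr i) i.succ then (1 : ℤ) else -1) :
      LaurentPolynomial ℤ) = T (-(if y i.castSucc < y i.succ then (1 : ℤ) else -1)) := by
  have h1 : (y * sr i) i.castSucc = y i.succ := by
    rw [Equiv.Perm.mul_apply, sr, Equiv.swap_apply_left]
  have h2 : (y * sr i) i.succ = y i.castSucc := by
    rw [Equiv.Perm.mul_apply, sr, Equiv.swap_apply_right]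
  have hne : y i.castSucc ≠ y i.succ := fun h => (Fin.castSucc_lt_succ (i := i)).ne (y.injective h)
  rw [h1, h2]
  rcases lt_or_gt_of_ne hne with h | h
  · rw [if_neg h.not_gt, if_pos h]
  · rw [if_pos h, if_neg h.not_gt, neg_neg]

theorem HECKE_mul (y : W n) (i : Fin n) : y * sr i * sr i = y := by
  rw [mul_assoc, sr_mul_self, mul_one]

theorem HECKE_v : (T 1 * T (-1) : LaurentPolynomial ℤ) = 1 := by
  rw [← T_add]
  exact T_zero

theorem mulb_sq (i : Fin n) (f : Hk n) :
    mulb i (mulb i f) = fun y => (T 1 + T (-1)) * mulb i f y := by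
  funext y
  unfold mulb
  rw [HECKE_neg, HECKE_mul]
  have hv := HECKE_v
  by_cases h : y i.castSucc < y i.succ
  · rw [if_pos h]
    linear_combination (-(f y)) * hv
  · rw [if_neg h, neg_neg]
    linear_combination (-(f y)) * hv

theorem mulb_comm (i j : Fin n) (h : (i : ℕ) + 1 < j) (f : Hk n) :
    mulb i (mulb j f) = mulb j (mulb i f) := by
  have e1 : (sr i) j.castSucc = j.castSucc := by
    apply Equiv.swap_apply_of_ne_of_ne
    · intro hh
      have := congrArg Fin.val hh
      simp at this
      omega
    · intro hh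
      have := congrArg Fin.val hh
      simp at this
      omega
  have e2 : (sr i) j.succ = j.succ := by
    apply Equiv.swap_apply_of_ne_of_ne
    · intro hh
      have := congrArg Fin.val hh
      simp at this
      omega
    · intro hh
      have := congrArg Fin.val hh
      simp at this
      omega
  have e3 : (sr j) i.castSucc = i.castSucc := by
    apply Equiv.swap_apply_of_ne_of_ne
    · intro hh
      have := congrArg Fin.val hh
      simp at this
      omega
    · intro hh
      have := congrArg Fin.val hh
      simp at this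
      omega
  have e4 : (sr j) i.succ = i.succ := by
    apply Equiv.swap_apply_of_ne_of_ne
    · intro hh
      have := congrArg Fin.val hh
      simp at this
      omega
    · intro hh
      have := congrArg Fin.val hh
      simp at this
      omega
  have hc : sr i * sr j = sr j * sr i := by
    have h5 := Equiv.swap_apply_apply (sr i) j.castSucc j.succ
    rw [e1, e2] at h5
    have h6 : sr j = sr i * sr j * (sr i)⁻¹ := h5
    calc sr i * sr j = (sr i * sr j * (sr i)⁻¹) * sr i := by rw [inv_mul_cancel_right]
      _ = sr j * sr i := by rw [← h6]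
  funext y
  unfold mulb
  have hy : y * sr i * sr j = y * sr j * sr i := by rw [mul_assoc, hc, mul_assoc]
  rw [hy]
  have g1 : (y * sr i) j.castSucc = y j.castSucc := by rw [Equiv.Perm.mul_apply, e1]
  have g2 : (y * sr i) j.succ = y j.succ := by rw [Equiv.Perm.mul_apply, e2]
  have g3 : (y * sr j) i.castSucc = y i.castSucc := by rw [Equiv.Perm.mul_apply, e3]
  have g4 : (y * sr j) i.succ = y i.succ := by rw [Equiv.Perm.mul_apply, e4]
  rw [g1, g2, g3, g4]
  ring

/-- the braid relation for `b_s b_t b_s - b_s` -/
theorem mulb_braid (i j : Fin n) (h : (i : ℕ) + 1 = j) (f : Hk n) :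
    mulb i (mulb j (mulb i f)) - mulb i f = mulb j (mulb i (mulb j f)) - mulb j f := by
  have hp : i.succ = j.castSucc := by
    apply Fin.ext
    simp
    omega
  have e1 : (sr i) j.succ = j.succ := by
    apply Equiv.swap_apply_of_ne_of_ne
    · intro hh
      have := congrArg Fin.val hh
      simp at this
      omega
    · intro hh
      have := congrArg Fin.val hh
      simp at this
      omega
  have e2 : (sr j) i.castSucc = i.castSucc := by
    apply Equiv.swap_apply_of_ne_of_ne
    · intro hh
      have := congrArg Fin.val hh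
      simp at this
      omega
    · intro hh
      have := congrArg Fin.val hh
      simp at this
      omega
  have e3 : (sr i) i.castSucc = j.castSucc := by
    rw [← hp]
    exact Equiv.swap_apply_left _ _
  have e4 : (sr i) j.castSucc = i.castSucc := by
    rw [← hp]
    exact Equiv.swap_apply_right _ _
  have e5 : (sr j) j.castSucc = j.succ := Equiv.swap_apply_left _ _
  have e6 : (sr j) j.succ = j.castSucc := Equiv.swap_apply_right _ _
  have hc : sr i * sr j * sr i = sr j * sr i * sr j := by
    have h5 := Equiv.swap_apply_apply (sr i) j.castSucc j.succ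
    rw [e1, e4] at h5
    have h6 := Equiv.swap_apply_apply (sr j) i.castSucc i.succ
    rw [e2, hp, e5] at h6
    have h7 : (sr i)⁻¹ = sr i := inv_eq_of_mul_eq_one_left (sr_mul_self i)
    have h8 : (sr j)⁻¹ = sr j := inv_eq_of_mul_eq_one_left (sr_mul_self j)
    rw [h7] at h5
    rw [h8] at h6
    have h9 : sr i = Equiv.swap i.castSucc j.castSucc := by rw [← hp]; rfl
    rw [← h9] at h6
    exact h5.symm.trans h6
  funext y
  have hab : y i.castSucc ≠ y j.castSucc := fun hh => by
    have := congrArg Fin.val (y.injective hh)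
    simp at this
    omega
  have hbc : y j.castSucc ≠ y j.succ := fun hh => by
    have := congrArg Fin.val (y.injective hh)
    simp at this
  have hac : y i.castSucc ≠ y j.succ := fun hh => by
    have := congrArg Fin.val (y.injective hh)
    simp at this
    omega
  have hy : y * sr i * sr j * sr i = y * sr j * sr i * sr j := by
    rw [mul_assoc, mul_assoc, ← mul_assoc (sr i), hc]
    simp only [mul_assoc]
  show mulb i (mulb j (mulb i f)) y - mulb i f y = mulb j (mulb i (mulb j f)) y - mulb j f y
  unfold mulb
  simp only [HECKE_mul, hp, hy, Equiv.Perm.mul_apply, e1, e2, e3, e4, e5, e6]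
  have hv := HECKE_v
  rcases lt_or_gt_of_ne hab with h1 | h1 <;> rcases lt_or_gt_of_ne hbc with h2 | h2 <;>
    rcases lt_or_gt_of_ne hac with h3 | h3 <;>
    first
      | (exfalso; order)
      | skip
  all_goals
    simp only [h1, h2, h3, h1.not_gt, h2.not_gt, h3.not_gt, if_true, if_false]
  · linear_combination (f (y * sr i) - f (y * sr j)) * hv
  · linear_combination (f (y * sr i) - f (y * sr j) + (T 1 - T (-1)) * f y) * hv
  · linear_combination (f (y * sr i) - f (y * sr j) + (T 1 - T (-1)) * f y) * hv
  · linear_combination (f (y * sr i) - f (y * sr j) - (T 1 - T (-1)) * f y) * hv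
  · linear_combination (f (y * sr i) - f (y * sr j) - (T 1 - T (-1)) * f y) * hv
  · linear_combination (f (y * sr i) - f (y * sr j)) * hv

end

end Pool.Agent.PCan
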