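import Pool.Agent.PCan.BSl

/-! MODULE HOMS : formal properties of homomorphisms and stalks. -/

open MvPolynomial

namespace Pool.Agent.PCan

noncomputable section

variable {k : Type} [Field k] {n : ℕ}

theorem Hom_id (M : Bim k n) : (LinearMap.id : M.L →ₗ[R k n] M.L) ∈ Bim.Hom M M 0 := by
  refine ⟨fun r m => rfl, fun j m hm => ?_⟩
  rw [add_zero]
  exact hm

theorem Hom_comp {M M' M'' : Bim k n} {d d' : ℤ} {φ : M.L →ₗ[R k n] M'.L}
    {ψ : M'.L →ₗ[R k n] M''.L} (hφ : φ ∈ Bim.Hom M M' d) (hψ : ψ ∈ Bim.Hom M' M'' d') :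
    ψ ∘ₗ φ ∈ Bim.Hom M M'' (d + d') := by
  refine ⟨fun r m => ?_, fun j m hm => ?_⟩
  · rw [LinearMap.comp_apply, hφ.1, hψ.1, LinearMap.comp_apply]
  · rw [← add_assoc]
    exact hψ.2 _ _ (hφ.2 _ _ hm)

/-- the map from `L` to the stalk -/
def Bim.st (M : Bim k n) (z : W n) : M.L →ₗ[R k n] ↥(M.stalk z) where
  toFun m := ⟨res M.pr z m.1, Submodule.mem_map_of_mem m.2⟩
  map_add' := by
    intro m m'
    apply Subtype.ext
    simp
  map_smul' := by
    intro r m
    apply Subtype.ext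
    simp

theorem st_surj (M : Bim k n) (z : W n) (s : M.stalk z) : ∃ m : M.L, M.st z m = s := by
  obtain ⟨s, hs⟩ := s
  obtain ⟨m, hm, h⟩ := Submodule.mem_map.1 hs
  exact ⟨⟨m, hm⟩, Subtype.ext h⟩

/-- homogeneous elements of the stalk lift to homogeneous elements -/
theorem st_lift (M : Bim k n) (z : W n) (s : M.stalk z) (j : ℤ) (hs : s.1 ∈ HF k n M.X j) :
    ∃ m : M.L, m.1 ∈ HF k n M.X j ∧ M.st z m = s := by
  obtain ⟨m, hm⟩ := st_surj M z s
  rcases lt_or_ge j 0 with hj | hj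
  · refine ⟨0, (HF k n M.X j).zero_mem, ?_⟩
    rw [map_zero]
    apply Subtype.ext
    funext e
    exact (HZ_neg hj (hs e)).symm
  · obtain ⟨j', rfl⟩ := Int.eq_ofNat_of_zero_le hj
    refine ⟨⟨_, M.graded' m.1 m.2 j'⟩, fun e => hc_HZ j' _, ?_⟩
    apply Subtype.ext
    funext e
    show (if M.pr e = z then homogeneousComponent j' (m.1 e) else 0) = s.1 e
    have h1 : (if M.pr e = z then m.1 e else 0) = s.1 e := congrFun (congrArg Subtype.val hm) e
    have h2 := hc_of_HZ j' (hs e)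
    rw [if_pos rfl] at h2
    by_cases he : M.pr e = z
    · rw [if_pos he] at h1 ⊢
      rw [h1]
      exact h2
    · rw [if_neg he] at h1 ⊢
      exact h1

/-- a homomorphism induces maps of the stalks -/
theorem st_map {M M' : Bim k n} {d : ℤ} {φ : M.L →ₗ[R k n] M'.L} (hφ : φ ∈ Bim.Hom M M' d)
    (z : W n) : ∃ Φ : M.stalk z →ₗ[R k n] M'.stalk z, (∀ m, Φ (M.st z m) = M'.st z (φ m)) ∧
      ∀ (j : ℤ) (s : M.stalk z), s.1 ∈ HF k n M.X j → (Φ s).1 ∈ HF k n M'.X (j + d) := by
  have hker : LinearMap.ker (M.st z) ≤ LinearMap.ker (M'.st z ∘ₗ φ) := by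
    intro m hm
    rw [LinearMap.mem_ker] at hm ⊢
    have h1 : res M.pr z m.1 = 0 := congrArg Subtype.val hm
    apply Subtype.ext
    exact hom_res hφ z m h1
  have hsurj : Function.Surjective (M.st z) := fun s => st_surj M z s
  set E := (M.st z).quotKerEquivOfSurjective hsurj with hE
  set Ψ : (↥M.L ⧸ LinearMap.ker (M.st z)) →ₗ[R k n] ↥(M'.stalk z) :=
    (LinearMap.ker (M.st z)).liftQ (M'.st z ∘ₗ φ) hker with hΨ
  have key : ∀ m, (Ψ ∘ₗ E.symm.toLinearMap) (M.st z m) = M'.st z (φ m) := by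
    intro m
    have h1 : E.symm (M.st z m) = Submodule.Quotient.mk m := by
      rw [LinearEquiv.symm_apply_eq]
      rfl
    show Ψ (E.symm (M.st z m)) = _
    rw [h1]
    rfl
  refine ⟨Ψ ∘ₗ E.symm.toLinearMap, key, ?_⟩
  intro j s hs
  obtain ⟨m, hm, rfl⟩ := st_lift M z s j hs
  rw [key]
  intro e
  show (if M'.pr e = z then (φ m).1 e else 0) ∈ HZ k n (j + d)
  by_cases he : M'.pr e = z
  · rw [if_pos he]
    exact hφ.2 j m hm e
  · rw [if_neg he]
    exact (HZ k n (j + d)).zero_mem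

/-- an element is the sum of its components -/
theorem res_ext {X : Type} (pr : X → W n) (m m' : X → R k n)
    (h : ∀ z, res pr z m = res pr z m') : m = m' := by
  funext e
  have h1 : (if pr e = pr e then m e else 0) = (if pr e = pr e then m' e else 0) :=
    congrFun (h (pr e)) e
  rwa [if_pos rfl, if_pos rfl] at h1

/-- an element of `L` is a finite sum of homogeneous elements of `L` -/
theorem hom_decomp (M : Bim k n) (m : M.L) : ∃ (D : ℕ) (c : ℕ → M.L),
    (∀ j : ℕ, (c j).1 ∈ HF k n M.X j) ∧ m = ∑ j ∈ Finset.range D, c j := by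
  classical
  refine ⟨(Finset.univ.sup fun e => (m.1 e).totalDegree) + 1,
    fun j => ⟨_, M.graded' m.1 m.2 j⟩, fun j e => hc_HZ j _, ?_⟩
  apply Subtype.ext
  funext e
  rw [AddSubmonoidClass.coe_finsetSum, Finset.sum_apply]
  show m.1 e = ∑ j ∈ Finset.range ((Finset.univ.sup fun e => (m.1 e).totalDegree) + 1),
    homogeneousComponent j (m.1 e)
  have h1 : (m.1 e).totalDegree + 1 ≤ (Finset.univ.sup fun e => (m.1 e).totalDegree) + 1 := by
    have := Finset.le_sup (f := fun e => (m.1 e).totalDegree) (Finset.mem_univ e)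
    omega
  rw [← Finset.sum_subset (Finset.range_subset_range.2 h1)]
  · exact (sum_homogeneousComponent _).symm
  · intro j _ hj
    rw [Finset.mem_range, not_lt] at hj
    exact homogeneousComponent_eq_zero _ _ (by omega)

end

end Pool.Agent.PCan
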