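import Pool.Agent.PCan.Bar

/-! MODULE KL : existence and uniqueness of the Kazhdan-Lusztig basis -/

namespace Pool.Agent.PCan

noncomputable section

open LaurentPolynomial

variable {n : ℕ}

theorem KL_coeff_T_mul (i j : ℤ) (p : LaurentPolynomial ℤ) :
    (T i * p).coeff j = p.coeff (-i + j) := by
  unfold T
  rw [AddMonoidAlgebra.coeff_single_mul_apply, one_mul]

theorem KL_coeff_one (j : ℤ) (h : j ≠ 0) : (1 : LaurentPolynomial ℤ).coeff j = 0 := by
  rw [← T_zero, T_apply, if_neg (Ne.symm h)]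

theorem KL_coeff_one_zero : (1 : LaurentPolynomial ℤ).coeff 0 = 1 := by
  rw [← T_zero, T_apply, if_pos rfl]

theorem KL_coeff_zero (j : ℤ) : (0 : LaurentPolynomial ℤ).coeff j = 0 := rfl

/-- `D` as an additive map -/
def KL_hom {D : Hk n → Hk n} (h : IsBar D) : Hk n →+ Hk n := AddMonoidHom.mk' D h.1

theorem KL_hom_apply {D : Hk n → Hk n} (h : IsBar D) (f : Hk n) : KL_hom h f = D f := rfl

theorem KL_zsmul {D : Hk n → Hk n} (h : IsBar D) (a : ℤ) (f : Hk n) : D (a • f) = a • D f := by
  have := map_zsmul (KL_hom h) a f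
  exact this

theorem KL_sum {D : Hk n → Hk n} (h : IsBar D) {ι : Type} (s : Finset ι) (f : ι → Hk n) :
    D (∑ i ∈ s, f i) = ∑ i ∈ s, D (f i) := map_sum (KL_hom h) f s

theorem KL_sub {D : Hk n → Hk n} (h : IsBar D) (f g : Hk n) : D (f - g) = D f - D g :=
  map_sub (KL_hom h) f g

theorem KL_smul {D : Hk n → Hk n} (h : IsBar D) (c : LaurentPolynomial ℤ) (f : Hk n) :
    D (c • f) = invert c • D f := by
  induction c using LaurentPolynomial.induction_on' with
  | add p q hp hq => rw [add_smul, h.1, hp, hq, map_add, add_smul]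
  | C_mul_T j a =>
    have h1 : (C a * T j : LaurentPolynomial ℤ) • f = a • (fun y => T j * f y) := by
      funext y
      simp only [Pi.smul_apply, smul_eq_mul]
      rw [mul_assoc, zsmul_eq_mul]
      simp
    rw [h1, KL_zsmul h, h.2.1, map_mul, invert_T, invert_C]
    funext y
    simp only [Pi.smul_apply, smul_eq_mul]
    rw [mul_assoc, zsmul_eq_mul]
    simp

/-- support bounded by the length of `x` -/
def KL_tri (x : W n) (f : Hk n) : Prop := ∀ y, len x ≤ len y → y ≠ x → f y = 0

theorem KL_ne_mul_sr (z : W n) (i : Fin n) : z * sr i ≠ z := by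
  intro h2
  have h3 : sr i = 1 := mul_eq_left.mp h2
  have h4 := BAR_sr_cast i
  rw [h3] at h4
  simp [Fin.ext_iff] at h4

theorem KL_tri_up {z : W n} {i : Fin n} (h : z i.castSucc < z i.succ) {f : Hk n}
    (hf : KL_tri z f) {y : W n} (hy : len (z * sr i) ≤ len y) : f y = 0 := by
  have h1 := len_mul_sr z i h
  refine hf y (by omega) ?_
  rintro rfl
  omega

theorem KL_tri_up2 {z : W n} {i : Fin n} (h : z i.castSucc < z i.succ) {f : Hk n}
    (hf : KL_tri z f) {y : W n} (hy : len (z * sr i) ≤ len y) (hne : y ≠ z * sr i) :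
    f (y * sr i) = 0 := by
  have h1 := len_mul_sr z i h
  refine hf (y * sr i) ?_ ?_
  · have h2 := len_mul_sr_le (y * sr i) i
    rw [mul_assoc, sr_mul_self, mul_one] at h2
    omega
  · intro h3
    apply hne
    rw [← h3, mul_assoc, sr_mul_self, mul_one]

theorem KL_tri_mulb {z : W n} {i : Fin n} (h : z i.castSucc < z i.succ) {f : Hk n}
    (hf : KL_tri z f) : KL_tri (z * sr i) (mulb i f) := by
  intro y hy hne
  rw [BAR_mulb_apply, KL_tri_up h hf hy, KL_tri_up2 h hf hy hne]
  simp

theorem KL_mulb_top {z : W n} {i : Fin n} (h : z i.castSucc < z i.succ) {f : Hk n}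
    (hf : KL_tri z f) : mulb i f (z * sr i) = f z := by
  rw [BAR_mulb_apply, KL_tri_up h hf le_rfl, mul_assoc, sr_mul_self, mul_one]
  simp

/-- the bar involution is unitriangular -/
theorem KL_bar_tri {D : Hk n → Hk n} (h : IsBar D) (x : W n) :
    KL_tri x (D (Hst x)) ∧ D (Hst x) x = 1 := by
  have hst : ∀ w : List (Fin n), w.length = len (prd w) →
      KL_tri (prd w) (D (Hst (prd w))) ∧ D (Hst (prd w)) (prd w) = 1 := by
    intro w
    induction w with
    | nil =>
      intro _
      show KL_tri 1 (D (Hst 1)) ∧ D (Hst 1) 1 = 1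
      rw [h.2.2.1]
      refine ⟨fun y _ hy => ?_, ?_⟩
      · unfold Hst
        rw [Pi.single_eq_of_ne hy]
      · unfold Hst
        rw [Pi.single_eq_same]
    | cons i w ih =>
      intro hw
      obtain ⟨h2, h3⟩ := reduced_tail hw
      obtain ⟨h4, h5⟩ := ih h2
      show KL_tri (prd w * sr i) (D (Hst (prd w * sr i))) ∧
        D (Hst (prd w * sr i)) (prd w * sr i) = 1
      rw [BAR_Hst_mul _ _ h3, KL_sub h, h.2.2.2, h.2.1]
      refine ⟨fun y hy hne => ?_, ?_⟩
      · rw [Pi.sub_apply, KL_tri_mulb h3 h4 y hy hne, KL_tri_up h3 h4 hy]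
        simp
      · rw [Pi.sub_apply, KL_mulb_top h3 h4, h5, KL_tri_up h3 h4 le_rfl]
        simp
  obtain ⟨w, hw1, hw2⟩ := exists_reduced x
  have := hst w (by rw [hw1]; exact hw2)
  rwa [hw1] at this

theorem KL_expand (f : Hk n) : f = ∑ x, f x • Hst x := by
  funext y
  rw [Finset.sum_apply, Finset.sum_eq_single y]
  · simp [Hst]
  · intro x _ hx
    simp [Hst, Pi.single_eq_of_ne (Ne.symm hx)]
  · intro h
    exact absurd (Finset.mem_univ _) h

theorem KL_bar_apply {D : Hk n → Hk n} (h : IsBar D) (f : Hk n) (y : W n)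
    (hy : ∀ x, f x ≠ 0 → len x ≤ len y) : D f y = invert (f y) := by
  rw [KL_expand f, KL_sum h, Finset.sum_apply, Finset.sum_eq_single y]
  · rw [KL_smul h, Pi.smul_apply, (KL_bar_tri h y).2, ← KL_expand f]
    simp
  · intro x _ hx
    rw [KL_smul h, Pi.smul_apply]
    by_cases h0 : f x = 0
    · rw [h0, map_zero, zero_smul]
    · rw [(KL_bar_tri h x).1 y (hy x h0) (Ne.symm hx), smul_zero]
  · intro h
    exact absurd (Finset.mem_univ _) h

/-- a bar invariant element with coefficients in `v ℤ[v]` vanishes -/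
theorem KL_zero_of_pos {D : Hk n → Hk n} (h : IsBar D) (f : Hk n) (hf : D f = f)
    (hp : ∀ y, ∀ j : ℤ, j ≤ 0 → (f y).coeff j = 0) : f = 0 := by
  by_contra hne
  have hne2 : ∃ y, f y ≠ 0 := by
    by_contra h2
    push Not at h2
    exact hne (funext h2)
  obtain ⟨y0, hy0⟩ := hne2
  obtain ⟨y, hy, hmax⟩ := Finset.exists_max_image (Finset.univ.filter fun y => f y ≠ 0) len
    ⟨y0, by simp [hy0]⟩
  rw [Finset.mem_filter] at hy
  have h1 : D f y = invert (f y) := by
    refine KL_bar_apply h f y ?_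
    intro x hx
    exact hmax x (by simp [hx])
  rw [hf] at h1
  apply hy.2
  apply LaurentPolynomial.ext
  intro j
  rw [KL_coeff_zero]
  by_cases hj : j ≤ 0
  · exact hp y j hj
  · rw [h1, invert_apply]
    exact hp y (-j) (by omega)

/-- the properties of the basis element -/
def KL_prop (D : Hk n → Hk n) (x : W n) (b : Hk n) : Prop :=
  D b = b ∧ b x = 1 ∧ (∀ y, y ≠ x → ∀ j : ℤ, j ≤ 0 → (b y).coeff j = 0) ∧ KL_tri x b

theorem KL_step {D : Hk n → Hk n} (h : IsBar D) (z : W n) (i : Fin n)
    (hz : z i.castSucc < z i.succ) (b0 : Hk n) (hb0 : KL_prop D z b0)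
    (B : W n → Hk n) (hB : ∀ y, len y < len (z * sr i) → KL_prop D y (B y)) :
    ∃ b, KL_prop D (z * sr i) b := by
  classical
  set c := mulb i b0 with hc
  have hctri : KL_tri (z * sr i) c := KL_tri_mulb hz hb0.2.2.2
  have hctop : c (z * sr i) = 1 := by
    rw [hc, KL_mulb_top hz hb0.2.2.2]
    exact hb0.2.1
  have hcneg : ∀ y, y ≠ z * sr i → ∀ j : ℤ, j < 0 → (c y).coeff j = 0 := by
    intro y hy j hj
    have h1 : y * sr i ≠ z := by
      intro h1
      apply hy
      rw [← h1, mul_assoc, sr_mul_self, mul_one]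
    rw [hc, BAR_mulb_apply, AddMonoidAlgebra.coeff_add, Finsupp.add_apply, KL_coeff_T_mul,
      hb0.2.2.1 _ h1 j hj.le, zero_add]
    by_cases h2 : y = z
    · rw [h2, hb0.2.1]
      have : BAR_sg i z = 1 := by
        unfold BAR_sg
        rw [if_pos hz]
      rw [this]
      exact KL_coeff_one _ (by omega)
    · refine hb0.2.2.1 _ h2 _ ?_
      unfold BAR_sg
      split_ifs <;> omega
  set S : Finset (W n) := Finset.univ.filter fun y => len y < len (z * sr i) with hS
  set mu : W n → ℤ := fun y => (c y).coeff 0 with hmu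
  refine ⟨c - ∑ y ∈ S, mu y • B y, ?_, ?_, ?_, ?_⟩
  · rw [KL_sub h, KL_sum h]
    congr 1
    · rw [hc, h.2.2.2, hb0.1]
    · refine Finset.sum_congr rfl ?_
      intro y hy
      rw [hS, Finset.mem_filter] at hy
      rw [KL_zsmul h, (hB y hy.2).1]
  · rw [Pi.sub_apply, hctop, Finset.sum_apply, Finset.sum_eq_zero, sub_zero]
    intro y hy
    rw [hS, Finset.mem_filter] at hy
    rw [Pi.smul_apply, (hB y hy.2).2.2.2 _ hy.2.le, smul_zero]
    rintro h1
    rw [← h1] at hy
    exact lt_irrefl _ hy.2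
  · intro y hy j hj
    rw [Pi.sub_apply, Finset.sum_apply, AddMonoidAlgebra.coeff_sub, Finsupp.sub_apply,
      AddMonoidAlgebra.coeff_sum, Finsupp.finsetSum_apply]
    by_cases hyl : len y < len (z * sr i)
    · have hyS : y ∈ S := by rw [hS, Finset.mem_filter]; exact ⟨Finset.mem_univ _, hyl⟩
      rw [Finset.sum_eq_single y]
      · rw [Pi.smul_apply, AddMonoidAlgebra.coeff_smul_apply, (hB y hyl).2.1, smul_eq_mul]
        rcases lt_or_eq_of_le hj with h1 | h1
        · rw [hcneg y hy j h1, KL_coeff_one _ h1.ne]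
          simp
        · rw [h1, KL_coeff_one_zero]
          simp [hmu]
      · intro x hx hxy
        rw [hS, Finset.mem_filter] at hx
        rw [Pi.smul_apply, AddMonoidAlgebra.coeff_smul_apply,
          (hB x hx.2).2.2.1 y (Ne.symm hxy) j hj, smul_zero]
      · intro h1
        exact absurd hyS h1
    · rw [hctri y (not_lt.mp hyl) hy, Finset.sum_eq_zero]
      · simp
      · intro x hx
        rw [hS, Finset.mem_filter] at hx
        rw [Pi.smul_apply, (hB x hx.2).2.2.2 y (by omega), smul_zero]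
        · rfl
        · rintro rfl
          exact hyl hx.2
  · intro y hy hne
    rw [Pi.sub_apply, hctri y hy hne, Finset.sum_apply, Finset.sum_eq_zero, sub_zero]
    intro x hx
    rw [hS, Finset.mem_filter] at hx
    rw [Pi.smul_apply, (hB x hx.2).2.2.2 y (by omega), smul_zero]
    rintro rfl
    omega

theorem KL_exists_prop {D : Hk n → Hk n} (h : IsBar D) (x : W n) : ∃ b, KL_prop D x b := by
  classical
  induction hm : len x using Nat.strong_induction_on generalizing x with
  | _ m ih =>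
    obtain ⟨w, hw1, hw2⟩ := exists_reduced x
    cases w with
    | nil =>
      have hx : x = 1 := hw1.symm
      refine ⟨Hst 1, h.2.2.1, ?_, ?_, ?_⟩
      · rw [hx]
        unfold Hst
        rw [Pi.single_eq_same]
      · intro y hy j _
        rw [hx] at hy
        unfold Hst
        rw [Pi.single_eq_of_ne hy, KL_coeff_zero]
      · intro y _ hy
        rw [hx] at hy
        unfold Hst
        rw [Pi.single_eq_of_ne hy]
    | cons i w =>
      have hw3 : (i :: w).length = len (prd (i :: w)) := by rw [hw1]; exact hw2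
      obtain ⟨h2, h3⟩ := reduced_tail hw3
      have hx : x = prd w * sr i := hw1.symm
      have hlen : len (prd w) < len x := by
        rw [hx, len_mul_sr _ _ h3]
        exact Nat.lt_succ_self _
      obtain ⟨b0, hb0⟩ := ih (len (prd w)) (hm ▸ hlen) (prd w) rfl
      have hall : ∀ y : W n, ∃ b, len y < len x → KL_prop D y b := by
        intro y
        by_cases hy : len y < len x
        · obtain ⟨b, hb⟩ := ih (len y) (hm ▸ hy) y rfl
          exact ⟨b, fun _ => hb⟩
        · exact ⟨0, fun h1 => absurd h1 hy⟩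
      choose B hB using hall
      rw [hx] at hB ⊢
      exact KL_step h (prd w) i h3 b0 hb0 B hB

/-- MODULE KL.  Existence of the Kazhdan-Lusztig basis. -/
theorem kl_exists (n : ℕ) : ∃ b : W n → Hk n, IsKL b := by
  obtain ⟨D, hD⟩ := bar_exists n
  choose b hb using fun x : W n => KL_exists_prop hD x
  exact ⟨b, D, hD, fun x => ⟨(hb x).1, (hb x).2.1, (hb x).2.2.1⟩⟩

/-- the Kazhdan-Lusztig basis is unique -/
theorem kl_unique {b b' : W n → Hk n} (h : IsKL b) (h' : IsKL b') : b = b' := by
  obtain ⟨D, hD, h1⟩ := h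
  obtain ⟨D', hD', h2⟩ := h'
  have hDD := bar_unique hD' hD
  subst hDD
  funext x
  rw [← sub_eq_zero]
  refine KL_zero_of_pos hD _ ?_ ?_
  · rw [KL_sub hD, (h1 x).1, (h2 x).1]
  · intro y j hj
    rw [Pi.sub_apply]
    by_cases hy : y = x
    · subst hy
      rw [(h1 y).2.1, (h2 y).2.1, sub_self]
      rfl
    · rw [AddMonoidAlgebra.coeff_sub, Finsupp.sub_apply, (h1 x).2.2 y hy j hj,
        (h2 x).2.2 y hy j hj, sub_self]

end

end Pool.Agent.PCan
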