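import Pool.Agent.PCan.Perm3

/-! MODULE KILL : elements of `R ⊗ R` acting on a bimodule. -/

open MvPolynomial

namespace Pool.Agent.PCan

variable {k : Type} [Field k] {n : ℕ}

theorem KILL_step (M : Bim k n) {m : M.X → R k n} (hm : m ∈ M.L) (i j : Fin (n + 1)) :
    (fun e => (rt (M.pr e i) j : R k n) * m e) ∈ M.L := by
  have h1 := M.L.sub_mem (M.right' m hm (X i)) (M.L.smul_mem (X j) hm)
  have h2 : (fun e => (rt (M.pr e i) j : R k n) * m e) =
      (fun e => act (M.pr e) (X i) * m e) - (X j : R k n) • m := by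
    funext e
    rw [Pi.sub_apply, Pi.smul_apply, smul_eq_mul, act_X, rt, sub_mul]
  rw [h2]
  exact h1

/-- (right multiplication by `x_(f y)`) minus (left multiplication by `x_(y (f y))`) for all
`y` in a finite set -/
theorem exists_kill (M : Bim k n) {m : M.X → R k n} (hm : m ∈ M.L) (Y : Finset (W n))
    (f : W n → Fin (n + 1)) :
    (fun e => (∏ y ∈ Y, (rt (M.pr e (f y)) (y (f y)) : R k n)) * m e) ∈ M.L := by
  classical
  induction Y using Finset.induction_on with
  | empty => simpa using hm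
  | insert y Y hy ih =>
    have h1 := KILL_step M ih (f y) (y (f y))
    have h2 : (fun e => (∏ y ∈ insert y Y, (rt (M.pr e (f y)) (y (f y)) : R k n)) * m e) =
        fun e => (rt (M.pr e (f y)) (y (f y)) : R k n) *
          ((∏ y ∈ Y, (rt (M.pr e (f y)) (y (f y)) : R k n)) * m e) := by
      funext e
      rw [Finset.prod_insert hy, mul_assoc]
    rw [h2]
    exact h1

theorem KILL_choose (z : W n) : ∃ f : W n → Fin (n + 1), ∀ y, y ≠ z → z (f y) ≠ y (f y) := by
  have hex : ∀ y : W n, ∃ i, y ≠ z → z i ≠ y i := by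
    intro y
    by_cases hy : y = z
    · exact ⟨0, fun h => absurd hy h⟩
    · obtain ⟨i, hi⟩ : ∃ i, z i ≠ y i := by
        by_contra hc
        push Not at hc
        exact hy (Equiv.ext fun i => (hc i).symm)
      exact ⟨i, fun _ => hi⟩
  choose f hf using hex
  exact ⟨f, hf⟩

/-- multiplication by a product of differences which is zero outside the points over `z` and
nonzero over `z` -/
theorem exists_single (M : Bim k n) (z : W n) {m : M.X → R k n} (hm : m ∈ M.L) :
    ∃ D : R k n, D ≠ 0 ∧ D • res M.pr z m ∈ M.L := by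
  classical
  obtain ⟨f, hf⟩ := KILL_choose z
  refine ⟨∏ y ∈ Finset.univ.erase z, (rt (z (f y)) (y (f y)) : R k n), ?_, ?_⟩
  · exact Finset.prod_ne_zero_iff.2 fun y hy => rt_ne (hf y (Finset.ne_of_mem_erase hy))
  · have h1 := exists_kill M hm (Finset.univ.erase z) f
    have h2 : (∏ y ∈ Finset.univ.erase z, (rt (z (f y)) (y (f y)) : R k n)) • res M.pr z m =
        fun e => (∏ y ∈ Finset.univ.erase z, (rt (M.pr e (f y)) (y (f y)) : R k n)) * m e := by
      funext e
      show (∏ y ∈ Finset.univ.erase z, (rt (z (f y)) (y (f y)) : R k n)) *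
        (if M.pr e = z then m e else 0) = _
      by_cases he : M.pr e = z
      · rw [if_pos he, he]
      · rw [if_neg he, mul_zero,
          Finset.prod_eq_zero (Finset.mem_erase.2 ⟨he, Finset.mem_univ _⟩), zero_mul]
        simp [rt]
    rw [h2]
    exact h1

theorem KILL_hom {M M' : Bim k n} {d : ℤ} {φ : M.L →ₗ[R k n] M'.L} (hφ : φ ∈ Bim.Hom M M' d)
    (m : M.L) (Y : Finset (W n)) (f : W n → Fin (n + 1)) :
    φ ⟨_, exists_kill M m.2 Y f⟩ = ⟨_, exists_kill M' (φ m).2 Y f⟩ := by
  classical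
  induction Y using Finset.induction_on with
  | empty =>
    have h1 : (⟨_, exists_kill M m.2 ∅ f⟩ : M.L) = m := by
      apply Subtype.ext
      funext e
      simp
    rw [h1]
    apply Subtype.ext
    funext e
    simp
  | insert y Y hy ih =>
    have h1 : (⟨_, exists_kill M m.2 (insert y Y) f⟩ : M.L) =
        M.rmul (X (f y)) ⟨_, exists_kill M m.2 Y f⟩ -
          (X (y (f y)) : R k n) • ⟨_, exists_kill M m.2 Y f⟩ := by
      apply Subtype.ext
      funext e
      show (∏ y ∈ insert y Y, (rt (M.pr e (f y)) (y (f y)) : R k n)) * m.1 e =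
        act (M.pr e) (X (f y)) * ((∏ y ∈ Y, (rt (M.pr e (f y)) (y (f y)) : R k n)) * m.1 e) -
          X (y (f y)) * ((∏ y ∈ Y, (rt (M.pr e (f y)) (y (f y)) : R k n)) * m.1 e)
      rw [Finset.prod_insert hy, act_X]
      nth_rewrite 1 [rt]
      ring
    have h2 : (⟨_, exists_kill M' (φ m).2 (insert y Y) f⟩ : M'.L) =
        M'.rmul (X (f y)) ⟨_, exists_kill M' (φ m).2 Y f⟩ -
          (X (y (f y)) : R k n) • ⟨_, exists_kill M' (φ m).2 Y f⟩ := by
      apply Subtype.ext
      funext e
      show (∏ y ∈ insert y Y, (rt (M'.pr e (f y)) (y (f y)) : R k n)) * (φ m).1 e =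
        act (M'.pr e) (X (f y)) *
            ((∏ y ∈ Y, (rt (M'.pr e (f y)) (y (f y)) : R k n)) * (φ m).1 e) -
          X (y (f y)) * ((∏ y ∈ Y, (rt (M'.pr e (f y)) (y (f y)) : R k n)) * (φ m).1 e)
      rw [Finset.prod_insert hy, act_X]
      nth_rewrite 1 [rt]
      ring
    rw [h1, h2, map_sub, hφ.1, map_smul, ih]

/-- bimodule homomorphisms respect the components -/
theorem hom_res {M M' : Bim k n} {d : ℤ} {φ : M.L →ₗ[R k n] M'.L} (hφ : φ ∈ Bim.Hom M M' d)
    (z : W n) (m : M.L) (h : res M.pr z m.1 = 0) : res M'.pr z (φ m).1 = 0 := by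
  classical
  obtain ⟨f, hf⟩ := KILL_choose z
  have h1 := KILL_hom hφ m (Finset.univ.erase z) f
  have h2 : (⟨_, exists_kill M m.2 (Finset.univ.erase z) f⟩ : M.L) = 0 := by
    apply Subtype.ext
    funext e
    show (∏ y ∈ Finset.univ.erase z, (rt (M.pr e (f y)) (y (f y)) : R k n)) * m.1 e = 0
    by_cases he : M.pr e = z
    · have h3 := congrFun h e
      simp only [res, LinearMap.coe_mk, AddHom.coe_mk, Pi.zero_apply] at h3
      rw [if_pos he] at h3
      rw [h3, mul_zero]
    · rw [Finset.prod_eq_zero (Finset.mem_erase.2 ⟨he, Finset.mem_univ _⟩), zero_mul]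
      simp [rt]
  rw [h2, map_zero] at h1
  funext e
  show (if M'.pr e = z then (φ m).1 e else 0) = 0
  by_cases he : M'.pr e = z
  · rw [if_pos he]
    have h3 := congrFun (congrArg Subtype.val h1) e
    have h4 : (0 : R k n) =
        (∏ y ∈ Finset.univ.erase z, (rt (M'.pr e (f y)) (y (f y)) : R k n)) * (φ m).1 e := h3
    rcases mul_eq_zero.1 h4.symm with h5 | h5
    · exfalso
      rw [Finset.prod_eq_zero_iff] at h5
      obtain ⟨y, hy, h6⟩ := h5
      rw [he] at h6
      exact rt_ne (hf y (Finset.ne_of_mem_erase hy)) h6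
    · exact h5
  · rw [if_neg he]

end Pool.Agent.PCan
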