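import Pool.Agent.PCan.Homs

/-! MODULE LOC : finite dimensionality and the local property.

`C.L` is a submodule of the Noetherian module `X → R`, generated by finitely many homogeneous
elements, so a degree 0 endomorphism is determined by its action on the finite dimensional space
of the elements of degree `≤ J`; hence `Hom C C 0` is a finite dimensional subalgebra of
`Module.End`.  For `x` in it, the minimal polynomial over `k` is `t^a q(t)`, `q(0) ≠ 0`,
`u t^a + v q = 1`, and `(u t^a)(x)` is an idempotent in `Hom C C 0`. -/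

open MvPolynomial

namespace Pool.Agent.PCan

noncomputable section

variable {k : Type} [Field k] {n : ℕ}

theorem hom_fin (M M' : Bim k n) (d : ℤ) : Module.Finite k (Bim.Hom M M' d) := by
  classical
  have hN : IsNoetherian (R k n) M.L := isNoetherian_submodule' M.L
  obtain ⟨s, hs⟩ := hN.noetherian ⊤
  choose D c hc hsum using fun m : M.L => hom_decomp M m
  let Φ : Bim.Hom M M' d →ₗ[k]
      ((i : Σ m : s, Fin (D m)) → HF k n M'.X (((i.2 : ℕ) : ℤ) + d)) :=
    { toFun := fun f i => ⟨(f.1 (c i.1 i.2)).1, f.2.2 _ _ (hc _ _)⟩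
      map_add' := by
        intro f g
        funext i
        apply Subtype.ext
        rfl
      map_smul' := by
        intro a f
        funext i
        apply Subtype.ext
        rfl }
  have hfin : ∀ i : Σ m : s, Fin (D m),
      Module.Finite k (HF k n M'.X (((i.2 : ℕ) : ℤ) + d)) := fun i => HF_fin _ _
  refine Module.Finite.of_injective Φ ?_
  intro f g hfg
  apply Subtype.ext
  refine LinearMap.ext_on hs ?_
  intro m hm
  rw [hsum m, map_sum, map_sum]
  refine Finset.sum_congr rfl ?_
  intro j hj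
  have h1 := congrFun hfg ⟨⟨m, hm⟩, ⟨j, Finset.mem_range.mp hj⟩⟩
  have h2 := congrArg Subtype.val h1
  exact Subtype.ext h2

/-- no nontrivial graded idempotents -/
def Indec (C : Bim k n) : Prop :=
  ∀ e : C.L →ₗ[R k n] C.L, e ∈ Bim.Hom C C 0 → e ∘ₗ e = e → e = 0 ∨ e = LinearMap.id

theorem LOC_gen {A : Type*} [Ring A] [Algebra k A] (S : Subalgebra k A) [Module.Finite k S]
    (hC : ∀ e ∈ S, e * e = e → e = 0 ∨ e = 1) {x : A} (hx : x ∈ S) :
    (∃ N : ℕ, x ^ N = 0) ∨ ∃ y ∈ S, y * x = 1 ∧ x * y = 1 := by
  let X' : S := ⟨x, hx⟩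
  have hint : IsIntegral k X' := Algebra.IsIntegral.isIntegral X'
  set p := minpoly k X' with hp
  have hp0 : p ≠ 0 := minpoly.ne_zero hint
  obtain ⟨q, hpq, hq⟩ := Polynomial.exists_eq_pow_rootMultiplicity_mul_and_not_dvd p hp0 0
  rw [Polynomial.C_0, sub_zero] at hpq hq
  set a := p.rootMultiplicity 0 with ha
  have hcop : IsCoprime (Polynomial.X ^ (a + 1) : Polynomial k) q := by
    apply IsCoprime.pow_left
    exact (Polynomial.irreducible_X.coprime_iff_not_dvd).2 hq
  obtain ⟨u, v, huv⟩ := hcop
  have haev : Polynomial.aeval X' p = 0 := minpoly.aeval k X'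
  set e : S := Polynomial.aeval X' (u * Polynomial.X ^ (a + 1)) with he
  have he1 : Polynomial.aeval X' (v * q) = 1 - e := by
    rw [he, eq_sub_iff_add_eq, ← map_add, add_comm, huv, map_one]
  have hee : e * (1 - e) = 0 := by
    rw [← he1, he, ← map_mul]
    have h1 : u * Polynomial.X ^ (a + 1) * (v * q) = u * v * Polynomial.X * p := by
      rw [hpq]
      ring
    rw [h1, map_mul, haev, mul_zero]
  have hee2 : e * e = e := by
    rw [mul_sub, mul_one, sub_eq_zero] at hee
    exact hee.symm
  have hcases : e = 0 ∨ e = 1 := by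
    rcases hC e.1 e.2 (congrArg Subtype.val hee2) with h | h
    · left
      exact Subtype.ext h
    · right
      exact Subtype.ext h
  rcases hcases with h | h
  · left
    refine ⟨a + 1, ?_⟩
    have h1 : X' ^ (a + 1) = 0 := by
      have h2 : X' ^ (a + 1) * (1 - e) = 0 := by
        rw [← he1]
        have h3 : X' ^ (a + 1) = Polynomial.aeval X' (Polynomial.X ^ (a + 1) : Polynomial k) := by
          rw [map_pow, Polynomial.aeval_X]
        rw [h3, ← map_mul]
        have h1 : Polynomial.X ^ (a + 1) * (v * q) = v * Polynomial.X * p := by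
          rw [hpq]
          ring
        rw [h1, map_mul, haev, mul_zero]
      rw [h, sub_zero, mul_one] at h2
      exact h2
    have h2 := congrArg Subtype.val h1
    exact h2
  · right
    set y : S := Polynomial.aeval X' (u * Polynomial.X ^ a) with hy
    have hyx : y * X' = 1 := by
      rw [← h, he, hy, pow_succ, ← mul_assoc, map_mul _ _ Polynomial.X, Polynomial.aeval_X]
    have hxy : X' * y = 1 := by
      rw [← h, he, hy]
      have h1 : u * Polynomial.X ^ (a + 1) = Polynomial.X * (u * Polynomial.X ^ a) := by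
        ring
      rw [h1, map_mul _ Polynomial.X, Polynomial.aeval_X]
    exact ⟨y.1, y.2, congrArg Subtype.val hyx, congrArg Subtype.val hxy⟩

theorem LOC_gen2 {V : Type*} [AddCommGroup V] [Module (R k n) V] [Module k V]
    [IsScalarTower k (R k n) V] (H : Submodule k (V →ₗ[R k n] V)) (hid : LinearMap.id ∈ H)
    (hcomp : ∀ f ∈ H, ∀ g ∈ H, f ∘ₗ g ∈ H) [hfin : Module.Finite k H]
    (hind : ∀ e ∈ H, e ∘ₗ e = e → e = 0 ∨ e = LinearMap.id) {x : V →ₗ[R k n] V} (hx : x ∈ H) :
    (∃ N : ℕ, (x : Module.End (R k n) V) ^ N = 0) ∨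
      ∃ y ∈ H, y ∘ₗ x = LinearMap.id ∧ x ∘ₗ y = LinearMap.id := by
  let S : Subalgebra k (Module.End (R k n) V) :=
    { carrier := {f | (f : V →ₗ[R k n] V) ∈ H}
      mul_mem' := by
        intro a b ha hb
        exact hcomp a ha b hb
      add_mem' := by
        intro a b ha hb
        exact H.add_mem ha hb
      algebraMap_mem' := by
        intro r
        have h := H.smul_mem r hid
        exact h }
  have hS : Module.Finite k S := hfin
  exact LOC_gen S hind hx

/-- an endomorphism of degree 0 of an indecomposable bimodule is nilpotent or invertible -/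
theorem nilp_or_unit {C : Bim k n} (hC : Indec C) {x : C.L →ₗ[R k n] C.L}
    (hx : x ∈ Bim.Hom C C 0) :
    (∃ N : ℕ, (x : Module.End (R k n) C.L) ^ N = 0) ∨
      ∃ y ∈ Bim.Hom C C 0, y ∘ₗ x = LinearMap.id ∧ x ∘ₗ y = LinearMap.id := by
  have hfin := hom_fin C C 0
  have hcomp : ∀ f ∈ Bim.Hom C C 0, ∀ g ∈ Bim.Hom C C 0, f ∘ₗ g ∈ Bim.Hom C C 0 := by
    intro f hf g hg
    have h := Hom_comp hg hf
    rw [add_zero] at h
    exact h
  exact LOC_gen2 (Bim.Hom C C 0) (Hom_id C) hcomp hC hx

end

end Pool.Agent.PCan
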