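import Pool.Agent.PCan.Two
import Pool.Agent.PCan.Conv2
import Pool.Agent.PCan.KL
import Pool.Agent.PCan.Exist

/-! Main theorem of the general part: two fields with different local multiplicities for one
Bott-Samelson bimodule cannot both have `p`-canonical basis = Kazhdan-Lusztig basis. -/

open MvPolynomial

namespace Pool.Agent.PCan

noncomputable section

variable {k : Type} [Field k] {n : ℕ}

/-- `k`-canonical basis = Kazhdan-Lusztig basis -/
def CanEqKL (k : Type) [Field k] {n : ℕ} (b : W n → Hk n) : Prop :=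
  ∀ x : W n, ∃ c, IsPCan k x c ∧ ∀ (y : W n) (i : ℤ), (c y i : ℤ) = (b x y).coeff i

theorem fam_of_canEqKL {b : W n → Hk n} (h : CanEqKL k b) :
    ∃ F : Fam k n, ∀ (z y : W n) (d : ℤ),
      ((F.Z z).C.ch y d : ℤ) = (b z y).coeff (len z - len y - 2 * d) := by
  choose c hc hcb using h
  choose w hw hl Z hZ using fun z => bz_of_isPCan (hc z)
  exact ⟨⟨w, hw, hl, Z⟩, fun z y d => by rw [← hcb, ← hZ]⟩

theorem main_general {k k' : Type} [Field k] [Field k'] {b : W n → Hk n}
    (h : CanEqKL k b) (h' : CanEqKL k' b) (w : List (Fin n)) (z : W n) (d : ℤ) :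
    (BS k w).mult z d = (BS k' w).mult z d := by
  obtain ⟨F, hF⟩ := fam_of_canEqKL h
  obtain ⟨F', hF'⟩ := fam_of_canEqKL h'
  refine two_fields F F' (fun z y i => ?_) w z d
  have h1 := hF z y i
  have h2 := hF' z y i
  exact_mod_cast h1.trans h2.symm

theorem exists_isPCan (k : Type) [Field k] {n : ℕ} (x : W n) : ∃ c, IsPCan k x c := by
  obtain ⟨w, hw, hl⟩ := exists_reduced x
  subst hw
  obtain ⟨Z⟩ := bz_exists (k := k) w hl
  exact isPCan_of_bz w hl Z

/-- He's question has a negative answer for `S_(n+1)` as soon as the local multiplicities of one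
Bott-Samelson bimodule over two prime fields of characteristic `> (n+1)!` are different -/
theorem final_of_mult {n : ℕ} (p l : ℕ) [hp : Fact p.Prime] [hl : Fact l.Prime]
    (hp' : (n + 1).factorial < p) (hl' : (n + 1).factorial < l) (w : List (Fin n)) (z : W n)
    (d : ℤ) (hne : (BS (ZMod p) w).mult z d ≠ (BS (ZMod l) w).mult z d) :
    (∃ b : W n → Hk n, IsKL b) ∧ ∀ b : W n → Hk n, IsKL b →
      ∃ (q : ℕ) (_ : Fact q.Prime), (n + 1).factorial < q ∧ ∃ x : W n,
        (∃ c, IsPCan (ZMod q) x c) ∧ ∀ c, IsPCan (ZMod q) x c →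
          ∃ (y : W n) (i : ℤ), (c y i : ℤ) ≠ (b x y).coeff i := by
  refine ⟨kl_exists n, fun b _ => ?_⟩
  by_contra hcon
  have key : ∀ (q : ℕ) (_ : Fact q.Prime), (n + 1).factorial < q → CanEqKL (ZMod q) b := by
    intro q hq hlt x
    by_contra hx
    apply hcon
    refine ⟨q, hq, hlt, x, exists_isPCan _ x, fun c hc => ?_⟩
    by_contra hc'
    apply hx
    refine ⟨c, hc, fun y i => ?_⟩
    by_contra hyi
    exact hc' ⟨y, i, hyi⟩
  exact hne (main_general (key p hp hp') (key l hl hl') w z d)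

end

end Pool.Agent.PCan
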