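import Pool.Agent.PCan.Peel

/-! MODULE MULTC : `ch` and `mult` of `B_z`.

`BS(w)` has only one point (top) over `z = prd w` and no points over `y ≠ z` with `len z ≤ len y`.
The stalk of `C` at `z`: `ι` induces an injection `C^z → BS(w)^z = R δ_top`, and `r` maps it back;
`C^z` is free of rank 1 generated by the z-component of `r(1)`, degree 0.
`mult C z 0 = 1`: `x = (r 1)_z`, `piz z • x`: apply `r` to `piz z • δ_top ∈ BS(w)` (`BS_costalk`).
`mult C z' d' = 0` otherwise: if `z' ≠ z` and `mult ≠ 0`: `C^z' ≠ 0`, so `len z' < len z`; `exists_ab` for a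
reduced word `w'` of `z'`: `(b a)(1)_top = 1`; `a b ∈ End(C)` is not nilpotent (`(b a)^N (1)_top = 1`),
so invertible (`nilp_or_unit`); but `a b` factors through `BS(w')`, which has no points over `z`,
so `(a b)_z = 0` (`hom_res`), contradiction to `C^z ≠ 0`. -/

open MvPolynomial

namespace Pool.Agent.PCan

noncomputable section

variable {k : Type} [Field k] {n : ℕ}

namespace MULTCAux

/-- two sections of `BS(w)` with the same top value have the same `z`-component -/
theorem res_top_eq (w : List (Fin n)) (hw : w.length = len (prd w)) (g g' : (BS k w).X → R k n)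
    (h : g (top k w) = g' (top k w)) :
    res (BS k w).pr (prd w) g = res (BS k w).pr (prd w) g' := by
  funext e
  show (if (BS k w).pr e = prd w then g e else 0) = (if (BS k w).pr e = prd w then g' e else 0)
  by_cases he : (BS k w).pr e = prd w
  · rw [if_pos he, if_pos he, eq_top w hw e he, h]
  · rw [if_neg he, if_neg he]

/-- the generator of the stalk at the top -/
def xx (w : List (Fin n)) (Z : Bz k w) : Z.C.X → R k n :=
  res Z.C.pr (prd w) (Z.r (one k w)).1

theorem one_HF (w : List (Fin n)) : (one k w).1 ∈ HF k n (BS k w).X 0 := by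
  intro e
  show (1 : R k n) ∈ HZ k n 0
  have := C_HZ (k := k) (n := n) 1
  rwa [C_1] at this

theorem res_HF {X : Type} (pr : X → W n) (z : W n) {d : ℤ} {m : X → R k n}
    (hm : m ∈ HF k n X d) : res pr z m ∈ HF k n X d := by
  intro e
  show (if pr e = z then m e else 0) ∈ HZ k n d
  split_ifs
  · exact hm e
  · exact (HZ k n d).zero_mem

theorem xx_HF (w : List (Fin n)) (Z : Bz k w) : xx w Z ∈ HF k n Z.C.X 0 := by
  refine res_HF _ _ ?_
  have := Z.hr.2 0 (one k w) (one_HF w)
  simpa using this

theorem rι_apply (w : List (Fin n)) (Z : Bz k w) (c : Z.C.L) : Z.r (Z.ι c) = c := by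
  have := congrArg (fun f : Z.C.L →ₗ[R k n] Z.C.L => f c) Z.rι
  exact this

/-- every element of the stalk is a multiple of `xx` -/
theorem stalk_gen (w : List (Fin n)) (hw : w.length = len (prd w)) (Z : Bz k w) (c : Z.C.L) :
    res Z.C.pr (prd w) c.1 = (Z.ι c).1 (top k w) • xx w Z := by
  have h1 : res (BS k w).pr (prd w) (Z.ι c - (Z.ι c).1 (top k w) • one k w).1 = 0 := by
    have h2 := res_top_eq w hw (Z.ι c - (Z.ι c).1 (top k w) • one k w).1 0 (by
      show (Z.ι c).1 (top k w) - (Z.ι c).1 (top k w) * 1 = 0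
      ring)
    rw [h2, map_zero]
  have h3 := hom_res Z.hr (prd w) _ h1
  rw [map_sub, map_smul, rι_apply] at h3
  have h4 : (c - (Z.ι c).1 (top k w) • Z.r (one k w)).1 =
      c.1 - (Z.ι c).1 (top k w) • (Z.r (one k w)).1 := rfl
  rw [h4, map_sub, map_smul, sub_eq_zero] at h3
  exact h3

theorem xx_ne (w : List (Fin n)) (hw : w.length = len (prd w)) (Z : Bz k w) {ρ : R k n}
    (h : ρ • xx w Z = 0) : ρ = 0 := by
  have h1 : res Z.C.pr (prd w) (ρ • Z.r (one k w)).1 = 0 := by
    have h4 : (ρ • Z.r (one k w)).1 = ρ • (Z.r (one k w)).1 := rfl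
    rw [h4, map_smul]
    exact h
  have h2 := hom_res Z.hι (prd w) _ h1
  rw [map_smul] at h2
  have h3 := congrFun h2 (top k w)
  have h5 : res (BS k w).pr (prd w) (ρ • Z.ι (Z.r (one k w))).1 (top k w) =
      (if (BS k w).pr (top k w) = prd w then ρ * (Z.ι (Z.r (one k w))).1 (top k w) else 0) := rfl
  rw [h5, if_pos (pr_top w), Z.top1, mul_one] at h3
  exact h3

theorem stalk_gfree (w : List (Fin n)) (hw : w.length = len (prd w)) (Z : Bz k w) :
    GFree (Z.C.stalk (prd w)) (fun i => if i = 0 then 1 else 0) := by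
  refine ⟨Unit, inferInstance, fun _ => xx w Z, fun _ => 0, fun _ => xx_HF w Z, ?_, ?_, ?_⟩
  · rw [Fintype.linearIndependent_iff]
    intro g hg i
    rw [Fintype.sum_unique] at hg
    exact xx_ne w hw Z hg
  · apply le_antisymm
    · rw [Submodule.span_le]
      rintro _ ⟨_, rfl⟩
      exact ⟨(Z.r (one k w)).1, (Z.r (one k w)).2, rfl⟩
    · rintro _ ⟨c, hc, rfl⟩
      have h1 := stalk_gen w hw Z ⟨c, hc⟩
      rw [show res Z.C.pr (prd w) c = _ from h1]
      exact Submodule.smul_mem _ _ (Submodule.subset_span ⟨(), rfl⟩)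
  · intro i
    show Nat.card {j : Unit // (0 : ℤ) = i} = if i = 0 then 1 else 0
    by_cases hi : i = 0
    · rw [if_pos hi, hi]
      rw [Nat.card_eq_one_iff_unique]
      exact ⟨⟨fun a b => Subtype.ext rfl⟩, ⟨(), rfl⟩⟩
    · rw [if_neg hi]
      have : IsEmpty {j : Unit // (0 : ℤ) = i} := ⟨fun j => hi j.2.symm⟩
      exact Nat.card_of_isEmpty

theorem pix_mem (w : List (Fin n)) (hw : w.length = len (prd w)) (Z : Bz k w) :
    (piz (prd w) : R k n) • xx w Z ∈ Z.C.L := by
  classical
  have hv : (Z.r ⟨_, BS_costalk w hw⟩).1 = (piz (prd w) : R k n) • xx w Z := by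
    apply res_ext Z.C.pr
    intro y
    by_cases hy : y = prd w
    · rw [hy]
      have h1 : res (BS k w).pr (prd w)
          ((⟨_, BS_costalk w hw⟩ : (BS k w).L) - (piz (prd w) : R k n) • one k w).1 = 0 := by
        have h2 := res_top_eq w hw
          ((⟨_, BS_costalk w hw⟩ : (BS k w).L) - (piz (prd w) : R k n) • one k w).1 0 (by
          show (Pi.single (top k w) (piz (prd w)) : (BS k w).X → R k n) (top k w) -
            piz (prd w) * 1 = 0
          rw [Pi.single_eq_same, mul_one, sub_self])
        rw [h2, map_zero]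
      have h3 := hom_res Z.hr (prd w) _ h1
      rw [map_sub, map_smul] at h3
      have h4 : (Z.r (⟨_, BS_costalk w hw⟩ : (BS k w).L) -
          (piz (prd w) : R k n) • Z.r (one k w)).1 =
          (Z.r (⟨_, BS_costalk w hw⟩ : (BS k w).L)).1 -
            (piz (prd w) : R k n) • (Z.r (one k w)).1 := rfl
      rw [h4, map_sub, map_smul, sub_eq_zero] at h3
      rw [h3, map_smul]
      congr 1
      funext e
      show (if Z.C.pr e = prd w then (Z.r (one k w)).1 e else 0) =
        (if Z.C.pr e = prd w then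
          (if Z.C.pr e = prd w then (Z.r (one k w)).1 e else 0) else 0)
      split_ifs <;> rfl
    · have h1 : res (BS k w).pr y
          (Pi.single (top k w) (piz (prd w)) : (BS k w).X → R k n) = 0 := by
        funext e
        show (if (BS k w).pr e = y then
          (Pi.single (top k w) (piz (prd w)) : (BS k w).X → R k n) e else 0) = 0
        by_cases he : (BS k w).pr e = y
        · rw [if_pos he, Pi.single_eq_of_ne]
          rintro rfl
          rw [pr_top] at he
          exact hy he.symm
        · rw [if_neg he]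
      rw [hom_res Z.hr y ⟨_, BS_costalk w hw⟩ h1]
      funext e
      show (0 : R k n) = if Z.C.pr e = y then piz (prd w) *
        (if Z.C.pr e = prd w then (Z.r (one k w)).1 e else 0) else 0
      by_cases he : Z.C.pr e = y
      · rw [if_pos he, if_neg (by rw [he]; exact hy), mul_zero]
      · rw [if_neg he]
  rw [← hv]
  exact (Z.r ⟨_, BS_costalk w hw⟩).2

theorem lift_eq (w : List (Fin n)) (hw : w.length = len (prd w)) (Z : Bz k w) (d : ℤ) :
    Z.C.lift (prd w) d = dg (Z.C.stalk (prd w)) d := by
  apply le_antisymm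
  · exact inf_le_left
  · refine le_inf le_rfl ?_
    intro s hs
    obtain ⟨⟨c, hc, rfl⟩, -⟩ := hs
    show (piz (prd w) : R k n) • res Z.C.pr (prd w) c ∈ Z.C.L
    have h1 := stalk_gen w hw Z ⟨c, hc⟩
    rw [show res Z.C.pr (prd w) c = _ from h1, smul_comm]
    exact Z.C.L.smul_mem _ (pix_mem w hw Z)

end MULTCAux

open MULTCAux

theorem ch_top (w : List (Fin n)) (hw : w.length = len (prd w)) (Z : Bz k w) (i : ℤ) :
    Z.C.ch (prd w) i = if i = 0 then 1 else 0 :=
  gfree_finrank (stalk_gfree w hw Z) i

theorem ch_lower (w : List (Fin n)) (hw : w.length = len (prd w)) (Z : Bz k w) (y : W n)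
    (hy : y ≠ prd w) (hl : len (prd w) ≤ len y) (i : ℤ) : Z.C.ch y i = 0 := by
  have hbot : Z.C.stalk y = ⊥ := by
    rw [eq_bot_iff]
    rintro _ ⟨c, hc, rfl⟩
    have h1 : res (BS k w).pr y (Z.ι ⟨c, hc⟩).1 = 0 := by
      funext e
      show (if (BS k w).pr e = y then (Z.ι ⟨c, hc⟩).1 e else 0) = 0
      by_cases he : (BS k w).pr e = y
      · exfalso
        have hne : e ≠ top k w := by
          rintro rfl
          rw [pr_top] at he
          exact hy he.symm
        have h2 := len_pr_lt w e hne
        rw [he] at h2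
        omega
      · rw [if_neg he]
    have h3 := hom_res Z.hr y _ h1
    rw [rι_apply] at h3
    rw [Submodule.mem_bot]
    exact h3
  have h4 : GFree (Z.C.stalk y) (fun _ => 0) := by
    rw [hbot]
    exact gfree_bot
  exact gfree_finrank h4 i

theorem mult_top (w : List (Fin n)) (hw : w.length = len (prd w)) (Z : Bz k w) (d : ℤ) :
    Z.C.mult (prd w) d = if d = 0 then 1 else 0 := by
  rw [← ch_top w hw Z d]
  unfold Bim.mult Bim.ch
  rw [lift_eq w hw Z d]

theorem rank_pos (w : List (Fin n)) (hw : w.length = len (prd w)) (Z : Bz k w) :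
    0 < Module.finrank (R k n) Z.C.L := by
  have hfin : Module.Finite (R k n) Z.C.L :=
    Module.Finite.of_fg (IsNoetherian.noetherian Z.C.L)
  have hne : Z.r (one k w) ≠ 0 := by
    intro h
    have h1 := Z.top1
    rw [h, map_zero] at h1
    exact one_ne_zero h1.symm
  rw [Module.finrank_pos_iff_exists_ne_zero]
  exact ⟨_, hne⟩

end

end Pool.Agent.PCan
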