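import Pool.Agent.PCan.MultC

/-! MODULE MULTD : `mult B_z y = 0` for `y ≠ z` (proof: see `MultC`). -/

open MvPolynomial

namespace Pool.Agent.PCan

noncomputable section

variable {k : Type} [Field k] {n : ℕ}

theorem MULTD_nopt (w : List (Fin n)) (hw : w.length = len (prd w)) (z : W n)
    (hz : z ≠ prd w) (hl : len (prd w) ≤ len z) (g : (BS k w).X → R k n) :
    res (BS k w).pr z g = 0 := by
  funext e
  show (if (BS k w).pr e = z then g e else 0) = 0
  rw [if_neg]
  intro he
  have h1 : e ≠ top k w := by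
    intro hc
    rw [hc, pr_top] at he
    exact hz he.symm
  have h2 := len_pr_lt w e h1
  rw [he] at h2
  omega

theorem MULTD_zero (M : Bim k n) (y : W n) (h : ∀ m ∈ M.L, res M.pr y m = 0) (d : ℤ) :
    M.mult y d = 0 := by
  have hst : ∀ s ∈ M.stalk y, s = 0 := by
    intro s hs
    obtain ⟨m, hm, rfl⟩ := Submodule.mem_map.1 hs
    exact h m hm
  have hsub : Subsingleton ↥(M.lift y d) := by
    refine ⟨fun a b => ?_⟩
    have key : ∀ c : ↥(M.lift y d), c.1 = 0 := by
      rintro ⟨c, hc⟩
      have h1 : c ∈ dg (M.stalk y) d := (Submodule.mem_inf.1 hc).1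
      have h2 : c ∈ (M.stalk y).restrictScalars k := (Submodule.mem_inf.1 h1).1
      exact hst c h2
    apply Subtype.ext
    rw [key a, key b]
  unfold Bim.mult
  have : Subsingleton (↥(M.lift y d) ⧸
      (dg (Rp k n • M.stalk y) d).comap (M.lift y d).subtype) := by
    refine ⟨fun a b => ?_⟩
    induction a using Submodule.Quotient.induction_on with
    | H a =>
      induction b using Submodule.Quotient.induction_on with
      | H b => rw [Subsingleton.elim a b]
  exact Module.finrank_zero_of_subsingleton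

theorem mult_other (w : List (Fin n)) (hw : w.length = len (prd w)) (Z : Bz k w) (y : W n)
    (hy : y ≠ prd w) (d : ℤ) : Z.C.mult y d = 0 := by
  by_contra hne
  obtain ⟨w', hw', hlen⟩ := exists_reduced y
  rcases le_or_gt (len (prd w)) (len y) with hl | hl
  · apply hne
    refine MULTD_zero Z.C y (fun m hm => ?_) d
    have h1 := hom_res Z.hr y (Z.ι ⟨m, hm⟩) (MULTD_nopt w hw y hy hl _)
    have h2 : Z.r (Z.ι ⟨m, hm⟩) = ⟨m, hm⟩ := LinearMap.congr_fun Z.rι ⟨m, hm⟩
    rw [h2] at h1
    exact h1
  · subst hw'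
    have hgood : Good Z.C := good_retract (good_obj (BS k w)) Z.hι Z.hr Z.rι
    obtain ⟨a, ha, b, hb, hab⟩ := exists_ab hgood w' hlen d hne
    have hx : a ∘ₗ b ∈ Bim.Hom Z.C Z.C 0 := by
      have := Hom_comp hb ha
      rwa [neg_add_cancel] at this
    have hba : b ∘ₗ a ∈ Bim.Hom (BS k w').toBim (BS k w').toBim 0 := by
      have := Hom_comp ha hb
      rwa [add_neg_cancel] at this
    have hpow : ∀ N : ℕ, ((b ∘ₗ a : Module.End (R k n) (BS k w').L)) ^ (N + 1) =
        b ∘ₗ ((a ∘ₗ b : Module.End (R k n) Z.C.L) ^ N) ∘ₗ a := by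
      intro N
      induction N with
      | zero =>
        rw [zero_add, pow_one, pow_zero]
        rfl
      | succ N ih =>
        rw [pow_succ, ih, pow_succ (a ∘ₗ b : Module.End (R k n) Z.C.L)]
        rfl
    rcases nilp_or_unit Z.indec hx with ⟨N, hN⟩ | ⟨y', _, _, hxy⟩
    · have h1 := chi_pow w' hlen hba (N + 1)
      rw [hpow, hN] at h1
      have h2 : ((b ∘ₗ a) (one k w')).1 (top k w') = 1 := hab
      rw [h2, one_pow] at h1
      have h3 : ((b ∘ₗ (0 : Module.End (R k n) Z.C.L) ∘ₗ a) (one k w')).1 (top k w') =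
          (0 : R k n) := by
        rw [LinearMap.comp_apply, LinearMap.comp_apply, LinearMap.zero_apply, map_zero]
        rfl
      rw [h3] at h1
      exact zero_ne_one h1
    · have hz : ∀ m : Z.C.L, res Z.C.pr (prd w) m.1 = 0 := by
        intro m
        have h1 : (a (b (y' m))) = m := LinearMap.congr_fun hxy m
        have h2 := hom_res ha (prd w) (b (y' m))
          (MULTD_nopt w' hlen (prd w) (Ne.symm hy) hl.le _)
        rw [h1] at h2
        exact h2
      have h3 := hom_res Z.hι (prd w) (Z.r (one k w)) (hz _)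
      have h4 := congrFun h3 (top k w)
      have h5 : (if (BS k w).pr (top k w) = prd w then (Z.ι (Z.r (one k w))).1 (top k w) else 0) =
          (0 : R k n) := h4
      rw [if_pos (pr_top w), Z.top1] at h5
      exact one_ne_zero h5

end

end Pool.Agent.PCan
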