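import Pool.Agent.PCan.NumRank

/-! MODULE NUMFIN : the two rank statements. -/

namespace Pool.Agent.PCan

theorem all_ok : allchk MM IVV wit (bks MM IVV FF wit).tail E0 1 = true := by decide +kernel

theorem MM_eq : MM = pr1 * pr2 := by decide +kernel

theorem inv_chk : ∀ c : Fin 9, c.val ≠ 4 → (gt IVV c * (MM - 4 + c)) % MM = 1 := by
  decide +kernel

theorem nok {k : Type} [Field k] (h0 : (MM : k) = 0) : NOK k MM IVV where
  h0 := h0
  h1 := by decide +kernel
  h2 := by decide +kernel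
  inv := by
    intro c hc h4
    have h := inv_chk ⟨c, hc⟩ h4
    have h2 : (((gt IVV c * (MM - 4 + c)) % MM : ℕ) : k) = ((1 : ℕ) : k) := by
      rw [h]
    have h3 : ∀ x : ℕ, ((x % MM : ℕ) : k) = (x : k) := fun x =>
      cast_mod_eq h0 (Nat.mod_mod _ _)
    rw [h3, Nat.cast_mul, Nat.cast_add, Nat.cast_sub (by decide +kernel), h0] at h2
    rw [← Nat.cast_one, ← h2]
    push_cast
    ring

theorem gramOK {k : Type} [Field k] (h0 : (MM : k) = 0) : GramOK k :=
  fun s t hst => gram_entry (nok h0) all_ok s t hst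

instance : Fact pr1.Prime := ⟨pr1_prime⟩

instance : Fact pr2.Prime := ⟨pr2_prime⟩

/-- the rank drops modulo `pr1` -/
theorem num_rank_p : (gramE (ZMod pr1)).rank ≤ 25 := by
  have h0 : ((pr1 : ℕ) : ZMod pr1) = 0 := ZMod.natCast_self pr1
  refine rank_le h0 (gramOK ?_)
  rw [MM_eq, Nat.cast_mul, h0, zero_mul]

/-- the rank modulo `pr2` -/
theorem num_rank_l : 26 ≤ (gramE (ZMod pr2)).rank := by
  have h0 : ((pr2 : ℕ) : ZMod pr2) = 0 := ZMod.natCast_self pr2
  refine rank_ge h0 (gramOK ?_)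
  rw [MM_eq, Nat.cast_mul, h0, mul_zero]

end Pool.Agent.PCan
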