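import Pool.Agent.PCan.NumDat

/-! MODULE NUMPF : correctness of the kernel evaluation. -/

namespace Pool.Agent.PCan

theorem force_eq {α : Type} (x : ℕ) (f : ℕ → α) : force x f = f x := by
  cases x <;> rfl

theorem gt_pack (g : ℕ → ℕ) (hg : ∀ x, g x < 2 ^ 256) :
    ∀ n j i, i < n → gt (pack g n j) i = g (j + i)
  | 0, _, _, h => absurd h (Nat.not_lt_zero _)
  | n + 1, j, 0, _ => by
    have h1 := hg j
    unfold gt pack
    rw [Nat.mul_zero, Nat.shiftRight_zero, Nat.shiftLeft_eq, Nat.add_mul_mod_self_right,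
      Nat.mod_eq_of_lt h1, Nat.add_zero]
  | n + 1, j, i + 1, h => by
    have ih := gt_pack g hg n (j + 1) i (by omega)
    have h1 := hg j
    unfold gt at ih ⊢
    unfold pack
    rw [show 256 * (i + 1) = 256 + 256 * i by ring, Nat.shiftRight_add]
    have h2 : (g j + pack g n (j + 1) <<< 256) >>> 256 = pack g n (j + 1) := by
      rw [Nat.shiftLeft_eq, Nat.shiftRight_eq_div_pow, Nat.add_mul_div_right _ _ (by positivity),
        Nat.div_eq_of_lt h1, Nat.zero_add]
    rw [h2, ih]
    congr 1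
    omega

theorem dotp_eq (V U : ℕ) : ∀ n, dotp V U n = ∑ j ∈ Finset.range n, gt V j * gt U j
  | 0 => by simp [dotp]
  | n + 1 => by
    rw [Finset.sum_range_succ, ← dotp_eq V U n, dotp, Nat.add_comm]

/-- the index of a permutation (Lehmer code) -/
def idx (w : W 4) : ℕ :=
  24 * (w 0).val + 6 * ((w 1).val - (if w 0 < w 1 then 1 else 0)) +
    2 * ((w 2).val - (if w 0 < w 2 then 1 else 0) - (if w 1 < w 2 then 1 else 0)) +
    ((w 3).val - (if w 0 < w 3 then 1 else 0) - (if w 1 < w 3 then 1 else 0) -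
      (if w 2 < w 3 then 1 else 0))

theorem idx_image : (Finset.univ : Finset (W 4)).image idx = Finset.range 120 := by
  decide +kernel

theorem idx_lt (w : W 4) : idx w < 120 := by
  have h := Finset.mem_image_of_mem idx (Finset.mem_univ w)
  rw [idx_image] at h
  exact Finset.mem_range.1 h

theorem idx_inj : Function.Injective idx := by
  have h : ((Finset.univ : Finset (W 4)).image idx).card = (Finset.univ : Finset (W 4)).card := by
    rw [idx_image, Finset.card_range, Finset.card_univ, Fintype.card_perm, Fintype.card_fin]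
    rfl
  intro a b hab
  exact Finset.card_image_iff.1 h (Finset.mem_coe.2 (Finset.mem_univ a))
    (Finset.mem_coe.2 (Finset.mem_univ b)) hab

theorem tab_ok : ∀ (i : Fin 4) (w : W 4), gb (TQ i) (idx w) = idx (w * sr i) ∧
    gb (TC i) (idx w) + (w i.succ).val = (w i.castSucc).val + 4 := by
  decide +kernel

theorem idx_div : ∀ w : W 4, idx w / 24 = (w 0).val := by
  decide +kernel

theorem idx_one : idx 1 = 0 := by decide +kernel

theorem idx_rev : idx (Fin.revPerm : W 4) = 119 := by decide +kernel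

section

variable {k : Type} [Field k]

/-- hypotheses on the modulus and on the table of inverses -/
structure NOK (k : Type) [Field k] (M IV : ℕ) : Prop where
  h0 : (M : k) = 0
  h1 : 1000 < M
  h2 : M < 2 ^ 256
  inv : ∀ c : ℕ, c < 9 → c ≠ 4 → ((gt IV c : ℕ) : k) * ((c : k) - 4) = 1

theorem NOK.cast_mod {M IV : ℕ} (h : NOK k M IV) (x : ℕ) : ((x % M : ℕ) : k) = (x : k) := by
  conv_rhs => rw [← Nat.div_add_mod x M]
  rw [Nat.cast_add, Nat.cast_mul, h.h0, zero_mul, zero_add]

theorem NOK.mod_lt {M IV : ℕ} (h : NOK k M IV) (x : ℕ) : x % M < 2 ^ 256 :=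
  lt_trans (Nat.mod_lt _ (by have := h.h1; omega)) h.h2

/-- a packed vector represents a function -/
def Rel (V : ℕ) (S : W 4 → k) : Prop := ∀ w, ((gt V (idx w) : ℕ) : k) = S w

theorem rel_pack {M IV : ℕ} (h : NOK k M IV) (g : ℕ → ℕ) (S : W 4 → k)
    (hS : ∀ w, ((g (idx w) : ℕ) : k) = S w) : Rel (pack (fun j => g j % M) 120 0) S := by
  intro w
  rw [gt_pack (fun j => g j % M) (fun x => h.mod_lt _) 120 0 (idx w) (idx_lt w)]
  simp only [Nat.zero_add]
  rw [h.cast_mod, hS]

theorem alv_eq (i : Fin 4) (w : W 4) :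
    ((gb (TC i) (idx w) : ℕ) : k) - 4 = alv k i w := by
  have h := (tab_ok i w).2
  have h2 : ((gb (TC i) (idx w) : ℕ) : k) + (((w i.succ).val : ℕ) : k) =
      (((w i.castSucc).val : ℕ) : k) + 4 := by
    have := congrArg (fun x : ℕ => (x : k)) h
    push_cast at this
    exact this
  unfold alv xiv
  push_cast
  linear_combination h2

theorem code_lt : ∀ (i : Fin 4) (w : W 4), gb (TC i) (idx w) < 9 ∧ gb (TC i) (idx w) ≠ 4 := by
  decide +kernel

theorem inv_eq {M IV : ℕ} (h : NOK k M IV) (i : Fin 4) (w : W 4) :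
    ((gt IV (gb (TC i) (idx w)) : ℕ) : k) * alv k i w = 1 := by
  rw [← alv_eq]
  exact h.inv _ (code_lt i w).1 (code_lt i w).2

theorem alv_ne {M IV : ℕ} (h : NOK k M IV) (i : Fin 4) (w : W 4) : alv k i w ≠ 0 := by
  intro h0
  have := inv_eq h i w
  rw [h0, mul_zero] at this
  exact zero_ne_one this

theorem rel_stD {M IV : ℕ} (h : NOK k M IV) (i : Fin 4) {V : ℕ} {S : W 4 → k} (hV : Rel V S) :
    Rel (stD M IV i V) (tstep (some i, 0) S) := by
  unfold stD
  rw [force_eq, force_eq]
  refine rel_pack h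
    (fun j => (gt V j + gt V (gb (TQ i) j)) * gt IV (gb (TC i) j)) _ (fun w => ?_)
  push_cast
  rw [(tab_ok i w).1, hV w, hV (w * sr i)]
  show _ = (S w + S (w * sr i)) / alv k i w
  rw [eq_div_iff (alv_ne h i w), mul_assoc, inv_eq h, mul_one]

theorem rel_stZ {M IV : ℕ} (h : NOK k M IV) (m : ℕ) {V : ℕ} {S : W 4 → k} (hV : Rel V S) :
    Rel (stZ M V) (tstep (none, m) S) := by
  unfold stZ
  refine rel_pack h (fun j => gt V j * (M - (j / 24 + 1))) _ (fun w => ?_)
  have h3 : idx w / 24 + 1 ≤ M := by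
    have := idx_lt w
    have := h.h1
    omega
  rw [Nat.cast_mul, Nat.cast_sub h3, h.h0, hV w, idx_div]
  show _ = - xiv k (w 0) * S w
  unfold xiv
  ring

theorem rel_stA {M IV : ℕ} (h : NOK k M IV) (i : Fin 4) {V : ℕ} {S : W 4 → k} (hV : Rel V S) :
    Rel (stA M i V) (fun w => alv k i w * S w) := by
  unfold stA
  rw [force_eq]
  refine rel_pack h (fun j => gt V j * (M - 4 + gb (TC i) j)) _ (fun w => ?_)
  have h3 : 4 ≤ M := by have := h.h1; omega
  rw [Nat.cast_mul, Nat.cast_add, Nat.cast_sub h3, h.h0, hV w, ← alv_eq]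
  push_cast
  ring

/-- pairing of functionals and functions -/
def pair (F S : W 4 → k) : k := ∑ w, F w * S w

theorem pair_dotp {V U : ℕ} {S F : W 4 → k} (hV : Rel V S) (hU : Rel U F) :
    ((dotp V U 120 : ℕ) : k) = pair F S := by
  rw [dotp_eq, ← idx_image, Finset.sum_image (fun a _ b _ hab => idx_inj hab)]
  unfold pair
  push_cast
  refine Finset.sum_congr rfl (fun w _ => ?_)
  rw [hV w, hU w]
  ring

/-- adjoint of a step -/
def adjn (x : BLt) (F : W 4 → k) : W 4 → k :=
  match x with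
  | some i => fun w => (F w - F (w * sr i)) / alv k i w
  | none => fun w => - xiv k (w 0) * F w

theorem rel_stB {M IV : ℕ} (h : NOK k M IV) (i : Fin 4) {V : ℕ} {F : W 4 → k} (hV : Rel V F) :
    Rel (stB M IV i V) (adjn (some i) F) := by
  unfold stB
  rw [force_eq, force_eq]
  refine rel_pack h
    (fun j => (gt V j + (M - 1) * gt V (gb (TQ i) j)) * gt IV (gb (TC i) j)) _ (fun w => ?_)
  have h3 : 1 ≤ M := by have := h.h1; omega
  simp only [Nat.cast_mul, Nat.cast_add, Nat.cast_sub h3, h.h0]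
  rw [(tab_ok i w).1, hV w, hV (w * sr i)]
  show _ = (F w - F (w * sr i)) / alv k i w
  rw [eq_div_iff (alv_ne h i w), mul_assoc, inv_eq h]
  push_cast
  ring

theorem rel_stZ' {M IV : ℕ} (h : NOK k M IV) {V : ℕ} {F : W 4 → k} (hV : Rel V F) :
    Rel (stZ M V) (adjn none F) :=
  rel_stZ h 0 hV

theorem alv_swap (i : Fin 4) (w : W 4) : alv k i (w * sr i) = - alv k i w := by
  unfold alv sr
  simp [Equiv.Perm.mul_apply, Equiv.swap_apply_left, Equiv.swap_apply_right]

theorem pair_step (x : BLt) (F S : W 4 → k) :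
    pair F (tstep (x, 0) S) = pair (adjn x F) S := by
  unfold pair
  rcases x with _ | i
  · refine Finset.sum_congr rfl (fun w _ => ?_)
    show F w * (- xiv k (w 0) * S w) = (- xiv k (w 0) * F w) * S w
    ring
  · show ∑ w, F w * ((S w + S (w * sr i)) / alv k i w) =
      ∑ w, ((F w - F (w * sr i)) / alv k i w) * S w
    have e1 : ∀ w : W 4, F w * ((S w + S (w * sr i)) / alv k i w) =
        F w * S w / alv k i w + F w * S (w * sr i) / alv k i w := fun w => by ring
    have e2 : ∀ w : W 4, ((F w - F (w * sr i)) / alv k i w) * S w =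
        F w * S w / alv k i w + (- (F (w * sr i) * S w / alv k i w)) := fun w => by ring
    simp only [e1, e2]
    rw [Finset.sum_add_distrib, Finset.sum_add_distrib]
    congr 1
    rw [← Equiv.sum_comp (Equiv.mulRight (sr i)) (fun w => F w * S (w * sr i) / alv k i w)]
    refine Finset.sum_congr rfl (fun w _ => ?_)
    simp only [Equiv.coe_mulRight]
    rw [alv_swap, mul_assoc, show (sr i : W 4) * sr i = 1 from Equiv.swap_mul_self _ _, mul_one,
      div_neg]

end

end Pool.Agent.PCan
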