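import Pool.Agent.PCan.NumPf

/-! MODULE NUMROW : the check of the rows proves the values of the entries. -/

namespace Pool.Agent.PCan

section

variable {k : Type} [Field k]

/-- functional before a word -/
def adjs (F : W 4 → k) : List BLt → (W 4 → k)
  | [] => F
  | x :: l => adjn x (adjs F l)

theorem trun_cons (x : BLt × ℕ) (l : List (BLt × ℕ)) (S : W 4 → k) :
    trun (x :: l) S = trun l (tstep x S) := rfl

theorem pair_run (F : W 4 → k) : ∀ (l : List BLt) (S : W 4 → k),
    pair F (trun (l.map fun x => (x, 0)) S) = pair (adjs F l) S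
  | [], _ => rfl
  | x :: l, S => by
    rw [List.map_cons, trun_cons, pair_run F l, pair_step]
    rfl

/-- number of free letters -/
def nfree : List BLt → ℕ
  | [] => 0
  | none :: l => nfree l
  | some _ :: l => nfree l + 1

theorem mark_past (s t : ℕ) : ∀ (l : List BLt) (c : ℕ), s < c → t < c →
    mark s t c l = l.map fun x => (x, 0)
  | [], _, _, _ => rfl
  | none :: l, c, hs, ht => by
    rw [mark, mark_past s t l c hs ht, List.map_cons]
  | some i :: l, c, hs, ht => by
    rw [mark, mark_past s t l (c + 1) (by omega) (by omega), List.map_cons,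
      if_neg (by omega), if_neg (by omega)]

theorem mark_comm (s t : ℕ) : ∀ (l : List BLt) (c : ℕ), mark s t c l = mark t s c l
  | [], _ => rfl
  | none :: l, c => by rw [mark, mark, mark_comm s t l c]
  | some i :: l, c => by
    rw [mark, mark, mark_comm s t l (c + 1)]
    congr 2
    by_cases h1 : c = s <;> by_cases h2 : c = t <;> simp [h1, h2]

/-- the list of functionals after the letters -/
def AOK (F : W 4 → k) : List BLt → List ℕ → Prop
  | [], _ => True
  | _ :: _, [] => False
  | _ :: l, b :: bs => Rel b (adjs F l) ∧ AOK F l bs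

theorem bks_ok {M IV : ℕ} (h : NOK k M IV) {U : ℕ} {F : W 4 → k} (hU : Rel U F) :
    ∀ l : List BLt, ∃ V bs, bks M IV U l = V :: bs ∧ Rel V (adjs F l) ∧ AOK F l bs
  | [] => ⟨U, [], rfl, hU, trivial⟩
  | none :: l => by
    obtain ⟨V, bs, h1, h2, h3⟩ := bks_ok h hU l
    refine ⟨stZ M V, V :: bs, ?_, rel_stZ' h h2, h2, h3⟩
    rw [bks, h1]
    simp only [force_eq]
  | some i :: l => by
    obtain ⟨V, bs, h1, h2, h3⟩ := bks_ok h hU l
    refine ⟨stB M IV i V, V :: bs, ?_, rel_stB h i h2, h2, h3⟩
    rw [bks, h1]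
    simp only [force_eq]

theorem nfree_wit : nfree wit = 35 := by decide

attribute [local irreducible] dotp pack stD stZ stA stB force gt wit

theorem entry_eq {M IV : ℕ} (h : NOK k M IV) {V b e : ℕ} {S F : W 4 → k} (hV : Rel V S)
    (hb : Rel b F) (he : Nat.beq ((dotp V b 120 + 1000) % M) e = true) :
    pair F S + 1000 = (e : k) := by
  rw [← Nat.eq_of_beq_eq_true he, h.cast_mod, Nat.cast_add, pair_dotp hV hb]
  norm_num

theorem rowchk_spec {M IV : ℕ} (h : NOK k M IV) (F : W 4 → k) (s t : ℕ) :
    ∀ (l : List BLt) (bs es : List ℕ) (V : ℕ) (S : W 4 → k) (c : ℕ), Rel V S → AOK F l bs →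
      rowchk M IV l bs es V = true → s < c → c ≤ t → t < c + nfree l →
      pair F (trun (mark s t c l) S) + 1000 = ((es.getD (t - c) 0 : ℕ) : k)
  | [], _, _, _, _, c, _, _, _, _, h1, h2 => absurd h2 (by simp [nfree]; omega)
  | none :: l, [], _, _, _, _, _, hb, _, _, _, _ => absurd hb (by simp [AOK])
  | none :: l, b :: bs, es, V, S, c, hV, hb, hc, h1, h2, h3 => by
    rw [rowchk, force_eq] at hc
    rw [mark, trun_cons]
    exact rowchk_spec h F s t l bs es _ _ c (rel_stZ h 0 hV) hb.2 hc h1 h2 h3
  | some i :: l, [], _, _, _, _, _, hb, _, _, _, _ => absurd hb (by simp [AOK])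
  | some i :: l, b :: bs, [], V, S, c, hV, hb, hc, h1, h2, h3 => by
    simp [rowchk] at hc
  | some i :: l, b :: bs, e :: es, V, S, c, hV, hb, hc, h1, h2, h3 => by
    rw [rowchk, Bool.and_eq_true, force_eq] at hc
    rcases Nat.eq_or_lt_of_le h2 with h4 | h4
    · subst h4
      rw [mark, mark_past s c l (c + 1) (by omega) (by omega), trun_cons, if_neg (by omega),
        if_pos rfl]
      show pair F (trun (l.map fun x => (x, 0)) S) + 1000 = _
      rw [pair_run, Nat.sub_self, List.getD_cons_zero]
      exact entry_eq h hV hb.1 hc.1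
    · rw [mark, trun_cons, if_neg (by omega), if_neg (by omega)]
      have ih := rowchk_spec h F s t l bs es _ _ (c + 1) (rel_stD h i hV) hb.2 hc.2
        (by omega) (by omega) (by simp only [nfree] at h3; omega)
      rw [ih, show t - c = (t - (c + 1)) + 1 by omega, List.getD_cons_succ]

theorem allchk_spec {M IV : ℕ} (h : NOK k M IV) (F : W 4 → k) (s t : ℕ) (hst : s ≤ t) :
    ∀ (l : List BLt) (bs : List ℕ) (es : List (List ℕ)) (V : ℕ) (S : W 4 → k) (c : ℕ),
      Rel V S → AOK F l bs → allchk M IV l bs es V = true → c ≤ s → t < c + nfree l →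
      pair F (trun (mark s t c l) S) + 1000 =
        (((es.getD (s - c) []).getD (t - s) 0 : ℕ) : k)
  | [], _, _, _, _, c, _, _, _, h1, h2 => absurd h2 (by simp [nfree]; omega)
  | none :: l, [], _, _, _, _, _, hb, _, _, _ => absurd hb (by simp [AOK])
  | none :: l, b :: bs, es, V, S, c, hV, hb, hc, h1, h3 => by
    rw [allchk, force_eq] at hc
    rw [mark, trun_cons]
    exact allchk_spec h F s t hst l bs es _ _ c (rel_stZ h 0 hV) hb.2 hc h1 h3
  | some i :: l, [], _, _, _, _, _, hb, _, _, _ => absurd hb (by simp [AOK])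
  | some i :: l, b :: bs, [], V, S, c, hV, hb, hc, h1, h3 => by
    simp [allchk] at hc
  | some i :: l, b :: bs, [] :: es, V, S, c, hV, hb, hc, h1, h3 => by
    simp [allchk] at hc
  | some i :: l, b :: bs, (e :: es) :: ess, V, S, c, hV, hb, hc, h1, h3 => by
    rw [allchk, Bool.and_eq_true, Bool.and_eq_true, force_eq] at hc
    simp only [nfree] at h3
    rcases Nat.eq_or_lt_of_le h1 with h4 | h4
    · subst h4
      rw [Nat.sub_self, List.getD_cons_zero]
      rcases Nat.eq_or_lt_of_le hst with h5 | h5
      · subst h5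
        rw [mark, mark_past c c l (c + 1) (by omega) (by omega), trun_cons, if_pos rfl,
          if_pos rfl, Nat.sub_self, List.getD_cons_zero]
        show pair F (trun (l.map fun x => (x, 0)) (fun w => alv k i w * S w)) + 1000 = _
        rw [pair_run]
        exact entry_eq h (rel_stA h i hV) hb.1 hc.1.1
      · rw [mark, trun_cons, if_pos rfl, if_neg (by omega)]
        show pair F (trun (mark c t (c + 1) l) S) + 1000 = _
        rw [rowchk_spec h F c t l bs es V S (c + 1) hV hb.2 hc.1.2 (by omega) (by omega)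
          (by omega), show t - c = (t - (c + 1)) + 1 by omega, List.getD_cons_succ]
    · rw [mark, trun_cons, if_neg (by omega), if_neg (by omega)]
      have ih := allchk_spec h F s t hst l bs ess _ _ (c + 1) (rel_stD h i hV) hb.2 hc.2
        (by omega) (by omega)
      rw [ih, show s - c = (s - (c + 1)) + 1 by omega, List.getD_cons_succ]

theorem gt_FF : ∀ w : W 4, gt FF (idx w) = if w = Fin.revPerm then 288 else 0 := by
  decide +kernel

theorem gt_one : ∀ w : W 4, gt 1 (idx w) = if w = 1 then 1 else 0 := by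
  decide +kernel

theorem gram_entry {M IV : ℕ} (h : NOK k M IV)
    (hc : allchk M IV wit (bks M IV FF wit).tail E0 1 = true) (s t : Fin 35) (hst : s ≤ t) :
    gramE k s t + 1000 = (((E0.getD s []).getD (t - s) 0 : ℕ) : k) := by
  have hF : Rel FF (fun w : W 4 => if w = Fin.revPerm then (288 : k) else 0) := by
    intro w
    rw [gt_FF]
    by_cases hw : w = Fin.revPerm
    · rw [if_pos hw]; simp [hw]
    · rw [if_neg hw]; simp [hw]
  have h1 : Rel 1 (fun w : W 4 => if w = 1 then (1 : k) else 0) := by
    intro w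
    rw [gt_one]
    by_cases hw : w = 1
    · rw [if_pos hw]; simp [hw]
    · rw [if_neg hw]; simp [hw]
  obtain ⟨V, bs, e1, e2, e3⟩ := bks_ok h hF wit
  rw [e1, List.tail_cons] at hc
  have h2 := allchk_spec h _ s.val t.val hst wit bs E0 1 _ 0 h1 e3 hc (Nat.zero_le _)
    (by
      rw [nfree_wit]
      omega)
  rw [Nat.sub_zero] at h2
  rw [← h2]
  congr 1
  unfold gramE tval pair
  rw [Matrix.of_apply, Finset.sum_eq_single Fin.revPerm]
  · show _ = (if (Fin.revPerm : W 4) = Fin.revPerm then (288 : k) else 0) * _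
    rw [if_pos rfl]
  · intro w _ hw
    show (if w = Fin.revPerm then (288 : k) else 0) * _ = 0
    rw [if_neg hw, zero_mul]
  · intro hw
    exact absurd (Finset.mem_univ _) hw

theorem gram_symm (s t : Fin 35) : gramE k s t = gramE k t s := by
  unfold gramE
  rw [Matrix.of_apply, Matrix.of_apply, mark_comm]

end

end Pool.Agent.PCan
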