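import Pool.Agent.PCan.Ab
import Pool.Agent.PCan.Chi
import Pool.Agent.PCan.Loc

/-! MODULE PEEL : the indecomposable bimodule `B_z` and its splitting off. -/

open MvPolynomial

namespace Pool.Agent.PCan

noncomputable section

variable {k : Type} [Field k] {n : ℕ}

/-- The indecomposable retract `C` of `BS(w)` containing the top component -/
structure Bz (k : Type) [Field k] {n : ℕ} (w : List (Fin n)) where
  C : Bim k n
  ι : C.L →ₗ[R k n] (BS k w).L
  r : (BS k w).L →ₗ[R k n] C.L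
  hι : ι ∈ Bim.Hom C (BS k w).toBim 0
  hr : r ∈ Bim.Hom (BS k w).toBim C 0
  rι : r ∘ₗ ι = LinearMap.id
  indec : Indec C
  top1 : (ι (r (one k w))).1 (top k w) = 1

/-- PEEL.  `x := r b a ι ∈ End(C)`; the top value of `(ι x^N r)(1)` is 1 for all `N`
(`chi_mul`, `chi_pow`), so `x` is not nilpotent, hence invertible; `a' := a ι`, `b' := x⁻¹ r b`. -/
theorem peel (w : List (Fin n)) (hw : w.length = len (prd w)) (Z : Bz k w) (B : Bim k n) (d : ℤ)
    {a : (BS k w).L →ₗ[R k n] B.L} (ha : a ∈ Bim.Hom (BS k w).toBim B d)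
    {b : B.L →ₗ[R k n] (BS k w).L} (hb : b ∈ Bim.Hom B (BS k w).toBim (-d))
    (h : (b (a (one k w))).1 (top k w) = 1) :
    ∃ a' ∈ Bim.Hom Z.C B d, ∃ b' ∈ Bim.Hom B Z.C (-d), b' ∘ₗ a' = LinearMap.id := by
  have hφ : (Z.ι ∘ₗ Z.r) ∈ Bim.Hom (BS k w).toBim (BS k w).toBim (0 + 0) := Hom_comp Z.hr Z.hι
  have hψ : (b ∘ₗ a) ∈ Bim.Hom (BS k w).toBim (BS k w).toBim (d + -d) := Hom_comp ha hb
  have haι : (a ∘ₗ Z.ι) ∈ Bim.Hom Z.C B (0 + d) := Hom_comp Z.hι ha
  have hrb : (Z.r ∘ₗ b) ∈ Bim.Hom B Z.C (-d + 0) := Hom_comp hb Z.hr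
  have hx : ((Z.r ∘ₗ b) ∘ₗ (a ∘ₗ Z.ι)) ∈ Bim.Hom Z.C Z.C (0 + d + (-d + 0)) := Hom_comp haι hrb
  have e1 : (0 : ℤ) + d + (-d + 0) = 0 := by ring
  rw [e1] at hx
  rw [zero_add] at haι
  rw [add_zero] at hrb
  have h1 : ∀ g : (BS k w).L, (Z.ι (Z.r g)).1 (top k w) = g.1 (top k w) := by
    intro g
    have h2 := chi_mul w hw hφ g
    simp only [LinearMap.comp_apply] at h2
    rw [h2, Z.top1, mul_one]
  have h3 : ∀ g : (BS k w).L, (b (a g)).1 (top k w) = g.1 (top k w) := by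
    intro g
    have h2 := chi_mul w hw hψ g
    simp only [LinearMap.comp_apply] at h2
    rw [h2, h, mul_one]
  rcases nilp_or_unit Z.indec hx with ⟨N, hN⟩ | ⟨y, hy, hyx, -⟩
  · exfalso
    have h4 : ∀ (N : ℕ) (c : Z.C.L),
        (Z.ι (((((Z.r ∘ₗ b) ∘ₗ (a ∘ₗ Z.ι)) : Module.End (R k n) Z.C.L) ^ N) c)).1 (top k w) =
          (Z.ι c).1 (top k w) := by
      intro N
      induction N with
      | zero =>
        intro c
        rw [pow_zero, Module.End.one_apply]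
      | succ N ih =>
        intro c
        rw [pow_succ, Module.End.mul_apply, ih]
        simp only [LinearMap.comp_apply]
        rw [h1, h3]
    have h5 := h4 N (Z.r (one k w))
    rw [hN, Z.top1, LinearMap.zero_apply, map_zero] at h5
    exact zero_ne_one h5
  · refine ⟨a ∘ₗ Z.ι, haι, y ∘ₗ (Z.r ∘ₗ b), ?_, ?_⟩
    · have h6 := Hom_comp hrb hy
      rwa [add_zero] at h6
    · exact hyx

end

end Pool.Agent.PCan
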