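import Pool.Agent.PCan.Alg2

/-! MODULE PERM : permutations, inversions, words. -/

open MvPolynomial

namespace Pool.Agent.PCan

variable {k : Type} [Field k] {n : ℕ}

/-- product of a word (the head of the list is the LAST letter) -/
def prd : List (Fin n) → W n
  | [] => 1
  | i :: w => prd w * sr i

theorem sr_mul_self (i : Fin n) : sr i * sr i = 1 := by
  unfold sr
  exact Equiv.swap_mul_self _ _

/-- `t z = z s` for the reflection `t` exchanging the values at `i`, `i+1` -/
theorem swap_mul_eq (z : W n) (i : Fin n) :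
    Equiv.swap (z i.castSucc) (z i.succ) * z = z * sr i := by
  unfold sr
  rw [Equiv.swap_apply_apply]
  group

/-- if `t z = z s_i` then `t` exchanges the values at `i, i+1` -/
theorem swap_eq_of (z : W n) (i : Fin n) {a b : Fin (n + 1)} (hab : a < b)
    (hz : z.symm a < z.symm b) (h : Equiv.swap a b * z = z * sr i) :
    z i.castSucc = a ∧ z i.succ = b := by
  have h1 : Equiv.swap a b (z i.castSucc) = z i.succ := by
    have := Equiv.Perm.ext_iff.1 h i.castSucc
    rw [Equiv.Perm.mul_apply, Equiv.Perm.mul_apply] at this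
    unfold sr at this
    rwa [Equiv.swap_apply_left] at this
  by_cases ha : z i.castSucc = a
  · rw [ha, Equiv.swap_apply_left] at h1
    exact ⟨ha, h1.symm⟩
  · by_cases hb : z i.castSucc = b
    · rw [hb, Equiv.swap_apply_right] at h1
      exfalso
      rw [← hb, h1, Equiv.symm_apply_apply, Equiv.symm_apply_apply] at hz
      rw [Fin.lt_def] at hz
      simp at hz
    · rw [Equiv.swap_apply_of_ne_of_ne ha hb] at h1
      exfalso
      have := z.injective h1
      rw [Fin.ext_iff] at this
      simp at this

theorem PERM_sr_val (i : Fin n) (x : Fin (n + 1)) : ((sr i x : Fin (n + 1)) : ℕ) =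
    if (x : ℕ) = i then (i : ℕ) + 1 else if (x : ℕ) = i + 1 then (i : ℕ) else x := by
  unfold sr
  by_cases h1 : x = i.castSucc
  · subst h1
    rw [Equiv.swap_apply_left]
    simp
  · by_cases h2 : x = i.succ
    · subst h2
      rw [Equiv.swap_apply_right]
      simp
    · rw [Equiv.swap_apply_of_ne_of_ne h1 h2, if_neg, if_neg]
      · intro h
        exact h2 (Fin.ext (by simpa using h))
      · intro h
        exact h1 (Fin.ext (by simpa using h))

theorem PERM_symm (z : W n) (i : Fin n) (a : Fin (n + 1)) :
    (z * sr i).symm a = sr i (z.symm a) := by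
  rw [Equiv.symm_apply_eq, Equiv.Perm.mul_apply]
  have : sr i (sr i (z.symm a)) = z.symm a := by
    rw [← Equiv.Perm.mul_apply, sr_mul_self]
    rfl
  rw [this, Equiv.apply_symm_apply]

/-- right multiplication by `s_i` keeps `t z > z` except for `t z = z s_i` -/
theorem up_mul_sr (z : W n) (i : Fin n) {a b : Fin (n + 1)} (hab : a < b)
    (hz : z.symm a < z.symm b) (h : Equiv.swap a b * z ≠ z * sr i) :
    (z * sr i).symm a < (z * sr i).symm b := by
  rw [PERM_symm, PERM_symm, Fin.lt_def, PERM_sr_val, PERM_sr_val]
  rw [Fin.lt_def] at hz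
  by_cases hc : z.symm a = i.castSucc ∧ z.symm b = i.succ
  · exfalso
    apply h
    have h1 : z i.castSucc = a := by rw [← hc.1, Equiv.apply_symm_apply]
    have h2 : z i.succ = b := by rw [← hc.2, Equiv.apply_symm_apply]
    rw [← swap_mul_eq, h1, h2]
  · have hc' : ¬ (((z.symm a : Fin (n + 1)) : ℕ) = i ∧ ((z.symm b : Fin (n + 1)) : ℕ) = i + 1) := by
      rintro ⟨h1, h2⟩
      exact hc ⟨Fin.ext (by simpa using h1), Fin.ext (by simpa using h2)⟩
    split_ifs <;> omega

/-- two different permutations which do not differ by the reflection `(a b)` on the left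
differ at some position by a pair of values different from `{a, b}` -/
theorem exists_sep {y z : W n} {a b : Fin (n + 1)} (h1 : y ≠ z) (h2 : y ≠ Equiv.swap a b * z) :
    ∃ i, y i ≠ z i ∧ ¬ (z i = a ∧ y i = b) ∧ ¬ (z i = b ∧ y i = a) := by
  by_contra hcon
  push Not at hcon
  have key : ∀ i, y i = z i ∨ (z i = a ∧ y i = b) ∨ (z i = b ∧ y i = a) := by
    intro i
    by_cases e : y i = z i
    · exact Or.inl e
    · by_cases e2 : z i = a ∧ y i = b
      · exact Or.inr (Or.inl e2)
      · exact Or.inr (Or.inr (hcon i e (fun h => fun h' => e2 ⟨h, h'⟩)))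
  set i := z.symm a with hi
  have hzi : z i = a := by rw [hi, Equiv.apply_symm_apply]
  by_cases hyi : y i = a
  · apply h1
    ext m
    congr 1
    rcases key m with h | ⟨h, h'⟩ | ⟨h, h'⟩
    · exact h
    · have hm : m = i := by rw [hi, ← h, Equiv.symm_apply_apply]
      rw [hm, hyi, hzi]
    · have hm : m = i := y.injective (by rw [h', hyi])
      rw [hm, hyi, hzi]
  · have hyb : y i = b ∧ b ≠ a := by
      rcases key i with h | ⟨h, h'⟩ | ⟨h, h'⟩
      · exact absurd (h.trans hzi) hyi
      · exact ⟨h', fun e => hyi (h'.trans e)⟩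
      · exact absurd h' hyi
    apply h2
    ext m
    congr 1
    rw [Equiv.Perm.mul_apply]
    by_cases ha : z m = a
    · have hm : m = i := by rw [hi, ← ha, Equiv.symm_apply_apply]
      rw [ha, Equiv.swap_apply_left, hm, hyb.1]
    · by_cases hb : z m = b
      · rw [hb, Equiv.swap_apply_right]
        rcases key m with h | ⟨h, h'⟩ | ⟨h, h'⟩
        · exfalso
          have hm : m = i := y.injective (by rw [h, hb, hyb.1])
          rw [hm, hzi] at hb
          exact hyb.2 hb.symm
        · exact absurd h ha
        · exact h'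
      · rw [Equiv.swap_apply_of_ne_of_ne ha hb]
        rcases key m with h | ⟨h, h'⟩ | ⟨h, h'⟩
        · exact h
        · exact absurd h ha
        · exact absurd h hb

end Pool.Agent.PCan
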