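import Pool.Agent.PCan.Perm

/-! MODULE PERM2 : length and reduced words. -/

open MvPolynomial

namespace Pool.Agent.PCan

variable {k : Type} [Field k] {n : ℕ}

namespace PERM2Aux

theorem sr_lt (i : Fin n) {p q : Fin (n + 1)} (h : p < q)
    (hne : ¬ (p = i.castSucc ∧ q = i.succ)) : sr i p < sr i q := by
  have hi1 : (i.castSucc : Fin (n + 1)).val = i.val := rfl
  have hi2 : (i.succ : Fin (n + 1)).val = i.val + 1 := rfl
  unfold sr
  rw [Equiv.swap_apply_def, Equiv.swap_apply_def]
  rw [Fin.lt_def] at h
  simp only [Fin.ext_iff] at hne ⊢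
  rw [Fin.lt_def]
  split_ifs <;> omega

theorem sr_sr (i : Fin n) (p : Fin (n + 1)) : sr i (sr i p) = p := by
  unfold sr
  exact Equiv.swap_apply_self _ _ _

theorem swap_swap (a b p : Fin (n + 1)) : Equiv.swap a b (Equiv.swap a b p) = p :=
  Equiv.swap_apply_self _ _ _

/-- the set of inversions -/
def inv (w : W n) : Finset (Fin (n + 1) × Fin (n + 1)) :=
  Finset.univ.filter
    (fun p : Fin (n + 1) × Fin (n + 1) => p.1 < p.2 ∧ w p.2 < w p.1)

theorem len_eq (w : W n) : len w = (inv w).card := rfl

theorem mem_inv (w : W n) (p q : Fin (n + 1)) : (p, q) ∈ inv w ↔ p < q ∧ w q < w p := by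
  unfold inv
  rw [Finset.mem_filter]
  exact ⟨fun h => h.2, fun h => ⟨Finset.mem_univ _, h⟩⟩

theorem eq_one_of_mono (z : W n) (hmono : StrictMono z) : z = 1 := by
  have h3 : (hmono.orderIsoOfSurjective _ z.surjective : Fin (n + 1) ≃o Fin (n + 1)) =
      OrderIso.refl _ := Subsingleton.elim _ _
  apply Equiv.ext
  intro p
  have h4 := congrArg (fun f : Fin (n + 1) ≃o Fin (n + 1) => f p) h3
  exact h4

end PERM2Aux

open PERM2Aux

theorem len_mul_sr (z : W n) (i : Fin n) (h : z i.castSucc < z i.succ) :
    len (z * sr i) = len z + 1 := by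
  classical
  have hii : (i.castSucc : Fin (n + 1)) < i.succ := by
    rw [Fin.lt_def]
    simp
  have hs1 : sr i i.castSucc = i.succ := by
    unfold sr
    exact Equiv.swap_apply_left _ _
  have hs2 : sr i i.succ = i.castSucc := by
    unfold sr
    exact Equiv.swap_apply_right _ _
  have key : inv (z * sr i) = insert (i.castSucc, i.succ) ((inv z).image
      (fun p => (sr i p.1, sr i p.2))) := by
    ext ⟨p, q⟩
    simp only [mem_inv, Finset.mem_insert,
      Finset.mem_image, Prod.mk.injEq, Prod.exists, Equiv.Perm.mul_apply]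
    constructor
    · rintro ⟨hpq, hz⟩
      by_cases hc : p = i.castSucc ∧ q = i.succ
      · exact Or.inl hc
      · exact Or.inr ⟨sr i p, sr i q, ⟨sr_lt i hpq hc, hz⟩, sr_sr i p, sr_sr i q⟩
    · rintro (⟨rfl, rfl⟩ | ⟨p', q', ⟨hpq, hz⟩, rfl, rfl⟩)
      · refine ⟨hii, ?_⟩
        rw [hs1, hs2]
        exact h
      · rw [sr_sr, sr_sr]
        refine ⟨sr_lt i hpq ?_, hz⟩
        rintro ⟨rfl, rfl⟩
        exact lt_asymm h hz
  rw [len_eq, len_eq, key, Finset.card_insert_of_notMem, Finset.card_image_of_injective]
  · intro p q hpq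
    simp only [Prod.mk.injEq] at hpq
    exact Prod.ext ((sr i).injective hpq.1) ((sr i).injective hpq.2)
  · simp only [Finset.mem_image, mem_inv, Prod.mk.injEq,
      Prod.exists, not_exists, not_and]
    intro p q hpq hp hq
    have hp2 : p = i.succ := by
      rw [← sr_sr i p, hp, hs1]
    have hq2 : q = i.castSucc := by
      rw [← sr_sr i q, hq, hs2]
    rw [hp2, hq2] at hpq
    exact lt_asymm hpq.1 hii

theorem len_mul_sr_desc (z : W n) (i : Fin n) (h : z i.succ < z i.castSucc) :
    len z = len (z * sr i) + 1 := by
  have hs1 : sr i i.castSucc = i.succ := by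
    unfold sr
    exact Equiv.swap_apply_left _ _
  have hs2 : sr i i.succ = i.castSucc := by
    unfold sr
    exact Equiv.swap_apply_right _ _
  have h2 : (z * sr i) i.castSucc < (z * sr i) i.succ := by
    rw [Equiv.Perm.mul_apply, Equiv.Perm.mul_apply, hs1, hs2]
    exact h
  have h3 := len_mul_sr (z * sr i) i h2
  rw [mul_assoc, sr_mul_self, mul_one] at h3
  exact h3

theorem len_asc_or_desc (z : W n) (i : Fin n) : z i.castSucc < z i.succ ∨
    z i.succ < z i.castSucc := by
  refine lt_or_gt_of_ne ?_
  intro h
  have := z.injective h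
  have h2 := congrArg Fin.val this
  simp at h2

theorem len_mul_sr_le (z : W n) (i : Fin n) : len (z * sr i) ≤ len z + 1 := by
  rcases len_asc_or_desc z i with h | h
  · exact (len_mul_sr z i h).le
  · have := len_mul_sr_desc z i h
    omega

theorem len_one : len (1 : W n) = 0 := by
  unfold len
  rw [Finset.card_eq_zero, Finset.filter_eq_empty_iff]
  rintro ⟨p, q⟩ _ ⟨h1, h2⟩
  exact lt_asymm h1 h2

theorem len_swap_mul (z : W n) {a b : Fin (n + 1)} (hab : a < b)
    (hz : z.symm a < z.symm b) : len z < len (Equiv.swap a b * z) := by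
  classical
  obtain ⟨i, hi⟩ : ∃ i, z.symm a = i := ⟨_, rfl⟩
  obtain ⟨j, hj⟩ : ∃ j, z.symm b = j := ⟨_, rfl⟩
  have hzi : z i = a := by rw [← hi]; simp
  have hzj : z j = b := by rw [← hj]; simp
  have hij : i < j := by rw [← hi, ← hj]; exact hz
  have hzij : z i < z j := by rw [hzi, hzj]; exact hab
  have hw : ∀ p, (Equiv.swap a b * z) p = z (Equiv.swap i j p) := by
    intro p
    rw [← hzi, ← hzj, Equiv.swap_apply_apply]
    simp
  have hsi : Equiv.swap i j i = j := Equiv.swap_apply_left _ _
  have hsj : Equiv.swap i j j = i := Equiv.swap_apply_right _ _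
  have hmem : (i, j) ∈ inv (Equiv.swap a b * z) := by
    rw [mem_inv]
    refine ⟨hij, ?_⟩
    rw [hw, hw, hsi, hsj]
    exact hzij
  rw [len_eq, len_eq, ← Finset.card_erase_add_one hmem, Nat.lt_succ_iff]
  refine Finset.card_le_card_of_injOn (fun p => if Equiv.swap i j p.1 < Equiv.swap i j p.2 then
    (Equiv.swap i j p.1, Equiv.swap i j p.2) else p) ?_ ?_
  · rintro ⟨p, q⟩ hpq
    rw [Finset.mem_coe, mem_inv] at hpq
    obtain ⟨h1, h2⟩ := hpq
    rw [Finset.mem_coe]
    dsimp only
    split_ifs with hs
    · rw [Finset.mem_erase, mem_inv]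
      refine ⟨?_, hs, ?_⟩
      rotate_left
      · rw [hw, hw]
        simp only [swap_swap]
        exact h2
      · simp only [ne_eq, Prod.mk.injEq, not_and]
        intro h3 h4
        have h5 : p = j := by rw [← swap_swap i j p, h3, hsi]
        have h6 : q = i := by rw [← swap_swap i j q, h4, hsj]
        rw [h5, h6] at h1
        exact lt_asymm h1 hij
    · have hne : ¬ (p = i ∧ q = j) := by
        rintro ⟨rfl, rfl⟩
        exact lt_asymm h2 hzij
      rw [Finset.mem_erase, mem_inv]
      refine ⟨?_, h1, ?_⟩
      rotate_left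
      · simp only [hw]
        by_cases hpi : p = i
        · have hqj : q ≠ j := fun h => hne ⟨hpi, h⟩
          have hqi : q ≠ i := by
            rintro rfl
            exact absurd h1 (by rw [hpi]; exact lt_irrefl _)
          rw [hpi, hsi, Equiv.swap_apply_of_ne_of_ne hqi hqj]
          rw [hpi] at h2
          exact lt_trans h2 hzij
        · by_cases hqj : q = j
          · have hpj : p ≠ j := by
              rintro rfl
              exact absurd h1 (by rw [hqj]; exact lt_irrefl _)
            rw [hqj, hsj, Equiv.swap_apply_of_ne_of_ne hpi hpj]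
            rw [hqj] at h2
            exact lt_trans hzij h2
          · exfalso
            apply hs
            by_cases hpj : p = j
            · have hqi : q ≠ i := by
                rintro rfl
                rw [hpj] at h1
                exact lt_asymm h1 hij
              rw [hpj, hsj, Equiv.swap_apply_of_ne_of_ne hqi hqj]
              rw [hpj] at h1
              exact lt_trans hij h1
            · rw [Equiv.swap_apply_of_ne_of_ne hpi hpj]
              by_cases hqi : q = i
              · rw [hqi, hsi]
                rw [hqi] at h1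
                exact lt_trans h1 hij
              · rw [Equiv.swap_apply_of_ne_of_ne hqi hqj]
                exact h1
      · simp only [ne_eq, Prod.mk.injEq]
        exact hne
  · rintro ⟨p, q⟩ hpq ⟨p', q'⟩ hpq' heq
    rw [Finset.mem_coe, mem_inv] at hpq hpq'
    simp only at heq
    split_ifs at heq with h1 h2 h2
    · simp only [Prod.mk.injEq] at heq
      rw [(Equiv.swap i j).injective heq.1, (Equiv.swap i j).injective heq.2]
    · exfalso
      simp only [Prod.mk.injEq] at heq
      apply h2
      rw [← heq.1, ← heq.2, swap_swap, swap_swap]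
      exact hpq.1
    · exfalso
      simp only [Prod.mk.injEq] at heq
      apply h1
      rw [heq.1, heq.2, swap_swap, swap_swap]
      exact hpq'.1
    · exact heq

theorem len_prd_le (w : List (Fin n)) : len (prd w) ≤ w.length := by
  induction w with
  | nil =>
    show len (1 : W n) ≤ 0
    rw [len_one]
  | cons i w ih =>
    show len (prd w * sr i) ≤ w.length + 1
    exact le_trans (len_mul_sr_le _ _) (Nat.succ_le_succ ih)

theorem exists_reduced (z : W n) : ∃ w : List (Fin n), prd w = z ∧ w.length = len z := by
  suffices H : ∀ N : ℕ, ∀ z : W n, len z = N → ∃ w : List (Fin n), prd w = z ∧ w.length = len z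
    from H _ z rfl
  intro N
  induction N with
  | zero =>
    intro z hz
    have hmono : StrictMono z := by
      rw [Fin.strictMono_iff_lt_succ]
      intro i
      rcases len_asc_or_desc z i with h | h
      · exact h
      · exfalso
        have := len_mul_sr_desc z i h
        omega
    have hz1 : z = 1 := eq_one_of_mono z hmono
    refine ⟨[], ?_, ?_⟩
    · rw [hz1]
      rfl
    · rw [hz]
      rfl
  | succ N ih =>
    intro z hz
    by_cases hd : ∃ i : Fin n, z i.succ < z i.castSucc
    · obtain ⟨i, hi⟩ := hd
      have h1 := len_mul_sr_desc z i hi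
      obtain ⟨w, hw1, hw2⟩ := ih (z * sr i) (by omega)
      refine ⟨i :: w, ?_, ?_⟩
      · show prd w * sr i = z
        rw [hw1, mul_assoc, sr_mul_self, mul_one]
      · rw [List.length_cons, hw2, h1]
    · exfalso
      have hmono : StrictMono z := by
        rw [Fin.strictMono_iff_lt_succ]
        intro i
        rcases len_asc_or_desc z i with h | h
        · exact h
        · exact absurd ⟨i, h⟩ hd
      have hz1 : z = 1 := eq_one_of_mono z hmono
      rw [hz1, len_one] at hz
      omega

/-- the tail of a reduced word is reduced, and the last letter goes up -/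
theorem reduced_tail {i : Fin n} {w : List (Fin n)} (h : (i :: w).length = len (prd (i :: w))) :
    w.length = len (prd w) ∧ (prd w) i.castSucc < (prd w) i.succ := by
  have h1 : w.length + 1 = len (prd w * sr i) := h
  have h2 := len_prd_le w
  rcases len_asc_or_desc (prd w) i with h3 | h3
  · have h4 := len_mul_sr (prd w) i h3
    exact ⟨by omega, h3⟩
  · have h4 := len_mul_sr_desc (prd w) i h3
    omega

end Pool.Agent.PCan
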