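import Pool.Agent.PCan.Perm2

/-! MODULE PERM3 : the products `piz`. -/

open MvPolynomial

namespace Pool.Agent.PCan

variable {k : Type} [Field k] {n : ℕ}

/-- the number of inverted pairs of values is the length -/
theorem PERM3_card (z : W n) : (Finset.univ.filter
    (fun p : Fin (n + 1) × Fin (n + 1) => p.1 < p.2 ∧ z.symm p.2 < z.symm p.1)).card = len z := by
  unfold len
  refine Finset.card_bij (fun p _ => (z.symm p.2, z.symm p.1)) ?_ ?_ ?_
  · intro p hp
    rw [Finset.mem_filter] at hp ⊢
    refine ⟨Finset.mem_univ _, hp.2.2, ?_⟩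
    change z (z.symm p.1) < z (z.symm p.2)
    rw [Equiv.apply_symm_apply, Equiv.apply_symm_apply]
    exact hp.2.1
  · intro p _ q _ h
    rw [Prod.mk.injEq] at h
    exact Prod.ext (z.symm.injective h.2) (z.symm.injective h.1)
  · intro q hq
    rw [Finset.mem_filter] at hq
    refine ⟨(z q.2, z q.1), ?_, ?_⟩
    · rw [Finset.mem_filter]
      refine ⟨Finset.mem_univ _, hq.2.2, ?_⟩
      change z.symm (z q.1) < z.symm (z q.2)
      rw [Equiv.symm_apply_apply, Equiv.symm_apply_apply]
      exact hq.2.1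
    · change (z.symm (z q.1), z.symm (z q.2)) = q
      rw [Equiv.symm_apply_apply, Equiv.symm_apply_apply]

/-- degree and recursion of `piz` -/
theorem piz_HZ (z : W n) : (piz z : R k n) ∈ HZ k n (len z) := by
  unfold piz
  have h := HZ_prod (k := k) (n := n) (Finset.univ.filter
    (fun p : Fin (n + 1) × Fin (n + 1) => p.1 < p.2 ∧ z.symm p.2 < z.symm p.1))
    (fun p => rt p.1 p.2) (fun _ => 1) (fun p _ => rt_HZ p.1 p.2)
  rw [Finset.sum_const, PERM3_card, nsmul_eq_mul, mul_one] at h
  exact h

theorem piz_ne (z : W n) : (piz z : R k n) ≠ 0 := by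
  unfold piz
  rw [Finset.prod_ne_zero_iff]
  intro p hp
  rw [Finset.mem_filter] at hp
  exact rt_ne (ne_of_lt hp.2.1)

theorem piz_mul_sr (z : W n) (i : Fin n) (h : z i.castSucc < z i.succ) :
    (piz (z * sr i) : R k n) = piz z * rt (z i.castSucc) (z i.succ) := by
  classical
  unfold piz
  have hset : (Finset.univ.filter (fun p : Fin (n + 1) × Fin (n + 1) =>
      p.1 < p.2 ∧ (z * sr i).symm p.2 < (z * sr i).symm p.1)) =
      insert (z i.castSucc, z i.succ) (Finset.univ.filter
        (fun p : Fin (n + 1) × Fin (n + 1) => p.1 < p.2 ∧ z.symm p.2 < z.symm p.1)) := by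
    ext ⟨a, b⟩
    rw [Finset.mem_insert, Finset.mem_filter, Finset.mem_filter, Prod.mk.injEq]
    change (_ ∧ a < b ∧ (z * sr i).symm b < (z * sr i).symm a) ↔
      _ ∨ (_ ∧ a < b ∧ z.symm b < z.symm a)
    rw [PERM_symm, PERM_symm, Fin.lt_def (a := sr i (z.symm b)), PERM_sr_val, PERM_sr_val,
      Fin.lt_def (a := z.symm b)]
    constructor
    · rintro ⟨h1, hab, h2⟩
      by_cases hc : ((z.symm a : Fin (n + 1)) : ℕ) = i ∧ ((z.symm b : Fin (n + 1)) : ℕ) = i + 1
      · left
        have e1 : z.symm a = i.castSucc := Fin.ext (by simpa using hc.1)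
        have e2 : z.symm b = i.succ := Fin.ext (by simpa using hc.2)
        exact ⟨by rw [← e1, Equiv.apply_symm_apply], by rw [← e2, Equiv.apply_symm_apply]⟩
      · right
        refine ⟨h1, hab, ?_⟩
        split_ifs at h2 <;> omega
    · rintro (⟨h1, h2⟩ | ⟨h1, hab, h2⟩)
      · subst h1
        subst h2
        refine ⟨Finset.mem_univ _, h, ?_⟩
        rw [Equiv.symm_apply_apply, Equiv.symm_apply_apply]
        simp
      · refine ⟨h1, hab, ?_⟩
        have hc : ¬ (((z.symm a : Fin (n + 1)) : ℕ) = i + 1 ∧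
            ((z.symm b : Fin (n + 1)) : ℕ) = i) := by
          rintro ⟨e1, e2⟩
          have e1' : z.symm a = i.succ := Fin.ext (by simpa using e1)
          have e2' : z.symm b = i.castSucc := Fin.ext (by simpa using e2)
          rw [← e1', ← e2', Equiv.apply_symm_apply, Equiv.apply_symm_apply] at h
          exact absurd hab (not_lt.2 h.le)
        split_ifs <;> omega
  rw [hset, Finset.prod_insert, mul_comm]
  rw [Finset.mem_filter]
  rintro ⟨-, -, h2⟩
  change z.symm (z i.succ) < z.symm (z i.castSucc) at h2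
  rw [Equiv.symm_apply_apply, Equiv.symm_apply_apply, Fin.lt_def] at h2
  simp at h2

theorem piz_one : (piz (1 : W n) : R k n) = 1 := by
  unfold piz
  rw [Finset.filter_eq_empty_iff.2, Finset.prod_empty]
  rintro p - ⟨h1, h2⟩
  exact absurd h1 (not_lt.2 (le_of_lt h2))

end Pool.Agent.PCan
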