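import Pool.Agent.PCan.Adj

/-! MODULE PHI : extension of functionals (uses (F1), (F2)).

Proof.  `z' = z`, `β = z(α_i)`, `t z = z s`.  Relation `G s p` on `L^z × R`:
`∃ m ∈ L, m_z = s ∧ β ∣ p - ψ(m_zs)`.  `gfree_lift` gives `φ : L^z → R` homogeneous of degree `d`
with `β ∣ φ(m_z) - ψ(m_zs)` for ALL `m ∈ L` (because `m_z = 0` implies `m_zs ∈ β L^zs` by (F2)).
For `h = (p, q) ∈ L'`: `p - q ∈ L α`, hence `β ∣ φ(p_z) - φ(q_z)` and `β ∣ φ(p_z) - ψ(q_zs)`.
`Φ(h_z) := (φ(p_z) - ψ(q_zs)) / β` (the z-component of `h` is `(p_z, q_zs)`).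
`Φ((0, m α)_z) = -ψ(zs(α_i) m_zs)/β = ψ(m_zs)`. -/

open MvPolynomial

namespace Pool.Agent.PCan

noncomputable section

variable {k : Type} [Field k] {n : ℕ}

/-- division of a functional by a polynomial -/
theorem PHI_div {N : Type} [AddCommGroup N] [Module (R k n) N] (f : N →ₗ[R k n] R k n)
    {β : R k n} (hβ : β ≠ 0) (h : ∀ s, β ∣ f s) :
    ∃ g : N →ₗ[R k n] R k n, ∀ s, f s = β * g s := by
  choose g hg using h
  refine ⟨⟨⟨g, ?_⟩, ?_⟩, hg⟩
  · intro s t
    apply mul_left_cancel₀ hβ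
    rw [← hg, map_add, mul_add, ← hg, ← hg]
  · intro r s
    apply mul_left_cancel₀ hβ
    rw [← hg, map_smul, RingHom.id_apply, smul_eq_mul, smul_eq_mul, hg s]
    ring

theorem PHI_res_HF {X : Type} (pr : X → W n) (z : W n) {j : ℤ} {m : X → R k n}
    (hm : m ∈ HF k n X j) : res pr z m ∈ HF k n X j := by
  intro e
  show (if pr e = z then m e else 0) ∈ HZ k n j
  split_ifs
  · exact hm e
  · exact (HZ k n j).zero_mem

theorem phi_exists (M : Obj k n) (i : Fin n) (z : W n) (hz : z i.castSucc < z i.succ) (d : ℤ)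
    (ψ : M.stalk (z * sr i) →ₗ[R k n] R k n)
    (hψ : ∀ (j : ℤ) (s : M.stalk (z * sr i)), s.1 ∈ HF k n M.X j → ψ s ∈ HZ k n (j + d)) :
    ∃ Φ : (M.toBim.tb i).stalk z →ₗ[R k n] R k n,
      (∀ (j : ℤ) (s : (M.toBim.tb i).stalk z), s.1 ∈ HF k n (M.X × Bool) j →
        Φ s ∈ HZ k n (j + (d - 1))) ∧
      ∀ m : M.L, Φ ((M.toBim.tb i).st z (rel M.toBim i m)) = ψ (M.st (z * sr i) m) := by
  classical
  set β : R k n := rt (z i.castSucc) (z i.succ) with hβ
  have hβ0 : β ≠ 0 := rt_ne (ne_of_lt hz)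
  have hzβ : (act z (al i) : R k n) = β := by
    rw [al, act_rt]
  have hβs : (act (z * sr i) (al i) : R k n) = -β := by
    rw [al, act_rt]
    have e1 : (z * sr i) i.castSucc = z i.succ := by
      rw [Equiv.Perm.mul_apply, sr, Equiv.swap_apply_left]
    have e2 : (z * sr i) i.succ = z i.castSucc := by
      rw [Equiv.Perm.mul_apply, sr, Equiv.swap_apply_right]
    rw [e1, e2, hβ, rt, rt]
    ring
  -- step 1
  set G : M.stalk z → R k n → Prop := fun s p =>
    ∃ m : M.L, M.st z m = s ∧ β ∣ p - ψ (M.st (z * sr i) m) with hG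
  obtain ⟨φ, hφG, hφd⟩ := gfree_lift (M.F1 z) d G
    ⟨0, by simp, by simp⟩
    (by
      rintro s s' p p' ⟨m, rfl, hm⟩ ⟨m', rfl, hm'⟩
      refine ⟨m + m', by simp, ?_⟩
      have h3 := dvd_add hm hm'
      rw [map_add, map_add]
      convert h3 using 1
      ring)
    (by
      rintro c s p ⟨m, rfl, hm⟩
      refine ⟨c • m, by simp, ?_⟩
      have h3 := Dvd.dvd.mul_left hm c
      rw [map_smul, map_smul, smul_eq_mul]
      convert h3 using 1
      ring)
    (by
      intro j s hs
      obtain ⟨m, hm, rfl⟩ := st_lift M.toBim z s j hs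
      exact ⟨ψ (M.st (z * sr i) m), hψ j _ (PHI_res_HF M.pr (z * sr i) hm), m, rfl, by simp⟩)
  -- step 2
  have hall : ∀ m : M.L, β ∣ φ (M.st z m) - ψ (M.st (z * sr i) m) := by
    intro m
    obtain ⟨m₀, h0, h1⟩ := hφG (M.st z m)
    have h2 : res M.pr z (m - m₀).1 = 0 := by
      have h3 := congrArg Subtype.val h0
      have h4 : res M.pr z m₀.1 = res M.pr z m.1 := h3
      rw [Submodule.coe_sub, map_sub, h4, sub_self]
    obtain ⟨m', hm', he⟩ := M.F2 (z i.castSucc) (z i.succ) z hz
      (by rw [Equiv.symm_apply_apply, Equiv.symm_apply_apply]; exact Fin.castSucc_lt_succ)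
      (m - m₀).1 (m - m₀).2 h2
    rw [swap_mul_eq] at he
    have h5 : M.st (z * sr i) (m - m₀) = β • M.st (z * sr i) ⟨m', hm'⟩ := Subtype.ext he
    have h6 : β ∣ ψ (M.st (z * sr i) m) - ψ (M.st (z * sr i) m₀) := by
      rw [← map_sub, ← map_sub, h5, map_smul, smul_eq_mul]
      exact dvd_mul_right _ _
    have h7 := dvd_sub h1 h6
    convert h7 using 1
    ring
  -- the stalk
  set S : Submodule (R k n) (M.X × Bool → R k n) :=
    (tbL M.toBim i).map (res (tbpr M.toBim i) z) with hS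
  have hne : z * sr i ≠ z := by
    intro h
    have h1 : (z * sr i) i.castSucc = z i.castSucc := by rw [h]
    rw [Equiv.Perm.mul_apply, sr, Equiv.swap_apply_left] at h1
    exact absurd (z.injective h1) (Fin.castSucc_lt_succ).ne'
  have hmulr : ∀ y : W n, y * sr i = z ↔ y = z * sr i := by
    intro y
    constructor
    · rintro rfl
      rw [mul_assoc, sr_mul_self, mul_one]
    · rintro rfl
      rw [mul_assoc, sr_mul_self, mul_one]
  have hval0 : ∀ (h : M.X × Bool → R k n) (e : M.X),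
      res (tbpr M.toBim i) z h (e, false) = if M.pr e = z then h (e, false) else 0 := by
    intro h e
    show (if tbpr M.toBim i (e, false) = z then h (e, false) else 0) = _
    simp [tbpr]
  have hval1 : ∀ (h : M.X × Bool → R k n) (e : M.X),
      res (tbpr M.toBim i) z h (e, true) = if M.pr e = z * sr i then h (e, true) else 0 := by
    intro h e
    show (if tbpr M.toBim i (e, true) = z then h (e, true) else 0) = _
    simp [tbpr, hmulr]
  -- the two parts
  have hA : ∀ s : S, (fun e => s.1 (e, false)) ∈ M.stalk z := by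
    rintro ⟨_, h, hh, rfl⟩
    refine ⟨_, tb_comp M.toBim i hh false, ?_⟩
    funext e
    show (if M.pr e = z then h (e, false) else 0) = res (tbpr M.toBim i) z h (e, false)
    rw [hval0]
  have hB : ∀ s : S, (fun e => s.1 (e, true)) ∈ M.stalk (z * sr i) := by
    rintro ⟨_, h, hh, rfl⟩
    refine ⟨_, tb_comp M.toBim i hh true, ?_⟩
    funext e
    show (if M.pr e = z * sr i then h (e, true) else 0) = res (tbpr M.toBim i) z h (e, true)
    rw [hval1]
  let A : S →ₗ[R k n] M.stalk z :=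
    { toFun := fun s => ⟨fun e => s.1 (e, false), hA s⟩
      map_add' := fun _ _ => rfl
      map_smul' := fun _ _ => rfl }
  let B : S →ₗ[R k n] M.stalk (z * sr i) :=
    { toFun := fun s => ⟨fun e => s.1 (e, true), hB s⟩
      map_add' := fun _ _ => rfl
      map_smul' := fun _ _ => rfl }
  have hAeq : ∀ (h : M.X × Bool → R k n) (hh : h ∈ tbL M.toBim i),
      A ⟨res (tbpr M.toBim i) z h, h, hh, rfl⟩ =
        M.st z ⟨fun e => h (e, false), tb_comp M.toBim i hh false⟩ := by
    intro h hh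
    apply Subtype.ext
    funext e
    show res (tbpr M.toBim i) z h (e, false) = if M.pr e = z then h (e, false) else 0
    rw [hval0]
  have hBeq : ∀ (h : M.X × Bool → R k n) (hh : h ∈ tbL M.toBim i),
      B ⟨res (tbpr M.toBim i) z h, h, hh, rfl⟩ =
        M.st (z * sr i) ⟨fun e => h (e, true), tb_comp M.toBim i hh true⟩ := by
    intro h hh
    apply Subtype.ext
    funext e
    show res (tbpr M.toBim i) z h (e, true) = if M.pr e = z * sr i then h (e, true) else 0
    rw [hval1]
  -- step 3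
  have hdvd : ∀ s : S, β ∣ (φ ∘ₗ A - ψ ∘ₗ B) s := by
    rintro ⟨_, h, hh, rfl⟩
    obtain ⟨m, hm, hme⟩ := hh.2
    show β ∣ φ (A _) - ψ (B _)
    rw [hAeq h hh, hBeq h hh]
    set p : M.L := ⟨fun e => h (e, false), tb_comp M.toBim i hh false⟩ with hp
    set q : M.L := ⟨fun e => h (e, true), tb_comp M.toBim i hh true⟩ with hq
    have h1 : M.st z p - M.st z q = β • M.st z ⟨m, hm⟩ := by
      apply Subtype.ext
      funext e
      show (if M.pr e = z then h (e, false) else 0) - (if M.pr e = z then h (e, true) else 0) =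
        β * (if M.pr e = z then m e else 0)
      by_cases he : M.pr e = z
      · rw [if_pos he, if_pos he, if_pos he, hme e]
        rw [show M.toBim.pr e = z from he, hzβ]
      · rw [if_neg he, if_neg he, if_neg he, sub_zero, mul_zero]
    have h2 : β ∣ φ (M.st z p) - φ (M.st z q) := by
      rw [← map_sub, h1, map_smul, smul_eq_mul]
      exact dvd_mul_right _ _
    have h3 := dvd_add h2 (hall q)
    convert h3 using 1
    ring
  obtain ⟨Φ, hΦ⟩ := PHI_div (φ ∘ₗ A - ψ ∘ₗ B) hβ0 hdvd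
  refine ⟨Φ, ?_, ?_⟩
  · intro j s hs
    have h1 : φ (A s) ∈ HZ k n (j + d) := hφd j (A s) (fun e => hs (e, false))
    have h2 : ψ (B s) ∈ HZ k n (j + d) := hψ j (B s) (fun e => hs (e, true))
    have h3 : β * Φ s ∈ HZ k n (1 + (j + (d - 1))) := by
      rw [← hΦ s, show (1 + (j + (d - 1)) : ℤ) = j + d by ring]
      exact (HZ k n (j + d)).sub_mem h1 h2
    exact HZ_div hβ0 (rt_HZ _ _) h3
  · intro m
    apply mul_left_cancel₀ hβ0
    have h1 := hΦ ⟨res (tbpr M.toBim i) z (rel M.toBim i m).1, (rel M.toBim i m).1,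
      (rel M.toBim i m).2, rfl⟩
    refine Eq.trans (Eq.symm h1) ?_
    have h1' : (φ ∘ₗ A - ψ ∘ₗ B) ⟨res (tbpr M.toBim i) z (rel M.toBim i m).1,
        (rel M.toBim i m).1, (rel M.toBim i m).2, rfl⟩ =
        φ (A ⟨res (tbpr M.toBim i) z (rel M.toBim i m).1, (rel M.toBim i m).1,
          (rel M.toBim i m).2, rfl⟩) -
        ψ (B ⟨res (tbpr M.toBim i) z (rel M.toBim i m).1, (rel M.toBim i m).1,
          (rel M.toBim i m).2, rfl⟩) := rfl
    rw [h1', hAeq _ (rel M.toBim i m).2, hBeq _ (rel M.toBim i m).2]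
    have h2 : M.st z ⟨fun e => (rel M.toBim i m).1 (e, false),
        tb_comp M.toBim i (rel M.toBim i m).2 false⟩ = 0 := by
      apply Subtype.ext
      funext e
      show (if M.pr e = z then (0 : R k n) else 0) = 0
      simp
    have h3 : M.st (z * sr i) ⟨fun e => (rel M.toBim i m).1 (e, true),
        tb_comp M.toBim i (rel M.toBim i m).2 true⟩ = -(β • M.st (z * sr i) m) := by
      apply Subtype.ext
      funext e
      show (if M.pr e = z * sr i then act (M.pr e) (al i) * m.1 e else 0) =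
        -(β * (if M.pr e = z * sr i then m.1 e else 0))
      by_cases he : M.pr e = z * sr i
      · rw [if_pos he, if_pos he, he, hβs]
        ring
      · rw [if_neg he, if_neg he, mul_zero, neg_zero]
    rw [h2, h3, map_zero, map_neg, map_smul, smul_eq_mul]
    ring

end

end Pool.Agent.PCan
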