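import Mathlib

/-! MODULE PRATT : primality certificates (Lucas / Pratt), checked by the kernel. -/

namespace Pool.Agent.PCan

/-- modular power: `f` = bound for the number of binary digits of the exponent -/
def pm (m : ℕ) : ℕ → ℕ → ℕ → ℕ
  | 0, _, _ => 1 % m
  | f + 1, b, e =>
    bif Nat.beq (e % 2) 1 then (pm m f (b * b % m) (e / 2) * b) % m
    else pm m f (b * b % m) (e / 2)

theorem pm_eq (m : ℕ) : ∀ f b e, e < 2 ^ f → pm m f b e = b ^ e % m
  | 0, b, e, h => by
    have : e = 0 := by simpa using h
    subst this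
    simp [pm]
  | f + 1, b, e, h => by
    have h2 : e / 2 < 2 ^ f := by
      rw [Nat.div_lt_iff_lt_mul (by norm_num)]
      rw [pow_succ] at h
      exact h
    have ih := pm_eq m f (b * b % m) (e / 2) h2
    have key : pm m f (b * b % m) (e / 2) = (b ^ 2) ^ (e / 2) % m := by
      rw [ih, ← Nat.pow_mod, pow_two]
    unfold pm
    rw [key]
    have he := Nat.div_add_mod e 2
    rcases Nat.mod_two_eq_zero_or_one e with h0 | h1
    · have hb : Nat.beq (e % 2) 1 = false := by rw [h0]; rfl
      rw [hb, cond_false, ← pow_mul]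
      congr 2
      omega
    · have hb : Nat.beq (e % 2) 1 = true := by rw [h1]; rfl
      rw [hb, cond_true, ← pow_mul, Nat.mod_mul_mod, ← pow_succ]
      congr 2
      omega

/-- the certificate check: `a` has order `p - 1` and the primes of `p - 1` are among `fs` -/
def pratt (p a : ℕ) (fs : List ℕ) : Bool :=
  Nat.ble 3 p && Nat.blt (p - 1) (2 ^ 160) && Nat.beq (pm p 160 a (p - 1)) 1 &&
    fs.all (fun q => !(Nat.beq (pm p 160 a ((p - 1) / q)) 1)) &&
    Nat.beq (pm (p - 1) 160 fs.prod 160) 0

theorem pratt_prime (p a : ℕ) (fs : List ℕ) (hfs : ∀ q ∈ fs, q.Prime)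
    (h : pratt p a fs = true) : p.Prime := by
  simp only [pratt, Bool.and_eq_true, List.all_eq_true, Bool.not_eq_true', Nat.blt_eq] at h
  obtain ⟨⟨⟨⟨h3, hb⟩, h1⟩, hq⟩, hd⟩ := h
  have h3' : 3 ≤ p := Nat.le_of_ble_eq_true h3
  have h1' := Nat.eq_of_beq_eq_true h1
  have hd' := Nat.eq_of_beq_eq_true hd
  rw [pm_eq _ _ _ _ hb] at h1'
  rw [pm_eq _ _ _ _ (by norm_num)] at hd'
  have cast1 : ∀ e : ℕ, a ^ e % p = 1 ↔ ((a : ZMod p)) ^ e = 1 := by
    intro e
    constructor
    · intro h
      have : ((a ^ e : ℕ) : ZMod p) = ((1 : ℕ) : ZMod p) := by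
        rw [ZMod.natCast_eq_natCast_iff]
        unfold Nat.ModEq
        rw [h, Nat.mod_eq_of_lt (by omega)]
      simpa using this
    · intro h
      have : ((a ^ e : ℕ) : ZMod p) = ((1 : ℕ) : ZMod p) := by simpa using h
      rw [ZMod.natCast_eq_natCast_iff] at this
      unfold Nat.ModEq at this
      rwa [Nat.mod_eq_of_lt (show 1 < p by omega)] at this
  refine lucas_primality p (a : ZMod p) ((cast1 _).1 h1') ?_
  intro q hqp hqd hc
  -- `q` is one of the listed primes
  have hdvd : q ∣ fs.prod ^ 160 := dvd_trans hqd (Nat.dvd_of_mod_eq_zero hd')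
  have hdvd2 : q ∣ fs.prod := hqp.dvd_of_dvd_pow hdvd
  obtain ⟨r, hr, hqr⟩ := (Nat.Prime.prime hqp).dvd_prod_iff.1 hdvd2
  have hqe : q = r := (Nat.prime_dvd_prime_iff_eq hqp (hfs r hr)).1 hqr
  subst hqe
  have h5 := hq q hr
  have hlt : (p - 1) / q < 2 ^ 160 :=
    lt_of_le_of_lt (Nat.div_le_self _ _) (by simpa using hb)
  rw [pm_eq _ _ _ _ hlt] at h5
  have h6 := (cast1 _).2 hc
  rw [h6] at h5
  simp at h5

/-- the characteristic in which the multiplicity drops -/
def pr1 : ℕ := 8342918934096960643924208594911

/-- the comparison characteristic -/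
def pr2 : ℕ := 326816170371340392573368795137

theorem prime_5303 : Nat.Prime 5303 := by norm_num
theorem prime_9697 : Nat.Prime 9697 := by norm_num
theorem prime_10607 : Nat.Prime 10607 := by norm_num
theorem prime_10733 : Nat.Prime 10733 := by norm_num
theorem prime_84857 : Nat.Prime 84857 := by norm_num
theorem prime_246982591 : Nat.Prime 246982591 :=
  pratt_prime _ 11 [2, 3, 5, 283, 9697] (by norm_num) (by decide +kernel)
theorem prime_3892899733 : Nat.Prime 3892899733 :=
  pratt_prime _ 2 [2, 3, 3823, 84857] (by norm_num) (by decide +kernel)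
theorem prime_513862764757 : Nat.Prime 513862764757 :=
  pratt_prime _ 5 [2, 3, 11, 3892899733]
    (by
      intro q hq
      simp only [List.mem_cons, List.not_mem_nil, or_false] at hq
      rcases hq with rfl | rfl | rfl | rfl
      · norm_num
      · norm_num
      · norm_num
      · exact prime_3892899733) (by decide +kernel)
theorem prime_3083176588543 : Nat.Prime 3083176588543 :=
  pratt_prime _ 5 [2, 3, 513862764757]
    (by simp [prime_513862764757, Nat.prime_two, Nat.prime_three]) (by decide +kernel)
theorem prime_90198303540781279 : Nat.Prime 90198303540781279 :=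
  pratt_prime _ 3 [2, 3, 53, 107, 10733, 246982591]
    (by
      intro q hq
      simp only [List.mem_cons, List.not_mem_nil, or_false] at hq
      rcases hq with rfl | rfl | rfl | rfl | rfl | rfl
      · norm_num
      · norm_num
      · norm_num
      · norm_num
      · exact prime_10733
      · exact prime_246982591) (by decide +kernel)

theorem pr1_prime : pr1.Prime :=
  pratt_prime _ 11 [2, 3, 5, 3083176588543, 90198303540781279]
    (by
      intro q hq
      simp only [List.mem_cons, List.not_mem_nil, or_false] at hq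
      rcases hq with rfl | rfl | rfl | rfl | rfl
      · norm_num
      · norm_num
      · norm_num
      · exact prime_3083176588543
      · exact prime_90198303540781279) (by decide +kernel)

theorem pr2_prime : pr2.Prime :=
  pratt_prime _ 7 [2, 3, 11] (by norm_num) (by decide +kernel)

theorem pr1_gt : Nat.factorial 28 < pr1 := by decide +kernel

theorem pr2_gt : Nat.factorial 28 < pr2 := by decide +kernel

end Pool.Agent.PCan
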