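import Pool.Agent.PCan.Homs

/-! MODULE REP : functionals are given by the trace form; transposes.

Proof of `rep`: `f_e := eul_e λ(r_e δ_e) / r_e` in `K`, where `r_e δ_e ∈ L` (`full`); then
`tau(f h) = λ(h)` (multiply `h` by `∏ r_e`), so `f ∈ L` by (T2). -/

open MvPolynomial

namespace Pool.Agent.PCan

noncomputable section

variable {k : Type} [Field k] {n : ℕ}

theorem REP_tau_single (M : Obj k n) (f : M.X → K k n) (e : M.X) (r : R k n) :
    tau M.eul (fun e' => f e' * io ((Pi.single e r : M.X → R k n) e')) =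
      f e * io r / io (M.eul e) := by
  unfold tau
  rw [Finset.sum_eq_single e]
  · dsimp only
    rw [Pi.single_eq_same]
  · intro b _ hb
    dsimp only
    rw [Pi.single_eq_of_ne hb, map_zero, mul_zero, zero_div]
  · intro h
    exact absurd (Finset.mem_univ _) h

/-- the trace form is nondegenerate -/
theorem tau_nondeg (M : Obj k n) (f : M.X → K k n)
    (h : ∀ h ∈ M.L, tau M.eul (fun e => f e * io (h e)) = 0) : f = 0 := by
  funext e
  obtain ⟨r, hr0, hr⟩ := M.full e
  have h1 := h _ hr
  rw [REP_tau_single, div_eq_zero_iff, mul_eq_zero] at h1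
  rcases h1 with (h1 | h1) | h1
  · exact h1
  · exact absurd h1 (io_ne hr0)
  · exact absurd h1 (io_ne (M.eul_ne e))

theorem rep (M : Obj k n) (l : M.L →ₗ[R k n] R k n) :
    ∃ f : M.L, ∀ h : M.L, tau M.eul (fun e => io (f.1 e * h.1 e)) = io (l h) := by
  classical
  choose r hr0 hr using M.full
  set f : M.X → K k n := fun e =>
    io (M.eul e) * io (l ⟨Pi.single e (r e), hr e⟩) / io (r e) with hf
  have key : ∀ h : M.L, tau M.eul (fun e => f e * io (h.1 e)) = io (l h) := by
    intro h
    have hP : (∏ e : M.X, r e) ≠ 0 := Finset.prod_ne_zero_iff.mpr (fun e _ => hr0 e)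
    have h1 : (∏ e : M.X, r e) • h = ∑ e : M.X, ((∏ e' ∈ Finset.univ.erase e, r e') * h.1 e) •
        (⟨Pi.single e (r e), hr e⟩ : M.L) := by
      apply Subtype.ext
      rw [Submodule.coe_sum]
      funext e0
      rw [Finset.sum_apply]
      rw [Finset.sum_eq_single e0]
      · show (∏ e : M.X, r e) * h.1 e0 = ((∏ e' ∈ Finset.univ.erase e0, r e') * h.1 e0) *
          (Pi.single e0 (r e0) : M.X → R k n) e0
        rw [Pi.single_eq_same, ← Finset.mul_prod_erase Finset.univ r (Finset.mem_univ e0)]
        ring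
      · intro b _ hb
        show ((∏ e' ∈ Finset.univ.erase b, r e') * h.1 b) *
          (Pi.single b (r b) : M.X → R k n) e0 = 0
        rw [Pi.single_eq_of_ne (Ne.symm hb), mul_zero]
      · intro h
        exact absurd (Finset.mem_univ _) h
    have h2 := congrArg (fun x => io (l x)) h1
    simp only [map_smul, map_sum, smul_eq_mul, map_mul] at h2
    apply mul_left_cancel₀ (io_ne hP)
    rw [h2]
    unfold tau
    rw [Finset.mul_sum]
    refine Finset.sum_congr rfl ?_
    intro e _
    have he : io (M.eul e) ≠ 0 := io_ne (M.eul_ne e)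
    have hre : io (r e) ≠ 0 := io_ne (hr0 e)
    rw [hf]
    dsimp only
    rw [← Finset.mul_prod_erase Finset.univ r (Finset.mem_univ e), map_mul]
    field_simp
  have hint : ∀ h ∈ M.L, IsR (tau M.eul (fun e => f e * io (h e))) := by
    intro h hh
    exact ⟨l ⟨h, hh⟩, (key ⟨h, hh⟩).symm⟩
  obtain ⟨g, hg, hgf⟩ := M.T2 f hint
  refine ⟨⟨g, hg⟩, ?_⟩
  intro h
  rw [← key h]
  congr 1
  funext e
  rw [map_mul, hgf e]

/-- degrees -/
theorem tau_deg (M : Obj k n) {f h : M.X → R k n} {a b : ℤ} (hf : f ∈ HF k n M.X a)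
    (hh : h ∈ HF k n M.X b) {r : R k n} (hr : tau M.eul (fun e => io (f e * h e)) = io r) :
    r ∈ HZ k n (a + b - M.D) := by
  classical
  have hP : (∏ e : M.X, M.eul e) ≠ 0 := Finset.prod_ne_zero_iff.mpr (fun e _ => M.eul_ne e)
  have h1 : (∏ e : M.X, M.eul e) * r =
      ∑ e : M.X, (f e * h e) * ∏ e' ∈ Finset.univ.erase e, M.eul e' := by
    apply io_inj
    rw [map_mul, ← hr, map_sum]
    unfold tau
    rw [Finset.mul_sum]
    refine Finset.sum_congr rfl ?_
    intro e _
    have he : io (M.eul e) ≠ 0 := io_ne (M.eul_ne e)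
    rw [← Finset.mul_prod_erase Finset.univ M.eul (Finset.mem_univ e), map_mul, map_mul]
    field_simp
  have h2 : ∏ e : M.X, M.eul e ∈ HZ k n (∑ _e : M.X, M.D) :=
    HZ_prod _ _ _ (fun e _ => M.eul_hom e)
  refine HZ_div hP h2 ?_
  rw [h1]
  refine Submodule.sum_mem _ ?_
  intro e _
  have h3 : ∏ e' ∈ Finset.univ.erase e, M.eul e' ∈ HZ k n (∑ _e ∈ Finset.univ.erase e, M.D) :=
    HZ_prod _ _ _ (fun e _ => M.eul_hom e)
  have h4 := HZ_mul (HZ_mul (hf e) (hh e)) h3
  have h5 : (∑ _e : M.X, M.D) + (a + b - M.D) = a + b + ∑ _e ∈ Finset.univ.erase e, M.D := by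
    rw [← Finset.add_sum_erase Finset.univ (fun _ : M.X => M.D) (Finset.mem_univ e)]
    ring
  rw [h5]
  exact h4

theorem rep_deg (M : Obj k n) (c : ℤ) (f : M.L) (h : ∀ (j : ℤ) (h : M.L),
    h.1 ∈ HF k n M.X j → ∃ r ∈ HZ k n (j + c), tau M.eul (fun e => io (f.1 e * h.1 e)) = io r) :
    f.1 ∈ HF k n M.X (c + M.D) := by
  intro e
  obtain ⟨r, hr0, hr⟩ := M.full e
  have h0 : ∃ j : ℕ, homogeneousComponent j r ≠ 0 := by
    by_contra hcon
    push Not at hcon
    apply hr0
    rw [← sum_homogeneousComponent r]
    exact Finset.sum_eq_zero (fun j _ => hcon j)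
  obtain ⟨j, hj⟩ := h0
  have h1 : (Pi.single e (homogeneousComponent j r) : M.X → R k n) ∈ M.L := by
    have h2 := M.graded' _ hr j
    have h3 : (fun e' => homogeneousComponent j ((Pi.single e r : M.X → R k n) e')) =
        (Pi.single e (homogeneousComponent j r) : M.X → R k n) := by
      funext e'
      by_cases he : e' = e
      · subst he
        rw [Pi.single_eq_same, Pi.single_eq_same]
      · rw [Pi.single_eq_of_ne he, Pi.single_eq_of_ne he, map_zero]
    rw [← h3]
    exact h2
  have h4 : (Pi.single e (homogeneousComponent j r) : M.X → R k n) ∈ HF k n M.X j := by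
    intro e'
    by_cases he : e' = e
    · subst he
      rw [Pi.single_eq_same]
      exact hc_HZ j r
    · rw [Pi.single_eq_of_ne he]
      exact (HZ k n j).zero_mem
  obtain ⟨s, hs, hs2⟩ := h j ⟨_, h1⟩ h4
  have h5 := REP_tau_single M (fun e => io (f.1 e)) e (homogeneousComponent j r)
  have h6 : tau M.eul (fun e' => io (f.1 e' *
      (Pi.single e (homogeneousComponent j r) : M.X → R k n) e')) =
      tau M.eul (fun e' => io (f.1 e') *
        io ((Pi.single e (homogeneousComponent j r) : M.X → R k n) e')) := by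
    congr 1
    funext e'
    rw [map_mul]
  have h7 : io s = io (f.1 e) * io (homogeneousComponent j r) / io (M.eul e) := by
    rw [← hs2, ← h5, ← h6]
  have he : io (M.eul e) ≠ 0 := io_ne (M.eul_ne e)
  have h8 : homogeneousComponent j r * f.1 e = s * M.eul e := by
    apply io_inj
    rw [map_mul, map_mul, h7]
    field_simp
  refine HZ_div hj (hc_HZ j r) ?_
  rw [h8]
  have h9 := HZ_mul hs (M.eul_hom e)
  rw [add_assoc] at h9
  exact h9

/-- the transpose of a homomorphism -/
theorem transpose (M M' : Obj k n) (d : ℤ) (b : M.L →ₗ[R k n] M'.L)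
    (hb : b ∈ Bim.Hom M.toBim M'.toBim d) :
    ∃ a ∈ Bim.Hom M'.toBim M.toBim (d + M.D - M'.D), ∀ (g : M'.L) (h : M.L),
      tau M.eul (fun e => io ((a g).1 e * h.1 e)) =
        tau M'.eul (fun e => io (g.1 e * (b h).1 e)) := by
  have hT : ∀ (g : M'.L) (h : M.L), ∃ r : R k n,
      io r = tau M'.eul (fun e => io (g.1 e * (b h).1 e)) := by
    intro g h
    exact M'.T1 g.1 g.2 (b h).1 (b h).2
  choose l hl using hT
  -- formal properties of tau
  have tadd : ∀ (N : Obj k n) (x y z : N.X → R k n),
      tau N.eul (fun e => io (x e * (y e + z e))) =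
        tau N.eul (fun e => io (x e * y e)) + tau N.eul (fun e => io (x e * z e)) := by
    intro N x y z
    unfold tau
    rw [← Finset.sum_add_distrib]
    refine Finset.sum_congr rfl ?_
    intro e _
    dsimp only
    rw [mul_add, map_add, add_div]
  have tsmul : ∀ (N : Obj k n) (c : R k n) (x y : N.X → R k n),
      tau N.eul (fun e => io (x e * (c * y e))) =
        io c * tau N.eul (fun e => io (x e * y e)) := by
    intro N c x y
    unfold tau
    rw [Finset.mul_sum]
    refine Finset.sum_congr rfl ?_
    intro e _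
    dsimp only
    rw [mul_left_comm, map_mul, mul_div_assoc]
  have tcomm : ∀ (N : Obj k n) (x y : N.X → R k n),
      tau N.eul (fun e => io (x e * y e)) = tau N.eul (fun e => io (y e * x e)) := by
    intro N x y
    congr 1
    funext e
    rw [mul_comm]
  let L : M'.L → (M.L →ₗ[R k n] R k n) := fun g =>
    { toFun := l g
      map_add' := by
        intro x y
        apply io_inj
        rw [map_add, hl, hl, hl, ← tadd]
        congr 1
        funext e
        rw [map_add]
        rfl
      map_smul' := by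
        intro c x
        apply io_inj
        rw [RingHom.id_apply, smul_eq_mul, map_mul, hl, hl, ← tsmul]
        congr 1
        funext e
        rw [map_smul]
        rfl }
  choose A hA using fun g : M'.L => rep M (L g)
  have hA' : ∀ (g : M'.L) (h : M.L), tau M.eul (fun e => io ((A g).1 e * h.1 e)) =
      tau M'.eul (fun e => io (g.1 e * (b h).1 e)) := by
    intro g h
    rw [hA g h]
    exact hl g h
  have uniq : ∀ x y : M.L, (∀ h : M.L, tau M.eul (fun e => io (h.1 e * x.1 e)) =
      tau M.eul (fun e => io (h.1 e * y.1 e))) → x = y := by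
    intro x y hxy
    have h0 := tau_nondeg M (fun e => io (x.1 e) - io (y.1 e)) (by
      intro h hh
      have h1 := hxy ⟨h, hh⟩
      have h2 : tau M.eul (fun e => (io (x.1 e) - io (y.1 e)) * io (h e)) =
          tau M.eul (fun e => io (h e * x.1 e)) - tau M.eul (fun e => io (h e * y.1 e)) := by
        unfold tau
        rw [← Finset.sum_sub_distrib]
        refine Finset.sum_congr rfl ?_
        intro e _
        dsimp only
        rw [map_mul, map_mul, ← sub_div]
        congr 1
        ring
      rw [h2, sub_eq_zero]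
      exact h1)
    apply Subtype.ext
    funext e
    have h1 := congrFun h0 e
    exact io_inj (sub_eq_zero.mp h1)
  let a : M'.L →ₗ[R k n] M.L :=
    { toFun := A
      map_add' := by
        intro g g'
        apply uniq
        intro h
        have h1 : tau M.eul (fun e => io (h.1 e * (A g + A g').1 e)) =
            tau M.eul (fun e => io (h.1 e * ((A g).1 e + (A g').1 e))) := rfl
        rw [h1, tadd, tcomm, tcomm M h.1 (A g).1, tcomm M h.1 (A g').1, hA', hA', hA',
          tcomm M' g.1, tcomm M' g'.1, ← tadd, tcomm]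
        rfl
      map_smul' := by
        intro c g
        apply uniq
        intro h
        have h1 : tau M.eul (fun e => io (h.1 e * (c • A g).1 e)) =
            tau M.eul (fun e => io (h.1 e * (c * (A g).1 e))) := rfl
        rw [RingHom.id_apply, h1, tsmul, tcomm, tcomm M h.1 (A g).1, hA', hA', tcomm M' g.1,
          ← tsmul, tcomm]
        rfl }
  refine ⟨a, ⟨?_, ?_⟩, hA'⟩
  · intro r g
    apply uniq
    intro h
    show tau M.eul (fun e => io (h.1 e * (A (M'.rmul r g)).1 e)) =
      tau M.eul (fun e => io (h.1 e * (M.rmul r (A g)).1 e))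
    have h1 : tau M.eul (fun e => io (h.1 e * (M.rmul r (A g)).1 e)) =
        tau M.eul (fun e => io ((A g).1 e * (M.rmul r h).1 e)) := by
      congr 1
      funext e
      show io (h.1 e * (act (M.pr e) r * (A g).1 e)) = io ((A g).1 e * (act (M.pr e) r * h.1 e))
      congr 1
      ring
    rw [h1, tcomm, hA', hA', hb.1]
    congr 1
    funext e
    show io (act (M'.pr e) r * g.1 e * (b h).1 e) = io (g.1 e * (act (M'.pr e) r * (b h).1 e))
    congr 1
    ring
  · intro j g hg
    have h1 : (A g).1 ∈ HF k n M.X ((j + d - M'.D) + M.D) := by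
      apply rep_deg
      intro i h hh
      refine ⟨l g h, ?_, ?_⟩
      · have h2 := tau_deg M' hg (hb.2 i h hh) (hl g h).symm
        have h3 : j + (i + d) - M'.D = i + (j + d - M'.D) := by ring
        rw [h3] at h2
        exact h2
      · rw [hA' g h, hl g h]
    have h2 : j + d - M'.D + M.D = j + (d + M.D - M'.D) := by ring
    rw [h2] at h1
    exact h1

end

end Pool.Agent.PCan
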