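import Pool.Agent.PCan.Perm3

/-! MODULE TB0 : the bimodule `M ⊗ B_s`, basic closure properties. -/

open MvPolynomial

namespace Pool.Agent.PCan

variable {k : Type} [Field k] {n : ℕ}

/-- points of `M ⊗ B_s` -/
def tbpr (M : Bim k n) (i : Fin n) : M.X × Bool → W n :=
  fun e => if e.2 = true then M.pr e.1 * sr i else M.pr e.1

/-- the functions `(u, v)` on `X × {0,1}` with `u, v ∈ L`, `u - v ∈ L · α_i` -/
def tbL (M : Bim k n) (i : Fin n) : Submodule (R k n) (M.X × Bool → R k n) where
  carrier := {h | (fun e => h (e, false)) ∈ M.L ∧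
    ∃ m ∈ M.L, ∀ e, h (e, false) - h (e, true) = act (M.pr e) (al i) * m e}
  add_mem' := by
    rintro f g ⟨hf, m, hm, hm'⟩ ⟨hg, l, hl, hl'⟩
    refine ⟨M.L.add_mem hf hg, m + l, M.L.add_mem hm hl, fun e => ?_⟩
    have h1 := hm' e
    have h2 := hl' e
    simp only [Pi.add_apply]
    linear_combination h1 + h2
  zero_mem' := by
    refine ⟨M.L.zero_mem, 0, M.L.zero_mem, fun e => ?_⟩
    simp
  smul_mem' := by
    rintro c f ⟨hf, m, hm, hm'⟩
    refine ⟨M.L.smul_mem c hf, c • m, M.L.smul_mem c hm, fun e => ?_⟩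
    have h1 := hm' e
    simp only [Pi.smul_apply, smul_eq_mul]
    linear_combination c * h1

theorem TB0_comp (M : Bim k n) (i : Fin n) {h : M.X × Bool → R k n} (hh : h ∈ tbL M i)
    (b : Bool) : (fun e => h (e, b)) ∈ M.L := by
  obtain ⟨h1, m, hm, hme⟩ := hh
  cases b
  · exact h1
  · have h2 := M.L.sub_mem h1 (M.right' m hm (al i))
    convert h2 using 1
    funext e
    have h3 := hme e
    simp only [Pi.sub_apply]
    linear_combination -h3

theorem tb_right (M : Bim k n) (i : Fin n) : ∀ m ∈ tbL M i, ∀ r : R k n,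
    (fun e => act (tbpr M i e) r * m e) ∈ tbL M i := by
  intro m hm r
  have hv := TB0_comp M i hm true
  obtain ⟨h1, l, hl, hle⟩ := hm
  obtain ⟨c, hc⟩ := act_swap_dvd (k := k) i.castSucc i.succ r
  refine ⟨?_, (fun e => act (M.pr e) r * l e) + (fun e => act (M.pr e) c * m (e, true)),
    M.L.add_mem (M.right' l hl r) (M.right' _ hv c), fun e => ?_⟩
  · have h2 := M.right' _ h1 r
    convert h2 using 1
    funext e
    simp [tbpr]
  · have h3 := hle e
    have h4 : act (M.pr e) r - act (M.pr e * sr i) r = act (M.pr e) (al i) * act (M.pr e) c := by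
      rw [act_mul, ← map_sub, ← map_mul]
      congr 1
    show act (M.pr e) r * m (e, false) - act (M.pr e * sr i) r * m (e, true) =
      act (M.pr e) (al i) * (act (M.pr e) r * l e + act (M.pr e) c * m (e, true))
    linear_combination (act (M.pr e) r) * h3 + m (e, true) * h4

theorem tb_graded (M : Bim k n) (i : Fin n) : ∀ m ∈ tbL M i, ∀ j : ℕ,
    (fun e => homogeneousComponent j (m e)) ∈ tbL M i := by
  rintro m ⟨h1, l, hl, hle⟩ j
  have hα : ∀ e : M.X, (act (M.pr e) (al i) : R k n) ∈ HZ k n ((1 : ℕ) : ℤ) := fun e =>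
    act_HZ _ (rt_HZ _ _)
  cases j with
  | zero =>
    refine ⟨M.graded' _ h1 0, 0, M.L.zero_mem, fun e => ?_⟩
    rw [← map_sub, hle e, hc_mul_lt (hα e) (l e) 0 one_pos]
    simp
  | succ j =>
    refine ⟨M.graded' _ h1 (j + 1), _, M.graded' l hl j, fun e => ?_⟩
    rw [← map_sub, hle e, hc_mul (hα e) (l e) j]

/-- `M ⊗ B_s` as a bimodule -/
def Bim.tb (M : Bim k n) (i : Fin n) : Bim k n where
  X := M.X × Bool
  pr := tbpr M i
  L := tbL M i
  right' := tb_right M i
  graded' := tb_graded M i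

/-- Euler classes of `M ⊗ B_s` -/
noncomputable def tbeul (M : Bim k n) (eul : M.X → R k n) (i : Fin n) : M.X × Bool → R k n :=
  fun e => if e.2 = true then -(eul e.1 * act (M.pr e.1) (al i))
    else eul e.1 * act (M.pr e.1) (al i)

/-- stalk ranks of `M ⊗ B_s` -/
def tbrk (rk : W n → ℤ → ℕ) (i : Fin n) : W n → ℤ → ℕ :=
  fun z j => if z i.castSucc < z i.succ then rk z j + rk (z * sr i) (j - 1)
    else rk (z * sr i) j + rk z (j - 1)

/-- the diagonal element `(h, h)` -/
theorem tb_diag (M : Bim k n) (i : Fin n) {h : M.X → R k n} (hh : h ∈ M.L) :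
    (fun e : M.X × Bool => h e.1) ∈ tbL M i := by
  refine ⟨hh, 0, M.L.zero_mem, fun e => ?_⟩
  simp

/-- the element `(h α, 0)` -/
theorem tb_left (M : Bim k n) (i : Fin n) {h : M.X → R k n} (hh : h ∈ M.L) :
    (fun e : M.X × Bool => if e.2 = true then 0 else act (M.pr e.1) (al i) * h e.1) ∈
      tbL M i := by
  refine ⟨?_, h, hh, fun e => ?_⟩
  · have h2 := M.right' h hh (al i)
    convert h2 using 1
    funext e
    simp
  · simp

/-- the element `(0, h α)` -/
theorem tb_rt (M : Bim k n) (i : Fin n) {h : M.X → R k n} (hh : h ∈ M.L) :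
    (fun e : M.X × Bool => if e.2 = true then act (M.pr e.1) (al i) * h e.1 else 0) ∈
      tbL M i := by
  refine ⟨?_, -h, M.L.neg_mem hh, fun e => ?_⟩
  · have h2 := M.L.zero_mem
    convert h2 using 1
    funext e
    simp
  · simp

/-- both components of an element are in `L` -/
theorem tb_comp (M : Bim k n) (i : Fin n) {h : M.X × Bool → R k n} (hh : h ∈ tbL M i)
    (b : Bool) : (fun e => h (e, b)) ∈ M.L := TB0_comp M i hh b

end Pool.Agent.PCan
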