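import Pool.Agent.PCan.TB0
import Pool.Agent.PCan.Free4
import Pool.Agent.PCan.Kill

/-! MODULE TBF1 : stalks of `M ⊗ B_s` are graded free.

Proof.  Let `z i < z (i+1)` (`zs > z`), `β = z(α_i) = rt (z i) (z (i+1))`, `t z = z s`.
By (F2), `m_z = 0` implies `m_zs ∈ β L^zs`.
The stalk of `M ⊗ B_s` at `z` consists of the `(u_z, v_zs)`, at `zs` of the `(u_zs, v_z)`.
In both cases: restriction to the points of `X` over `z` (false resp. true copy) has image `L^z`
and kernel `β L^zs` (in the other copy).
`(⊆)` if the z-part is 0: at `z`: `u_z = 0`, `u_zs ∈ β L^zs` by (F2), `v_zs = u_zs + β m_zs`.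
At `zs`: `v_z = 0`, `v_zs ∈ β L^zs`, `u_zs = v_zs - β m_zs`.
`(⊇)` `(u, v) = (0, m α)` resp. `(m α, 0)`.
Then `gfree_ext`, `gfree_smul`, `gfree_map`. -/

open MvPolynomial

namespace Pool.Agent.PCan

variable {k : Type} [Field k] {n : ℕ}

/-- embedding of the functions in one copy -/
noncomputable def TBF1_io (k : Type) [Field k] (n : ℕ) (X : Type) (b : Bool) :
    (X → R k n) →ₗ[R k n] (X × Bool → R k n) where
  toFun f := fun e => if e.2 = b then f e.1 else 0
  map_add' := by
    intro f g
    funext e
    by_cases h : e.2 = b <;> simp [h]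
  map_smul' := by
    intro r f
    funext e
    by_cases h : e.2 = b <;> simp [h]

theorem TBF1_mul (i : Fin n) (y z : W n) : y * sr i = z ↔ y = z * sr i := by
  constructor
  · rintro rfl
    rw [mul_assoc, sr_mul_self, mul_one]
  · rintro rfl
    rw [mul_assoc, sr_mul_self, mul_one]

theorem TBF1_sr_ne (i : Fin n) (z : W n) : z * sr i ≠ z := by
  intro h
  have h1 : sr i = (1 : W n) := by
    have := mul_left_cancel (a := z) (b := sr i) (c := 1) (by rw [h, mul_one])
    exact this
  have h2 : sr i i.castSucc = i.castSucc := by rw [h1]; rfl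
  rw [sr, Equiv.swap_apply_left] at h2
  exact absurd h2 (Fin.castSucc_lt_succ).ne'

theorem TBF1_pr (M : Bim k n) (i : Fin n) (z : W n) (b : Bool) (e : M.X) (b' : Bool) :
    tbpr M i (e, b') = (if b = true then z * sr i else z) ↔
      if b' = b then M.pr e = z else M.pr e = z * sr i := by
  cases b <;> cases b' <;> simp [tbpr, TBF1_mul]

theorem TBF1_val (M : Bim k n) (i : Fin n) (z : W n) (b : Bool) (h : M.X × Bool → R k n)
    (e : M.X) (b' : Bool) :
    res (tbpr M i) (if b = true then z * sr i else z) h (e, b') =
      if b' = b then (if M.pr e = z then h (e, b') else 0)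
      else (if M.pr e = z * sr i then h (e, b') else 0) := by
  show (if tbpr M i (e, b') = (if b = true then z * sr i else z) then h (e, b') else 0) = _
  rw [if_congr (TBF1_pr M i z b e b') rfl rfl]
  by_cases hb : b' = b <;> simp [hb]

theorem TBF1_main (M : Bim k n) (rk : W n → ℤ → ℕ) (h1 : PF1 M rk) (h2 : PF2 M) (i : Fin n)
    (z : W n) (hz : z i.castSucc < z i.succ) (b : Bool) :
    GFree ((tbL M i).map (res (tbpr M i) (if b = true then z * sr i else z)))
      (fun j => rk z j + rk (z * sr i) (j - 1)) := by
  classical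
  set z' : W n := if b = true then z * sr i else z with hz'
  set β : R k n := rt (z i.castSucc) (z i.succ) with hβ
  have hβs : (act (z * sr i) (al i) : R k n) = -β := by
    rw [al, act_rt]
    have e1 : (z * sr i) i.castSucc = z i.succ := by
      rw [Equiv.Perm.mul_apply, sr, Equiv.swap_apply_left]
    have e2 : (z * sr i) i.succ = z i.castSucc := by
      rw [Equiv.Perm.mul_apply, sr, Equiv.swap_apply_right]
    rw [e1, e2, hβ, rt, rt]
    ring
  have hβ0 : β ≠ 0 := rt_ne (ne_of_lt hz)
  -- (F2)
  have hF2 : ∀ m ∈ M.L, res M.pr z m = 0 → ∃ m' ∈ M.L, ∀ e, M.pr e = z * sr i →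
      m e = β * m' e := by
    intro m hm hm0
    obtain ⟨m', hm', he⟩ := h2 (z i.castSucc) (z i.succ) z hz
      (by rw [Equiv.symm_apply_apply, Equiv.symm_apply_apply]; exact Fin.castSucc_lt_succ) m hm hm0
    refine ⟨m', hm', fun e hpe => ?_⟩
    have h3 := congrFun he e
    rw [swap_mul_eq] at h3
    simpa [res, hpe] using h3
  set P : M.X × Bool → Prop := fun e => M.pr e.1 = z with hP
  have hval := fun h e b' => TBF1_val M i z b h e b'
  rw [← hz'] at hval
  have hne := TBF1_sr_ne i z
  -- the image in the points over `z`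
  have himg : ((tbL M i).map (res (tbpr M i) z')).map (resP P) = (M.stalk z).map (TBF1_io k n M.X b) := by
    ext f
    constructor
    · rintro ⟨_, ⟨h, hh, rfl⟩, rfl⟩
      refine ⟨res M.pr z (fun e => h (e, b)), ⟨_, tb_comp M i hh b, rfl⟩, ?_⟩
      funext ⟨e, b'⟩
      show (if b' = b then (if M.pr e = z then h (e, b) else 0) else 0) =
        if M.pr e = z then res (tbpr M i) z' h (e, b') else 0
      rw [hval]
      by_cases hb : b' = b
      · subst hb
        by_cases he : M.pr e = z <;> simp [he]
      · by_cases he : M.pr e = z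
        · simp [he, hb, Ne.symm hne]
        · simp [he, hb]
    · rintro ⟨_, ⟨m, hm, rfl⟩, rfl⟩
      refine ⟨res (tbpr M i) z' (fun e => m e.1), ⟨_, tb_diag M i hm, rfl⟩, ?_⟩
      funext ⟨e, b'⟩
      show (if M.pr e = z then res (tbpr M i) z' (fun e => m e.1) (e, b') else 0) =
        (if b' = b then (if M.pr e = z then m e else 0) else 0)
      rw [hval]
      by_cases hb : b' = b
      · subst hb
        by_cases he : M.pr e = z <;> simp [he]
      · by_cases he : M.pr e = z
        · simp [he, hb, Ne.symm hne]
        · simp [he, hb]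
  -- the kernel
  have hker : (tbL M i).map (res (tbpr M i) z') ⊓ LinearMap.ker (resP P) =
      ((M.stalk (z * sr i)).map (LinearMap.lsmul (R k n) (M.X → R k n) β)).map
        (TBF1_io k n M.X (!b)) := by
    ext f
    constructor
    · rintro ⟨⟨h, hh, rfl⟩, hf⟩
      have hf' : ∀ e, M.pr e = z → h (e, b) = 0 := by
        intro e he
        have h3 := congrFun (LinearMap.mem_ker.1 hf) (e, b)
        have h4 : (if M.pr e = z then res (tbpr M i) z' h (e, b) else 0) = (0 : R k n) := h3
        rw [hval] at h4
        simpa [he] using h4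
      -- the copy `b` over `zs`
      obtain ⟨m', hm', hm'e⟩ := hF2 (fun e => h (e, b)) (tb_comp M i hh b) (by
        funext e
        show (if M.pr e = z then h (e, b) else 0) = 0
        by_cases he : M.pr e = z
        · rw [if_pos he, hf' e he]
        · rw [if_neg he])
      obtain ⟨m, hm, hme⟩ := hh.2
      -- the copy `!b` over `zs`
      have hex : ∃ m'' ∈ M.L, ∀ e, M.pr e = z * sr i → h (e, !b) = β * m'' e := by
        cases b
        · refine ⟨m' + m, M.L.add_mem hm' hm, fun e he => ?_⟩
          have h5 := hme e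
          have h6 := hm'e e he
          rw [he, hβs] at h5
          simp only [Bool.not_false, Pi.add_apply]
          linear_combination h6 - h5
        · refine ⟨m' - m, M.L.sub_mem hm' hm, fun e he => ?_⟩
          have h5 := hme e
          have h6 := hm'e e he
          rw [he, hβs] at h5
          simp only [Bool.not_true, Pi.sub_apply]
          linear_combination h6 + h5
      obtain ⟨m'', hm'', hm''e⟩ := hex
      refine ⟨β • res M.pr (z * sr i) m'', ⟨_, ⟨m'', hm'', rfl⟩, rfl⟩, ?_⟩
      funext ⟨e, b'⟩
      show (if b' = !b then β * (if M.pr e = z * sr i then m'' e else 0) else 0) =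
        res (tbpr M i) z' h (e, b')
      rw [hval]
      by_cases hb : b' = b
      · subst hb
        by_cases he : M.pr e = z
        · simp [he, hf' e he]
        · simp [he]
      · have hb' : b' = !b := by
          cases b <;> cases b' <;> simp_all
        subst hb'
        by_cases he : M.pr e = z * sr i
        · simp [he, hm''e e he]
        · simp [he]
    · rintro ⟨_, ⟨_, ⟨m, hm, rfl⟩, rfl⟩, rfl⟩
      have hel : (fun e : M.X × Bool => if e.2 = !b then act (M.pr e.1) (al i) * (-m) e.1
          else 0) ∈ tbL M i := by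
        cases b
        · exact tb_rt M i (M.L.neg_mem hm)
        · have h3 := tb_left M i (M.L.neg_mem hm)
          convert h3 using 2 with e
          rcases e with ⟨e, b'⟩
          cases b' <;> simp
      have heq : res (tbpr M i) z' (fun e : M.X × Bool =>
          if e.2 = !b then act (M.pr e.1) (al i) * (-m) e.1 else 0) =
          TBF1_io k n M.X (!b) (LinearMap.lsmul (R k n) (M.X → R k n) β
            (res M.pr (z * sr i) m)) := by
        funext ⟨e, b'⟩
        rw [hval]
        show _ = (if b' = !b then β * (if M.pr e = z * sr i then m e else 0) else 0)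
        by_cases hb : b' = b
        · subst hb
          simp
        · have hb' : b' = !b := by
            cases b <;> cases b' <;> simp_all
          subst hb'
          by_cases he : M.pr e = z * sr i
          · simp [he, hβs]
          · simp [he]
      refine ⟨⟨_, hel, heq⟩, ?_⟩
      rw [SetLike.mem_coe, LinearMap.mem_ker]
      funext ⟨e, b'⟩
      show (if M.pr e = z then (if b' = !b then β * (if M.pr e = z * sr i then m e else 0) else 0)
        else 0) = 0
      by_cases he : M.pr e = z
      · simp [he, Ne.symm hne]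
      · simp [he]
  have hinj : ∀ b'' : Bool, ∀ f : M.X → R k n, TBF1_io k n M.X b'' f = 0 → f = 0 := by
    intro b'' f hf
    funext e
    have h3 := congrFun hf (e, b'')
    have h4 : (if b'' = b'' then f e else 0) = (0 : R k n) := h3
    simpa using h4
  have hdeg : ∀ b'' : Bool, ∀ (d : ℤ) (m : M.X → R k n), m ∈ HF k n M.X d →
      TBF1_io k n M.X b'' m ∈ HF k n (M.X × Bool) d := by
    intro b'' d m hm e
    show (if e.2 = b'' then m e.1 else 0) ∈ HZ k n d
    split_ifs
    · exact hm e.1
    · exact (HZ k n d).zero_mem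
  have hgr : ∀ m ∈ (tbL M i).map (res (tbpr M i) z'), ∀ j : ℕ,
      (fun e => homogeneousComponent j (m e)) ∈ (tbL M i).map (res (tbpr M i) z') := by
    rintro _ ⟨h, hh, rfl⟩ j
    refine ⟨_, tb_graded M i h hh j, ?_⟩
    funext e
    show (if tbpr M i e = z' then homogeneousComponent j (h e) else 0) =
      homogeneousComponent j (if tbpr M i e = z' then h e else 0)
    split_ifs <;> simp
  have : Finite (M.X × Bool) := inferInstance
  have hg1 : GFree (((tbL M i).map (res (tbpr M i) z')).map (resP P)) (rk z) := by
    rw [himg]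
    exact gfree_map (h1 z) _ (fun m _ hm => hinj b m hm) (hdeg b)
  have hg2 : GFree ((tbL M i).map (res (tbpr M i) z') ⊓ LinearMap.ker (resP P))
      (fun j => rk (z * sr i) (j - 1)) := by
    rw [hker]
    exact gfree_map (gfree_smul (h1 (z * sr i)) (rt_HZ _ _) hβ0) _
      (fun m _ hm => hinj (!b) m hm) (hdeg (!b))
  exact gfree_ext (X := M.X × Bool) P hgr hg1 hg2

theorem tb_F1 (M : Bim k n) (rk : W n → ℤ → ℕ) (h1 : PF1 M rk) (h2 : PF2 M) (i : Fin n) :
    PF1 (M.tb i) (tbrk rk i) := by
  intro z
  show GFree ((tbL M i).map (res (tbpr M i) z)) (tbrk rk i z)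
  by_cases hz : z i.castSucc < z i.succ
  · have h3 := TBF1_main M rk h1 h2 i z hz false
    have h4 : tbrk rk i z = fun j => rk z j + rk (z * sr i) (j - 1) := by
      funext j
      simp [tbrk, hz]
    rw [h4]
    simpa using h3
  · have e1 : (z * sr i) i.castSucc = z i.succ := by
      rw [Equiv.Perm.mul_apply, sr, Equiv.swap_apply_left]
    have e2 : (z * sr i) i.succ = z i.castSucc := by
      rw [Equiv.Perm.mul_apply, sr, Equiv.swap_apply_right]
    have hz2 : (z * sr i) i.castSucc < (z * sr i) i.succ := by
      rw [e1, e2]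
      refine lt_of_le_of_ne (not_lt.1 hz) fun h => ?_
      exact absurd (z.injective h) (Fin.castSucc_lt_succ).ne'
    have hss : z * sr i * sr i = z := by rw [mul_assoc, sr_mul_self, mul_one]
    have h3 := TBF1_main M rk h1 h2 i (z * sr i) hz2 true
    have h4 : tbrk rk i z = fun j => rk (z * sr i) j + rk (z * sr i * sr i) (j - 1) := by
      funext j
      simp [tbrk, hz, hss]
    rw [h4]
    simp only [if_true] at h3
    rw [hss] at h3 ⊢
    exact h3

end Pool.Agent.PCan
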