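import Pool.Agent.PCan.TB0
import Pool.Agent.PCan.Free4
import Pool.Agent.PCan.Kill

/-! MODULE TBF2 : (F2) for `M ⊗ B_s`.

Proof.  `(u, v) ∈ L'`, `u - v = m α`, `t z > z` (`t = (a b)`), z-component zero: `u_z = 0`, `v_zs = 0`.
Case `t z = z s`: `β = z(α_i) = rt a b` (`swap_eq_of`), `v_z = u_z - β m_z = -β m_z`,
`u_zs = v_zs + zs(α_i) m_zs = -β m_zs`: the tz-component is `-β` times the one of `(m, m)`.
Case `t z ≠ z s`: `t (z s) > z s` by `up_mul_sr`, so `u_tz ∈ α_t L^tz`, `v_tzs ∈ α_t L^tzs` by (F2) for
`M`; `β' = tz(α_i)`; `β' c ∈ α_t L'^tz` for the component `c` at `tz` because `(a α, 0)`, `(0, b α)` are in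
`L'`; now `gfree_div` (with `h1'`), `rt_prime`, `rt_dvd_rt`. -/

open MvPolynomial

namespace Pool.Agent.PCan

variable {k : Type} [Field k] {n : ℕ}

theorem TBF2_rt_swap (a b : Fin (n + 1)) : (rt b a : R k n) = - rt a b := by
  unfold rt
  ring

theorem TBF2_act_sr (w : W n) (i : Fin n) :
    act (w * sr i) (al i : R k n) = - act w (al i) := by
  unfold al
  rw [act_rt, act_rt]
  have h1 : (w * sr i) i.castSucc = w i.succ := by
    rw [Equiv.Perm.mul_apply]
    unfold sr
    rw [Equiv.swap_apply_left]
  have h2 : (w * sr i) i.succ = w i.castSucc := by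
    rw [Equiv.Perm.mul_apply]
    unfold sr
    rw [Equiv.swap_apply_right]
  rw [h1, h2, TBF2_rt_swap]

theorem TBF2_mul_sr (x z : W n) (i : Fin n) (h : x * sr i = z) : x = z * sr i := by
  rw [← h, mul_assoc, sr_mul_self, mul_one]

theorem TBF2_res_apply {X : Type} (pr : X → W n) (z : W n) (m : X → R k n) (e : X) :
    res pr z m e = if pr e = z then m e else 0 := rfl

theorem tb_F2 (M : Bim k n) (rk : W n → ℤ → ℕ) (h2 : PF2 M) (i : Fin n)
    (h1' : PF1 (M.tb i) (tbrk rk i)) : PF2 (M.tb i) := by
  intro a b z hab hz h hh hres
  have hne : a ≠ b := ne_of_lt hab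
  have hh0 : h ∈ tbL M i := hh
  have hv : (fun e => h (e, true)) ∈ M.L := tb_comp M i hh0 true
  obtain ⟨hu, m, hm, hm'⟩ := hh0
  have hz1 : ∀ x : M.X, M.pr x = z → h (x, false) = 0 := by
    intro x hx
    have h3 : (if tbpr M i (x, false) = z then h (x, false) else 0) = 0 :=
      congrFun hres (x, false)
    have h4 : tbpr M i (x, false) = z := by
      unfold tbpr
      simpa using hx
    rw [if_pos h4] at h3
    exact h3
  have hz2 : ∀ x : M.X, M.pr x = z * sr i → h (x, true) = 0 := by
    intro x hx
    have h3 : (if tbpr M i (x, true) = z then h (x, true) else 0) = 0 :=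
      congrFun hres (x, true)
    have h4 : tbpr M i (x, true) = z := by
      unfold tbpr
      simp only [if_true]
      rw [hx, mul_assoc, sr_mul_self, mul_one]
    rw [if_pos h4] at h3
    exact h3
  by_cases hcase : Equiv.swap a b * z = z * sr i
  · obtain ⟨ha, hb⟩ := swap_eq_of z i hab hz hcase
    have hzal : act z (al i : R k n) = rt a b := by
      unfold al
      rw [act_rt, ha, hb]
    refine ⟨-(fun e : M.X × Bool => m e.1), (M.tb i).L.neg_mem (tb_diag M i hm), ?_⟩
    funext e
    obtain ⟨x, c⟩ := e
    show (if tbpr M i (x, c) = Equiv.swap a b * z then h (x, c) else 0) =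
      rt a b * (if tbpr M i (x, c) = Equiv.swap a b * z then -(m x) else 0)
    have hmx := hm' x
    cases c with
    | false =>
      have hpr : tbpr M i (x, false) = M.pr x := by
        unfold tbpr
        simp
      rw [hpr]
      by_cases hx : M.pr x = Equiv.swap a b * z
      · rw [if_pos hx, if_pos hx]
        have hx2 : M.pr x = z * sr i := by rw [hx, hcase]
        rw [hz2 x hx2, hx2, TBF2_act_sr, hzal] at hmx
        linear_combination hmx
      · rw [if_neg hx, if_neg hx, mul_zero]
    | true =>
      have hpr : tbpr M i (x, true) = M.pr x * sr i := by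
        unfold tbpr
        simp
      rw [hpr]
      by_cases hx : M.pr x * sr i = Equiv.swap a b * z
      · rw [if_pos hx, if_pos hx]
        have hx2 : M.pr x = z := by
          rw [hcase] at hx
          exact mul_right_cancel hx
        rw [hz1 x hx2, hx2, hzal] at hmx
        linear_combination -hmx
      · rw [if_neg hx, if_neg hx, mul_zero]
  · have hup := up_mul_sr z i hab hz hcase
    obtain ⟨mu, hmu, hmu'⟩ := h2 a b z hab hz _ hu (by
      funext x
      rw [TBF2_res_apply]
      by_cases hx : M.pr x = z
      · rw [if_pos hx, hz1 x hx]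
        rfl
      · rw [if_neg hx]
        rfl)
    obtain ⟨mv, hmv, hmv'⟩ := h2 a b (z * sr i) hab hup _ hv (by
      funext x
      rw [TBF2_res_apply]
      by_cases hx : M.pr x = z * sr i
      · rw [if_pos hx, hz2 x hx]
        rfl
      · rw [if_neg hx]
        rfl)
    set β : R k n := act (Equiv.swap a b * z) (al i) with hβ
    have hndvd : ¬ (rt a b : R k n) ∣ β := by
      intro hd
      have hβ2 : β = rt ((Equiv.swap a b * z) i.castSucc) ((Equiv.swap a b * z) i.succ) := by
        rw [hβ]
        unfold al
        rw [act_rt]
      rw [hβ2] at hd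
      have hne2 : (Equiv.swap a b * z) i.castSucc ≠ (Equiv.swap a b * z) i.succ := by
        intro h5
        have := (Equiv.swap a b * z).injective h5
        exact (ne_of_lt (Fin.castSucc_lt_succ)) this
      rcases rt_dvd_rt hne hne2 hd with ⟨h5, h6⟩ | ⟨h5, h6⟩
      · apply hcase
        rw [Equiv.Perm.mul_apply] at h5 h6
        have h7 : z i.castSucc = b := by
          have := congrArg (Equiv.swap a b) h5
          rw [Equiv.swap_apply_left, Equiv.swap_apply_self] at this
          exact this.symm
        have h8 : z i.succ = a := by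
          have := congrArg (Equiv.swap a b) h6
          rw [Equiv.swap_apply_right, Equiv.swap_apply_self] at this
          exact this.symm
        rw [← swap_mul_eq z i, h7, h8, Equiv.swap_comm]
      · apply hcase
        rw [Equiv.Perm.mul_apply] at h5 h6
        have h7 : z i.succ = b := by
          have := congrArg (Equiv.swap a b) h5
          rw [Equiv.swap_apply_left, Equiv.swap_apply_self] at this
          exact this.symm
        have h8 : z i.castSucc = a := by
          have := congrArg (Equiv.swap a b) h6
          rw [Equiv.swap_apply_right, Equiv.swap_apply_self] at this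
          exact this.symm
        rw [← swap_mul_eq z i, h7, h8]
    have hel := tb_left M i hmu
    have her := tb_rt M i hmv
    set el : M.X × Bool → R k n :=
      fun e => if e.2 = true then 0 else act (M.pr e.1) (al i) * mu e.1 with hel0
    set er : M.X × Bool → R k n :=
      fun e => if e.2 = true then act (M.pr e.1) (al i) * mv e.1 else 0 with her0
    have hs : el - er ∈ (M.tb i).L := (M.tb i).L.sub_mem hel her
    have hex : ∃ s ∈ (M.tb i).stalk (Equiv.swap a b * z),
        β • res (M.tb i).pr (Equiv.swap a b * z) h = (rt a b : R k n) • s := by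
      refine ⟨res (M.tb i).pr (Equiv.swap a b * z) (el - er), Submodule.mem_map_of_mem hs, ?_⟩
      funext e
      obtain ⟨x, c⟩ := e
      show β * (if tbpr M i (x, c) = Equiv.swap a b * z then h (x, c) else 0) =
        rt a b * (if tbpr M i (x, c) = Equiv.swap a b * z then el (x, c) - er (x, c) else 0)
      cases c with
      | false =>
        have hpr : tbpr M i (x, false) = M.pr x := by
          unfold tbpr
          simp
        rw [hpr]
        by_cases hx : M.pr x = Equiv.swap a b * z
        · rw [if_pos hx, if_pos hx]
          have h9 := congrFun hmu' x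
          rw [Pi.smul_apply, TBF2_res_apply, TBF2_res_apply, if_pos hx, if_pos hx] at h9
          have h10 : el (x, false) - er (x, false) = β * mu x := by
            rw [hel0, her0, hβ, ← hx]
            simp
          rw [h10]
          simp only [smul_eq_mul] at h9
          rw [h9]
          ring
        · rw [if_neg hx, if_neg hx, mul_zero, mul_zero]
      | true =>
        have hpr : tbpr M i (x, true) = M.pr x * sr i := by
          unfold tbpr
          simp
        rw [hpr]
        by_cases hx : M.pr x * sr i = Equiv.swap a b * z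
        · rw [if_pos hx, if_pos hx]
          have hx2 : M.pr x = Equiv.swap a b * (z * sr i) := by
            rw [← mul_assoc]
            exact TBF2_mul_sr _ _ _ hx
          have h9 := congrFun hmv' x
          rw [Pi.smul_apply, TBF2_res_apply, TBF2_res_apply, if_pos hx2, if_pos hx2] at h9
          have h10 : el (x, true) - er (x, true) = β * mv x := by
            rw [hel0, her0]
            simp only [if_true]
            rw [hβ, ← hx, TBF2_act_sr]
            ring
          rw [h10]
          simp only [smul_eq_mul] at h9
          rw [h9]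
          ring
        · rw [if_neg hx, if_neg hx, mul_zero, mul_zero]
    obtain ⟨s, hs1, hs2⟩ := gfree_div (h1' (Equiv.swap a b * z)) (rt_prime hne) hndvd
      (Submodule.mem_map_of_mem hh) hex
    obtain ⟨m', hm1, hm2⟩ := hs1
    refine ⟨m', hm1, ?_⟩
    rw [hs2, ← hm2]

end Pool.Agent.PCan
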