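import Pool.Agent.PCan.TB0

/-! MODULE TBT : the trace form of `M ⊗ B_s` is integral and perfect; full rank.

`u - v = m α`, `(g, h) ∈ L'`, `g - h = l α`:  `τ'((u,v)(g,h)) = τ((u g - v h)/α) = τ(m g + v l)`.
Perfect: `f = (u, v)` with values in `K`, `m := (u - v)/α`; test with `(g, g)`: `m ∈ L`; test with
`(g α, 0)`: `u ∈ L`; so `(u, v) ∈ L'`. -/

open MvPolynomial

namespace Pool.Agent.PCan

variable {k : Type} [Field k] {n : ℕ}

theorem TBT_al_ne (M : Bim k n) (i : Fin n) (e : M.X) :
    act (M.pr e) (al i : R k n) ≠ 0 := by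
  intro h
  have h1 : (al i : R k n) = 0 := by
    apply act_inj (M.pr e)
    rw [h, map_zero]
  exact rt_ne (k := k) (n := n) (Fin.castSucc_lt_succ (i := i)).ne h1

/-- the trace of `M ⊗ B_s`: `τ'(f) = τ((u - v)/α)` -/
theorem tb_tau (M : Bim k n) (eul : M.X → R k n) (i : Fin n) (f : M.X × Bool → K k n) :
    tau (tbeul M eul i) f =
      tau eul (fun e => (f (e, false) - f (e, true)) / io (act (M.pr e) (al i))) := by
  unfold tau
  rw [Fintype.sum_prod_type]
  apply Finset.sum_congr rfl
  intro e _
  rw [Fintype.sum_bool]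
  have h1 : io (tbeul M eul i (e, true)) = -(io (eul e) * io (act (M.pr e) (al i : R k n))) := by
    unfold tbeul
    simp only [if_true, map_neg, map_mul]
  have h2 : io (tbeul M eul i (e, false)) = io (eul e) * io (act (M.pr e) (al i : R k n)) := by
    unfold tbeul
    simp only [Bool.false_eq_true, if_false, map_mul]
  rw [h1, h2, div_neg, div_div, mul_comm (io (act (M.pr e) (al i : R k n)))]
  ring

theorem TBT_isR_add {x y : K k n} (hx : IsR x) (hy : IsR y) : IsR (x + y) := by
  obtain ⟨r, rfl⟩ := hx
  obtain ⟨s, rfl⟩ := hy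
  exact ⟨r + s, map_add _ _ _⟩

theorem TBT_tau_add {X : Type} [Fintype X] (eul : X → R k n) (f g : X → K k n) :
    tau eul (fun e => f e + g e) = tau eul f + tau eul g := by
  unfold tau
  rw [← Finset.sum_add_distrib]
  apply Finset.sum_congr rfl
  intro e _
  rw [add_div]

theorem tb_T1 (M : Bim k n) (eul : M.X → R k n) (h : PT1 M eul) (i : Fin n) :
    PT1 (M.tb i) (tbeul M eul i) := by
  intro g hg h' hh'
  obtain ⟨hg1, m, hm, hm'⟩ := hg
  obtain ⟨hh1, l, hl, hl'⟩ := hh'
  have hg2 : (fun e => g (e, true)) ∈ M.L := tb_comp M i ⟨hg1, m, hm, hm'⟩ true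
  have key : tau (tbeul M eul i) (fun e => io (g e * h' e)) =
      tau eul (fun e => io (m e * h' (e, false))) + tau eul (fun e => io (g (e, true) * l e)) := by
    rw [tb_tau, ← TBT_tau_add]
    apply congrArg
    funext e
    have ha : io (act (M.pr e) (al i : R k n)) ≠ 0 := io_ne (TBT_al_ne M i e)
    rw [div_eq_iff ha, ← map_sub, ← map_add, ← map_mul]
    congr 1
    have h1 := hm' e
    have h2 := hl' e
    linear_combination h' (e, false) * h1 + g (e, true) * h2
  show IsR (tau (tbeul M eul i) (fun e => io (g e * h' e)))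
  rw [key]
  exact TBT_isR_add (h m hm _ hh1) (h _ hg2 l hl)

theorem tb_T2 (M : Bim k n) (eul : M.X → R k n) (h : PT2 M eul) (i : Fin n) :
    PT2 (M.tb i) (tbeul M eul i) := by
  intro f hf
  have hf' : ∀ g ∈ tbL M i, IsR (tau (tbeul M eul i) (fun e => f e * io (g e))) := hf
  have ha : ∀ e, io (act (M.pr e) (al i : R k n)) ≠ 0 := fun e => io_ne (TBT_al_ne M i e)
  obtain ⟨m, hm, hm'⟩ := h (fun e => (f (e, false) - f (e, true)) /
      io (act (M.pr e) (al i : R k n))) (by
    intro g hg
    have := hf' _ (tb_diag M i hg)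
    rw [tb_tau] at this
    convert this using 2
    funext e
    ring)
  obtain ⟨u, hu, hu'⟩ := h (fun e => f (e, false)) (by
    intro g hg
    have := hf' _ (tb_left M i hg)
    rw [tb_tau] at this
    convert this using 2
    funext e
    simp only [Bool.false_eq_true, if_false, if_true, map_zero, mul_zero, sub_zero, map_mul]
    rw [eq_div_iff (ha e)]
    ring)
  have hv : ∀ e, f (e, true) = io (u e - act (M.pr e) (al i : R k n) * m e) := by
    intro e
    have h1 : (f (e, false) - f (e, true)) / io (act (M.pr e) (al i : R k n)) = io (m e) := hm' e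
    have h2 : f (e, false) = io (u e) := hu' e
    rw [div_eq_iff (ha e)] at h1
    rw [map_sub, map_mul, ← h2]
    linear_combination -h1
  refine ⟨fun e => if e.2 = true then u e.1 - act (M.pr e.1) (al i : R k n) * m e.1 else u e.1,
    ?_, ?_⟩
  · refine ⟨?_, m, hm, fun e => ?_⟩
    · simp only [Bool.false_eq_true, if_false]
      exact hu
    · simp only [Bool.false_eq_true, if_false, if_true]
      ring
  · rintro ⟨e, b⟩
    cases b
    · simp only [Bool.false_eq_true, if_false]
      exact hu' e
    · simp only [if_true]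
      exact hv e

theorem tb_full (M : Bim k n) (h : PFull M) (i : Fin n) : PFull (M.tb i) := by
  rintro ⟨e, b⟩
  obtain ⟨r, hr, hr'⟩ := h e
  refine ⟨act (M.pr e) (al i : R k n) * r, mul_ne_zero (TBT_al_ne M i e) hr, ?_⟩
  cases b
  · have h1 := tb_left M i hr'
    have key : (Pi.single ((e, false) : M.X × Bool) (act (M.pr e) (al i : R k n) * r) :
        M.X × Bool → R k n) = fun x => if x.2 = true then 0 else
          act (M.pr x.1) (al i) * (Pi.single e r : M.X → R k n) x.1 := by
      funext x
      obtain ⟨x, b⟩ := x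
      cases b
      · by_cases hx : x = e
        · subst hx
          simp
        · have h2 : ((x, false) : M.X × Bool) ≠ (e, false) := fun h => hx (Prod.mk.inj h).1
          rw [Pi.single_eq_of_ne h2]
          simp [Pi.single_eq_of_ne hx]
      · have h2 : ((x, true) : M.X × Bool) ≠ (e, false) := fun h =>
          Bool.noConfusion (Prod.mk.inj h).2
        rw [Pi.single_eq_of_ne h2]
        simp
    show (Pi.single ((e, false) : M.X × Bool) (act (M.pr e) (al i : R k n) * r) :
        M.X × Bool → R k n) ∈ tbL M i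
    rw [key]
    exact h1
  · have h1 := tb_rt M i hr'
    have key : (Pi.single ((e, true) : M.X × Bool) (act (M.pr e) (al i : R k n) * r) :
        M.X × Bool → R k n) = fun x => if x.2 = true then
          act (M.pr x.1) (al i) * (Pi.single e r : M.X → R k n) x.1 else 0 := by
      funext x
      obtain ⟨x, b⟩ := x
      cases b
      · have h2 : ((x, false) : M.X × Bool) ≠ (e, true) := fun h =>
          Bool.noConfusion (Prod.mk.inj h).2
        rw [Pi.single_eq_of_ne h2]
        simp
      · by_cases hx : x = e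
        · subst hx
          simp
        · have h2 : ((x, true) : M.X × Bool) ≠ (e, true) := fun h => hx (Prod.mk.inj h).1
          rw [Pi.single_eq_of_ne h2]
          simp [Pi.single_eq_of_ne hx]
    show (Pi.single ((e, true) : M.X × Bool) (act (M.pr e) (al i : R k n) * r) :
        M.X × Bool → R k n) ∈ tbL M i
    rw [key]
    exact h1

theorem tb_eul_ne (M : Bim k n) (eul : M.X → R k n) (h : ∀ e, eul e ≠ 0) (i : Fin n) :
    ∀ e, tbeul M eul i e ≠ 0 := by
  rintro ⟨e, b⟩
  have h1 := mul_ne_zero (h e) (TBT_al_ne M i e)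
  unfold tbeul
  cases b
  · simpa using h1
  · simpa using h1

theorem tb_eul_hom (M : Bim k n) (eul : M.X → R k n) (D : ℤ) (h : ∀ e, eul e ∈ HZ k n D)
    (i : Fin n) : ∀ e, tbeul M eul i e ∈ HZ k n (D + 1) := by
  rintro ⟨e, b⟩
  have h1 : eul e * act (M.pr e) (al i : R k n) ∈ HZ k n (D + 1) :=
    HZ_mul (h e) (act_HZ (M.pr e) (rt_HZ _ _))
  unfold tbeul
  cases b
  · simpa using h1
  · simpa using h1

end Pool.Agent.PCan
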