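import Pool.Agent.PCan.Perm3

/-! MODULE UNI : a unitriangular family is linearly independent (pure combinatorics). -/

namespace Pool.Agent.PCan

variable {n : ℕ}

theorem UNI_len_le (y : W n) : len y ≤ Fintype.card (Fin (n + 1) × Fin (n + 1)) := by
  unfold len
  exact Finset.card_le_univ _

theorem UNI_sum (c : W n → W n → ℤ → ℕ) (μ : (W n × ℤ) →₀ ℕ) (y : W n) (i : ℤ)
    (S : Finset (W n × ℤ)) (hS : μ.support ⊆ S) :
    μ.sum (fun p a => a * c p.1 y (i - p.2)) = ∑ p ∈ S, μ p * c p.1 y (i - p.2) :=
  Finsupp.sum_of_support_subset μ hS _ fun p _ => by rw [zero_mul]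

theorem uni (c : W n → W n → ℤ → ℕ) (h1 : ∀ z i, c z z i = if i = 0 then 1 else 0)
    (h2 : ∀ z y, y ≠ z → len z ≤ len y → ∀ i, c z y i = 0) (μ ν : (W n × ℤ) →₀ ℕ)
    (h : ∀ (y : W n) (i : ℤ), μ.sum (fun p a => a * c p.1 y (i - p.2)) =
      ν.sum (fun p a => a * c p.1 y (i - p.2))) : μ = ν := by
  classical
  have key : ∀ N : ℕ, ∀ y : W n,
      Fintype.card (Fin (n + 1) × Fin (n + 1)) + 1 ≤ len y + N → ∀ i, μ (y, i) = ν (y, i) := by
    intro N
    induction N with
    | zero =>
      intro y hy i
      have := UNI_len_le y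
      omega
    | succ N ih =>
      intro y hy i
      set S : Finset (W n × ℤ) := insert (y, i) (μ.support ∪ ν.support) with hS
      have h3 := h y i
      rw [UNI_sum c μ y i S (fun p hp => Finset.mem_insert_of_mem (Finset.mem_union_left _ hp)),
        UNI_sum c ν y i S (fun p hp => Finset.mem_insert_of_mem (Finset.mem_union_right _ hp)),
        ← Finset.add_sum_erase S _ (Finset.mem_insert_self _ _),
        ← Finset.add_sum_erase S (fun p => ν p * c p.1 y (i - p.2))
          (Finset.mem_insert_self _ _)] at h3
      have h4 : ∑ p ∈ S.erase (y, i), μ p * c p.1 y (i - p.2) =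
          ∑ p ∈ S.erase (y, i), ν p * c p.1 y (i - p.2) := by
        refine Finset.sum_congr rfl fun p hp => ?_
        have hpne : p ≠ (y, i) := Finset.ne_of_mem_erase hp
        obtain ⟨z, j⟩ := p
        by_cases hz : z = y
        · subst hz
          have hj : i - j ≠ 0 := by
            intro hj
            apply hpne
            have : j = i := by omega
            rw [this]
          change μ (z, j) * c z z (i - j) = ν (z, j) * c z z (i - j)
          rw [h1, if_neg hj, mul_zero, mul_zero]
        · by_cases hl : len z ≤ len y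
          · change μ (z, j) * c z y (i - j) = ν (z, j) * c z y (i - j)
            rw [h2 z y (fun e => hz e.symm) hl, mul_zero, mul_zero]
          · rw [ih z (by omega) j]
      rw [h4] at h3
      have h5 := Nat.add_right_cancel h3
      have h6 : c y y (i - i) = 1 := by rw [h1, if_pos (sub_self i)]
      change μ (y, i) * c y y (i - i) = ν (y, i) * c y y (i - i) at h5
      rw [h6, mul_one, mul_one] at h5
      exact h5
  ext ⟨y, i⟩
  exact key (Fintype.card (Fin (n + 1) × Fin (n + 1)) + 1) y (by omega) i

end Pool.Agent.PCan
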