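import Pool.Agent.PCan.Form
import Pool.Agent.PCan.Uni

/-! MODULE TWO : comparison of two fields. -/

open MvPolynomial

namespace Pool.Agent.PCan

noncomputable section

variable {k : Type} [Field k] {k' : Type} [Field k'] {n : ℕ}

/-- `ch` of an object is `rk` (`gfree_finrank`) -/
theorem ch_obj (M : Obj k n) (z : W n) (i : ℤ) : M.ch z i = M.rk z i :=
  gfree_finrank (M.F1 z) i

/-- the ranks of `BS(w)` do not depend on the field -/
theorem rk_BS (w : List (Fin n)) : (BS k w).rk = (BS k' w).rk := by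
  induction w with
  | nil => rfl
  | cons i w ih =>
    show tbrk (BS k w).rk i = tbrk (BS k' w).rk i
    rw [ih]

theorem two_fields (F : Fam k n) (F' : Fam k' n)
    (h : ∀ (z y : W n) (i : ℤ), (F.Z z).C.ch y i = (F'.Z z).C.ch y i) (w : List (Fin n))
    (z : W n) (d : ℤ) : (BS k w).mult z d = (BS k' w).mult z d := by
  obtain ⟨μ, hμ1, hμ2⟩ := form F (good_obj (BS k w))
  obtain ⟨ν, hν1, hν2⟩ := form F' (good_obj (BS k' w))
  have key : μ = ν := by
    refine uni (fun z y i => (F.Z z).C.ch y i) (fun z i => ?_) (fun z y hy hl i => ?_) μ ν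
      (fun y i => ?_)
    · have hw' : (F.w z).length = len (prd (F.w z)) := by rw [F.hw, F.hl]
      have h3 := ch_top (F.w z) hw' (F.Z z) i
      rw [F.hw] at h3
      exact h3
    · have hw' : (F.w z).length = len (prd (F.w z)) := by rw [F.hw, F.hl]
      have h3 := ch_lower (F.w z) hw' (F.Z z) y (by rwa [F.hw]) (by rwa [F.hw]) i
      exact h3
    · rw [← hμ2 y i, ch_obj, rk_BS (k' := k'), ← ch_obj, hν2 y i]
      refine Finsupp.sum_congr (fun p _ => ?_)
      rw [h]
  rw [hμ1, hν1, key]

end

end Pool.Agent.PCan
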