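import Pool.Agent.PCan.Main

/-! The `p`-canonical basis element is well defined. -/

open MvPolynomial

namespace Pool.Agent.PCan

noncomputable section

variable {k : Type} [Field k] {n : ℕ}

theorem exists_fam (k : Type) [Field k] (n : ℕ) : Nonempty (Fam k n) := by
  choose w hw using fun z : W n => exists_reduced z
  have hZ : ∀ z, Nonempty (Bz k (w z)) := fun z =>
    bz_exists (w z) (by rw [(hw z).2, (hw z).1])
  choose Z _ using fun z => (hZ z).elim (fun a => (⟨a, trivial⟩ : ∃ _ : Bz k (w z), True))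
  exact ⟨⟨w, fun z => (hw z).1, fun z => (hw z).2, Z⟩⟩

/-- two choices of `B_z` have the same character -/
theorem ch_bz_unique (F : Fam k n) (w : List (Fin n)) (hw : w.length = len (prd w)) (Z : Bz k w)
    (y : W n) (i : ℤ) : Z.C.ch y i = (F.Z (prd w)).C.ch y i := by
  have hG : Good Z.C := good_retract (good_obj (BS k w)) Z.hι Z.hr Z.rι
  obtain ⟨μ, h1, h2⟩ := form F hG
  have hμ : μ = Finsupp.single (prd w, (0 : ℤ)) 1 := by
    ext ⟨z, d⟩
    rw [← h1 z d]
    by_cases hz : z = prd w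
    · subst hz
      rw [mult_top w hw Z d]
      by_cases hd : d = 0
      · subst hd
        simp
      · rw [if_neg hd, Finsupp.single_apply, if_neg]
        intro h
        exact hd (Prod.mk.inj h).2.symm
    · rw [mult_other w hw Z z hz d, Finsupp.single_apply, if_neg]
      intro h
      exact hz (Prod.mk.inj h).1.symm
  rw [h2 y i, hμ, Finsupp.sum_single_index (by simp)]
  simp

theorem isPCan_unique {z : W n} {c c' : W n → ℤ → ℕ} (h : IsPCan k z c) (h' : IsPCan k z c') :
    c = c' := by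
  obtain ⟨F⟩ := exists_fam k n
  obtain ⟨w, hw, hl, Z, hZ⟩ := bz_of_isPCan h
  obtain ⟨w', hw', hl', Z', hZ'⟩ := bz_of_isPCan h'
  have hz : ∀ {c : W n → ℤ → ℕ}, IsPCan k z c → ∀ y i, (∀ d : ℤ, i ≠ len z - len y - 2 * d) →
      c y i = 0 := by
    rintro c ⟨_, _, _, _, _, _, hc⟩ y i hi
    exact (hc y).2 i hi
  funext y i
  by_cases hi : ∃ d : ℤ, i = len z - len y - 2 * d
  · obtain ⟨d, rfl⟩ := hi
    rw [← hZ y d, ← hZ' y d]
    have e1 := ch_bz_unique F w (by rw [hl, hw]) Z y d
    have e2 := ch_bz_unique F w' (by rw [hl', hw']) Z' y d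
    rw [e1, e2, hw, hw']
  · have hi' : ∀ d : ℤ, i ≠ len z - len y - 2 * d := fun d hd => hi ⟨d, hd⟩
    rw [hz h y i hi', hz h' y i hi']

theorem existsUnique_isPCan (k : Type) [Field k] {n : ℕ} (x : W n) : ∃! c, IsPCan k x c := by
  obtain ⟨c, hc⟩ := exists_isPCan k x
  exact ⟨c, hc, fun c' hc' => isPCan_unique hc' hc⟩

end

end Pool.Agent.PCan
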