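import Pool.Agent.PCan.Free4

/-! MODULE UNIT0 : the unit bimodule. -/

open MvPolynomial

namespace Pool.Agent.PCan

noncomputable section

variable {k : Type} [Field k] {n : ℕ}

/-- the unit bimodule -/
def unitBim (k : Type) [Field k] (n : ℕ) : Bim k n where
  X := Unit
  pr := fun _ => 1
  L := ⊤
  right' := fun _ _ _ => Submodule.mem_top
  graded' := fun _ _ _ => Submodule.mem_top

/-- ranks of the unit object -/
def unitrk (n : ℕ) : W n → ℤ → ℕ := fun z j => if z = 1 ∧ j = 0 then 1 else 0

theorem UNIT0_mem (f : Unit → R k n) : f ∈ (unitBim k n).L :=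
  show f ∈ (⊤ : Submodule (R k n) (Unit → R k n)) from Submodule.mem_top

theorem unit_full : PFull (unitBim k n) :=
  fun _ => ⟨1, one_ne_zero, UNIT0_mem _⟩

theorem unit_hom : ∀ _ : Unit, (1 : R k n) ∈ HZ k n 0 := by
  intro _
  have h := C_HZ (k := k) (n := n) 1
  rwa [C_1] at h

theorem unit_F1 : PF1 (unitBim k n) (unitrk n) := by
  intro z
  show GFree ((⊤ : Submodule (R k n) (Unit → R k n)).map (res (fun _ => 1) z)) (unitrk n z)
  by_cases hz : z = 1
  · subst hz
    have h1 : (⊤ : Submodule (R k n) (Unit → R k n)).map (res (fun _ => 1) 1) = ⊤ := by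
      rw [Submodule.eq_top_iff']
      intro f
      refine ⟨f, Submodule.mem_top, ?_⟩
      funext e
      show (if (1 : W n) = 1 then f e else 0) = f e
      rw [if_pos rfl]
    rw [h1]
    refine ⟨Unit, inferInstance, fun _ _ => 1, fun _ => 0, fun _ => unit_hom, ?_, ?_, ?_⟩
    · rw [Fintype.linearIndependent_iff]
      intro g hg j
      have h2 := congrFun hg ()
      simpa using h2
    · rw [Submodule.eq_top_iff']
      intro f
      have h2 : f = f () • (fun _ => 1 : Unit → R k n) := by
        funext e
        simp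
      rw [h2]
      exact Submodule.smul_mem _ _ (Submodule.subset_span ⟨(), rfl⟩)
    · intro i
      by_cases hi : i = 0
      · subst hi
        simp [unitrk]
      · have h3 : IsEmpty {j : Unit // (0 : ℤ) = i} := ⟨fun j => hi j.2.symm⟩
        simp [unitrk, hi]
  · have h1 : (⊤ : Submodule (R k n) (Unit → R k n)).map (res (fun _ => 1) z) = ⊥ := by
      rw [Submodule.eq_bot_iff]
      rintro _ ⟨f, _, rfl⟩
      funext e
      show (if (1 : W n) = z then f e else 0) = 0
      rw [if_neg (Ne.symm hz)]
    have h2 : unitrk n z = fun _ => 0 := by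
      funext i
      simp [unitrk, hz]
    rw [h1, h2]
    exact gfree_bot

theorem unit_F2 : PF2 (unitBim k n) := by
  intro a b z hab hz m _ _
  refine ⟨0, Submodule.zero_mem _, ?_⟩
  have h1 : Equiv.swap a b * z ≠ 1 := by
    intro h
    have h2 : z = Equiv.swap a b := by
      have h3 := congrArg (fun w => Equiv.swap a b * w) h
      simpa [← mul_assoc] using h3
    subst h2
    rw [Equiv.symm_swap, Equiv.swap_apply_left, Equiv.swap_apply_right] at hz
    exact absurd hz (not_lt.2 hab.le)
  rw [map_zero, smul_zero]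
  funext e
  show (if (1 : W n) = Equiv.swap a b * z then m e else 0) = 0
  rw [if_neg (Ne.symm h1)]

theorem unit_T1 : PT1 (unitBim k n) (fun _ => 1) := by
  intro g _ h _
  refine ⟨g () * h (), ?_⟩
  show _ = ∑ e : Unit, io (g e * h e) / io (1 : R k n)
  simp [io]

theorem unit_T2 : PT2 (unitBim k n) (fun _ => 1) := by
  intro f hf
  change Unit → K k n at f
  obtain ⟨r, hr⟩ := hf (fun _ => 1) (UNIT0_mem _)
  refine ⟨fun _ => r, UNIT0_mem _, fun e => ?_⟩
  change Unit at e
  have h1 : tau (X := Unit) (fun _ => (1 : R k n)) (fun e => f e * io ((fun _ => 1 : Unit → R k n) e)) =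
      f e := by
    show ∑ e : Unit, (f e * io (1 : R k n)) / io (1 : R k n) = f e
    simp [io]
  rw [← h1]
  exact hr.symm

end

end Pool.Agent.PCan
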