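import Pool.Agent.PCan.TBF1
import Pool.Agent.PCan.TBF2
import Pool.Agent.PCan.TBT
import Pool.Agent.PCan.Unit0

/-! the unit object; Bott-Samelson objects (nothing to prove). -/

open MvPolynomial

namespace Pool.Agent.PCan

noncomputable section

variable {k : Type} [Field k] {n : ℕ}

/-- the unit object -/
def unitObj (k : Type) [Field k] (n : ℕ) : Obj k n where
  toBim := unitBim k n
  eul := fun _ => 1
  D := 0
  rk := unitrk n
  eul_ne := fun _ => one_ne_zero
  eul_hom := unit_hom
  full := unit_full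
  F1 := unit_F1
  F2 := unit_F2
  T1 := unit_T1
  T2 := unit_T2

/-- `M ⊗ B_s` as an object -/
def Obj.tb (M : Obj k n) (i : Fin n) : Obj k n where
  toBim := M.toBim.tb i
  eul := tbeul M.toBim M.eul i
  D := M.D + 1
  rk := tbrk M.rk i
  eul_ne := tb_eul_ne M.toBim M.eul M.eul_ne i
  eul_hom := tb_eul_hom M.toBim M.eul M.D M.eul_hom i
  full := tb_full M.toBim M.full i
  F1 := tb_F1 M.toBim M.rk M.F1 M.F2 i
  F2 := tb_F2 M.toBim M.rk M.F2 i (tb_F1 M.toBim M.rk M.F1 M.F2 i)
  T1 := tb_T1 M.toBim M.eul M.T1 i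
  T2 := tb_T2 M.toBim M.eul M.T2 i

/-- Bott-Samelson object of a word (the head of the list is the LAST letter) -/
def BS (k : Type) [Field k] {n : ℕ} : List (Fin n) → Obj k n
  | [] => unitObj k n
  | i :: w => (BS k w).tb i

/-- the top point: all letters used -/
def top (k : Type) [Field k] {n : ℕ} : (w : List (Fin n)) → (BS k w).X
  | [] => ()
  | _ :: w => (top k w, true)

end

end Pool.Agent.PCan
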