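import Pool.Agent.PCan.WPts
import Pool.Agent.PCan.Eco
import Pool.Agent.PCan.Costalk
import Pool.Agent.PCan.Pizmem

/-! MODULE WCOS : the costalk at the longest element (see also helper10's `Costalk.lean`). -/

open MvPolynomial

namespace Pool.Agent.PCan

noncomputable section

variable {k : Type} [Field k] {n : ℕ}

/-- homogeneous elements of the costalk are `piz z` times elements of the stalk
(`exists_reduced`, `eco` with `g = 1`; `(a 1)_z` is in the stalk) -/
theorem WCOS_div (M : Obj k n) (z : W n) (d : ℤ) (m : M.X → R k n) (hm : m ∈ M.costalk z)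
    (hd : m ∈ HF k n M.X (d + len z)) : ∃ s ∈ dg (M.stalk z) d, m = (piz z : R k n) • s := by
  obtain ⟨g, hg, hgd, hmg⟩ := costalk_div M z d m hm hd
  exact ⟨g, ⟨hg, hgd⟩, hmg⟩

/-- `piz z` times the stalk is in `L` for block words and `z` the longest element of the block:
`piz_mem`; there are no points over `t z` if `t z > z` (`WPTS_pr_lt`: such a `t z` moves a position
`< a`). -/
theorem WCOS_mem {a : ℕ} {w : List (Fin n)} (hw : ∀ i ∈ w, a ≤ (i : ℕ)) {z : W n}
    (hz : IsTop a z) {s : (BS k w).X → R k n} (hs : s ∈ (BS k w).stalk z) :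
    (piz z : R k n) • s ∈ (BS k w).L := by
  obtain ⟨m, hm, rfl⟩ := hs
  refine piz_mem (BS k w) z m hm ?_
  intro a' b' hab hz'
  funext e
  have hne : (BS k w).pr e ≠ Equiv.swap a' b' * z := by
    intro he
    by_cases hpa : ((z.symm a' : Fin (n + 1)) : ℕ) < a
    · have h1 := WPTS_pr_lt (k := k) hw e (z.symm a') hpa
      rw [he] at h1
      have h2 := hz.1 (z.symm a') hpa
      rw [Equiv.apply_symm_apply] at h2
      have h3 : (Equiv.swap a' b' * z) (z.symm a') = b' := by
        simp
      rw [h3, ← h2] at h1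
      exact hab.ne h1.symm
    · have h1 := hz.2 (z.symm a') (z.symm b') (not_lt.1 hpa) hz'
      rw [Equiv.apply_symm_apply, Equiv.apply_symm_apply] at h1
      exact absurd h1 (not_lt.2 hab.le)
  show (if (BS k w).pr e = Equiv.swap a' b' * z then m e else 0) = 0
  rw [if_neg hne]

end

end Pool.Agent.PCan
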