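import Pool.Agent.PCan.BSl

/-! MP_c7d2ee_al, word part: definitions.

A pattern `P` is a word with labels: letters `U` (used, outer), `Z` (not used, the letter between
the outer positions `< a` and the block positions `≥ a`), `F` (free, block letters).
The HEAD of the list is the LAST letter. -/

open MvPolynomial

namespace Pool.Agent.PCan

/-- labels of letters -/
inductive Lab | U | Z | F
  deriving DecidableEq

/-- patterns -/
abbrev Pat (n : ℕ) := List (Lab × Fin n)

section comb

variable {n : ℕ}

/-- the whole word -/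
def wd : Pat n → List (Fin n)
  | [] => []
  | (_, i) :: P => i :: wd P

/-- the free letters (the block word) -/
def fw : Pat n → List (Fin n)
  | [] => []
  | (Lab.U, _) :: P => fw P
  | (Lab.Z, _) :: P => fw P
  | (Lab.F, i) :: P => i :: fw P

/-- product of the letters `U` -/
def up : Pat n → W n
  | [] => 1
  | (Lab.U, i) :: P => up P * sr i
  | (Lab.Z, _) :: P => up P
  | (Lab.F, _) :: P => up P

/-- number of letters `U` -/
def nU : Pat n → ℕ
  | [] => 0
  | (Lab.U, _) :: P => nU P + 1
  | (Lab.Z, _) :: P => nU P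
  | (Lab.F, _) :: P => nU P

/-- number of letters `Z` -/
def nZ : Pat n → ℕ
  | [] => 0
  | (Lab.U, _) :: P => nZ P
  | (Lab.Z, _) :: P => nZ P + 1
  | (Lab.F, _) :: P => nZ P

/-- `reach P v`: the last position which the value `v` can have after the word `P` -/
def reach : Pat n → ℕ → ℕ
  | [], v => v
  | (_, i) :: P, v => if reach P v = (i : ℕ) then (i : ℕ) + 1 else reach P v

/-- admissible patterns with outer positions `0, ..., a - 1` -/
def Ok (a : ℕ) : Pat n → Prop
  | [] => True
  | (Lab.U, i) :: P => (i : ℕ) + 1 < a ∧ reach P (up P i.castSucc) ≤ i ∧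
      up P i.castSucc < up P i.succ ∧ Ok a P
  | (Lab.Z, i) :: P => (i : ℕ) + 1 = a ∧ reach P (up P i.castSucc) ≤ i ∧ Ok a P
  | (Lab.F, i) :: P => a ≤ (i : ℕ) ∧ Ok a P

/-- `z` fixes the positions `< a` and reverses the positions `≥ a` -/
def IsTop (a : ℕ) (z : W n) : Prop :=
  (∀ p : Fin (n + 1), (p : ℕ) < a → z p = p) ∧
    ∀ p q : Fin (n + 1), a ≤ (p : ℕ) → p < q → z q < z p

end comb

noncomputable section

variable (k : Type) [Field k] {n : ℕ}

/-- embedding of the points of the block word -/
def emb : (P : Pat n) → (BS k (fw P)).X → (BS k (wd P)).X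
  | [], e => e
  | (Lab.U, _) :: P, e => (emb P e, true)
  | (Lab.Z, _) :: P, e => (emb P e, false)
  | (Lab.F, _) :: P, e => (emb P e.1, e.2)

/-- the product over the letters `Z` of (outer variable) - (block variable) -/
def NZ : (P : Pat n) → (BS k (fw P)).X → R k n
  | [], _ => 1
  | (Lab.U, _) :: P, e => NZ P e
  | (Lab.Z, i) :: P, e => NZ P e * rt (up P i.castSucc) ((BS k (fw P)).pr e i.succ)
  | (Lab.F, _) :: P, e => NZ P e.1

/-- the element `(α, 0)` inserted at the letter number `s` (counted from the LAST letter,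
which has number 0) -/
def zeta : (w : List (Fin n)) → ℕ → (BS k w).X → R k n
  | [], _, _ => 0
  | i :: w, 0, e => if e.2 = true then 0 else act ((BS k w).pr e.1) (al i)
  | _ :: w, s + 1, e => zeta w s e.1

variable {k}

/-- specialisation of the trace at `x_p ↦ ξ p` -/
def ev (ξ : Fin (n + 1) → k) (M : Obj k n) (f : M.X → R k n) : k :=
  ∑ e, eval ξ (f e) / eval ξ (M.eul e)

/-- the Gram matrix of the local intersection form in degree 1 -/
def Emat (ξ : Fin (n + 1) → k) (P : Pat n) (z : W n) :
    Matrix (Fin (fw P).length) (Fin (fw P).length) k :=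
  fun s t => ev ξ (BS k (fw P)) (fun e => if (BS k (fw P)).pr e = z then
    piz z * NZ k P e * zeta k (fw P) s e * zeta k (fw P) t e else 0)

/-- transfer vectors: `St ξ P s t w` is the sum over the points `e` of the block word over `w` of
`NZ * zeta s * zeta t / eul`, specialised at `ξ` (`none`: no insertion) -/
def St (ξ : Fin (n + 1) → k) : Pat n → Option ℕ → Option ℕ → W n → k
  | [], none, none, w => if w = 1 then 1 else 0
  | [], _, _, _ => 0
  | (Lab.U, _) :: P, s, t, w => St ξ P s t w
  | (Lab.Z, i) :: P, s, t, w => (ξ (up P i.castSucc) - ξ (w i.succ)) * St ξ P s t w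
  | (Lab.F, i) :: P, some 0, some 0, w => (ξ (w i.castSucc) - ξ (w i.succ)) * St ξ P none none w
  | (Lab.F, _) :: P, some 0, none, w => St ξ P none none w
  | (Lab.F, _) :: P, none, some 0, w => St ξ P none none w
  | (Lab.F, _) :: P, some 0, some (t + 1), w => St ξ P none (some t) w
  | (Lab.F, _) :: P, some (s + 1), some 0, w => St ξ P (some s) none w
  | (Lab.F, i) :: P, none, none, w =>
      (St ξ P none none w + St ξ P none none (w * sr i)) / (ξ (w i.castSucc) - ξ (w i.succ))
  | (Lab.F, i) :: P, some (s + 1), none, w =>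
      (St ξ P (some s) none w + St ξ P (some s) none (w * sr i)) /
        (ξ (w i.castSucc) - ξ (w i.succ))
  | (Lab.F, i) :: P, none, some (t + 1), w =>
      (St ξ P none (some t) w + St ξ P none (some t) (w * sr i)) /
        (ξ (w i.castSucc) - ξ (w i.succ))
  | (Lab.F, i) :: P, some (s + 1), some (t + 1), w =>
      (St ξ P (some s) (some t) w + St ξ P (some s) (some t) (w * sr i)) /
        (ξ (w i.castSucc) - ξ (w i.succ))

end

end Pool.Agent.PCan
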