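import Pool.Agent.PCan.WPts

/-! MODULE WEMB : restriction of `BS(wd P)` along `emb`. -/

open MvPolynomial

namespace Pool.Agent.PCan

noncomputable section

variable {k : Type} [Field k] {n : ℕ}

theorem WEMB_act {a : ℕ} {P : Pat n} (hP : Ok a P) (e : (BS k (fw P)).X) (i : Fin n)
    (hi : a ≤ (i : ℕ)) : act ((BS k (wd P)).pr (emb k P e)) (al i : R k n) =
      act ((BS k (fw P)).pr e) (al i) := by
  have h0 : ∀ p : Fin (n + 1), a ≤ (p : ℕ) →
      (BS k (wd P)).pr (emb k P e) p = (BS k (fw P)).pr e p := by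
    intro p hp
    rw [WPTS_pr_emb hP e, Equiv.Perm.mul_apply]
    exact WPTS_up_ge hP _ (WPTS_pr_ge (WPTS_fw_ge hP) e p hp)
  have h1 := h0 i.castSucc (by simpa using hi)
  have h2 := h0 i.succ (by simp only [Fin.val_succ]; omega)
  simp only [act, al, rt, map_sub, rename_X, h1, h2]

/-- Induction.  `U`, `Z`: the two components of an element of `M ⊗ B_s` are in `L`.
`F`: `act (pr (emb e)) (al i) = act (pr e) (al i)` (`WPTS_pr_emb`, `up P` fixes the values `≥ a`). -/
theorem WEMB_res {a : ℕ} {P : Pat n} (hP : Ok a P) {h : (BS k (wd P)).X → R k n}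
    (hh : h ∈ (BS k (wd P)).L) : (fun e => h (emb k P e)) ∈ (BS k (fw P)).L := by
  induction P with
  | nil => exact hh
  | cons q P ih =>
    obtain ⟨l, i⟩ := q
    cases l with
    | U => exact ih hP.2.2.2 (tb_comp (BS k (wd P)).toBim i hh true)
    | Z => exact ih hP.2.2 (tb_comp (BS k (wd P)).toBim i hh false)
    | F =>
      obtain ⟨h1, m, hm, hm'⟩ := hh
      refine ⟨ih hP.2 h1, (fun e => m (emb k P e)), ih hP.2 hm, fun e => ?_⟩
      have h2 := hm' (emb k P e)
      rw [WEMB_act hP.2 e i hP.1] at h2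
      exact h2

/-- Induction.  `U`, `Z`: `tb_diag`.  `F`: `(u, v)`, `u - v = m α`: lift `u` and `m`. -/
theorem WEMB_ext {a : ℕ} {P : Pat n} (hP : Ok a P) {g : (BS k (fw P)).X → R k n}
    (hg : g ∈ (BS k (fw P)).L) : ∃ h ∈ (BS k (wd P)).L, ∀ e, h (emb k P e) = g e := by
  induction P with
  | nil => exact ⟨g, hg, fun e => rfl⟩
  | cons q P ih =>
    obtain ⟨l, i⟩ := q
    cases l with
    | U =>
      obtain ⟨h, hh, he⟩ := ih hP.2.2.2 hg
      exact ⟨_, tb_diag (BS k (wd P)).toBim i hh, he⟩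
    | Z =>
      obtain ⟨h, hh, he⟩ := ih hP.2.2 hg
      exact ⟨_, tb_diag (BS k (wd P)).toBim i hh, he⟩
    | F =>
      obtain ⟨h1, m, hm, hm'⟩ := hg
      obtain ⟨u, hu, hue⟩ := ih hP.2 h1
      obtain ⟨m2, hm2, hme⟩ := ih hP.2 hm
      refine ⟨fun e => if e.2 = true then
        u e.1 - act ((BS k (wd P)).pr e.1) (al i) * m2 e.1 else u e.1, ⟨?_, m2, hm2, ?_⟩, ?_⟩
      · exact hu
      · intro e
        simp
      · rintro ⟨e, b⟩
        cases b with
        | false => exact hue e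
        | true =>
          have h2 := hm' e
          show u (emb k P e) - act ((BS k (wd P)).pr (emb k P e)) (al i) * m2 (emb k P e) = g (e, true)
          rw [WEMB_act hP.2 e i hP.1, hue, hme, ← h2]
          ring

end

end Pool.Agent.PCan
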