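import Pool.Agent.PCan.WRing

/-! MODULE WEUL : Euler classes along `emb`. -/

open MvPolynomial

namespace Pool.Agent.PCan

noncomputable section

variable {k : Type} [Field k] {n : ℕ}

theorem WEUL_act_al (w : W n) (i : Fin n) :
    act w (al i : R k n) = rt (w i.castSucc) (w i.succ) := act_rt w _ _

/-- Induction.  `U`: factor `- act (up P * pr e) (al i) = - rt (up P i) (up P (i+1))`, `piz_mul_sr`.
`Z`: factor `act (up P * pr e) (al i) = rt (up P i) (pr e (i+1))`.
`F`: the factor is the same on both sides. -/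
theorem WEUL_emb {a : ℕ} {P : Pat n} (hP : Ok a P) (e : (BS k (fw P)).X) :
    (BS k (wd P)).eul (emb k P e) =
      (-1) ^ nU P * piz (up P) * (BS k (fw P)).eul e * NZ k P e := by
  induction P with
  | nil =>
    show (1 : R k n) = (-1) ^ 0 * piz 1 * 1 * 1
    rw [piz_one]
    ring
  | cons q P ih =>
    obtain ⟨lb, i⟩ := q
    cases lb with
    | U =>
      have hP' : Ok a P := hP.2.2.2
      have hi : (i : ℕ) + 1 < a := hP.1
      have hw := WPTS_fw_ge hP'
      show -((BS k (wd P)).eul (emb k P e) * act ((BS k (wd P)).pr (emb k P e)) (al i)) =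
        (-1) ^ (nU P + 1) * piz (up P * sr i) * (BS k (fw P)).eul e * NZ k P e
      rw [ih hP' e, WPTS_pr_emb hP' e, WEUL_act_al, Equiv.Perm.mul_apply, Equiv.Perm.mul_apply,
        WPTS_pr_lt hw e i.castSucc (by simp; omega), WPTS_pr_lt hw e i.succ (by simp; omega),
        piz_mul_sr (up P) i hP.2.2.1]
      ring
    | Z =>
      have hP' : Ok a P := hP.2.2
      have hi : (i : ℕ) + 1 = a := hP.1
      have hw := WPTS_fw_ge hP'
      show (BS k (wd P)).eul (emb k P e) * act ((BS k (wd P)).pr (emb k P e)) (al i) =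
        (-1) ^ nU P * piz (up P) * (BS k (fw P)).eul e *
          (NZ k P e * rt (up P i.castSucc) ((BS k (fw P)).pr e i.succ))
      rw [ih hP' e, WPTS_pr_emb hP' e, WEUL_act_al, Equiv.Perm.mul_apply, Equiv.Perm.mul_apply,
        WPTS_pr_lt hw e i.castSucc (by simp; omega),
        WPTS_up_ge hP' _ (WPTS_pr_ge hw e i.succ (by simp; omega))]
      ring
    | F =>
      have hP' : Ok a P := hP.2
      have hi : a ≤ (i : ℕ) := hP.1
      have hw := WPTS_fw_ge hP'
      obtain ⟨e, b⟩ := e
      have h1 : act ((BS k (wd P)).pr (emb k P e)) (al i : R k n) =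
          act ((BS k (fw P)).pr e) (al i) := by
        rw [WPTS_pr_emb hP' e, WEUL_act_al, WEUL_act_al, Equiv.Perm.mul_apply,
          Equiv.Perm.mul_apply,
          WPTS_up_ge hP' _ (WPTS_pr_ge hw e i.castSucc (by simp; omega)),
          WPTS_up_ge hP' _ (WPTS_pr_ge hw e i.succ (by simp; omega))]
      show (if b = true then
          -((BS k (wd P)).eul (emb k P e) * act ((BS k (wd P)).pr (emb k P e)) (al i))
        else (BS k (wd P)).eul (emb k P e) * act ((BS k (wd P)).pr (emb k P e)) (al i)) =
        (-1) ^ nU P * piz (up P) *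
          (if b = true then -((BS k (fw P)).eul e * act ((BS k (fw P)).pr e) (al i))
            else (BS k (fw P)).eul e * act ((BS k (fw P)).pr e) (al i)) * NZ k P e
      rw [ih hP' e, h1]
      split_ifs
      · ring
      · ring

/-- values of the Euler classes of a block word at a point with distinct block coordinates -/
theorem WEUL_eval_ne {a : ℕ} {w : List (Fin n)} (hw : ∀ i ∈ w, a ≤ (i : ℕ))
    (ξ : Fin (n + 1) → k)
    (hξ : ∀ p q : Fin (n + 1), a ≤ (p : ℕ) → a ≤ (q : ℕ) → ξ p = ξ q → p = q)
    (e : (BS k w).X) : eval ξ ((BS k w).eul e) ≠ 0 := by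
  induction w with
  | nil =>
    show eval ξ (1 : R k n) ≠ 0
    rw [map_one]
    exact one_ne_zero
  | cons i w ih =>
    have hw' : ∀ j ∈ w, a ≤ (j : ℕ) := fun j hj => hw j (List.mem_cons_of_mem _ hj)
    have hi : a ≤ (i : ℕ) := hw i List.mem_cons_self
    obtain ⟨e, b⟩ := e
    have h1 : eval ξ ((BS k w).eul e * act ((BS k w).pr e) (al i)) ≠ 0 := by
      rw [map_mul]
      refine mul_ne_zero (ih hw' e) ?_
      rw [WEUL_act_al]
      unfold rt
      rw [map_sub, eval_X, eval_X, sub_ne_zero]
      intro h2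
      have h3 := hξ _ _ (WPTS_pr_ge hw' e i.castSucc (by simp; omega))
        (WPTS_pr_ge hw' e i.succ (by simp; omega)) h2
      have h4 := ((BS k w).pr e).injective h3
      have h5 := congrArg Fin.val h4
      simp at h5
    show eval ξ (if b = true then -((BS k w).eul e * act ((BS k w).pr e) (al i))
      else (BS k w).eul e * act ((BS k w).pr e) (al i)) ≠ 0
    split_ifs
    · rw [map_neg]
      exact neg_ne_zero.mpr h1
    · exact h1

end

end Pool.Agent.PCan
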