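import Pool.Agent.PCan.WPts

/-! MODULE WFOR : the outer letters are forced. -/

open MvPolynomial

namespace Pool.Agent.PCan

noncomputable section

variable {k : Type} [Field k] {n : ℕ}

theorem WFOR_pr_cons (i : Fin n) (w : List (Fin n)) (e : (BS k w).X) (b : Bool) :
    (BS k (i :: w)).pr ((e, b) : (BS k w).X × Bool) =
      if b = true then (BS k w).pr e * sr i else (BS k w).pr e := rfl

theorem WFOR_sr_castSucc (i : Fin n) : sr i i.castSucc = i.succ := Equiv.swap_apply_left _ _

theorem WFOR_sr_succ (i : Fin n) : sr i i.succ = i.castSucc := Equiv.swap_apply_right _ _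

theorem WFOR_sr_ne (i : Fin n) (p : Fin (n + 1)) (h1 : (p : ℕ) ≠ i) (h2 : (p : ℕ) ≠ (i : ℕ) + 1) :
    sr i p = p := by
  apply Equiv.swap_apply_of_ne_of_ne
  · intro h
    exact h1 (by rw [h]; rfl)
  · intro h
    exact h2 (by rw [h]; rfl)

theorem WFOR_sr_invol (i : Fin n) (p : Fin (n + 1)) : sr i (sr i p) = p :=
  Equiv.swap_apply_self _ _ p

theorem WFOR_sr_symm (i : Fin n) : (sr i).symm = sr i := Equiv.symm_swap _ _

theorem WFOR_cases (x : Lab × Fin n) (P : Pat n) (e : (BS k (wd (x :: P))).X) :
    ∃ (e1 : (BS k (wd P)).X) (b : Bool), e = ((e1, b) : (BS k (wd P)).X × Bool) :=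
  ⟨(show (BS k (wd P)).X × Bool from e).1, (show (BS k (wd P)).X × Bool from e).2, rfl⟩

/-- no value can be farther to the right than `reach` -/
theorem WFOR_reach (P : Pat n) (e : (BS k (wd P)).X) (v : Fin (n + 1)) :
    (((BS k (wd P)).pr e).symm v : ℕ) ≤ reach P v := by
  induction P with
  | nil => exact le_of_eq rfl
  | cons x P ih =>
    obtain ⟨l, i⟩ := x
    obtain ⟨e, b, rfl⟩ := WFOR_cases (l, i) P e
    have h := ih e
    set q : Fin (n + 1) := ((BS k (wd P)).pr e).symm v with hq
    have hr : reach ((l, i) :: P) v = if reach P v = (i : ℕ) then (i : ℕ) + 1 else reach P v := rfl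
    rw [hr]
    show (((BS k (i :: wd P)).pr ((e, b) : (BS k (wd P)).X × Bool)).symm v : ℕ) ≤ _
    rw [WFOR_pr_cons]
    cases b
    · rw [if_neg (by simp)]
      show (q : ℕ) ≤ _
      split_ifs with h1
      · omega
      · exact h
    · rw [if_pos rfl]
      have h2 : ((BS k (wd P)).pr e * sr i).symm v = sr i q := by
        show (sr i).symm (((BS k (wd P)).pr e).symm v) = _
        rw [WFOR_sr_symm]
      rw [h2]
      by_cases c1 : (q : ℕ) = i
      · have : q = i.castSucc := Fin.ext c1
        rw [this, WFOR_sr_castSucc]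
        have : ((i.succ : Fin (n + 1)) : ℕ) = i + 1 := rfl
        split_ifs with h1 <;> omega
      · by_cases c2 : (q : ℕ) = (i : ℕ) + 1
        · have : q = i.succ := Fin.ext c2
          rw [this, WFOR_sr_succ]
          have : ((i.castSucc : Fin (n + 1)) : ℕ) = i := rfl
          split_ifs with h1 <;> omega
        · rw [WFOR_sr_ne i q c1 c2]
          split_ifs with h1 <;> omega

/-- Points which agree with `up P` at the positions `< a` are in the image of `emb`.
Induction; letter `F`: the positions `< a` are not touched.  Letter `U` (`i + 1 < a`): if the letter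
is not used then `pr e (i+1) = (up P * sr i) (i+1) = up P i`, so the value `v = up P i` is at position
`i + 1` in `e`, but `reach P v ≤ i`.  Letter `Z` (`i + 1 = a`): if the letter is used then
`pr e (i+1) = up P i = v` again. -/
theorem WFOR_forced {a : ℕ} {P : Pat n} (hP : Ok a P) (e : (BS k (wd P)).X)
    (h : ∀ p : Fin (n + 1), (p : ℕ) < a → (BS k (wd P)).pr e p = up P p) :
    ∃ e', emb k P e' = e := by
  induction P with
  | nil => exact ⟨e, rfl⟩
  | cons x P ih =>
    obtain ⟨l, i⟩ := x
    obtain ⟨e, b, rfl⟩ := WFOR_cases (l, i) P e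
    have hpr : (BS k (wd ((l, i) :: P))).pr ((e, b) : (BS k (wd P)).X × Bool) =
      if b = true then (BS k (wd P)).pr e * sr i else (BS k (wd P)).pr e := rfl
    have hcs : ((i.castSucc : Fin (n + 1)) : ℕ) = i := rfl
    have hsc : ((i.succ : Fin (n + 1)) : ℕ) = i + 1 := rfl
    cases l
    · -- U
      obtain ⟨h1, h2, h3, h4⟩ := hP
      cases b
      · exfalso
        have h5 := h i.succ (by omega)
        rw [hpr, if_neg (by simp)] at h5
        have h6 : up ((Lab.U, i) :: P) i.succ = up P i.castSucc := by
          show (up P * sr i) i.succ = _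
          rw [Equiv.Perm.mul_apply, WFOR_sr_succ]
        rw [h6] at h5
        have h7 := WFOR_reach P e (up P i.castSucc)
        rw [← h5, Equiv.symm_apply_apply, h5] at h7
        omega
      · obtain ⟨e', he'⟩ := ih h4 e (by
          intro p hp
          have h5 := h (sr i p) (by
            by_cases c1 : (p : ℕ) = i
            · rw [show p = i.castSucc from Fin.ext c1, WFOR_sr_castSucc]; omega
            · by_cases c2 : (p : ℕ) = (i : ℕ) + 1
              · rw [show p = i.succ from Fin.ext c2, WFOR_sr_succ]; omega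
              · rw [WFOR_sr_ne i p c1 c2]; exact hp)
          rw [hpr, if_pos rfl, Equiv.Perm.mul_apply, WFOR_sr_invol] at h5
          rw [h5]
          show (up P * sr i) (sr i p) = _
          rw [Equiv.Perm.mul_apply, WFOR_sr_invol])
        exact ⟨e', by rw [← he']; rfl⟩
    · -- Z
      obtain ⟨h1, h2, h4⟩ := hP
      cases b
      · obtain ⟨e', he'⟩ := ih h4 e (by
          intro p hp
          have h5 := h p hp
          rw [hpr, if_neg (by simp)] at h5
          exact h5)
        exact ⟨e', by rw [← he']; rfl⟩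
      · exfalso
        have h5 := h i.castSucc (by omega)
        rw [hpr, if_pos rfl, Equiv.Perm.mul_apply, WFOR_sr_castSucc] at h5
        have h6 : up ((Lab.Z, i) :: P) i.castSucc = up P i.castSucc := rfl
        rw [h6] at h5
        have h7 := WFOR_reach P e (up P i.castSucc)
        rw [← h5, Equiv.symm_apply_apply, h5] at h7
        omega
    · -- F
      obtain ⟨h1, h4⟩ := hP
      obtain ⟨e', he'⟩ := ih h4 e (by
        intro p hp
        have h5 := h p hp
        have h6 : up ((Lab.F, i) :: P) p = up P p := rfl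
        rw [hpr, h6] at h5
        rw [← h5]
        split_ifs with hb
        · rw [Equiv.Perm.mul_apply, WFOR_sr_ne i p (by omega) (by omega)]
        · rfl)
      exact ⟨((e', b) : (BS k (fw P)).X × Bool), by rw [← he']; rfl⟩

/-- the points of `wd P` over `up P * z` -/
theorem WFOR_over {a : ℕ} {P : Pat n} (hP : Ok a P) {z : W n} (hz : IsTop a z)
    (e : (BS k (wd P)).X) :
    (BS k (wd P)).pr e = up P * z ↔ ∃ e', emb k P e' = e ∧ (BS k (fw P)).pr e' = z := by
  constructor
  · intro h
    obtain ⟨e', he'⟩ := WFOR_forced hP e (by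
      intro p hp
      rw [h, Equiv.Perm.mul_apply, hz.1 p hp])
    refine ⟨e', he', ?_⟩
    have h1 := WPTS_pr_emb hP e'
    rw [he', h] at h1
    exact (mul_left_cancel h1).symm
  · rintro ⟨e', he', h⟩
    rw [← he', WPTS_pr_emb hP e', h]

end

end Pool.Agent.PCan
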