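import Pool.Agent.PCan.WEmb
import Pool.Agent.PCan.WForced

/-! MODULE WLIFTA : stalks of a pattern word. -/

open MvPolynomial

namespace Pool.Agent.PCan

noncomputable section

variable {k : Type} [Field k] {n : ℕ}

/-- stalks (`WEMB_res`, `WEMB_ext`, `WFOR_over`) -/
theorem WLIFT_stalk {a : ℕ} {P : Pat n} (hP : Ok a P) {z : W n} (hz : IsTop a z)
    (m : (BS k (wd P)).X → R k n) (hm : ∀ e, (BS k (wd P)).pr e ≠ up P * z → m e = 0) :
    m ∈ (BS k (wd P)).stalk (up P * z) ↔ (fun e => m (emb k P e)) ∈ (BS k (fw P)).stalk z := by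
  have key : ∀ e, (BS k (wd P)).pr (emb k P e) = up P * z ↔ (BS k (fw P)).pr e = z := by
    intro e
    rw [WPTS_pr_emb hP e]
    exact mul_right_inj (up P)
  constructor
  · rintro ⟨h, hh, rfl⟩
    refine ⟨fun e => h (emb k P e), WEMB_res hP hh, ?_⟩
    funext e
    show (if (BS k (fw P)).pr e = z then h (emb k P e) else 0) =
      if (BS k (wd P)).pr (emb k P e) = up P * z then h (emb k P e) else 0
    by_cases hc : (BS k (fw P)).pr e = z
    · rw [if_pos hc, if_pos ((key e).2 hc)]
    · rw [if_neg hc, if_neg (fun h' => hc ((key e).1 h'))]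
  · rintro ⟨g, hg, hgm⟩
    obtain ⟨h, hh, hhe⟩ := WEMB_ext hP hg
    refine ⟨h, hh, ?_⟩
    funext e
    show (if (BS k (wd P)).pr e = up P * z then h e else 0) = m e
    by_cases hc : (BS k (wd P)).pr e = up P * z
    · rw [if_pos hc]
      obtain ⟨e', rfl, he'⟩ := (WFOR_over hP hz e).1 hc
      have h1 := congrFun hgm e'
      have h2 : (if (BS k (fw P)).pr e' = z then g e' else 0) = m (emb k P e') := h1
      rw [if_pos he'] at h2
      rw [hhe, h2]
    · rw [if_neg hc, hm e hc]

/-- restriction along `emb` as a linear map -/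
def WLIFT_phi (k : Type) [Field k] {n : ℕ} (P : Pat n) :
    ((BS k (wd P)).X → R k n) →ₗ[R k n] ((BS k (fw P)).X → R k n) where
  toFun m := fun e => m (emb k P e)
  map_add' := fun _ _ => rfl
  map_smul' := fun _ _ => rfl

theorem WLIFT_map {a : ℕ} {P : Pat n} (hP : Ok a P) {z : W n} (hz : IsTop a z) :
    ((BS k (wd P)).stalk (up P * z)).map (WLIFT_phi k P) = (BS k (fw P)).stalk z := by
  classical
  have hsupp : ∀ m ∈ (BS k (wd P)).stalk (up P * z),
      ∀ e, (BS k (wd P)).pr e ≠ up P * z → m e = 0 := by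
    rintro m ⟨h, _, rfl⟩ e he
    exact if_neg he
  ext g
  constructor
  · rintro ⟨m, hm, rfl⟩
    exact (WLIFT_stalk hP hz m (hsupp m hm)).1 hm
  · intro hg
    have hgs : ∀ e, (BS k (fw P)).pr e ≠ z → g e = 0 := by
      obtain ⟨h, _, rfl⟩ := hg
      intro e he
      exact if_neg he
    let m : (BS k (wd P)).X → R k n := Function.extend (emb k P) g 0
    have hme : ∀ e, m (emb k P e) = g e := fun e =>
      (WPTS_emb_inj P).extend_apply g (0 : (BS k (wd P)).X → R k n) e
    have hms : ∀ e, (BS k (wd P)).pr e ≠ up P * z → m e = 0 := by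
      intro e he
      by_cases hex : ∃ e', emb k P e' = e
      · obtain ⟨e', rfl⟩ := hex
        rw [hme]
        apply hgs
        intro h
        apply he
        rw [WPTS_pr_emb hP e', h]
      · exact Function.extend_apply' g (0 : (BS k (wd P)).X → R k n) e hex
    refine ⟨m, (WLIFT_stalk hP hz m hms).2 ?_, ?_⟩
    · have : (fun e => m (emb k P e)) = g := funext hme
      rw [this]
      exact hg
    · exact funext hme

/-- `R_+` times the stalk -/
theorem WLIFT_Rp {a : ℕ} {P : Pat n} (hP : Ok a P) {z : W n} (hz : IsTop a z)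
    (m : (BS k (wd P)).X → R k n) (hm : ∀ e, (BS k (wd P)).pr e ≠ up P * z → m e = 0) :
    m ∈ Rp k n • (BS k (wd P)).stalk (up P * z) ↔
      (fun e => m (emb k P e)) ∈ Rp k n • (BS k (fw P)).stalk z := by
  have hsupp : ∀ m ∈ Rp k n • (BS k (wd P)).stalk (up P * z),
      ∀ e, (BS k (wd P)).pr e ≠ up P * z → m e = 0 := by
    intro m hm e he
    obtain ⟨h, _, rfl⟩ := Submodule.smul_le_right hm
    exact if_neg he
  rw [← WLIFT_map hP hz, ← Submodule.map_smul'']
  constructor
  · intro h
    exact ⟨m, h, rfl⟩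
  · rintro ⟨m', hm', he⟩
    have : m' = m := by
      funext e
      by_cases hc : (BS k (wd P)).pr e = up P * z
      · obtain ⟨e', rfl, _⟩ := (WFOR_over hP hz e).1 hc
        exact congrFun he e'
      · rw [hsupp m' hm' e hc, hm e hc]
    rw [← this]
    exact hm'

end

end Pool.Agent.PCan
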