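import Pool.Agent.PCan.WPts

/-! MODULE WPIZ : `piz (up P * z)`. -/

open MvPolynomial

namespace Pool.Agent.PCan

noncomputable section

variable {k : Type} [Field k] {n : ℕ}

/-- no inversions between the two parts; the inversions of `up P * z` are those of `up P` and
those of `z` -/
theorem WPIZ_mul {a : ℕ} {P : Pat n} (hP : Ok a P) {z : W n} (hz : IsTop a z) :
    (piz (up P * z) : R k n) = piz (up P) * piz z := by
  have hz1 : ∀ p : Fin (n + 1), (p : ℕ) < a → z.symm p = p := by
    intro p hp
    rw [Equiv.symm_apply_eq]
    exact (hz.1 p hp).symm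
  have hz2 : ∀ p : Fin (n + 1), a ≤ (p : ℕ) → a ≤ (z.symm p : ℕ) := by
    intro p hp
    by_contra h
    push Not at h
    have h1 := hz.1 _ h
    rw [Equiv.apply_symm_apply] at h1
    rw [← h1] at h
    omega
  have hu1 : ∀ p : Fin (n + 1), a ≤ (p : ℕ) → (up P).symm p = p := by
    intro p hp
    rw [Equiv.symm_apply_eq]
    exact (WPTS_up_ge hP p hp).symm
  have hu2 : ∀ p : Fin (n + 1), (p : ℕ) < a → ((up P).symm p : ℕ) < a := by
    intro p hp
    by_contra h
    push Not at h
    have h1 := WPTS_up_ge hP _ h
    rw [Equiv.apply_symm_apply] at h1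
    rw [← h1] at h
    omega
  have hs : ∀ p : Fin (n + 1), (up P * z).symm p = z.symm ((up P).symm p) := fun p => rfl
  unfold piz
  rw [← Finset.prod_union]
  · refine Finset.prod_congr ?_ fun _ _ => rfl
    ext ⟨x, y⟩
    simp only [Finset.mem_filter, Finset.mem_univ, true_and, Finset.mem_union, hs]
    rcases lt_or_ge (x : ℕ) a with hx | hx
    · rcases lt_or_ge (y : ℕ) a with hy | hy
      · rw [hz1 _ (hu2 x hx), hz1 _ (hu2 y hy), hz1 x hx, hz1 y hy]
        constructor
        · intro h
          exact Or.inl h
        · rintro (h | h)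
          · exact h
          · exact absurd h.1 (not_lt.2 h.2.le)
      · rw [hu1 y hy, hz1 _ (hu2 x hx), hz1 x hx]
        have h1 := hz2 y hy
        have h2 := hu2 x hx
        constructor
        · rintro ⟨_, h⟩
          rw [Fin.lt_def] at h
          omega
        · rintro (⟨_, h⟩ | ⟨_, h⟩)
          · rw [Fin.lt_def] at h
            omega
          · rw [Fin.lt_def] at h
            omega
    · rcases lt_or_ge (y : ℕ) a with hy | hy
      · constructor
        · rintro ⟨h, _⟩
          rw [Fin.lt_def] at h
          omega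
        · rintro (⟨h, _⟩ | ⟨h, _⟩)
          · rw [Fin.lt_def] at h
            omega
          · rw [Fin.lt_def] at h
            omega
      · rw [hu1 x hx, hu1 y hy]
        constructor
        · intro h
          exact Or.inr h
        · rintro (h | h)
          · exact absurd h.1 (not_lt.2 h.2.le)
          · exact h
  · rw [Finset.disjoint_left]
    rintro ⟨x, y⟩ h1 h2
    simp only [Finset.mem_filter, Finset.mem_univ, true_and] at h1 h2
    rcases lt_or_ge (x : ℕ) a with hx | hx
    · rcases lt_or_ge (y : ℕ) a with hy | hy
      · rw [hz1 x hx, hz1 y hy] at h2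
        exact absurd h2.1 (not_lt.2 h2.2.le)
      · rw [hz1 x hx] at h2
        have h3 := hz2 y hy
        have h4 := h2.2
        rw [Fin.lt_def] at h4
        omega
    · rcases lt_or_ge (y : ℕ) a with hy | hy
      · have h4 := h2.1
        rw [Fin.lt_def] at h4
        omega
      · rw [hu1 x hx, hu1 y hy] at h1
        exact absurd h1.1 (not_lt.2 h1.2.le)

end

end Pool.Agent.PCan
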