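import Pool.Agent.PCan.WEmb
import Pool.Agent.PCan.WForced
import Pool.Agent.PCan.WEul
import Pool.Agent.PCan.WPiz

/-! MODULE WLIFTB : traces for a pattern word. -/

open MvPolynomial

namespace Pool.Agent.PCan

noncomputable section

variable {k : Type} [Field k] {n : ℕ}

/-- functions supported over `up P * z`; reindex the sum by `emb` (`WFOR_over`, `WPTS_emb_inj`), use
`WEUL_emb`, `WPIZ_mul` -/
theorem WLIFT_tau {a : ℕ} {P : Pat n} (hP : Ok a P) {z : W n} (hz : IsTop a z)
    (m h : (BS k (wd P)).X → R k n) (hm : ∀ e, (BS k (wd P)).pr e ≠ up P * z → m e = 0) :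
    tau (BS k (wd P)).eul (fun e => io (piz (up P * z) * m e * h e)) =
      (-1) ^ nU P * tau (BS k (fw P)).eul
        (fun e => io (piz z * m (emb k P e)) / io (NZ k P e) * io (h (emb k P e))) := by
  rw [tau, tau, Finset.mul_sum]
  symm
  refine Fintype.sum_of_injective (emb k P) (WPTS_emb_inj P) _ _ ?_ ?_
  · intro e he
    have h1 : (BS k (wd P)).pr e ≠ up P * z := by
      intro h2
      obtain ⟨e', he', -⟩ := (WFOR_over hP hz e).mp h2
      exact he ⟨e', he'⟩
    show io (piz (up P * z) * m e * h e) / io ((BS k (wd P)).eul e) = 0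
    rw [hm e h1, mul_zero, zero_mul, map_zero, zero_div]
  · intro e
    show (-1) ^ nU P * (io (piz z * m (emb k P e)) / io (NZ k P e) * io (h (emb k P e)) /
      io ((BS k (fw P)).eul e)) =
      io (piz (up P * z) * m (emb k P e) * h (emb k P e)) / io ((BS k (wd P)).eul (emb k P e))
    rw [WPIZ_mul hP hz, WEUL_emb hP]
    have h1 : io (piz (up P) : R k n) ≠ 0 := io_ne (piz_ne _)
    have h2 : io (NZ k P e) ≠ 0 := io_ne (WRING_NZ_ne hP e)
    have h3 : io ((BS k (fw P)).eul e) ≠ 0 := io_ne ((BS k (fw P)).eul_ne e)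
    simp only [map_mul, map_pow, map_neg, map_one]
    rcases neg_one_pow_eq_or (K k n) (nU P) with h4 | h4
    · rw [h4]
      field_simp
    · rw [h4]
      field_simp

end

end Pool.Agent.PCan
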