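import Pool.Agent.PCan.WLiftA
import Pool.Agent.PCan.WLiftB
import Pool.Agent.PCan.WCos

/-! MODULE WLIFTC : the space `lift` for a pattern word. -/

open MvPolynomial

namespace Pool.Agent.PCan

noncomputable section

variable {k : Type} [Field k] {n : ℕ}

theorem WLIFTC_neg_one (N : ℕ) (x : K k n) (h : IsR x) : IsR ((-1) ^ N * x) := by
  obtain ⟨r, hr⟩ := h
  refine ⟨(-1) ^ N * r, ?_⟩
  rw [map_mul, hr, map_pow, map_neg, map_one]

theorem WLIFTC_neg_one' (N : ℕ) (x : K k n) (h : IsR ((-1) ^ N * x)) : IsR x := by
  have h1 := WLIFTC_neg_one N _ h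
  rw [← mul_assoc, ← mul_pow] at h1
  simpa using h1

/-- `m ∈ lift` iff `m ∘ emb = NZ g` with `g` in the stalk of the block word at `z`.
`(→)` `piz m ∈ L`, `WLIFT_tau`, `WEMB_ext`, (T2) for the block word: `piz z m(emb e) / NZ e = f e`,
`f ∈ L`, supported over `z`, homogeneous; `WCOS_div`.
`(←)` (T2) for the whole word, `WLIFT_tau`, `WCOS_mem`, `WEMB_res`, (T1) for the block word. -/
theorem WLIFT_iff {a : ℕ} {P : Pat n} (hP : Ok a P) {z : W n} (hz : IsTop a z) (d : ℤ)
    (m : (BS k (wd P)).X → R k n) (hm : ∀ e, (BS k (wd P)).pr e ≠ up P * z → m e = 0) :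
    m ∈ (BS k (wd P)).lift (up P * z) (d + nZ P) ↔
      ∃ g ∈ dg ((BS k (fw P)).stalk z) d, ∀ e, m (emb k P e) = NZ k P e * g e := by
  constructor
  · intro hml
    have hmH : m ∈ HF k n (BS k (wd P)).X (d + nZ P) := hml.1.2
    have hmL : (piz (up P * z) : R k n) • m ∈ (BS k (wd P)).L := hml.2
    obtain ⟨G, hG, hGe⟩ := (BS k (fw P)).T2
      (fun e => io (piz z * m (emb k P e)) / io (NZ k P e)) (by
        intro h' hh'
        obtain ⟨x, hx, hxe⟩ := WEMB_ext hP hh'
        have h1 := (BS k (wd P)).T1 _ hmL _ hx
        have h2 : tau (BS k (wd P)).eul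
            (fun e => io (((piz (up P * z) : R k n) • m) e * x e)) =
            tau (BS k (wd P)).eul (fun e => io (piz (up P * z) * m e * x e)) := rfl
        rw [h2, WLIFT_tau hP hz m x hm] at h1
        have h3 := WLIFTC_neg_one' _ _ h1
        simp only [hxe] at h3
        exact h3)
    have hkey : ∀ e, piz z * m (emb k P e) = NZ k P e * G e := by
      intro e
      have h1 : io (piz z * m (emb k P e)) / io (NZ k P e) = io (G e) := hGe e
      rw [div_eq_iff (io_ne (WRING_NZ_ne hP e)), ← map_mul] at h1
      rw [io_inj h1, mul_comm]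
    have hGs : ∀ e, (BS k (fw P)).pr e ≠ z → G e = 0 := by
      intro e he
      have h1 : m (emb k P e) = 0 := by
        apply hm
        rw [WPTS_pr_emb hP]
        intro hc
        exact he (mul_left_cancel hc)
      have h2 := hkey e
      rw [h1, mul_zero] at h2
      rcases mul_eq_zero.1 h2.symm with h3 | h3
      · exact absurd h3 (WRING_NZ_ne hP e)
      · exact h3
    have hGH : G ∈ HF k n (BS k (fw P)).X (d + len z) := by
      intro e
      refine HZ_div (WRING_NZ_ne hP e) (WRING_NZ_hom P e) ?_
      rw [← hkey e]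
      have h1 := HZ_mul (piz_HZ (k := k) z) (hmH (emb k P e))
      have h2 : (len z : ℤ) + (d + nZ P) = nZ P + (d + len z) := by ring
      rw [h2] at h1
      exact h1
    obtain ⟨s, hs, hGs'⟩ := WCOS_div (BS k (fw P)) z d G ⟨hG, hGs⟩ hGH
    refine ⟨s, hs, fun e => ?_⟩
    have h1 := hkey e
    have h2 : G e = piz z * s e := congrFun hGs' e
    rw [h2] at h1
    apply mul_left_cancel₀ (piz_ne (k := k) z)
    rw [h1]
    ring
  · rintro ⟨g, hg, hmg⟩
    have hgS : g ∈ (BS k (fw P)).stalk z := hg.1
    have hgH : g ∈ HF k n (BS k (fw P)).X d := hg.2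
    have h1 : m ∈ (BS k (wd P)).stalk (up P * z) := by
      rw [WLIFT_stalk hP hz m hm]
      have h2 : (fun e => m (emb k P e)) = fun e => NZ k P e * g e := funext hmg
      rw [h2]
      exact WRING_mul_stalk (fw P) z (WRING_NZ P) hgS
    have h2 : m ∈ HF k n (BS k (wd P)).X (d + nZ P) := by
      intro e
      by_cases he : (BS k (wd P)).pr e = up P * z
      · obtain ⟨e', rfl, -⟩ := (WFOR_over hP hz e).1 he
        rw [hmg, add_comm d]
        exact HZ_mul (WRING_NZ_hom P e') (hgH e')
      · rw [hm e he]
        exact (HZ k n _).zero_mem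
    have h3 : (piz (up P * z) : R k n) • m ∈ (BS k (wd P)).L := by
      obtain ⟨G, hG, hGe⟩ := (BS k (wd P)).T2
        (fun e => io (((piz (up P * z) : R k n) • m) e)) (by
          intro x hx
          have h4 : tau (BS k (wd P)).eul
              (fun e => io (((piz (up P * z) : R k n) • m) e) * io (x e)) =
              tau (BS k (wd P)).eul (fun e => io (piz (up P * z) * m e * x e)) := by
            congr 1
            funext e
            rw [map_mul io (piz (up P * z) * m e)]
            rfl
          rw [h4, WLIFT_tau hP hz m x hm]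
          apply WLIFTC_neg_one
          have h5 := (BS k (fw P)).T1 _ (WCOS_mem (WPTS_fw_ge hP) hz hgS) _ (WEMB_res hP hx)
          have h6 : tau (BS k (fw P)).eul
              (fun e => io (piz z * m (emb k P e)) / io (NZ k P e) * io (x (emb k P e))) =
              tau (BS k (fw P)).eul
              (fun e => io (((piz z : R k n) • g) e * x (emb k P e))) := by
            congr 1
            funext e
            have h7 := io_ne (WRING_NZ_ne (k := k) hP e)
            rw [hmg, map_mul io (((piz z : R k n) • g) e), Pi.smul_apply, smul_eq_mul,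
              map_mul, map_mul, map_mul]
            field_simp
          rw [h6]
          exact h5)
      have h8 : (piz (up P * z) : R k n) • m = G := by
        funext e
        exact io_inj (hGe e)
      rw [h8]
      exact hG
    exact ⟨⟨h1, h2⟩, h3⟩

end

end Pool.Agent.PCan
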