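import Pool.Agent.PCan.WDef

/-! MODULE WPTS : points of pattern words (combinatorics of permutations). -/

open MvPolynomial

namespace Pool.Agent.PCan

noncomputable section

variable {k : Type} [Field k] {n : ℕ}

/-- the free letters of an admissible pattern are `≥ a` -/
theorem WPTS_fw_ge {a : ℕ} {P : Pat n} (hP : Ok a P) : ∀ i ∈ fw P, a ≤ (i : ℕ) := by
  induction P with
  | nil => intro i hi; exact absurd hi (by simp [fw])
  | cons x P ih =>
    obtain ⟨l, j⟩ := x
    cases l with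
    | U => exact ih hP.2.2.2
    | Z => exact ih hP.2.2
    | F =>
      intro i hi
      have hi' : i ∈ j :: fw P := hi
      rcases List.mem_cons.mp hi' with h | h
      · rw [h]; exact hP.1
      · exact ih hP.2 i h

theorem WPTS_sr_lt {a : ℕ} {i : Fin n} (hi : a ≤ (i : ℕ)) (p : Fin (n + 1)) (hp : (p : ℕ) < a) :
    sr i p = p := by
  apply Fin.ext
  rw [PERM_sr_val, if_neg (by omega), if_neg (by omega)]

theorem WPTS_sr_ge {a : ℕ} {i : Fin n} (hi : a ≤ (i : ℕ)) (p : Fin (n + 1)) (hp : a ≤ (p : ℕ)) :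
    a ≤ (sr i p : ℕ) := by
  rw [PERM_sr_val]
  split_ifs <;> omega

theorem WPTS_sr_ge' {a : ℕ} {i : Fin n} (hi : (i : ℕ) + 1 < a) (p : Fin (n + 1))
    (hp : a ≤ (p : ℕ)) : sr i p = p := by
  apply Fin.ext
  rw [PERM_sr_val, if_neg (by omega), if_neg (by omega)]

theorem WPTS_sr_lt' {a : ℕ} {i : Fin n} (hi : (i : ℕ) + 1 < a) (p : Fin (n + 1))
    (hp : (p : ℕ) < a) : (sr i p : ℕ) < a := by
  rw [PERM_sr_val]
  split_ifs <;> omega

theorem WPTS_pr_cons (i : Fin n) (w : List (Fin n)) (e : (BS k w).X) (b : Bool) :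
    (BS k (i :: w)).pr (e, b) = if b = true then (BS k w).pr e * sr i else (BS k w).pr e := rfl

/-- points of a word in letters `≥ a` fix the positions `< a` -/
theorem WPTS_pr_lt {a : ℕ} {w : List (Fin n)} (hw : ∀ i ∈ w, a ≤ (i : ℕ)) (e : (BS k w).X)
    (p : Fin (n + 1)) (hp : (p : ℕ) < a) : (BS k w).pr e p = p := by
  induction w with
  | nil => rfl
  | cons i w ih =>
    obtain ⟨e', b⟩ := e
    have h1 := ih (fun j hj => hw j (List.mem_cons_of_mem _ hj)) e'
    rw [WPTS_pr_cons]
    by_cases hb : b = true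
    · rw [if_pos hb, Equiv.Perm.mul_apply, WPTS_sr_lt (hw i (List.mem_cons_self ..)) p hp, h1]
    · rw [if_neg hb, h1]

/-- and preserve the positions `≥ a` -/
theorem WPTS_pr_ge {a : ℕ} {w : List (Fin n)} (hw : ∀ i ∈ w, a ≤ (i : ℕ)) (e : (BS k w).X)
    (p : Fin (n + 1)) (hp : a ≤ (p : ℕ)) : a ≤ ((BS k w).pr e p : ℕ) := by
  induction w generalizing p with
  | nil => exact hp
  | cons i w ih =>
    obtain ⟨e', b⟩ := e
    have h1 := ih (fun j hj => hw j (List.mem_cons_of_mem _ hj)) e'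
    rw [WPTS_pr_cons]
    by_cases hb : b = true
    · rw [if_pos hb, Equiv.Perm.mul_apply]
      exact h1 _ (WPTS_sr_ge (hw i (List.mem_cons_self ..)) p hp)
    · rw [if_neg hb]
      exact h1 p hp

theorem WPTS_up_ge {a : ℕ} {P : Pat n} (hP : Ok a P) (p : Fin (n + 1)) (hp : a ≤ (p : ℕ)) :
    up P p = p := by
  induction P with
  | nil => rfl
  | cons x P ih =>
    obtain ⟨l, j⟩ := x
    cases l with
    | U =>
      show up P (sr j p) = p
      rw [WPTS_sr_ge' hP.1 p hp]
      exact ih hP.2.2.2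
    | Z => exact ih hP.2.2
    | F => exact ih hP.2

theorem WPTS_up_lt {a : ℕ} {P : Pat n} (hP : Ok a P) (p : Fin (n + 1)) (hp : (p : ℕ) < a) :
    (up P p : ℕ) < a := by
  induction P generalizing p with
  | nil => exact hp
  | cons x P ih =>
    obtain ⟨l, j⟩ := x
    cases l with
    | U =>
      show (up P (sr j p) : ℕ) < a
      exact ih hP.2.2.2 _ (WPTS_sr_lt' hP.1 p hp)
    | Z => exact ih hP.2.2 p hp
    | F => exact ih hP.2 p hp

theorem WPTS_comm {a : ℕ} {w : List (Fin n)} (hw : ∀ i ∈ w, a ≤ (i : ℕ)) (e : (BS k w).X)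
    {i : Fin n} (hi : (i : ℕ) + 1 < a) :
    (BS k w).pr e * sr i = sr i * (BS k w).pr e := by
  apply Equiv.ext
  intro p
  rw [Equiv.Perm.mul_apply, Equiv.Perm.mul_apply]
  by_cases hp : (p : ℕ) < a
  · rw [WPTS_pr_lt hw e p hp, WPTS_pr_lt hw e _ (WPTS_sr_lt' hi p hp)]
  · rw [WPTS_sr_ge' hi p (by omega), WPTS_sr_ge' hi _ (WPTS_pr_ge hw e p (by omega))]

/-- the embedding -/
theorem WPTS_pr_emb {a : ℕ} {P : Pat n} (hP : Ok a P) (e : (BS k (fw P)).X) :
    (BS k (wd P)).pr (emb k P e) = up P * (BS k (fw P)).pr e := by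
  induction P with
  | nil => rfl
  | cons x P ih =>
    obtain ⟨l, j⟩ := x
    cases l with
    | U =>
      have h1 := ih hP.2.2.2 e
      show (BS k (wd P)).pr (emb k P e) * sr j = up P * sr j * (BS k (fw P)).pr e
      rw [h1, mul_assoc, mul_assoc]
      congr 1
      exact WPTS_comm (WPTS_fw_ge hP.2.2.2) e hP.1
    | Z => exact ih hP.2.2 e
    | F =>
      have h1 := ih hP.2 e.1
      show (if e.2 = true then (BS k (wd P)).pr (emb k P e.1) * sr j else
        (BS k (wd P)).pr (emb k P e.1)) = up P *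
          (if e.2 = true then (BS k (fw P)).pr e.1 * sr j else (BS k (fw P)).pr e.1)
      by_cases hb : e.2 = true
      · rw [if_pos hb, if_pos hb, h1, mul_assoc]
      · rw [if_neg hb, if_neg hb, h1]

theorem WPTS_emb_inj (P : Pat n) : Function.Injective (emb k P) := by
  induction P with
  | nil => intro x y h; exact h
  | cons x P ih =>
    obtain ⟨l, j⟩ := x
    cases l with
    | U =>
      intro e e' h
      have h' : ((emb k P e, true) : (BS k (wd P)).X × Bool) = (emb k P e', true) := h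
      exact ih (Prod.ext_iff.mp h').1
    | Z =>
      intro e e' h
      have h' : ((emb k P e, false) : (BS k (wd P)).X × Bool) = (emb k P e', false) := h
      exact ih (Prod.ext_iff.mp h').1
    | F =>
      rintro ⟨e, b⟩ ⟨e', b'⟩ h
      have h' : ((emb k P e, b) : (BS k (wd P)).X × Bool) = (emb k P e', b') := h
      have h1 := (Prod.ext_iff.mp h').1
      have h2 := (Prod.ext_iff.mp h').2
      exact Prod.ext (ih h1) h2

end

end Pool.Agent.PCan
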