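import Pool.Agent.PCan.WPts

/-! MODULE WRING : products in `BS(w)`. -/

open MvPolynomial

namespace Pool.Agent.PCan

noncomputable section

variable {k : Type} [Field k] {n : ℕ}

/-- `(u, v)(u', v')`, `u - v = m α`, `u' - v' = m' α`: `u u' - v v' = (u m' + m v') α` -/
theorem WRING_mul (w : List (Fin n)) {f g : (BS k w).X → R k n} (hf : f ∈ (BS k w).L)
    (hg : g ∈ (BS k w).L) : (fun e => f e * g e) ∈ (BS k w).L := by
  induction w with
  | nil =>
    have h1 : (fun e => f e * g e) = (f ()) • g := by
      funext e
      rfl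
    rw [h1]
    exact (BS k []).L.smul_mem _ hg
  | cons i w ih =>
    have hf1 : (fun e => f (e, true)) ∈ (BS k w).L := tb_comp (BS k w).toBim i hf true
    have hg0 : (fun e => g (e, false)) ∈ (BS k w).L := tb_comp (BS k w).toBim i hg false
    obtain ⟨hf0, m, hm, hm'⟩ := hf
    obtain ⟨hg0', l, hl, hl'⟩ := hg
    refine ⟨ih hf0 hg0, (fun e => m e * g (e, false)) + (fun e => f (e, true) * l e),
      (BS k w).L.add_mem (ih hm hg0) (ih hf1 hl), ?_⟩
    intro e
    have h1 := hm' e
    have h2 := hl' e
    show f (e, false) * g (e, false) - f (e, true) * g (e, true) =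
      act ((BS k w).pr e) (al i) * (m e * g (e, false) + f (e, true) * l e)
    linear_combination g (e, false) * h1 + f (e, true) * h2

theorem WRING_zeta (w : List (Fin n)) (s : ℕ) : zeta k w s ∈ (BS k w).L := by
  induction w generalizing s with
  | nil =>
    have h1 : zeta k ([] : List (Fin n)) s = 0 := by
      funext e
      rfl
    rw [h1]
    exact (BS k []).L.zero_mem
  | cons i w ih =>
    cases s with
    | zero =>
      have h1 := tb_left (BS k w).toBim i (BS_one w)
      have h2 : zeta k (i :: w) 0 = (fun e : (BS k w).X × Bool => if e.2 = true then 0 else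
          act ((BS k w).pr e.1) (al i) * 1) := by
        funext e
        simp only [mul_one]
        rfl
      rw [h2]
      exact h1
    | succ s =>
      exact tb_diag (BS k w).toBim i (ih s)

theorem WRING_zeta_hom (w : List (Fin n)) (s : ℕ) : zeta k w s ∈ HF k n (BS k w).X 1 := by
  induction w generalizing s with
  | nil =>
    intro e
    exact (HZ k n 1).zero_mem
  | cons i w ih =>
    cases s with
    | zero =>
      intro e
      show (if e.2 = true then 0 else act ((BS k w).pr e.1) (al i)) ∈ HZ k n 1
      split_ifs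
      · exact (HZ k n 1).zero_mem
      · exact act_HZ _ (rt_HZ _ _)
    | succ s =>
      intro e
      exact ih s e.1

/-- left and right multiplication by variables -/
theorem WRING_NZ (P : Pat n) : NZ k P ∈ (BS k (fw P)).L := by
  induction P with
  | nil => exact BS_one []
  | cons q P ih =>
    obtain ⟨lb, i⟩ := q
    cases lb with
    | U => exact ih
    | Z =>
      have h1 := (BS k (fw P)).L.smul_mem (X (up P i.castSucc)) ih
      have h2 := (BS k (fw P)).right' _ ih (X i.succ)
      have h3 := (BS k (fw P)).L.sub_mem h1 h2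
      have h4 : NZ k ((Lab.Z, i) :: P) = (X (up P i.castSucc) : R k n) • NZ k P -
          fun e => act ((BS k (fw P)).pr e) (X i.succ) * NZ k P e := by
        funext e
        show NZ k P e * rt (up P i.castSucc) ((BS k (fw P)).pr e i.succ) =
          X (up P i.castSucc) * NZ k P e - act ((BS k (fw P)).pr e) (X i.succ) * NZ k P e
        rw [act_X]
        unfold rt
        ring
      rw [h4]
      exact h3
    | F => exact tb_diag (BS k (fw P)).toBim i ih

theorem WRING_NZ_hom (P : Pat n) : NZ k P ∈ HF k n (BS k (fw P)).X (nZ P) := by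
  induction P with
  | nil =>
    intro e
    show (1 : R k n) ∈ HZ k n ((0 : ℕ) : ℤ)
    have := C_HZ (n := n) (1 : k)
    rw [map_one] at this
    exact this
  | cons q P ih =>
    obtain ⟨lb, i⟩ := q
    cases lb with
    | U => exact ih
    | Z =>
      intro e
      show NZ k P e * rt (up P i.castSucc) ((BS k (fw P)).pr e i.succ) ∈
        HZ k n ((nZ P + 1 : ℕ) : ℤ)
      have h1 := HZ_mul (ih e) (rt_HZ (k := k) (up P i.castSucc) ((BS k (fw P)).pr e i.succ))
      push_cast
      exact h1
    | F =>
      intro e
      exact ih e.1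

/-- outer variable minus block variable -/
theorem WRING_NZ_ne {a : ℕ} {P : Pat n} (hP : Ok a P) (e : (BS k (fw P)).X) : NZ k P e ≠ 0 := by
  induction P with
  | nil => exact one_ne_zero
  | cons q P ih =>
    obtain ⟨lb, i⟩ := q
    cases lb with
    | U => exact ih hP.2.2.2 e
    | Z =>
      have hP' : Ok a P := hP.2.2
      have hi : (i : ℕ) + 1 = a := hP.1
      refine mul_ne_zero (ih hP' e) (rt_ne ?_)
      intro h
      have h1 := WPTS_up_lt hP' i.castSucc (by simp; omega)
      have h2 := WPTS_pr_ge (WPTS_fw_ge hP') e i.succ (by simp; omega)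
      rw [h] at h1
      omega
    | F => exact ih hP.2 e.1

/-- products in the stalk -/
theorem WRING_stalk_mul (w : List (Fin n)) (z : W n) {f g : (BS k w).X → R k n}
    (hf : f ∈ (BS k w).stalk z) (hg : g ∈ (BS k w).stalk z) :
    (fun e => f e * g e) ∈ (BS k w).stalk z := by
  obtain ⟨f0, hf0, rfl⟩ := hf
  obtain ⟨g0, hg0, rfl⟩ := hg
  refine ⟨_, WRING_mul w hf0 hg0, ?_⟩
  funext e
  show (if (BS k w).pr e = z then f0 e * g0 e else 0) =
    (if (BS k w).pr e = z then f0 e else 0) * (if (BS k w).pr e = z then g0 e else 0)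
  split_ifs
  · rfl
  · rw [mul_zero]

/-- an element of `L` times an element of the stalk -/
theorem WRING_mul_stalk (w : List (Fin n)) (z : W n) {f g : (BS k w).X → R k n}
    (hf : f ∈ (BS k w).L) (hg : g ∈ (BS k w).stalk z) :
    (fun e => f e * g e) ∈ (BS k w).stalk z := by
  obtain ⟨g0, hg0, rfl⟩ := hg
  refine ⟨_, WRING_mul w hf hg0, ?_⟩
  funext e
  show (if (BS k w).pr e = z then f e * g0 e else 0) =
    f e * (if (BS k w).pr e = z then g0 e else 0)
  split_ifs
  · rfl
  · rw [mul_zero]

end

end Pool.Agent.PCan
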