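import Pool.Agent.PCan.WCos
import Pool.Agent.PCan.WRing

/-! MODULE WRADA : integrality and specialisation of the local form. -/

open MvPolynomial

namespace Pool.Agent.PCan

noncomputable section

variable {k : Type} [Field k] {n : ℕ}

/-- the form (specialised) -/
def bform (ξ : Fin (n + 1) → k) (P : Pat n) (z : W n) (g g' : (BS k (fw P)).X → R k n) : k :=
  ev ξ (BS k (fw P)) (fun e => piz z * NZ k P e * g e * g' e)

/-- a constant trace can be computed after specialisation (clear denominators) -/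
theorem WRAD_ev (M : Obj k n) (ξ : Fin (n + 1) → k) (h : ∀ e, eval ξ (M.eul e) ≠ 0)
    (f : M.X → R k n) (c : k) (hc : tau M.eul (fun e => io (f e)) = io (C c)) :
    ev ξ M f = c := by
  classical
  have h1 : ∑ e, f e * ∏ e' ∈ Finset.univ.erase e, M.eul e' = C c * ∏ e, M.eul e := by
    apply io_inj
    rw [map_sum, map_mul, ← hc, tau, Finset.sum_mul]
    refine Finset.sum_congr rfl fun e _ => ?_
    rw [← Finset.mul_prod_erase Finset.univ M.eul (Finset.mem_univ e), map_mul, map_mul,
      div_mul_eq_mul_div, eq_div_iff (io_ne (M.eul_ne e))]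
    ring
  have h2 := congrArg (eval ξ) h1
  rw [map_sum, map_mul, eval_C, map_prod] at h2
  have h3 : (∏ e, eval ξ (M.eul e)) ≠ 0 := Finset.prod_ne_zero_iff.mpr fun e _ => h e
  have h4 : (∑ e, eval ξ (f e) / eval ξ (M.eul e)) * ∏ e, eval ξ (M.eul e) =
      c * ∏ e, eval ξ (M.eul e) := by
    rw [← h2, Finset.sum_mul]
    refine Finset.sum_congr rfl fun e _ => ?_
    rw [map_mul, map_prod, ← Finset.mul_prod_erase Finset.univ (fun e => eval ξ (M.eul e))
      (Finset.mem_univ e), div_mul_eq_mul_div, div_eq_iff (h e)]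
    ring
  exact mul_right_cancel₀ h3 h4

/-- for `g`, `g'` in the stalk the trace of `piz z * g * g'` is in `R` (`WCOS_mem`, (T1)) -/
theorem WRAD_int {a : ℕ} {w : List (Fin n)} (hw : ∀ i ∈ w, a ≤ (i : ℕ)) {z : W n}
    (hz : IsTop a z) {g g' : (BS k w).X → R k n} (hg : g ∈ (BS k w).stalk z)
    (hg' : g' ∈ (BS k w).stalk z) :
    ∃ r : R k n, tau (BS k w).eul (fun e => io (piz z * g e * g' e)) = io r := by
  have h1 : (piz z : R k n) • g ∈ (BS k w).L := WCOS_mem hw hz hg
  obtain ⟨m, _, hmg⟩ := hg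
  obtain ⟨h, hh, hhg⟩ := hg'
  obtain ⟨r, hr⟩ := (BS k w).T1 _ h1 h hh
  refine ⟨r, ?_⟩
  rw [hr]
  congr 1
  funext e
  congr 1
  rw [← hmg, ← hhg]
  show piz z * (if (BS k w).pr e = z then m e else 0) * (if (BS k w).pr e = z then h e else 0) =
    (piz z * (if (BS k w).pr e = z then m e else 0)) * h e
  by_cases he : (BS k w).pr e = z
  · rw [if_pos he, if_pos he]
  · rw [if_neg he, if_neg he]
    ring

end

end Pool.Agent.PCan
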