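import Pool.Agent.PCan.WRadA
import Pool.Agent.PCan.WEul

/-! MODULE WRADB : the radical of the local form, first half. -/

open MvPolynomial

namespace Pool.Agent.PCan

noncomputable section

variable {k : Type} [Field k] {n : ℕ}

/-- the trace of `piz x g'` for `x ∈ R_+ S` -/
theorem WRADB_aux {a : ℕ} {w : List (Fin n)} (hw : ∀ i ∈ w, a ≤ (i : ℕ)) {z : W n}
    (hz : IsTop a z) {x : (BS k w).X → R k n} (hx : x ∈ Rp k n • (BS k w).stalk z)
    {g' : (BS k w).X → R k n} (hg' : g' ∈ (BS k w).stalk z) :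
    ∃ q ∈ Rp k n, tau (BS k w).eul (fun e => io (piz z * x e * g' e)) = io q := by
  refine Submodule.smul_induction_on hx ?_ ?_
  · intro r hr s hs
    obtain ⟨r0, h0⟩ := WRAD_int hw hz hs hg'
    refine ⟨r * r0, (Rp k n).mul_mem_right _ hr, ?_⟩
    rw [map_mul, ← h0, tau, tau, Finset.mul_sum]
    refine Finset.sum_congr rfl fun e _ => ?_
    rw [Pi.smul_apply, smul_eq_mul]
    simp only [map_mul]
    ring
  · rintro x y ⟨q, hq, h1⟩ ⟨q', hq', h2⟩
    refine ⟨q + q', (Rp k n).add_mem hq hq', ?_⟩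
    rw [map_add, ← h1, ← h2, tau, tau, tau, ← Finset.sum_add_distrib]
    refine Finset.sum_congr rfl fun e _ => ?_
    rw [Pi.add_apply]
    simp only [map_mul, map_add]
    ring

/-- `l = len z + nZ P + 2`.  Submodule induction: for `r ∈ R_+`, `s` in the stalk
`tau(piz r s g') = r tau(piz s g')`, so the trace of `piz NZ g g'` is `io q` with `q ∈ R_+`, and
`q ∈ HZ 0` by `tau_deg`, so `q = 0`; `WRAD_ev`. -/
theorem WRAD_mp {a : ℕ} {P : Pat n} (hP : Ok a P) {z : W n} (hz : IsTop a z)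
    (hl : (fw P).length = len z + nZ P + 2) (ξ : Fin (n + 1) → k)
    (hξ : ∀ p q : Fin (n + 1), a ≤ (p : ℕ) → a ≤ (q : ℕ) → ξ p = ξ q → p = q)
    (g : (BS k (fw P)).X → R k n) (hg : g ∈ dg ((BS k (fw P)).stalk z) 1)
    (hr : (fun e => NZ k P e * g e) ∈ Rp k n • (BS k (fw P)).stalk z)
    (g' : (BS k (fw P)).X → R k n) (hg' : g' ∈ dg ((BS k (fw P)).stalk z) 1) :
    bform ξ P z g g' = 0 := by
  obtain ⟨q, hq, h1⟩ := WRADB_aux (WPTS_fw_ge hP) hz hr hg'.1
  have h2 : tau (BS k (fw P)).eul (fun e => io ((piz z * NZ k P e * g e) * g' e)) = io q := by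
    rw [← h1]
    congr 1
    funext e
    congr 2
    ring
  have hf : (fun e => piz z * NZ k P e * g e) ∈
      HF k n (BS k (fw P)).X ((len z : ℤ) + nZ P + 1) := by
    intro e
    exact HZ_mul (HZ_mul (piz_HZ z) (WRING_NZ_hom P e)) (hg.2 e)
  have h3 : q ∈ HZ k n 0 := by
    have h4 := tau_deg (BS k (fw P)) hf hg'.2 h2
    rw [BS_D, hl] at h4
    have h5 : ((len z : ℤ) + nZ P + 1 + 1 - ((len z + nZ P + 2 : ℕ) : ℤ)) = 0 := by
      push_cast
      ring
    rwa [h5] at h4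
  have h6 : q = C 0 := by
    have h7 : constantCoeff q = 0 := hq
    rw [HZ_zero h3, h7]
  rw [h6] at h2
  exact WRAD_ev (BS k (fw P)) ξ (WEUL_eval_ne (WPTS_fw_ge hP) ξ hξ) _ 0 h2

/-- linear forms are in the radical (`x NZ ∈ R_+ S`, apply `WRAD_mp`) -/
theorem WRAD_lin {a : ℕ} {P : Pat n} (hP : Ok a P) {z : W n} (hz : IsTop a z)
    (hl : (fw P).length = len z + nZ P + 2) (ξ : Fin (n + 1) → k)
    (hξ : ∀ p q : Fin (n + 1), a ≤ (p : ℕ) → a ≤ (q : ℕ) → ξ p = ξ q → p = q)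
    (x : R k n) (hx : x ∈ HZ k n 1)
    (g : (BS k (fw P)).X → R k n) (hg : g ∈ dg ((BS k (fw P)).stalk z) 1) :
    bform ξ P z (res (BS k (fw P)).pr z (fun _ => x)) g = 0 := by
  refine WRAD_mp hP hz hl ξ hξ _ ⟨?_, ?_⟩ ?_ g hg
  · show res (BS k (fw P)).pr z (fun _ => x) ∈ (BS k (fw P)).stalk z
    have h1 : (fun _ => x : (BS k (fw P)).X → R k n) = x • (fun _ => 1) := by
      funext e
      rw [Pi.smul_apply, smul_eq_mul, mul_one]
    rw [h1]
    exact Submodule.mem_map_of_mem (Submodule.smul_mem _ x (BS_one (fw P)))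
  · intro e
    show (if (BS k (fw P)).pr e = z then x else 0) ∈ HZ k n 1
    by_cases h : (BS k (fw P)).pr e = z
    · rw [if_pos h]; exact hx
    · rw [if_neg h]; exact (HZ k n 1).zero_mem
  · have h1 : (fun e => NZ k P e * res (BS k (fw P)).pr z (fun _ => x) e) =
        x • res (BS k (fw P)).pr z (NZ k P) := by
      funext e
      show NZ k P e * (if (BS k (fw P)).pr e = z then x else 0) =
        x * (if (BS k (fw P)).pr e = z then NZ k P e else 0)
      by_cases h : (BS k (fw P)).pr e = z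
      · rw [if_pos h, if_pos h, mul_comm]
      · rw [if_neg h, if_neg h, mul_zero, mul_zero]
    rw [h1]
    exact Submodule.smul_mem_smul (HZ_pos zero_lt_one hx) (Submodule.mem_map_of_mem (WRING_NZ P))

end

end Pool.Agent.PCan
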