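import Pool.Agent.PCan.WRadA
import Pool.Agent.PCan.WEul
import Pool.Agent.PCan.Rep

/-! MODULE WRADC : the radical of the local form, second half (see also helper10's `Costalk.lean`). -/

open MvPolynomial

namespace Pool.Agent.PCan

noncomputable section

variable {k : Type} [Field k] {n : ℕ}

/-- a functional on the stalk at `z` is the trace with an element supported over `z` -/
theorem WRADC_supp (M : Obj k n) (z : W n) (ψ : M.stalk z →ₗ[R k n] R k n) (f : M.L)
    (hf : ∀ h : M.L, tau M.eul (fun e => io (f.1 e * h.1 e)) = io (ψ (M.st z h))) (e : M.X)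
    (he : M.pr e ≠ z) : f.1 e = 0 := by
  classical
  obtain ⟨r, hr0, hr⟩ := M.full e
  have h1 := hf ⟨_, hr⟩
  have h2 : M.st z ⟨Pi.single e r, hr⟩ = 0 := by
    apply Subtype.ext
    funext e'
    show (if M.pr e' = z then (Pi.single e r : M.X → R k n) e' else 0) = 0
    by_cases h3 : M.pr e' = z
    · rw [if_pos h3, Pi.single_eq_of_ne]
      intro h4
      rw [h4] at h3
      exact he h3
    · rw [if_neg h3]
  rw [h2, map_zero, map_zero] at h1
  have h5 := REP_tau_single M (fun e => io (f.1 e)) e r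
  have h6 : tau M.eul (fun e' => io (f.1 e') * io ((Pi.single e r : M.X → R k n) e')) = 0 := by
    rw [← h1]
    congr 1
    funext e'
    rw [map_mul]
  rw [h6] at h5
  rw [eq_comm, div_eq_zero_iff, mul_eq_zero] at h5
  rcases h5 with (h5 | h5) | h5
  · exact io_inj (by rw [h5, map_zero])
  · exact absurd h5 (io_ne hr0)
  · exact absurd h5 (io_ne (M.eul_ne e))

/-- `l = len z + nZ P + 2`.  If `NZ g ∉ R_+ S`, `gfree_functional` ((F1) of the block word) gives `ψ` with
`ψ(NZ g) = 1` of degree `-(nZ + 1)`; `rep`: `f ∈ L` with `tau(f h) = ψ(h_z)`; `f` is supported over `z`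
(full rank) and homogeneous of degree `l - nZ - 1 = len z + 1` (`rep_deg`); `WCOS_div`: `f = piz z • g'`;
`bform g g' = 1` (`WRAD_ev`). -/
theorem WRAD_mpr {a : ℕ} {P : Pat n} (hP : Ok a P) {z : W n} (hz : IsTop a z)
    (hl : (fw P).length = len z + nZ P + 2) (ξ : Fin (n + 1) → k)
    (hξ : ∀ p q : Fin (n + 1), a ≤ (p : ℕ) → a ≤ (q : ℕ) → ξ p = ξ q → p = q)
    (g : (BS k (fw P)).X → R k n) (hg : g ∈ dg ((BS k (fw P)).stalk z) 1)
    (h : ∀ g' ∈ dg ((BS k (fw P)).stalk z) 1, bform ξ P z g g' = 0) :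
    (fun e => NZ k P e * g e) ∈ Rp k n • (BS k (fw P)).stalk z := by
  classical
  by_contra hnot
  have hgS : g ∈ (BS k (fw P)).stalk z := hg.1
  have hgH : g ∈ HF k n (BS k (fw P)).X 1 := hg.2
  have hu : (fun e => NZ k P e * g e) ∈ (BS k (fw P)).stalk z :=
    WRING_mul_stalk (fw P) z (WRING_NZ P) hgS
  have huH : (fun e => NZ k P e * g e) ∈ HF k n (BS k (fw P)).X ((nZ P : ℤ) + 1) :=
    fun e => HZ_mul (WRING_NZ_hom P e) (hgH e)
  obtain ⟨ψ, hψ1, hψ2⟩ := gfree_functional ((BS k (fw P)).F1 z) ⟨_, hu⟩ huH hnot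
  obtain ⟨f, hf⟩ := rep (BS k (fw P)) (ψ ∘ₗ (BS k (fw P)).st z)
  have hsupp : ∀ e, (BS k (fw P)).pr e ≠ z → f.1 e = 0 :=
    fun e he => WRADC_supp (BS k (fw P)) z ψ f hf e he
  have hdeg := rep_deg (BS k (fw P)) (-((nZ P : ℤ) + 1)) f (by
    intro j x hx
    refine ⟨ψ ((BS k (fw P)).st z x), ?_, hf x⟩
    have h1 := hψ1 j ((BS k (fw P)).st z x) (by
      intro e
      show (if (BS k (fw P)).pr e = z then x.1 e else 0) ∈ HZ k n j
      by_cases he : (BS k (fw P)).pr e = z
      · rw [if_pos he]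
        exact hx e
      · rw [if_neg he]
        exact (HZ k n j).zero_mem)
    rw [← sub_eq_add_neg]
    exact h1)
  have hD : -((nZ P : ℤ) + 1) + (BS k (fw P)).D = 1 + len z := by
    rw [BS_D, hl]
    push_cast
    ring
  rw [hD] at hdeg
  obtain ⟨s, hs, hfs⟩ := WCOS_div (BS k (fw P)) z 1 f.1 ⟨f.2, hsupp⟩ hdeg
  obtain ⟨x, hx⟩ := st_surj (BS k (fw P)).toBim z ⟨_, hu⟩
  have h2 := hf x
  have h3 : (ψ ∘ₗ (BS k (fw P)).st z) x = 1 := by
    rw [LinearMap.comp_apply, hx]
    exact hψ2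
  rw [h3] at h2
  have h4 : tau (BS k (fw P)).eul (fun e => io (piz z * NZ k P e * g e * s e)) = io (C (1 : k)) := by
    rw [MvPolynomial.C_1, ← h2]
    congr 1
    funext e
    congr 1
    by_cases he : (BS k (fw P)).pr e = z
    · have h5 : (if (BS k (fw P)).pr e = z then x.1 e else 0) = NZ k P e * g e :=
        congrFun (congrArg Subtype.val hx) e
      rw [if_pos he] at h5
      have h6 : f.1 e = piz z * s e := congrFun hfs e
      rw [h5, h6]
      ring
    · have h6 : f.1 e = piz z * s e := congrFun hfs e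
      rw [hsupp e he] at h6
      rw [hsupp e he]
      rw [zero_mul]
      calc piz z * NZ k P e * g e * s e = (NZ k P e * g e) * (piz z * s e) := by ring
        _ = 0 := by rw [← h6, mul_zero]
  have h7 := WRAD_ev (BS k (fw P)) ξ (WEUL_eval_ne (WPTS_fw_ge hP) ξ hξ) _ 1 h4
  have h8 : bform ξ P z g s = 0 := h s hs
  have h9 : bform ξ P z g s = 1 := h7
  rw [h8] at h9
  exact zero_ne_one h9

end

end Pool.Agent.PCan
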