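import Pool.Agent.PCan.WRadB
import Pool.Agent.PCan.WRadC
import Pool.Agent.PCan.WLiftC

/-! MODULE WRANKA : the local multiplicity is the codimension of the radical. -/

open MvPolynomial

namespace Pool.Agent.PCan

noncomputable section

variable {k : Type} [Field k] {n : ℕ}

/-- transport of a function on the points of the block word, zero elsewhere -/
private def wrkExt (P : Pat n) (g : (BS k (fw P)).X → R k n) : (BS k (wd P)).X → R k n :=
  Function.extend (emb k P) (fun e => NZ k P e * g e) (fun _ => 0)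

private lemma wrkExt_emb (P : Pat n) (g : (BS k (fw P)).X → R k n) (e : (BS k (fw P)).X) :
    wrkExt P g (emb k P e) = NZ k P e * g e := by
  unfold wrkExt
  rw [(WPTS_emb_inj P).extend_apply]

private lemma wrkExt_out (P : Pat n) (g : (BS k (fw P)).X → R k n) (x : (BS k (wd P)).X)
    (hx : ¬ ∃ e, emb k P e = x) : wrkExt P g x = 0 := by
  unfold wrkExt
  rw [Function.extend_apply' _ _ _ hx]

private lemma wrk_stalk_supp {M : Bim k n} {z : W n} {s : M.X → R k n} (hs : s ∈ M.stalk z)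
    (e : M.X) (he : M.pr e ≠ z) : s e = 0 := by
  obtain ⟨m, _, rfl⟩ := hs
  show (if M.pr e = z then m e else 0) = 0
  rw [if_neg he]

private lemma wrkExt_supp {a : ℕ} {P : Pat n} (hP : Ok a P) {z : W n}
    {g : (BS k (fw P)).X → R k n} (hg : g ∈ (BS k (fw P)).stalk z) :
    ∀ x, (BS k (wd P)).pr x ≠ up P * z → wrkExt P g x = 0 := by
  intro x hx
  by_cases h : ∃ e, emb k P e = x
  · obtain ⟨e, rfl⟩ := h
    rw [wrkExt_emb]
    rw [WPTS_pr_emb hP] at hx
    have h1 : (BS k (fw P)).pr e ≠ z := fun h2 => hx (by rw [h2])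
    rw [wrk_stalk_supp hg e h1, mul_zero]
  · exact wrkExt_out P g x h

/-- `V := dg (stalk z) 1`; `g ↦ (NZ g` transported by `emb`, zero elsewhere`)` maps `V` onto
`lift (nZ + 1)` (`WLIFT_iff`); the preimage of `R_+ stalk` is the radical (`WLIFT_Rp`, `WRAD_mp`,
`WRAD_mpr`). -/
theorem WRANK_rad {a : ℕ} {P : Pat n} (hP : Ok a P) {z : W n} (hz : IsTop a z)
    (hl : (fw P).length = len z + nZ P + 2) (ξ : Fin (n + 1) → k)
    (hξ : ∀ p q : Fin (n + 1), a ≤ (p : ℕ) → a ≤ (q : ℕ) → ξ p = ξ q → p = q)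
    (rad : Submodule k ↥(dg ((BS k (fw P)).stalk z) 1))
    (hrad : ∀ g, g ∈ rad ↔ ∀ g' : ↥(dg ((BS k (fw P)).stalk z) 1), bform ξ P z g.1 g'.1 = 0) :
    (BS k (wd P)).mult (up P * z) (nZ P + 1) =
      Module.finrank k (↥(dg ((BS k (fw P)).stalk z) 1) ⧸ rad) := by
  have hmem : ∀ g : ↥(dg ((BS k (fw P)).stalk z) 1),
      wrkExt P g.1 ∈ (BS k (wd P)).lift (up P * z) ((nZ P : ℤ) + 1) := by
    intro g
    have h1 := (WLIFT_iff hP hz 1 (wrkExt P g.1) (wrkExt_supp hP g.2.1)).mpr
      ⟨g.1, g.2, fun e => wrkExt_emb P g.1 e⟩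
    rw [add_comm (1 : ℤ) (nZ P : ℤ)] at h1
    exact h1
  let φ : ↥(dg ((BS k (fw P)).stalk z) 1) →ₗ[k]
      ↥((BS k (wd P)).lift (up P * z) ((nZ P : ℤ) + 1)) :=
    { toFun := fun g => ⟨wrkExt P g.1, hmem g⟩
      map_add' := by
        intro g g'
        apply Subtype.ext
        funext x
        show wrkExt P (g.1 + g'.1) x = wrkExt P g.1 x + wrkExt P g'.1 x
        by_cases h : ∃ e, emb k P e = x
        · obtain ⟨e, rfl⟩ := h
          rw [wrkExt_emb, wrkExt_emb, wrkExt_emb, Pi.add_apply, mul_add]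
        · rw [wrkExt_out P _ x h, wrkExt_out P _ x h, wrkExt_out P _ x h, add_zero]
      map_smul' := by
        intro c g
        apply Subtype.ext
        funext x
        show wrkExt P (c • g.1) x = c • wrkExt P g.1 x
        by_cases h : ∃ e, emb k P e = x
        · obtain ⟨e, rfl⟩ := h
          rw [wrkExt_emb, wrkExt_emb, Pi.smul_apply, mul_smul_comm]
        · rw [wrkExt_out P _ x h, wrkExt_out P _ x h, smul_zero] }
  have hsurj : Function.Surjective φ := by
    rintro ⟨m, hm⟩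
    have hsupp : ∀ e, (BS k (wd P)).pr e ≠ up P * z → m e = 0 :=
      fun e he => wrk_stalk_supp hm.1.1 e he
    have hm2 := hm
    rw [add_comm (nZ P : ℤ) (1 : ℤ)] at hm2
    obtain ⟨g, hg, hge⟩ := (WLIFT_iff hP hz 1 m hsupp).mp hm2
    refine ⟨⟨g, hg⟩, ?_⟩
    apply Subtype.ext
    funext x
    show wrkExt P g x = m x
    by_cases h : ∃ e, emb k P e = x
    · obtain ⟨e, rfl⟩ := h
      rw [wrkExt_emb, hge e]
    · rw [wrkExt_out P _ x h]
      by_cases hx : (BS k (wd P)).pr x = up P * z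
      · obtain ⟨e', he', _⟩ := (WFOR_over hP hz x).mp hx
        exact absurd ⟨e', he'⟩ h
      · exact (hsupp x hx).symm
  let N : Submodule k ↥((BS k (wd P)).lift (up P * z) ((nZ P : ℤ) + 1)) :=
    (dg (Rp k n • (BS k (wd P)).stalk (up P * z)) ((nZ P : ℤ) + 1)).comap
      ((BS k (wd P)).lift (up P * z) ((nZ P : ℤ) + 1)).subtype
  have hsurj2 : Function.Surjective (N.mkQ.comp φ) := by
    rw [LinearMap.coe_comp]
    exact (Submodule.mkQ_surjective N).comp hsurj
  have hker : LinearMap.ker (N.mkQ.comp φ) = rad := by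
    ext g
    rw [LinearMap.mem_ker, LinearMap.comp_apply, Submodule.mkQ_apply,
      Submodule.Quotient.mk_eq_zero, hrad]
    have h1 : φ g ∈ N ↔ wrkExt P g.1 ∈ Rp k n • (BS k (wd P)).stalk (up P * z) := by
      constructor
      · intro h
        exact h.1
      · intro h
        exact ⟨h, (hmem g).1.2⟩
    rw [h1, WLIFT_Rp hP hz _ (wrkExt_supp hP g.2.1)]
    have h2 : (fun e => wrkExt P g.1 (emb k P e)) = fun e => NZ k P e * g.1 e := by
      funext e
      exact wrkExt_emb P g.1 e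
    rw [h2]
    constructor
    · intro h g'
      exact WRAD_mp hP hz hl ξ hξ g.1 g.2 h g'.1 g'.2
    · intro h
      exact WRAD_mpr hP hz hl ξ hξ g.1 g.2 (fun g' hg' => h ⟨g', hg'⟩)
  have e1 := (Submodule.quotEquivOfEq _ _ hker).symm.trans
    (LinearMap.quotKerEquivOfSurjective _ hsurj2)
  exact e1.finrank_eq.symm

end

end Pool.Agent.PCan
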